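import Mathlib

/-! Chebyshev's inequality for finitely many independent samples, by counting. -/

set_option autoImplicit false

open Finset

namespace Pool.Agent.Lib.H2

/-- The average over all families of the product of two samples of a centred function. -/
private theorem sum_pair {D : Type} [Fintype D] [DecidableEq D] (M : ℕ) (g : D → ℝ)
    (hg : ∑ d, g d = 0) (i j : Fin M) (hij : i ≠ j) :
    ∑ c : Fin M → D, g (c i) * g (c j) = 0 := by
  have h := Finset.prod_univ_sum (fun _ : Fin M => (univ : Finset D))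
    (fun k d => (if k = i then g d else 1) * (if k = j then g d else 1))
  have h1 : ∏ k : Fin M, ∑ d ∈ (univ : Finset D), ((if k = i then g d else 1) * (if k = j then g d else 1)) = 0 := by
    refine Finset.prod_eq_zero (Finset.mem_univ i) ?_
    simp only [if_true, if_neg hij, mul_one]
    exact hg
  rw [h1, Fintype.piFinset_univ] at h
  rw [h]
  refine Finset.sum_congr rfl fun c _ => ?_
  rw [Finset.prod_mul_distrib, Finset.prod_ite_eq' univ i (fun k => g (c k)),
    Finset.prod_ite_eq' univ j (fun k => g (c k)), if_pos (Finset.mem_univ _), if_pos (Finset.mem_univ _)]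

/-- The average over all families of the square of one sample. -/
private theorem sum_diag {D : Type} [Fintype D] [DecidableEq D] [Nonempty D] (M : ℕ) (g : D → ℝ) (μ : ℝ)
    (hg : ∑ d, g d ^ 2 ≤ (Fintype.card D : ℝ) * μ) (i : Fin M) :
    ∑ c : Fin M → D, g (c i) ^ 2 ≤ (Fintype.card D : ℝ) ^ M * μ := by
  have h := Finset.prod_univ_sum (fun _ : Fin M => (univ : Finset D))
    (fun k d => (if k = i then g d ^ 2 else 1))
  have h1 : ∏ k : Fin M, ∑ d ∈ (univ : Finset D), (if k = i then g d ^ 2 else 1) ≤ (Fintype.card D : ℝ) ^ M * μ := by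
    calc ∏ k : Fin M, ∑ d ∈ (univ : Finset D), (if k = i then g d ^ 2 else 1)
        ≤ ∏ k : Fin M, (Fintype.card D : ℝ) * (if k = i then μ else 1) := by
          refine Finset.prod_le_prod (fun k _ => ?_) fun k _ => ?_
          · refine Finset.sum_nonneg fun d _ => ?_
            split_ifs
            · exact sq_nonneg _
            · exact zero_le_one
          · by_cases hk : k = i
            · simp only [if_pos hk]
              exact hg
            · simp only [if_neg hk, mul_one, Finset.sum_const, Finset.card_univ, nsmul_eq_mul]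
              exact le_rfl
      _ = (Fintype.card D : ℝ) ^ M * μ := by
          rw [Finset.prod_mul_distrib, Finset.prod_const, Finset.card_univ, Fintype.card_fin,
            Finset.prod_ite_eq' univ i (fun _ => μ), if_pos (Finset.mem_univ _)]
  rw [h, Fintype.piFinset_univ] at h1
  refine le_trans (le_of_eq ?_) h1
  refine Finset.sum_congr rfl fun c _ => ?_
  rw [Finset.prod_ite_eq' univ i (fun k => g (c k) ^ 2), if_pos (Finset.mem_univ _)]

/-- The second moment of the sum of the centred samples. -/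
private theorem sum_sq_le {D : Type} [Fintype D] [DecidableEq D] [Nonempty D] (M : ℕ) (I : Finset (Fin M))
    (f : D → ℝ) (hf : ∀ d, 0 ≤ f d ∧ f d ≤ 1) (μ : ℝ)
    (hμ : μ = (∑ d, f d) / (Fintype.card D : ℝ)) :
    ∑ c : Fin M → D, (∑ i ∈ I, (f (c i) - μ)) ^ 2 ≤ (Fintype.card D : ℝ) ^ M * ((I.card : ℝ) * μ) := by
  have hq : (0 : ℝ) < (Fintype.card D : ℝ) := by exact_mod_cast Fintype.card_pos
  have hs : ∑ d, f d = (Fintype.card D : ℝ) * μ := by
    rw [hμ, mul_div_cancel₀ _ hq.ne']
  have h0 : ∑ d, (f d - μ) = 0 := by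
    rw [Finset.sum_sub_distrib, Finset.sum_const, Finset.card_univ, nsmul_eq_mul, hs, sub_self]
  have h2 : ∑ d, (f d - μ) ^ 2 ≤ (Fintype.card D : ℝ) * μ := by
    have h3 : ∑ d, (f d - μ) ^ 2 = ∑ d, f d ^ 2 - (Fintype.card D : ℝ) * μ ^ 2 := by
      have h4 : ∀ d, (f d - μ) ^ 2 = f d ^ 2 - 2 * μ * f d + μ ^ 2 := fun d => by ring
      rw [Finset.sum_congr rfl fun d _ => h4 d, Finset.sum_add_distrib, Finset.sum_sub_distrib, ← Finset.mul_sum, hs,
        Finset.sum_const, Finset.card_univ, nsmul_eq_mul]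
      ring
    have h5 : ∑ d, f d ^ 2 ≤ ∑ d, f d := Finset.sum_le_sum fun d _ => by
      have := hf d
      nlinarith
    rw [h3]
    have h6 : 0 ≤ (Fintype.card D : ℝ) * μ ^ 2 := by positivity
    linarith
  calc ∑ c : Fin M → D, (∑ i ∈ I, (f (c i) - μ)) ^ 2
      = ∑ i ∈ I, ∑ j ∈ I, ∑ c : Fin M → D, (f (c i) - μ) * (f (c j) - μ) := by
        rw [Finset.sum_comm' (s := I) (t := fun _ => I) (t' := I) (s' := fun _ => I)
          (fun x y => by tauto)]
        rw [Finset.sum_congr rfl fun j _ => Finset.sum_comm]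
        rw [Finset.sum_comm]
        refine Finset.sum_congr rfl fun c _ => ?_
        rw [sq, Finset.sum_mul_sum, Finset.sum_comm]
    _ ≤ ∑ i ∈ I, (Fintype.card D : ℝ) ^ M * μ := by
        refine Finset.sum_le_sum fun i hi => ?_
        rw [← Finset.add_sum_erase I _ hi]
        have h7 : ∑ j ∈ I.erase i, ∑ c : Fin M → D, (f (c i) - μ) * (f (c j) - μ) = 0 :=
          Finset.sum_eq_zero fun j hj => sum_pair M (fun d => f d - μ) h0 i j (Finset.ne_of_mem_erase hj).symm
        rw [h7, add_zero]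
        have h8 := sum_diag M (fun d => f d - μ) μ h2 i
        refine le_trans (le_of_eq ?_) h8
        exact Finset.sum_congr rfl fun c _ => (sq _).symm
    _ = (Fintype.card D : ℝ) ^ M * ((I.card : ℝ) * μ) := by
        rw [Finset.sum_const, nsmul_eq_mul]
        ring

/-- Chebyshev: `c` runs through all families of `M` samples, `I` is the set of samples used. -/
theorem cheb {D : Type} [Fintype D] [DecidableEq D] [Nonempty D] (M : ℕ) (I : Finset (Fin M))
    (f : D → ℝ) (hf : ∀ d, 0 ≤ f d ∧ f d ≤ 1) (μ : ℝ)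
    (hμ : μ = (∑ d, f d) / (Fintype.card D : ℝ)) (δ : ℝ) (hδ : 0 < δ) :
    (((univ : Finset (Fin M → D)).filter fun c =>
      δ * ((I.card : ℝ) * μ) < |∑ i ∈ I, f (c i) - (I.card : ℝ) * μ|).card : ℝ) *
      (δ ^ 2 * ((I.card : ℝ) * μ)) ≤ (Fintype.card D : ℝ) ^ M := by
  classical
  have hq : (0 : ℝ) < (Fintype.card D : ℝ) := by exact_mod_cast Fintype.card_pos
  have hμ0 : 0 ≤ μ := by
    rw [hμ]
    exact div_nonneg (Finset.sum_nonneg fun d _ => (hf d).1) hq.le
  have hV := sum_sq_le M I f hf μ hμ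
  have hS : ∀ c : Fin M → D, ∑ i ∈ I, f (c i) - (I.card : ℝ) * μ = ∑ i ∈ I, (f (c i) - μ) := by
    intro c
    rw [Finset.sum_sub_distrib, Finset.sum_const, nsmul_eq_mul]
  have hA : 0 ≤ (I.card : ℝ) * μ := mul_nonneg (Nat.cast_nonneg _) hμ0
  rcases hA.eq_or_lt with hA0 | hA1
  · rw [← hA0]
    simp only [mul_zero]
    positivity
  · have h1 : (((univ : Finset (Fin M → D)).filter fun c =>
        δ * ((I.card : ℝ) * μ) < |∑ i ∈ I, f (c i) - (I.card : ℝ) * μ|).card : ℝ) *
        (δ * ((I.card : ℝ) * μ)) ^ 2 ≤ ∑ c : Fin M → D, (∑ i ∈ I, (f (c i) - μ)) ^ 2 := by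
      rw [← nsmul_eq_mul, ← Finset.sum_const]
      refine (Finset.sum_le_sum fun c hc => ?_).trans
        (Finset.sum_le_sum_of_subset_of_nonneg (Finset.filter_subset _ _) fun c _ _ => sq_nonneg _)
      have h2 := (Finset.mem_filter.1 hc).2
      rw [← hS c, ← sq_abs (∑ i ∈ I, f (c i) - (I.card : ℝ) * μ)]
      have h3 : 0 ≤ δ * ((I.card : ℝ) * μ) := mul_nonneg hδ.le hA
      exact pow_le_pow_left₀ h3 h2.le 2
    have h4 := h1.trans hV
    refine le_of_mul_le_mul_right ?_ hA1
    refine le_trans (le_of_eq ?_) h4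
    ring

/-- the digits of a number in base `b` -/
def digs (b ω i : ℕ) : ℕ := ω / b ^ i % b

/-- Sums over numbers below `b ^ M` as sums over digits, in any commutative monoid. -/
private theorem sum_digs_gen {R : Type} [AddCommMonoid R] (b M : ℕ) (hb : 0 < b) (Q : (Fin M → Fin b) → R)
    (Q' : ℕ → R) (h : ∀ ω < b ^ M, Q' ω = Q fun i => ⟨digs b ω i, Nat.mod_lt _ hb⟩) :
    ∑ ω ∈ range (b ^ M), Q' ω = ∑ c : Fin M → Fin b, Q c := by
  rw [Finset.sum_range]
  refine Fintype.sum_equiv finFunctionFinEquiv.symm _ _ fun ω => ?_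
  rw [h ω ω.2]
  rfl

/-- Counting numbers below `b ^ M` by their digits. -/
theorem count_digs (b M : ℕ) (hb : 0 < b) (Q : (Fin M → Fin b) → Prop) [DecidablePred Q]
    (Q' : ℕ → Prop) [DecidablePred Q']
    (h : ∀ ω < b ^ M, Q' ω ↔ Q fun i => ⟨digs b ω i, Nat.mod_lt _ hb⟩) :
    ((range (b ^ M)).filter Q').card = ((univ : Finset (Fin M → Fin b)).filter Q).card := by
  rw [Finset.card_filter, Finset.card_filter]
  refine sum_digs_gen b M hb _ _ fun ω hω => ?_
  by_cases hQ : Q' ω
  · rw [if_pos hQ, if_pos ((h ω hω).1 hQ)]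
  · rw [if_neg hQ, if_neg fun h' => hQ ((h ω hω).2 h')]

/-- Averages over numbers below `b ^ M` as averages over digits. -/
theorem sum_digs (b M : ℕ) (hb : 0 < b) (Q : (Fin M → Fin b) → ℝ)
    (Q' : ℕ → ℝ) (h : ∀ ω < b ^ M, Q' ω = Q fun i => ⟨digs b ω i, Nat.mod_lt _ hb⟩) :
    ∑ ω ∈ range (b ^ M), Q' ω = ∑ c : Fin M → Fin b, Q c := by
  exact sum_digs_gen b M hb Q Q' h

end Pool.Agent.Lib.H2
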