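import Pool.Agent.Lib.PTC.Def
import Pool.Agent.Lib.MP_3493b8_lc.Cheb

/-! The algorithm as functions of natural numbers.  Edge sets and vertex sets are bit masks, the
layers are the digits of a number, the random number `ω` is read by its digits. -/

set_option autoImplicit false

open Finset

namespace Pool.Agent.Lib.H2

open Pool.Agent.Lib.PTC

section input

variable (x : List ℤ)

/-- number of vertices -/
def nn : ℕ := inp x 0
/-- number of edges -/
def mm : ℕ := inp x 1
/-- precision -/
def NN : ℕ := inp x 2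
/-- first end of the edge `i` -/
def eu (i : ℕ) : ℕ := inp x (3 + 2 * i)
/-- second end of the edge `i` -/
def ev (i : ℕ) : ℕ := inp x (4 + 2 * i)

end input

/-- switch the bit `i` -/
def tog (A i : ℕ) : ℕ := if A.testBit i = true then A - 2 ^ i else A + 2 ^ i

section chain

variable (x : List ℤ)

def incN (i v : ℕ) : ℕ := (if eu x i = v then 1 else 0) + (if ev x i = v then 1 else 0)

/-- parity of the boundary of `A` at `v` -/
def bdN (A v : ℕ) : ℕ := (∑ i ∈ range (mm x), if A.testBit i = true then incN x i v else 0) % 2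

/-- number of vertices at which the boundary of `A` differs from `T` -/
def defN (T A : ℕ) : ℕ :=
  ∑ v ∈ range (nn x), if bdN x A v = (if T.testBit v = true then 1 else 0) then 0 else 1

/-- range of the edge proposals, a power of two -/
def kE : ℕ := 2 ^ Nat.size (mm x)

/-- range of the acceptance numbers, a power of two -/
def kU (q : ℕ) : ℕ := 2 ^ (Nat.size q + 1)

/-- one step of the chain -/
def stepN (p q F T j d A : ℕ) : ℕ :=
  if d % kE x < mm x ∧ F.testBit (d % kE x) = false ∧ defN x T (tog A (d % kE x)) ≤ 2 ∧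
      d / kE x < (if A.testBit (d % kE x) = false ∧ d % kE x < j then p else q) then
    tog A (d % kE x)
  else A

/-- `t` steps of the chain, driven by the digits of `r` -/
def runN (p q F T j t r A : ℕ) : ℕ :=
  itr (fun i B => stepN x p q F T j (digs (kE x * kU q) r i) B) A t

/-- the sample number `i` (a run of `t` steps with the digit `i` of `ω` in base `(kE * kU)^t`) -/
def smpN (p q F T A j t ω i : ℕ) : ℕ :=
  runN x p q F T j t (digs ((kE x * kU q) ^ t) ω i) A

/-- number of samples `o, …, o + s - 1` in the base class -/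
def cntU (p q F T A j t s o ω : ℕ) : ℕ :=
  ∑ i ∈ range s, if defN x T (smpN x p q F T A j t ω (o + i)) = 0 then 1 else 0

/-- number of these samples which contain the edge `j` -/
def cntB (p q F T A j t s o ω : ℕ) : ℕ :=
  ∑ i ∈ range s, if defN x T (smpN x p q F T A j t ω (o + i)) = 0 ∧
    (smpN x p q F T A j t ω (o + i)).testBit j = true then 1 else 0

/-- numerator of the estimate of the telescoping product for the part `a` -/
def numX (p q F T A t s a ω : ℕ) : ℕ :=
  ∏ j ∈ range (mm x), (q * (cntU x p q F T A j t s ((a * mm x + j) * s) ω -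
    cntB x p q F T A j t s ((a * mm x + j) * s) ω) +
      p * cntB x p q F T A j t s ((a * mm x + j) * s) ω)

/-- its denominator -/
def denX (p q F T A t s a ω : ℕ) : ℕ :=
  ∏ j ∈ range (mm x), (q * cntU x p q F T A j t s ((a * mm x + j) * s) ω)

end chain

section parts

variable (x : List ℤ)

/-- number of elements of `F` below `i` -/
def belowN (F i : ℕ) : ℕ := ∑ k ∈ range i, if F.testBit k = true then 1 else 0

/-- number of elements of `F` -/
def sizeN (F : ℕ) : ℕ := belowN F (mm x)

/-- the subset of `F` with number `a` -/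
def subN (F a : ℕ) : ℕ :=
  ∑ i ∈ range (mm x), if F.testBit i = true ∧ a.testBit (belowN F i) = true then 2 ^ i else 0

/-- the boundary of `A` as a mask -/
def mkT (A : ℕ) : ℕ := ∑ v ∈ range (nn x), bdN x A v * 2 ^ v

/-- the layer of `v` (digits in base `n + 2`) -/
def layN (Ly v : ℕ) : ℕ := Ly / (nn x + 2) ^ v % (nn x + 2)

/-- the least `i < t` with `P i`, and `t` if there is none -/
def srch (P : ℕ → Prop) [DecidablePred P] (t : ℕ) : ℕ :=
  itr (fun i b => if b = t ∧ P i then i else b) t t

/-- the edge to the previous layer -/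
def parN (Ly F v : ℕ) : ℕ :=
  srch (fun i => F.testBit i = false ∧ ((eu x i = v ∧ layN x Ly (ev x i) + 1 = layN x Ly v) ∨
    (ev x i = v ∧ layN x Ly (eu x i) + 1 = layN x Ly v))) (mm x)

/-- the other end -/
def othN (i v : ℕ) : ℕ := if eu x i = v then ev x i else eu x i

/-- is the edge `i` on the path from `v` to its root? (number of uses) -/
def pathN (Ly F v i : ℕ) : ℕ :=
  (itr (fun _ (c : ℕ × ℕ) => if 2 ≤ layN x Ly c.1 then
    (othN x (parN x Ly F c.1) c.1, c.2 + (if parN x Ly F c.1 = i then 1 else 0)) else c)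
    (v, 0) (nn x)).2

/-- the start state for the part `X` of `F` -/
def startN (Ly F X : ℕ) : ℕ :=
  ∑ i ∈ range (mm x), (((if F.testBit i = true then 0 else 1) +
    ∑ f ∈ range (mm x), if F.testBit f = true ∧ X.testBit f = false then
      pathN x Ly F (eu x f) i + pathN x Ly F (ev x f) i else 0) % 2) * 2 ^ i

end parts

section clusters

variable (x : List ℤ)

/-- one more layer around `b`, among the vertices without layer -/
def growN (Ly b : ℕ) : ℕ :=
  ∑ v ∈ range (nn x), if b.testBit v = true ∨ (layN x Ly v = 0 ∧ ∃ i < mm x,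
    (eu x i = v ∧ b.testBit (ev x i) = true) ∨ (ev x i = v ∧ b.testBit (eu x i) = true)) then
      2 ^ v else 0

/-- the ball of radius `h` around `r` -/
def ballN (Ly r h : ℕ) : ℕ := itr (fun _ b => growN x Ly b) (2 ^ r) h

/-- edges inside the ball -/
def dinN (b : ℕ) : ℕ :=
  ∑ i ∈ range (mm x), if b.testBit (eu x i) = true ∧ b.testBit (ev x i) = true then 1 else 0

/-- does the edge `i` leave the ball? -/
def CutN (Ly b i : ℕ) : Prop :=
  (b.testBit (eu x i) = true ∧ b.testBit (ev x i) = false ∧ layN x Ly (ev x i) = 0) ∨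
    (b.testBit (ev x i) = true ∧ b.testBit (eu x i) = false ∧ layN x Ly (eu x i) = 0)

instance (Ly b i : ℕ) : Decidable (CutN x Ly b i) := by unfold CutN; infer_instance

/-- edges leaving the ball -/
def dlN (Ly b : ℕ) : ℕ := ∑ i ∈ range (mm x), if CutN x Ly b i then 1 else 0

/-- the radius of the cluster around `r` -/
def radN (B L Ly r : ℕ) : ℕ :=
  if srch (fun h => dlN x Ly (ballN x Ly r h) = 0) (B + 1) ≤ B then
    srch (fun h => dlN x Ly (ballN x Ly r h) = 0) (B + 1)
  else srch (fun h => dlN x Ly (ballN x Ly r h) * B ≤ L * (1 + dinN x (ballN x Ly r h))) (B + 1)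

/-- the next cluster -/
def nextN (B L r : ℕ) (c : ℕ × ℕ) : ℕ × ℕ :=
  if layN x c.1 r = 0 then
    (c.1 + ∑ v ∈ range (nn x), if (ballN x c.1 r (radN x B L c.1 r)).testBit v = true then
        (1 + srch (fun h => (ballN x c.1 r h).testBit v = true) (radN x B L c.1 r + 1)) *
          (nn x + 2) ^ v else 0,
      c.2 + ∑ i ∈ range (mm x), if CutN x c.1 (ballN x c.1 r (radN x B L c.1 r)) i then
        2 ^ i else 0)
  else c

/-- the cluster decomposition: layers and cut edges -/
def cluN (B L : ℕ) : ℕ × ℕ := itr (fun r c => nextN x B L r c) (0, 0) (nn x)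

/-- number of vertices of layer one -/
def rootsN (Ly : ℕ) : ℕ := ∑ v ∈ range (nn x), if layN x Ly v = 1 then 1 else 0

/-- maximal layer -/
def maxLay (Ly : ℕ) : ℕ := itr (fun v b => max b (layN x Ly v)) 0 (nn x)

end clusters

section main

variable (x : List ℤ)

def LL : ℕ := Nat.size (mm x + 1)
def BB : ℕ := Nat.sqrt (mm x * LL x) + LL x + 1

/-- layers and cut edges used by the algorithm -/
def lyA : ℕ := (cluN x (BB x) (LL x)).1
def fA : ℕ := (cluN x (BB x) (LL x)).2
/-- layers of the components -/
def lyC : ℕ := (cluN x (nn x) (LL x)).1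

/-- radius of the clusters -/
def rA : ℕ := maxLay x (lyA x) - 1
/-- number of cut edges -/
def kA : ℕ := sizeN x (fA x)
/-- nullity of the graph -/
def nul : ℕ := mm x - (nn x - rootsN x (lyC x))
def S1 : ℕ := nn x + mm x + NN x + 2

/-- number of steps of a run -/
def tPar (q : ℕ) : ℕ :=
  (2 * mm x * ((nn x + 1) ^ 2 * q ^ (4 * rA x)) * (kE x * kU q) + 1) * (30 * q * S1 x * (rA x + 1))

/-- number of samples for one estimate -/
def sPar (q : ℕ) : ℕ := 2 ^ 20 * 2 ^ kA x * S1 x ^ 7 * q ^ (4 * rA x + 1)

/-- number of coin flips -/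
def bits (q : ℕ) : ℕ :=
  (Nat.size (mm x) + (Nat.size q + 1)) * tPar x q * (2 ^ kA x * mm x * sPar x q)

/-- contribution of the subset `X` of the cut edges, in fixed point format -/
def termN (p q b K a ω : ℕ) : ℕ :=
  if defN x (mkT x (2 ^ mm x - 1 - subN x (fA x) a)) (startN x (lyA x) (fA x) (subN x (fA x) a)) = 0
  then
    K ^ S1 x * q ^ nul x * p ^ sizeN x (subN x (fA x) a) * 2 ^ (mm x + rootsN x (lyA x)) *
        numX x p q (fA x) (mkT x (2 ^ mm x - 1 - subN x (fA x) a))
          (startN x (lyA x) (fA x) (subN x (fA x) a)) (tPar x q) (sPar x q) a ω /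
      ((2 * b) ^ nul x * q ^ sizeN x (subN x (fA x) a) * 2 ^ (kA x + nn x) *
        denX x p q (fA x) (mkT x (2 ^ mm x - 1 - subN x (fA x) a))
          (startN x (lyA x) (fA x) (subN x (fA x) a)) (tPar x q) (sPar x q) a ω)
  else 0

/-- the output: sign and absolute value -/
def outN (p q b K ω : ℕ) : ℕ × ℕ :=
  (nul x % 2, ∑ a ∈ range (2 ^ kA x), termN x p q b K a ω)

/-- the output as an integer -/
def outZ (p q b K ω : ℕ) : ℤ :=
  if (outN x p q b K ω).1 = 0 then ((outN x p q b K ω).2 : ℤ) else -((outN x p q b K ω).2 : ℤ)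

end main

end Pool.Agent.Lib.H2
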