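import Pool.Agent.Lib.MP_3493b8_lc.Defs

/-! Boundaries modulo two, and the sums over edge sets with a given boundary. -/

set_option autoImplicit false

open Finset

namespace Pool.Agent.Lib.H2

namespace MGraph

variable (G : MGraph)

/-- The boundary of an edge set modulo two. -/
def bd (A : Finset (Fin G.m)) : Fin G.n → ZMod 2 :=
  ∑ i ∈ A, (Pi.single (G.e i).1 1 + Pi.single (G.e i).2 1)

theorem bd_empty : G.bd ∅ = 0 := by simp [bd]

theorem bd_singleton (i : Fin G.m) :
    G.bd {i} = Pi.single (G.e i).1 1 + Pi.single (G.e i).2 1 := by simp [bd]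

theorem zmod_add_self (v : Fin G.n → ZMod 2) : v + v = 0 := by
  funext i
  exact CharTwo.add_self_eq_zero (v i)

theorem bd_symmDiff (A B : Finset (Fin G.m)) : G.bd (symmDiff A B) = G.bd A + G.bd B := by
  have h1 : ∀ C D : Finset (Fin G.m), Disjoint C D → G.bd (C ∪ D) = G.bd C + G.bd D := by
    intro C D h
    unfold bd
    exact Finset.sum_union h
  have h2 : symmDiff A B = (A \ B) ∪ (B \ A) := rfl
  have h3 : G.bd A = G.bd (A \ B) + G.bd (A ∩ B) := by
    rw [← h1 _ _ (Finset.disjoint_sdiff_inter A B), Finset.sdiff_union_inter]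
  have h4 : G.bd B = G.bd (B \ A) + G.bd (A ∩ B) := by
    rw [← h1 _ _ (by rw [Finset.inter_comm]; exact Finset.disjoint_sdiff_inter B A),
      Finset.inter_comm A B, Finset.sdiff_union_inter]
  rw [h2, h1 _ _ (by
    rw [Finset.disjoint_left]
    intro x hx hx'
    simp only [Finset.mem_sdiff] at hx hx'
    exact hx.2 hx'.1), h3, h4]
  have := G.zmod_add_self (G.bd (A ∩ B))
  calc G.bd (A \ B) + G.bd (B \ A) = G.bd (A \ B) + G.bd (B \ A) + 0 := by rw [add_zero]
    _ = G.bd (A \ B) + G.bd (B \ A) + (G.bd (A ∩ B) + G.bd (A ∩ B)) := by rw [this]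
    _ = _ := by abel

/-- The sum of the weights of the edge sets `A` which avoid `F` and have boundary `T`. -/
noncomputable def Zs (F : Finset (Fin G.m)) (w : Fin G.m → ℝ) (T : Fin G.n → ZMod 2) : ℝ :=
  ∑ A : Finset (Fin G.m), if Disjoint A F ∧ G.bd A = T then ∏ i ∈ A, w i else 0

end MGraph

end Pool.Agent.Lib.H2
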