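import Pool.Agent.Lib.MP_3493b8_lc.CluF
import Pool.Agent.Lib.PTC.Prob

/-! Bounds for the size parameter of the algorithm. -/

set_option autoImplicit false

open Finset

namespace Pool.Agent.Lib.H2

open Pool.Agent.Lib.PTC

/-- the size parameter -/
def szA (q : ℕ) (x : List ℤ) : ℕ :=
  nn x + mm x + NN x + tPar x q + sPar x q + 2 ^ kA x + 2

namespace MGraph

private theorem two_pow_size_le {a : ℕ} (ha : 0 < a) : 2 ^ Nat.size a ≤ 2 * a := by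
  have h1 : 0 < Nat.size a := Nat.size_pos.2 ha
  have h2 : 2 ^ (Nat.size a - 1) ≤ a := Nat.lt_size.1 (Nat.sub_lt h1 one_pos)
  have h3 : Nat.size a = (Nat.size a - 1) + 1 := by omega
  rw [h3, pow_succ]
  omega

private theorem kE_le (G : MGraph) (N : ℕ) : kE (G.code N) ≤ 2 * (G.n + G.m + N + 2) := by
  unfold kE
  rw [G.mm_code N]
  rcases Nat.eq_zero_or_pos G.m with h | h
  · rw [h, Nat.size_zero, pow_zero]
    omega
  · have := two_pow_size_le h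
    omega

private theorem kU_le {q : ℕ} (hq : 2 ≤ q) : kU q ≤ 4 * q := by
  unfold kU
  rw [pow_succ]
  have := two_pow_size_le (a := q) (by omega)
  omega

private theorem tPar_le (G : MGraph) (N q : ℕ) (hq : 2 ≤ q) :
    tPar (G.code N) q ≤ 510 * q ^ 2 * (G.n + G.m + N + 2) ^ 5 * (q ^ 5) ^ rA (G.code N) := by
  have hE := kE_le G N
  have hU := kU_le hq
  obtain ⟨r, hr⟩ : ∃ r, r = rA (G.code N) := ⟨_, rfl⟩
  obtain ⟨S, hS⟩ : ∃ S, S = G.n + G.m + N + 2 := ⟨_, rfl⟩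
  obtain ⟨e, he⟩ : ∃ e, e = kE (G.code N) := ⟨_, rfl⟩
  obtain ⟨u, hu⟩ : ∃ u, u = kU q := ⟨_, rfl⟩
  have h0 : tPar (G.code N) q =
      (2 * G.m * ((G.n + 1) ^ 2 * q ^ (4 * r)) * (e * u) + 1) * (30 * q * S * (r + 1)) := by
    rw [hr, hS, he, hu]
    rfl
  rw [h0, ← hS, ← hr]
  rw [← he, ← hS] at hE
  rw [← hu] at hU
  have hq0 : 0 < q := by omega
  have hS0 : 0 < S := by omega
  have hA : 2 * G.m * ((G.n + 1) ^ 2 * q ^ (4 * r)) * (e * u) ≤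
      2 * S * (S ^ 2 * q ^ (4 * r)) * (2 * S * (4 * q)) :=
    Nat.mul_le_mul (Nat.mul_le_mul (by omega)
      (Nat.mul_le_mul_right _ (Nat.pow_le_pow_left (by omega) 2))) (Nat.mul_le_mul hE hU)
  have hB : 1 ≤ q * S ^ 4 * q ^ (4 * r) := Nat.succ_le_of_lt (by positivity)
  have hC : 2 * G.m * ((G.n + 1) ^ 2 * q ^ (4 * r)) * (e * u) + 1 ≤
      17 * (q * S ^ 4 * q ^ (4 * r)) := by
    have h1 : 2 * S * (S ^ 2 * q ^ (4 * r)) * (2 * S * (4 * q)) =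
        16 * (q * S ^ 4 * q ^ (4 * r)) := by ring
    omega
  have hr2 : r + 1 ≤ q ^ r :=
    (Nat.succ_le_of_lt Nat.lt_two_pow_self).trans (Nat.pow_le_pow_left hq r)
  calc (2 * G.m * ((G.n + 1) ^ 2 * q ^ (4 * r)) * (e * u) + 1) * (30 * q * S * (r + 1))
      ≤ 17 * (q * S ^ 4 * q ^ (4 * r)) * (30 * q * S * q ^ r) :=
        Nat.mul_le_mul hC (Nat.mul_le_mul_left _ hr2)
    _ = 510 * q ^ 2 * S ^ 5 * (q ^ 5) ^ r := by
        rw [← pow_mul, show 5 * r = 4 * r + r by ring, pow_add]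
        ring

private theorem sPar_le (G : MGraph) (N q : ℕ) (hq : 2 ≤ q) :
    sPar (G.code N) q ≤ 2 ^ 20 * q * (G.n + G.m + N + 2) ^ 7 *
      (q ^ 5) ^ (kA (G.code N) + rA (G.code N)) := by
  obtain ⟨r, hr⟩ : ∃ r, r = rA (G.code N) := ⟨_, rfl⟩
  obtain ⟨k, hk⟩ : ∃ k, k = kA (G.code N) := ⟨_, rfl⟩
  obtain ⟨S, hS⟩ : ∃ S, S = G.n + G.m + N + 2 := ⟨_, rfl⟩
  have h0 : sPar (G.code N) q = 2 ^ 20 * 2 ^ k * S ^ 7 * q ^ (4 * r + 1) := by
    rw [hr, hS, hk]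
    rfl
  rw [h0, ← hS, ← hr, ← hk]
  have hq1 : 1 ≤ q := by omega
  have h1 : 2 ^ k ≤ (q ^ 5) ^ k :=
    Nat.pow_le_pow_left (hq.trans (Nat.le_self_pow (by norm_num) q)) k
  have h2 : q ^ (4 * r) ≤ (q ^ 5) ^ r := by
    rw [← pow_mul]
    exact Nat.pow_le_pow_right hq1 (by omega)
  calc 2 ^ 20 * 2 ^ k * S ^ 7 * q ^ (4 * r + 1) = 2 ^ 20 * q * S ^ 7 * (2 ^ k * q ^ (4 * r)) := by
        rw [pow_succ]
        ring
    _ ≤ 2 ^ 20 * q * S ^ 7 * ((q ^ 5) ^ k * (q ^ 5) ^ r) :=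
        Nat.mul_le_mul_left _ (Nat.mul_le_mul h1 h2)
    _ = 2 ^ 20 * q * S ^ 7 * (q ^ 5) ^ (k + r) := by rw [← pow_add]

/-- the size parameter in terms of the number of cut edges and the radius -/
theorem szA_le (q : ℕ) (hq : 2 ≤ q) : ∃ C : ℕ, 2 ≤ C ∧ ∀ (G : MGraph) (N : ℕ), 1 ≤ N →
    szA q (G.code N) ≤ (G.n + G.m + N + 2) ^ C * C ^ (kA (G.code N) + rA (G.code N)) := by
  refine ⟨q ^ 5 + 2 * q + 28, by omega, fun G N _ => ?_⟩
  have ht := tPar_le G N q hq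
  have hs := sPar_le G N q hq
  obtain ⟨r, hr⟩ : ∃ r, r = rA (G.code N) := ⟨_, rfl⟩
  obtain ⟨k, hk⟩ : ∃ k, k = kA (G.code N) := ⟨_, rfl⟩
  obtain ⟨S, hS⟩ : ∃ S, S = G.n + G.m + N + 2 := ⟨_, rfl⟩
  obtain ⟨E, hE⟩ : ∃ E, E = (q ^ 5) ^ (k + r) := ⟨_, rfl⟩
  have h0 : szA q (G.code N) = S + tPar (G.code N) q + sPar (G.code N) q + 2 ^ k := by
    have h1 : szA q (G.code N) =
        G.n + G.m + N + tPar (G.code N) q + sPar (G.code N) q + 2 ^ k + 2 := by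
      rw [hk]
      rfl
    rw [h1, hS]
    ring
  rw [h0, ← hS, ← hr, ← hk]
  rw [← hS, ← hr] at ht
  rw [← hS, ← hr, ← hk, ← hE] at hs
  have hq1 : 1 ≤ q := by omega
  have hS2 : 2 ≤ S := by omega
  have hS1 : 1 ≤ S := by omega
  have hq5 : 1 ≤ q ^ 5 := Nat.one_le_pow _ _ hq1
  have hE1 : 1 ≤ E := by
    rw [hE]
    exact Nat.one_le_pow _ _ hq5
  have hq2 : 1 ≤ q ^ 2 := Nat.one_le_pow _ _ hq1
  -- every term is at most `S ^ 7 * q ^ 2 * E`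
  have hrE : (q ^ 5) ^ r ≤ E := by
    rw [hE]
    exact Nat.pow_le_pow_right hq5 (by omega)
  have h1 : S ≤ q ^ 2 * S ^ 7 * E := by
    calc S = 1 * S * 1 := by ring
      _ ≤ q ^ 2 * S ^ 7 * E :=
        Nat.mul_le_mul (Nat.mul_le_mul hq2 (Nat.le_self_pow (by norm_num) S)) hE1
  have h2 : tPar (G.code N) q ≤ 510 * (q ^ 2 * S ^ 7 * E) := by
    refine ht.trans ?_
    calc 510 * q ^ 2 * S ^ 5 * (q ^ 5) ^ r ≤ 510 * q ^ 2 * S ^ 7 * E :=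
          Nat.mul_le_mul (Nat.mul_le_mul_left _ (Nat.pow_le_pow_right hS1 (by norm_num))) hrE
      _ = 510 * (q ^ 2 * S ^ 7 * E) := by ring
  have h3 : sPar (G.code N) q ≤ 2 ^ 20 * (q ^ 2 * S ^ 7 * E) := by
    refine hs.trans ?_
    calc 2 ^ 20 * q * S ^ 7 * E ≤ 2 ^ 20 * q ^ 2 * S ^ 7 * E :=
          Nat.mul_le_mul_right _ (Nat.mul_le_mul_right _
            (Nat.mul_le_mul_left _ (Nat.le_self_pow (by norm_num) q)))
      _ = 2 ^ 20 * (q ^ 2 * S ^ 7 * E) := by ring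
  have h4 : 2 ^ k ≤ q ^ 2 * S ^ 7 * E := by
    have h5 : 2 ^ k ≤ E := by
      rw [hE]
      calc 2 ^ k ≤ (q ^ 5) ^ k :=
            Nat.pow_le_pow_left (hq.trans (Nat.le_self_pow (by norm_num) q)) k
        _ ≤ (q ^ 5) ^ (k + r) := Nat.pow_le_pow_right hq5 (by omega)
    have h6 : 1 ≤ q ^ 2 * S ^ 7 := Nat.succ_le_of_lt (by positivity)
    calc 2 ^ k ≤ 1 * E := by rw [one_mul]; exact h5
      _ ≤ q ^ 2 * S ^ 7 * E := Nat.mul_le_mul_right _ h6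
  have h5 : S + tPar (G.code N) q + sPar (G.code N) q + 2 ^ k ≤
      2 ^ 21 * (q ^ 2 * S ^ 7 * E) := by omega
  refine h5.trans ?_
  have h6 : 2 ^ 21 * q ^ 2 ≤ S ^ (21 + 2 * q) := by
    have h7 : q ^ 2 ≤ 2 ^ (2 * q) := by
      rw [mul_comm, pow_mul]
      exact Nat.pow_le_pow_left Nat.lt_two_pow_self.le 2
    calc 2 ^ 21 * q ^ 2 ≤ 2 ^ 21 * 2 ^ (2 * q) := Nat.mul_le_mul_left _ h7
      _ = 2 ^ (21 + 2 * q) := (pow_add _ _ _).symm
      _ ≤ S ^ (21 + 2 * q) := Nat.pow_le_pow_left hS2 _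
  calc 2 ^ 21 * (q ^ 2 * S ^ 7 * E) = (2 ^ 21 * q ^ 2) * S ^ 7 * E := by ring
    _ ≤ S ^ (21 + 2 * q) * S ^ 7 * E := Nat.mul_le_mul_right _ (Nat.mul_le_mul_right _ h6)
    _ = S ^ (21 + 2 * q + 7) * E := by rw [← pow_add]
    _ ≤ S ^ (q ^ 5 + 2 * q + 28) * (q ^ 5 + 2 * q + 28) ^ (k + r) := by
        refine Nat.mul_le_mul (Nat.pow_le_pow_right hS1 (by omega)) ?_
        rw [hE]
        exact Nat.pow_le_pow_left (by omega) _

/-- the input is valid for the size parameter -/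
theorem szA_valid (G : MGraph) (N q : ℕ) (hN : 1 ≤ N) (hq : 2 ≤ q) :
    2 ≤ szA q (G.code N) ∧ Valid (G.code N) (szA q (G.code N)) := by
  obtain ⟨r, hr⟩ : ∃ r, r = rA (G.code N) := ⟨_, rfl⟩
  have h0 : szA q (G.code N) =
      G.n + G.m + N + tPar (G.code N) q + sPar (G.code N) q + 2 ^ kA (G.code N) + 2 := rfl
  have ht : 30 * (G.m + 2) ≤ tPar (G.code N) q := by
    have h1 : tPar (G.code N) q =
        (2 * G.m * ((G.n + 1) ^ 2 * q ^ (4 * r)) * (kE (G.code N) * kU q) + 1) *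
          (30 * q * (G.n + G.m + N + 2) * (r + 1)) := by
      rw [hr]
      rfl
    rw [h1]
    calc 30 * (G.m + 2) = 1 * (30 * 1 * (G.m + 2) * 1) := by ring
      _ ≤ _ := Nat.mul_le_mul (by omega) (Nat.mul_le_mul (Nat.mul_le_mul
          (Nat.mul_le_mul_left _ (by omega)) (by omega)) (by omega))
  have h5 : 2 * G.m + 3 ≤ szA q (G.code N) ∧ G.n + G.m + N ≤ szA q (G.code N) := by
    rw [h0]
    generalize tPar (G.code N) q = t at ht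
    generalize sPar (G.code N) q = s
    generalize 2 ^ kA (G.code N) = P
    omega
  refine ⟨by omega, ?_, fun a ha => ?_⟩
  · rw [G.length_code N]
    omega
  · obtain ⟨h1, h2⟩ := G.mem_code N a ha
    refine ⟨h1, lt_of_le_of_lt h2 ?_⟩
    have h3 : G.n + G.m + N < 2 ^ szA q (G.code N) :=
      lt_of_lt_of_le Nat.lt_two_pow_self (Nat.pow_le_pow_right (by norm_num) h5.2)
    exact_mod_cast h3

end MGraph

end Pool.Agent.Lib.H2
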