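import Pool.Agent.Lib.MP_3493b8_lc.Bound

/-! Bounds for powers of the size parameter. -/

set_option autoImplicit false

open Finset

namespace Pool.Agent.Lib.H2

open Pool.Agent.Lib.PTC

namespace MGraph

private theorem szA_pow (C0 C1 : ℕ) (G : MGraph) (N : ℕ) {s : ℕ} {k : ℕ}
    (h : s ≤ (G.n + G.m + N + 2) ^ C1 * C1 ^ k) :
    (s : ℝ) ^ C0 ≤ ((G.n : ℝ) + G.m + N + 2) ^ (C1 * C0) * ((C1 : ℝ) ^ k) ^ C0 := by
  have h1 : (s : ℝ) ≤ ((G.n : ℝ) + G.m + N + 2) ^ C1 * (C1 : ℝ) ^ k := by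
    have h2 : (s : ℝ) ≤ (((G.n + G.m + N + 2) ^ C1 * C1 ^ k : ℕ) : ℝ) := by exact_mod_cast h
    push_cast at h2
    exact h2
  refine (pow_le_pow_left₀ (Nat.cast_nonneg _) h1 C0).trans_eq ?_
  rw [mul_pow, ← pow_mul]

/-- powers of the size parameter, for all graphs -/
theorem szA_sqrt (q C0 : ℕ) (hq : 2 ≤ q) : ∃ C : ℕ, ∀ (C' : ℕ), C ≤ C' →
    ∀ (G : MGraph) (N : ℕ), 1 ≤ N →
      (szA q (G.code N) : ℝ) ^ C0 ≤ ((G.n : ℝ) + G.m + N + 2) ^ C' *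
        (C' : ℝ) ^ Real.sqrt (G.m * Real.log (G.m + 2)) := by
  obtain ⟨C1, hC1, h⟩ := szA_le q hq
  refine ⟨13 * C1 * C0 + C1 ^ (10 * C0), fun C' hC' G N hN => ?_⟩
  obtain ⟨b, hb⟩ : ∃ b : ℝ, b = (G.n : ℝ) + G.m + N + 2 := ⟨_, rfl⟩
  obtain ⟨S, hS⟩ : ∃ S : ℝ, S = Real.sqrt (G.m * Real.log (G.m + 2)) := ⟨_, rfl⟩
  have hS0 : 0 ≤ S := by rw [hS]; exact Real.sqrt_nonneg _
  have hn0 : (0 : ℝ) ≤ G.n := Nat.cast_nonneg _
  have hm0 : (0 : ℝ) ≤ G.m := Nat.cast_nonneg _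
  have hN0 : (0 : ℝ) ≤ N := Nat.cast_nonneg _
  have hb2 : 2 ≤ b := by rw [hb]; linarith
  have hb1 : 1 ≤ b := by linarith
  have hb0 : 0 < b := by linarith
  have hmb : (G.m : ℝ) + 2 ≤ b := by rw [hb]; linarith
  have hC1r : (2 : ℝ) ≤ C1 := by exact_mod_cast hC1
  have hC10 : (0 : ℝ) < C1 := by linarith
  have hC11 : (1 : ℝ) ≤ C1 := by linarith
  have h1 := szA_pow C0 C1 G N (h G N hN)
  rw [← hb] at h1
  rw [← hb, ← hS]
  have h2 := G.kA_rA_sqrt N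
  rw [← hS] at h2
  have h3 : (C1 : ℝ) ^ (kA (G.code N) + rA (G.code N)) ≤
      b ^ (12 * C1) * ((C1 : ℝ) ^ 10) ^ S := by
    have e1 : (C1 : ℝ) ^ (kA (G.code N) + rA (G.code N)) =
        (C1 : ℝ) ^ ((kA (G.code N) : ℝ) + rA (G.code N)) := by
      rw [← Real.rpow_natCast]
      push_cast
      rfl
    rw [e1]
    refine (Real.rpow_le_rpow_of_exponent_le hC11 h2).trans ?_
    rw [Real.rpow_add hC10, Real.rpow_add hC10]
    have e2 : (C1 : ℝ) ^ (10 * S) = ((C1 : ℝ) ^ 10) ^ S := by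
      rw [Real.rpow_mul hC10.le]
      norm_cast
    have e3 : (C1 : ℝ) ^ (10 * Real.log (G.m + 2)) ≤ b ^ (10 * C1) := by
      have e4 : (C1 : ℝ) ^ (10 * Real.log (G.m + 2)) = ((G.m : ℝ) + 2) ^ (10 * Real.log C1) := by
        rw [Real.rpow_def_of_pos hC10, Real.rpow_def_of_pos (by linarith)]
        congr 1
        ring
      rw [e4]
      have hl : Real.log C1 ≤ C1 := (Real.log_le_sub_one_of_pos hC10).trans (by linarith)
      have hl0 : 0 ≤ Real.log C1 := Real.log_nonneg hC11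
      calc ((G.m : ℝ) + 2) ^ (10 * Real.log C1) ≤ b ^ (10 * Real.log C1) :=
            Real.rpow_le_rpow (by linarith) hmb (by linarith)
        _ ≤ b ^ ((10 * C1 : ℕ) : ℝ) := by
            refine Real.rpow_le_rpow_of_exponent_le hb1 ?_
            push_cast
            linarith
        _ = b ^ (10 * C1) := Real.rpow_natCast _ _
    have e5 : (C1 : ℝ) ^ (2 : ℝ) ≤ b ^ (2 * C1) := by
      have e6 : (C1 : ℝ) ≤ b ^ C1 := by
        have e7 : (C1 : ℝ) ≤ (2 : ℝ) ^ C1 := by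
          exact_mod_cast (Nat.lt_two_pow_self (n := C1)).le
        exact e7.trans (pow_le_pow_left₀ (by norm_num) hb2 _)
      have e8 : (C1 : ℝ) ^ (2 : ℝ) = (C1 : ℝ) ^ (2 : ℕ) := by
        rw [← Real.rpow_natCast]
        norm_num
      rw [e8, mul_comm 2 C1, pow_mul]
      exact pow_le_pow_left₀ hC10.le e6 2
    rw [e2]
    have e9 : (0 : ℝ) ≤ ((C1 : ℝ) ^ 10) ^ S := Real.rpow_nonneg (by positivity) _
    calc ((C1 : ℝ) ^ 10) ^ S * (C1 : ℝ) ^ (10 * Real.log (G.m + 2)) * (C1 : ℝ) ^ (2 : ℝ) ≤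
          ((C1 : ℝ) ^ 10) ^ S * b ^ (10 * C1) * b ^ (2 * C1) := by
            refine mul_le_mul (mul_le_mul_of_nonneg_left e3 e9) e5 (Real.rpow_nonneg hC10.le _) ?_
            exact mul_nonneg e9 (pow_nonneg hb0.le _)
      _ = b ^ (12 * C1) * ((C1 : ℝ) ^ 10) ^ S := by
            rw [mul_assoc, ← pow_add, mul_comm]
            congr 2
            ring
  have h4 : ((C1 : ℝ) ^ (kA (G.code N) + rA (G.code N))) ^ C0 ≤
      b ^ (12 * C1 * C0) * ((C1 : ℝ) ^ (10 * C0)) ^ S := by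
    refine (pow_le_pow_left₀ (by positivity) h3 C0).trans_eq ?_
    rw [mul_pow, ← pow_mul, pow_mul (C1 : ℝ) 10 C0, ← Real.rpow_natCast (((C1 : ℝ) ^ 10) ^ S) C0,
      ← Real.rpow_mul (by positivity), mul_comm S, Real.rpow_mul (by positivity),
      Real.rpow_natCast]
  have h5 : b ^ (C1 * C0) * b ^ (12 * C1 * C0) ≤ b ^ C' := by
    rw [← pow_add]
    refine pow_le_pow_right₀ hb1 ?_
    have : C1 * C0 + 12 * C1 * C0 = 13 * C1 * C0 := by ring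
    rw [this]
    omega
  have h6 : ((C1 : ℝ) ^ (10 * C0)) ^ S ≤ (C' : ℝ) ^ S := by
    refine Real.rpow_le_rpow (by positivity) ?_ hS0
    have : C1 ^ (10 * C0) ≤ C' := by omega
    exact_mod_cast this
  calc (szA q (G.code N) : ℝ) ^ C0 ≤
        b ^ (C1 * C0) * ((C1 : ℝ) ^ (kA (G.code N) + rA (G.code N))) ^ C0 := h1
    _ ≤ b ^ (C1 * C0) * (b ^ (12 * C1 * C0) * ((C1 : ℝ) ^ (10 * C0)) ^ S) :=
        mul_le_mul_of_nonneg_left h4 (by positivity)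
    _ = b ^ (C1 * C0) * b ^ (12 * C1 * C0) * ((C1 : ℝ) ^ (10 * C0)) ^ S := by ring
    _ ≤ b ^ C' * (C' : ℝ) ^ S := mul_le_mul h5 h6 (by positivity) (by positivity)

/-- powers of the size parameter, for graphs of bounded diameter -/
theorem szA_diam (q C0 : ℕ) (hq : 2 ≤ q) : ∃ C : ℕ, ∀ (C' : ℕ), C ≤ C' →
    ∀ (G : MGraph) (N : ℕ), 1 ≤ N → ∀ d : ℕ, G.DiamLe d →
      (szA q (G.code N) : ℝ) ^ C0 ≤ ((G.n : ℝ) + G.m + N + 2) ^ C' * (C' : ℝ) ^ d := by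
  obtain ⟨C1, hC1, h⟩ := szA_le q hq
  refine ⟨C1 * C0 + C1 ^ (2 * C0), fun C' hC' G N hN d hd => ?_⟩
  have hn0 : (0 : ℝ) ≤ G.n := Nat.cast_nonneg _
  have hm0 : (0 : ℝ) ≤ G.m := Nat.cast_nonneg _
  have hN0 : (0 : ℝ) ≤ N := Nat.cast_nonneg _
  have hb1 : 1 ≤ (G.n : ℝ) + G.m + N + 2 := by linarith
  have hC1r : (2 : ℝ) ≤ C1 := by exact_mod_cast hC1
  have h1 := szA_pow C0 C1 G N (h G N hN)
  obtain ⟨h2, h3⟩ := G.kA_diam N d hd
  refine h1.trans ?_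
  have h4 : ((G.n : ℝ) + G.m + N + 2) ^ (C1 * C0) ≤ ((G.n : ℝ) + G.m + N + 2) ^ C' :=
    pow_le_pow_right₀ hb1 (by omega)
  have h5 : ((C1 : ℝ) ^ (kA (G.code N) + rA (G.code N))) ^ C0 ≤ (C' : ℝ) ^ d := by
    have h6 : (C1 : ℝ) ^ (kA (G.code N) + rA (G.code N)) ≤ (C1 : ℝ) ^ (2 * d) :=
      pow_le_pow_right₀ (by linarith) (by omega)
    refine (pow_le_pow_left₀ (by positivity) h6 C0).trans ?_
    have h7 : ((C1 : ℝ) ^ (2 * d)) ^ C0 = ((C1 : ℝ) ^ (2 * C0)) ^ d := by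
      rw [← pow_mul, ← pow_mul]
      congr 1
      ring
    rw [h7]
    refine pow_le_pow_left₀ (by positivity) ?_ d
    have : C1 ^ (2 * C0) ≤ C' := by omega
    exact_mod_cast this
  exact mul_le_mul h4 h5 (by positivity) (by positivity)

end MGraph

end Pool.Agent.Lib.H2
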