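import Mathlib

/-! Convergence of a lazy reversible chain from a Poincaré inequality. -/

set_option autoImplicit false

open Finset

namespace Pool.Agent.Lib.H2

section

variable {S D : Type} [Fintype S] [Fintype D]

/-- The averaging operator of a chain driven by uniform `d : D`. -/
noncomputable def avgOp (step : D → S → S) (f : S → ℝ) (s : S) : ℝ :=
  (∑ d : D, f (step d s)) / (Fintype.card D : ℝ)

/-- `f` after `t` steps -/
noncomputable def avgIt (step : D → S → S) (f : S → ℝ) (t : ℕ) : S → ℝ := (avgOp step)^[t] f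

omit [Fintype S] in
private theorem mix_one [Nonempty D] (step : D → S → S) (s : S) :
    avgOp step (fun _ => 1) s = 1 := by
  have hN : (0 : ℝ) < Fintype.card D := by exact_mod_cast Fintype.card_pos
  unfold avgOp
  rw [sum_const, card_univ, nsmul_eq_mul, mul_one, div_self hN.ne']

omit [Fintype S] in
/-- positivity of `2 P - 1` -/
private theorem mix_pos [DecidableEq S] [Nonempty D] (step : D → S → S) (s : S)
    (hlazy : (Fintype.card D : ℝ) ≤ 2 * ((univ.filter fun d => step d s = s).card : ℝ))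
    (g : S → ℝ) (hg : ∀ s, 0 ≤ g s) : g s ≤ 2 * avgOp step g s := by
  have hN : (0 : ℝ) < Fintype.card D := by exact_mod_cast Fintype.card_pos
  have h1 : ((univ.filter fun d => step d s = s).card : ℝ) * g s ≤ ∑ d : D, g (step d s) := by
    have h2 : ∑ d ∈ univ.filter (fun d => step d s = s), g (step d s) ≤ ∑ d : D, g (step d s) :=
      sum_le_sum_of_subset_of_nonneg (subset_univ _) fun d _ _ => hg _
    have h3 : ∑ d ∈ univ.filter (fun d => step d s = s), g (step d s) =
        ((univ.filter fun d => step d s = s).card : ℝ) * g s := by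
      rw [sum_congr rfl (g := fun _ => g s) fun d hd => by rw [(mem_filter.1 hd).2], sum_const,
        nsmul_eq_mul]
    rw [← h3]
    exact h2
  unfold avgOp
  rw [mul_div_assoc', le_div_iff₀ hN]
  have h4 := mul_le_mul_of_nonneg_right hlazy (hg s)
  linarith

omit [Fintype S] in
/-- Jensen for `2 P - 1` -/
private theorem mix_jensen [DecidableEq S] [Nonempty D] (step : D → S → S) (s : S)
    (hlazy : (Fintype.card D : ℝ) ≤ 2 * ((univ.filter fun d => step d s = s).card : ℝ))
    (f : S → ℝ) : (2 * avgOp step f s - f s) ^ 2 ≤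
      2 * avgOp step (fun s => f s ^ 2) s - f s ^ 2 := by
  have hN : (0 : ℝ) < Fintype.card D := by exact_mod_cast Fintype.card_pos
  set M : ℝ := 2 * avgOp step f s - f s with hM
  have h1 := mix_pos step s hlazy (fun s => (f s - M) ^ 2) (fun s => sq_nonneg _)
  have h2 : avgOp step (fun s => (f s - M) ^ 2) s =
      avgOp step (fun s => f s ^ 2) s - 2 * M * avgOp step f s + M ^ 2 := by
    unfold avgOp
    have h3 : ∑ d : D, (f (step d s) - M) ^ 2 = ∑ d : D, f (step d s) ^ 2 -
        2 * M * ∑ d : D, f (step d s) + (Fintype.card D : ℝ) * M ^ 2 := by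
      rw [mul_sum, ← sum_sub_distrib]
      have h4 : (Fintype.card D : ℝ) * M ^ 2 = ∑ _d : D, M ^ 2 := by
        rw [sum_const, card_univ, nsmul_eq_mul]
      rw [h4, ← sum_add_distrib]
      exact sum_congr rfl fun d _ => by ring
    rw [h3]
    field_simp
  rw [h2] at h1
  have h5 : avgOp step f s = (M + f s) / 2 := by rw [hM]; ring
  rw [h5] at h1
  nlinarith [h1]

theorem mix [DecidableEq S] [Nonempty D] (step : D → S → S) (ν : S → ℝ) (hν : ∀ s, 0 ≤ ν s)
    (hrev : ∀ f g : S → ℝ, ∑ s, ν s * avgOp step f s * g s = ∑ s, ν s * f s * avgOp step g s)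
    (hlazy : ∀ s, (Fintype.card D : ℝ) ≤ 2 * ((univ.filter fun d => step d s = s).card : ℝ))
    (R : ℝ) (hR : 1 ≤ R)
    (hpo : ∀ f : S → ℝ, (∑ s, ν s) * (∑ s, ν s * f s ^ 2) - (∑ s, ν s * f s) ^ 2 ≤
      R * (∑ s, ν s) * (∑ s, ν s * (f s * (f s - avgOp step f s))))
    (x : S) (hx : 0 < ν x) (f : S → ℝ) (hf : ∀ s, |f s| ≤ 1) (t : ℕ) :
    (avgIt step f t x - (∑ s, ν s * f s) / (∑ s, ν s)) ^ 2 ≤
      (1 - 1 / R) ^ t * ((∑ s, ν s) / ν x) := by
  have hR0 : 0 < R := by linarith
  have hZ : 0 < ∑ s, ν s :=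
    lt_of_lt_of_le hx (single_le_sum (fun s _ => hν s) (mem_univ x))
  set Z : ℝ := ∑ s, ν s with hZdef
  -- stationarity
  have hst : ∀ f : S → ℝ, ∑ s, ν s * avgOp step f s = ∑ s, ν s * f s := by
    intro f
    have h1 := hrev f (fun _ => 1)
    simp only [mul_one, mix_one] at h1
    exact h1
  -- contraction of the square
  have hsq : ∀ f : S → ℝ, ∑ s, ν s * avgOp step f s ^ 2 ≤ ∑ s, ν s * (f s * avgOp step f s) := by
    intro f
    have h1 : ∑ s, ν s * (2 * avgOp step f s - f s) ^ 2 ≤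
        ∑ s, ν s * (2 * avgOp step (fun s => f s ^ 2) s - f s ^ 2) :=
      sum_le_sum fun s _ => mul_le_mul_of_nonneg_left (mix_jensen step s (hlazy s) f) (hν s)
    have h2 : ∑ s, ν s * (2 * avgOp step (fun s => f s ^ 2) s - f s ^ 2) =
        ∑ s, ν s * f s ^ 2 := by
      have h3 : ∑ s, ν s * (2 * avgOp step (fun s => f s ^ 2) s - f s ^ 2) =
          2 * ∑ s, ν s * avgOp step (fun s => f s ^ 2) s - ∑ s, ν s * f s ^ 2 := by
        rw [mul_sum, ← sum_sub_distrib]
        exact sum_congr rfl fun s _ => by ring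
      rw [h3, hst]
      ring
    have h4 : ∑ s, ν s * (2 * avgOp step f s - f s) ^ 2 =
        4 * ∑ s, ν s * avgOp step f s ^ 2 - 4 * ∑ s, ν s * (f s * avgOp step f s) +
          ∑ s, ν s * f s ^ 2 := by
      rw [mul_sum, mul_sum, ← sum_sub_distrib, ← sum_add_distrib]
      exact sum_congr rfl fun s _ => by ring
    rw [h2, h4] at h1
    linarith
  -- one step
  have hstep : ∀ f : S → ℝ,
      ∑ s, ν s * avgOp step f s ^ 2 - (∑ s, ν s * avgOp step f s) ^ 2 / Z ≤
        (1 - 1 / R) * (∑ s, ν s * f s ^ 2 - (∑ s, ν s * f s) ^ 2 / Z) := by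
    intro f
    have h1 := hpo f
    have h2 : ∑ s, ν s * (f s * (f s - avgOp step f s)) =
        ∑ s, ν s * f s ^ 2 - ∑ s, ν s * (f s * avgOp step f s) := by
      rw [← sum_sub_distrib]
      exact sum_congr rfl fun s _ => by ring
    rw [h2] at h1
    have h3 : (∑ s, ν s * f s ^ 2 - (∑ s, ν s * f s) ^ 2 / Z) / R ≤
        ∑ s, ν s * f s ^ 2 - ∑ s, ν s * (f s * avgOp step f s) := by
      rw [div_le_iff₀ hR0]
      have h4 : Z * (∑ s, ν s * f s ^ 2 - (∑ s, ν s * f s) ^ 2 / Z) =
          Z * (∑ s, ν s * f s ^ 2) - (∑ s, ν s * f s) ^ 2 := by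
        field_simp
      have h5 : Z * (∑ s, ν s * f s ^ 2 - (∑ s, ν s * f s) ^ 2 / Z) ≤
          Z * ((∑ s, ν s * f s ^ 2 - ∑ s, ν s * (f s * avgOp step f s)) * R) := by
        rw [h4]
        linarith
      exact le_of_mul_le_mul_left h5 hZ
    have h6 := hsq f
    rw [hst f]
    have h7 : (1 - 1 / R) * (∑ s, ν s * f s ^ 2 - (∑ s, ν s * f s) ^ 2 / Z) =
        (∑ s, ν s * f s ^ 2 - (∑ s, ν s * f s) ^ 2 / Z) -
          (∑ s, ν s * f s ^ 2 - (∑ s, ν s * f s) ^ 2 / Z) / R := by ring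
    rw [h7]
    linarith
  have hc : 0 ≤ 1 - 1 / R := by
    rw [sub_nonneg, div_le_one hR0]
    exact hR
  -- iteration
  have hit : ∀ t : ℕ, ∑ s, ν s * avgIt step f t s = ∑ s, ν s * f s ∧
      ∑ s, ν s * avgIt step f t s ^ 2 - (∑ s, ν s * avgIt step f t s) ^ 2 / Z ≤
        (1 - 1 / R) ^ t * Z := by
    intro t
    induction t with
    | zero =>
      refine ⟨rfl, ?_⟩
      rw [pow_zero, one_mul]
      have h1 : ∑ s, ν s * avgIt step f 0 s ^ 2 ≤ Z := by
        refine sum_le_sum fun s _ => ?_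
        have h2 : avgIt step f 0 s ^ 2 ≤ 1 := by
          change f s ^ 2 ≤ 1
          rw [← sq_abs]
          exact pow_le_one₀ (abs_nonneg _) (hf s)
        have := mul_le_mul_of_nonneg_left h2 (hν s)
        linarith
      have h3 : 0 ≤ (∑ s, ν s * avgIt step f 0 s) ^ 2 / Z := by positivity
      linarith
    | succ t ih =>
      have h1 : avgIt step f (t + 1) = avgOp step (avgIt step f t) := by
        unfold avgIt
        rw [Function.iterate_succ_apply']
      rw [h1]
      refine ⟨by rw [hst, ih.1], ?_⟩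
      refine (hstep (avgIt step f t)).trans ?_
      have h2 := mul_le_mul_of_nonneg_left ih.2 hc
      refine h2.trans (le_of_eq ?_)
      ring
  obtain ⟨h1, h2⟩ := hit t
  set h := avgIt step f t with hh
  set m : ℝ := (∑ s, ν s * f s) / Z with hm
  have h3 : ν x * (h x - m) ^ 2 ≤ ∑ s, ν s * (h s - m) ^ 2 :=
    single_le_sum (f := fun s => ν s * (h s - m) ^ 2)
      (fun s _ => mul_nonneg (hν s) (sq_nonneg _)) (mem_univ x)
  have h4 : ∑ s, ν s * (h s - m) ^ 2 = ∑ s, ν s * h s ^ 2 - (∑ s, ν s * h s) ^ 2 / Z := by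
    have h5 : ∑ s, ν s * (h s - m) ^ 2 =
        ∑ s, ν s * h s ^ 2 - 2 * m * ∑ s, ν s * h s + m ^ 2 * Z := by
      rw [hZdef, mul_sum, mul_sum, ← sum_sub_distrib, ← sum_add_distrib]
      exact sum_congr rfl fun s _ => by ring
    rw [h5, h1, hm]
    field_simp
    ring
  rw [h4] at h3
  rw [← mul_div_assoc, le_div_iff₀ hx]
  linarith

end

end Pool.Agent.Lib.H2
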