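import Pool.Agent.Lib.MP_3493b8_lc.StepF
import Pool.Agent.Lib.MP_3493b8_lc.Contr

/-! One step of the chain: reversibility, laziness, energy. -/

set_option autoImplicit false

open Finset

namespace Pool.Agent.Lib.H2

namespace MGraph

variable (G : MGraph)

section aux

/-- Sums over digits. -/
private theorem chs_sum_mul (h : ℕ → ℝ) (K K' : ℕ) :
    ∑ d ∈ range (K * K'), h d = ∑ c ∈ range K', ∑ r ∈ range K, h (K * c + r) := by
  induction K' with
  | zero => simp
  | succ c ih =>
    rw [Nat.mul_succ, Finset.sum_range_add, ih, Finset.sum_range_succ]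

/-- Sums over the edges. -/
private theorem chs_sum_fin {m K : ℕ} (hK : m ≤ K) (a : Fin m → ℝ) :
    ∑ r ∈ range K, (if h : r < m then a ⟨r, h⟩ else 0) = ∑ e : Fin m, a e := by
  have h1 : ∑ r ∈ range K, (if h : r < m then a ⟨r, h⟩ else 0) =
      ∑ r ∈ range m, (if h : r < m then a ⟨r, h⟩ else 0) := by
    symm
    refine Finset.sum_subset (fun x hx => ?_) fun x _ hx => ?_
    · rw [Finset.mem_range] at hx ⊢
      omega
    · rw [Finset.mem_range] at hx
      rw [dif_neg hx]
  rw [h1, ← Fin.sum_univ_eq_sum_range (fun r => if h : r < m then a ⟨r, h⟩ else 0) m]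
  refine Finset.sum_congr rfl fun e _ => ?_
  rw [dif_pos e.isLt]

/-- Counting thresholds. -/
private theorem chs_thr {t K' : ℕ} (ht : t ≤ K') (x y : ℝ) :
    ∑ c ∈ range K', (if c < t then x else y) = K' * y + t * (x - y) := by
  have h1 : ∀ c ∈ range K', (if c < t then x else y) = y + (if c < t then (x - y) else 0) := by
    intro c _
    split_ifs <;> ring
  rw [Finset.sum_congr rfl h1, Finset.sum_add_distrib, Finset.sum_const, ← Finset.sum_filter,
    Finset.sum_const, Finset.card_range, nsmul_eq_mul, nsmul_eq_mul]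
  have h2 : (range K').filter (fun c => c < t) = range t := by
    ext c
    rw [Finset.mem_filter, Finset.mem_range, Finset.mem_range]
    omega
  rw [h2, Finset.card_range]

end aux

section step

variable (F : Finset (Fin G.m)) (T : Fin G.n → ZMod 2) (p q j K K' : ℕ)

/-- The number of digits which change the edge `e`. -/
private noncomputable def chsC (A : Finset (Fin G.m)) (e : Fin G.m) : ℝ :=
  if e ∉ F ∧ (G.supp (G.bd (symmDiff A {e}) + T)).card ≤ 2 then
    (if e ∉ A ∧ (e : ℕ) < j then (p : ℝ) else q) else 0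

/-- One step of the chain. -/
private theorem chs_avg (hpq : p < q) (hK : G.m ≤ K) (hK0 : 0 < K) (hK' : 2 * q ≤ K')
    (f : Finset (Fin G.m) → ℝ) (A : Finset (Fin G.m)) :
    ((K : ℝ) * K') * avgOp (fun (d : Fin (K * K')) A => G.stepF F T p q j K d A) f A =
      ((K : ℝ) * K') * f A + ∑ e, chsC G F T p q j A e * (f (symmDiff A {e}) - f A) := by
  have hN : ((K : ℝ) * K') ≠ 0 := by
    have h1 : (0 : ℝ) < K := by exact_mod_cast hK0
    have h2 : (0 : ℝ) < K' := by exact_mod_cast (by omega : 0 < K')
    positivity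
  unfold avgOp
  rw [Fintype.card_fin, Nat.cast_mul, mul_div_cancel₀ _ hN]
  rw [Fin.sum_univ_eq_sum_range (fun d => f (G.stepF F T p q j K d A)) (K * K'), chs_sum_mul,
    Finset.sum_comm]
  have h1 : ∀ r ∈ range K, ∑ c ∈ range K', f (G.stepF F T p q j K (K * c + r) A) =
      K' * f A + (if h : r < G.m then
        chsC G F T p q j A ⟨r, h⟩ * (f (symmDiff A {(⟨r, h⟩ : Fin G.m)}) - f A) else 0) := by
    intro r hr
    rw [Finset.mem_range] at hr
    have e1 : ∀ c, (K * c + r) % K = r := fun c => by
      rw [Nat.mul_add_mod, Nat.mod_eq_of_lt hr]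
    have e2 : ∀ c, (K * c + r) / K = c := fun c => by
      rw [Nat.mul_add_div hK0, Nat.div_eq_of_lt hr, add_zero]
    by_cases hm : r < G.m
    · rw [dif_pos hm]
      by_cases hc : (⟨r, hm⟩ : Fin G.m) ∉ F ∧
          (G.supp (G.bd (symmDiff A {(⟨r, hm⟩ : Fin G.m)}) + T)).card ≤ 2
      · obtain ⟨t, ht⟩ : ∃ t, t = (if (⟨r, hm⟩ : Fin G.m) ∉ A ∧ r < j then p else q) := ⟨_, rfl⟩
        have ht' : t ≤ K' := by
          rw [ht]
          split_ifs <;> omega
        have h2 : ∀ c ∈ range K', f (G.stepF F T p q j K (K * c + r) A) =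
            if c < t then f (symmDiff A {(⟨r, hm⟩ : Fin G.m)}) else f A := by
          intro c _
          unfold stepF
          simp only [e1, e2]
          rw [dif_pos hm, ← ht]
          by_cases hct : c < t
          · rw [if_pos ⟨hc.1, hc.2, hct⟩, if_pos hct]
          · rw [if_neg (fun h => hct h.2.2), if_neg hct]
        rw [Finset.sum_congr rfl h2, chs_thr ht']
        have h3 : chsC G F T p q j A ⟨r, hm⟩ = t := by
          unfold chsC
          rw [if_pos hc, ht]
          split_ifs <;> rfl
        rw [h3]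
      · have h2 : ∀ c ∈ range K', f (G.stepF F T p q j K (K * c + r) A) = f A := by
          intro c _
          unfold stepF
          simp only [e1, e2]
          rw [dif_pos hm, if_neg (fun h => hc ⟨h.1, h.2.1⟩)]
        have h3 : chsC G F T p q j A ⟨r, hm⟩ = 0 := by
          unfold chsC
          rw [if_neg hc]
        rw [Finset.sum_congr rfl h2, h3, zero_mul, add_zero, Finset.sum_const, Finset.card_range,
          nsmul_eq_mul]
    · have h2 : ∀ c ∈ range K', f (G.stepF F T p q j K (K * c + r) A) = f A := by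
        intro c _
        unfold stepF
        rw [dif_neg]
        rw [e1]
        exact hm
      rw [dif_neg hm, Finset.sum_congr rfl h2, add_zero, Finset.sum_const, Finset.card_range,
        nsmul_eq_mul]
  rw [Finset.sum_congr rfl h1, Finset.sum_add_distrib, chs_sum_fin hK
    (fun e => chsC G F T p q j A e * (f (symmDiff A {e}) - f A)), Finset.sum_const,
    Finset.card_range, nsmul_eq_mul]
  ring

private theorem chs_invol (A : Finset (Fin G.m)) (e : Fin G.m) :
    symmDiff (symmDiff A {e}) {e} = A := symmDiff_symmDiff_cancel_right _ _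

private theorem chs_mem (A : Finset (Fin G.m)) (e : Fin G.m) : e ∈ symmDiff A {e} ↔ e ∉ A := by
  rw [Finset.mem_symmDiff, Finset.mem_singleton]
  tauto

private theorem chs_sub {A : Finset (Fin G.m)} {e : Fin G.m} (he : e ∉ F) (h : A ⊆ univ \ F) :
    symmDiff A {e} ⊆ univ \ F := by
  intro x hx
  rw [Finset.mem_symmDiff, Finset.mem_singleton] at hx
  rcases hx with hx | hx
  · exact h hx.1
  · rw [hx.1, Finset.mem_sdiff]
    exact ⟨Finset.mem_univ _, he⟩

private theorem chs_nu (A : Finset (Fin G.m)) : G.nuJ F T p q j A =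
    if A ⊆ univ \ F ∧ (G.supp (G.bd A + T)).card ≤ 2 then ∏ i ∈ A, G.wj ((p : ℝ) / q) j i else 0 := by
  unfold nuJ Sys.nu chainSys Sys.wt
  simp only [Finset.mem_filter, Finset.mem_univ, true_and, mul_one]

private theorem chs_w (hp : 0 < p) (hpq : p < q) (i : Fin G.m) :
    0 < G.wj ((p : ℝ) / q) j i ∧ G.wj ((p : ℝ) / q) j i ≤ 1 := by
  have hp' : (0 : ℝ) < p := by exact_mod_cast hp
  have hq' : (0 : ℝ) < q := by exact_mod_cast (by omega : 0 < q)
  have hpq' : (p : ℝ) ≤ q := by exact_mod_cast hpq.le
  unfold wj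
  split_ifs
  · exact ⟨div_pos hp' hq', (div_le_one hq').2 hpq'⟩
  · exact ⟨one_pos, le_rfl⟩

private theorem chs_nn (hp : 0 < p) (hpq : p < q) (A : Finset (Fin G.m)) :
    0 ≤ G.nuJ F T p q j A := by
  rw [chs_nu]
  split_ifs
  · exact Finset.prod_nonneg fun i _ => (G.chs_w p q j hp hpq i).1.le
  · exact le_rfl

/-- Detailed balance. -/
private theorem chs_bal (hp : 0 < p) (hpq : p < q) (A : Finset (Fin G.m)) (e : Fin G.m)
    (he : e ∉ F) : G.nuJ F T p q j A * chsC G F T p q j A e =
      q * min (G.nuJ F T p q j A) (G.nuJ F T p q j (symmDiff A {e})) := by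
  have hq' : (0 : ℝ) < q := by exact_mod_cast (by omega : 0 < q)
  have hA0 := G.chs_nn F T p q j hp hpq A
  have hB0 := G.chs_nn F T p q j hp hpq (symmDiff A {e})
  by_cases hA : A ⊆ univ \ F ∧ (G.supp (G.bd A + T)).card ≤ 2
  swap
  · have h1 : G.nuJ F T p q j A = 0 := by rw [chs_nu, if_neg hA]
    rw [h1, zero_mul, min_eq_left hB0, mul_zero]
  have hsub : symmDiff A {e} ⊆ univ \ F := G.chs_sub F he hA.1
  by_cases hB : (G.supp (G.bd (symmDiff A {e}) + T)).card ≤ 2
  swap
  · have h1 : G.nuJ F T p q j (symmDiff A {e}) = 0 := by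
      rw [chs_nu, if_neg (fun h => hB h.2)]
    have h2 : chsC G F T p q j A e = 0 := by
      unfold chsC
      rw [if_neg (fun h => hB h.2)]
    rw [h1, h2, mul_zero, min_eq_right hA0, mul_zero]
  rw [chs_nu, chs_nu, if_pos hA, if_pos ⟨hsub, hB⟩]
  unfold chsC
  rw [if_pos ⟨he, hB⟩]
  obtain ⟨hw0, hw1⟩ := G.chs_w p q j hp hpq e
  have hnn : ∀ C : Finset (Fin G.m), 0 ≤ ∏ i ∈ C, G.wj ((p : ℝ) / q) j i := fun C =>
    Finset.prod_nonneg fun i _ => (G.chs_w p q j hp hpq i).1.le
  by_cases hm : e ∈ A
  · -- remove `e`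
    rw [if_neg (fun h => h.1 hm)]
    have h1 : symmDiff A {e} = A.erase e := by
      ext x
      rw [Finset.mem_symmDiff, Finset.mem_singleton, Finset.mem_erase]
      constructor
      · rintro (h | h)
        · exact ⟨h.2, h.1⟩
        · exact absurd (h.1 ▸ hm) h.2
      · intro h
        exact Or.inl ⟨h.2, h.1⟩
    have h2 : ∏ i ∈ A, G.wj ((p : ℝ) / q) j i =
        G.wj ((p : ℝ) / q) j e * ∏ i ∈ A.erase e, G.wj ((p : ℝ) / q) j i :=
      (Finset.mul_prod_erase A _ hm).symm
    rw [h1, h2, min_eq_left (mul_le_of_le_one_left (hnn _) hw1)]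
    ring
  · -- add `e`
    have h1 : symmDiff A {e} = insert e A := by
      ext x
      rw [Finset.mem_symmDiff, Finset.mem_singleton, Finset.mem_insert]
      constructor
      · rintro (h | h)
        · exact Or.inr h.1
        · exact Or.inl h.1
      · rintro (h | h)
        · right
          rw [h]
          exact ⟨rfl, hm⟩
        · refine Or.inl ⟨h, fun h' => ?_⟩
          rw [h'] at h
          exact hm h
    rw [h1, Finset.prod_insert hm, min_eq_right (mul_le_of_le_one_left (hnn _) hw1)]
    by_cases hj : (e : ℕ) < j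
    · rw [if_pos ⟨hm, hj⟩]
      have h2 : G.wj ((p : ℝ) / q) j e = (p : ℝ) / q := by
        unfold wj
        rw [if_pos hj]
      rw [h2]
      field_simp
    · rw [if_neg (fun h => hj h.2)]
      have h2 : G.wj ((p : ℝ) / q) j e = 1 := by
        unfold wj
        rw [if_neg hj]
      rw [h2]
      ring

private theorem chs_sym (hp : 0 < p) (hpq : p < q) (A : Finset (Fin G.m)) (e : Fin G.m) :
    G.nuJ F T p q j (symmDiff A {e}) * chsC G F T p q j (symmDiff A {e}) e =
      G.nuJ F T p q j A * chsC G F T p q j A e := by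
  by_cases he : e ∈ F
  · have h1 : ∀ B, chsC G F T p q j B e = 0 := by
      intro B
      unfold chsC
      rw [if_neg (fun h => h.1 he)]
    rw [h1, h1, mul_zero, mul_zero]
  · rw [G.chs_bal F T p q j hp hpq A e he, G.chs_bal F T p q j hp hpq (symmDiff A {e}) e he,
      chs_invol, min_comm]

/-- The involution. -/
private theorem chs_swap (e : Fin G.m) (h : Finset (Fin G.m) → ℝ) :
    ∑ A, h (symmDiff A {e}) = ∑ A, h A := by
  refine Fintype.sum_bijective (fun A => symmDiff A {e}) ?_ _ _ fun A => rfl
  exact Function.Involutive.bijective fun A => G.chs_invol A e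

/-- the chain is reversible -/
theorem step_rev (hp : 0 < p) (hpq : p < q) (hK : G.m ≤ K) (hK0 : 0 < K) (hK' : 2 * q ≤ K')
    (f g : Finset (Fin G.m) → ℝ) :
    ∑ A, G.nuJ F T p q j A *
        avgOp (fun (d : Fin (K * K')) A => G.stepF F T p q j K d A) f A * g A =
      ∑ A, G.nuJ F T p q j A * f A *
        avgOp (fun (d : Fin (K * K')) A => G.stepF F T p q j K d A) g A := by
  have hN : ((K : ℝ) * K') ≠ 0 := by
    have h1 : (0 : ℝ) < K := by exact_mod_cast hK0
    have h2 : (0 : ℝ) < K' := by exact_mod_cast (by omega : 0 < K')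
    positivity
  refine mul_left_cancel₀ hN ?_
  rw [Finset.mul_sum, Finset.mul_sum]
  have h1 : ∀ A, ((K : ℝ) * K') * (G.nuJ F T p q j A *
        avgOp (fun (d : Fin (K * K')) A => G.stepF F T p q j K d A) f A * g A) =
      ((K : ℝ) * K') * (G.nuJ F T p q j A * f A * g A) -
        ∑ e, G.nuJ F T p q j A * chsC G F T p q j A e * (f A * g A) +
        ∑ e, G.nuJ F T p q j A * chsC G F T p q j A e * (f (symmDiff A {e}) * g A) := by
    intro A
    have h2 := G.chs_avg F T p q j K K' hpq hK hK0 hK' f A
    calc _ = G.nuJ F T p q j A * (((K : ℝ) * K') *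
          avgOp (fun (d : Fin (K * K')) A => G.stepF F T p q j K d A) f A) * g A := by ring
      _ = _ := by
        rw [h2, mul_add, add_mul, Finset.mul_sum, Finset.sum_mul]
        have h3 : ∀ e, G.nuJ F T p q j A * (chsC G F T p q j A e * (f (symmDiff A {e}) - f A)) * g A =
            G.nuJ F T p q j A * chsC G F T p q j A e * (f (symmDiff A {e}) * g A) -
              G.nuJ F T p q j A * chsC G F T p q j A e * (f A * g A) := fun e => by ring
        rw [Finset.sum_congr rfl fun e _ => h3 e, Finset.sum_sub_distrib]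
        ring
  have h2 : ∀ A, ((K : ℝ) * K') * (G.nuJ F T p q j A * f A *
        avgOp (fun (d : Fin (K * K')) A => G.stepF F T p q j K d A) g A) =
      ((K : ℝ) * K') * (G.nuJ F T p q j A * f A * g A) -
        ∑ e, G.nuJ F T p q j A * chsC G F T p q j A e * (f A * g A) +
        ∑ e, G.nuJ F T p q j A * chsC G F T p q j A e * (f A * g (symmDiff A {e})) := by
    intro A
    have h2 := G.chs_avg F T p q j K K' hpq hK hK0 hK' g A
    calc _ = G.nuJ F T p q j A * (((K : ℝ) * K') *
          avgOp (fun (d : Fin (K * K')) A => G.stepF F T p q j K d A) g A) * f A := by ring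
      _ = _ := by
        rw [h2, mul_add, add_mul, Finset.mul_sum, Finset.sum_mul]
        have h3 : ∀ e, G.nuJ F T p q j A * (chsC G F T p q j A e * (g (symmDiff A {e}) - g A)) * f A =
            G.nuJ F T p q j A * chsC G F T p q j A e * (f A * g (symmDiff A {e})) -
              G.nuJ F T p q j A * chsC G F T p q j A e * (f A * g A) := fun e => by ring
        rw [Finset.sum_congr rfl fun e _ => h3 e, Finset.sum_sub_distrib]
        ring
  rw [Finset.sum_congr rfl fun A _ => h1 A, Finset.sum_congr rfl fun A _ => h2 A,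
    Finset.sum_add_distrib, Finset.sum_add_distrib]
  congr 1
  rw [Finset.sum_comm, Finset.sum_comm (s := univ (α := Finset (Fin G.m)))]
  refine Finset.sum_congr rfl fun e _ => ?_
  rw [← G.chs_swap e (fun A => G.nuJ F T p q j A * chsC G F T p q j A e * (f A * g (symmDiff A {e})))]
  refine Finset.sum_congr rfl fun A _ => ?_
  rw [G.chs_sym F T p q j hp hpq A e, G.chs_invol]

/-- the chain is lazy -/
theorem step_lazy (hpq : p < q) (hK : G.m ≤ K) (hK0 : 0 < K) (hK' : 2 * q ≤ K')
    (A : Finset (Fin G.m)) :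
    (Fintype.card (Fin (K * K')) : ℝ) ≤
      2 * (((univ : Finset (Fin (K * K'))).filter fun (d : Fin (K * K')) =>
        G.stepF F T p q j K d A = A).card : ℝ) := by
  classical
  have h1 : ((univ : Finset (Fin (K * K'))).filter fun (d : Fin (K * K')) =>
      ¬ G.stepF F T p q j K d A = A).card ≤ K * q := by
    have h2 : ((univ : Finset (Fin (K * K'))).filter fun (d : Fin (K * K')) =>
        ¬ G.stepF F T p q j K d A = A).card ≤ (range (K * q)).card := by
      refine Finset.card_le_card_of_injOn (fun d => (d : ℕ)) (fun d hd => ?_)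
        fun x _ y _ hxy => Fin.ext hxy
      have hd' := (Finset.mem_filter.1 (Finset.mem_coe.1 hd)).2
      rw [Finset.mem_coe, Finset.mem_range]
      by_contra hcon
      apply hd'
      have h3 : q ≤ (d : ℕ) / K := by
        rw [Nat.le_div_iff_mul_le hK0, mul_comm]
        exact not_lt.1 hcon
      unfold stepF
      by_cases h4 : (d : ℕ) % K < G.m
      · rw [dif_pos h4, if_neg]
        rintro ⟨_, _, h5⟩
        split_ifs at h5 <;> omega
      · rw [dif_neg h4]
    rwa [Finset.card_range] at h2
  have h2 := Finset.card_filter_add_card_filter_not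
    (s := (univ : Finset (Fin (K * K')))) (fun d => G.stepF F T p q j K d A = A)
  rw [Finset.card_univ, Fintype.card_fin] at h2
  rw [Fintype.card_fin]
  have h3 : 2 * (K * q) ≤ K * K' := by
    calc 2 * (K * q) = K * (2 * q) := by ring
      _ ≤ K * K' := Nat.mul_le_mul_left K hK'
  exact_mod_cast (by omega : K * K' ≤ 2 * ((univ : Finset (Fin (K * K'))).filter
    fun (d : Fin (K * K')) => G.stepF F T p q j K d A = A).card)

/-- the energy of the chain -/
theorem step_energy (hp : 0 < p) (hpq : p < q) (hK : G.m ≤ K) (hK0 : 0 < K) (hK' : 2 * q ≤ K')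
    (f : Finset (Fin G.m) → ℝ) :
    (G.chainSys F T (G.wj ((p : ℝ) / q) j)).En f =
      (2 * (K * K') / q : ℝ) * ∑ A, G.nuJ F T p q j A *
        (f A * (f A - avgOp (fun (d : Fin (K * K')) A => G.stepF F T p q j K d A) f A)) := by
  have hq' : (0 : ℝ) < q := by exact_mod_cast (by omega : 0 < q)
  -- the left side
  have h1 : (G.chainSys F T (G.wj ((p : ℝ) / q) j)).En f =
      1 / q * ∑ A, ∑ e, G.nuJ F T p q j A * chsC G F T p q j A e *
        (f A - f (symmDiff A {e})) ^ 2 := by
    unfold Sys.En
    rw [Finset.mul_sum]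
    refine Finset.sum_congr rfl fun A _ => ?_
    rw [Finset.mul_sum]
    change ∑ e ∈ univ \ F, min (G.nuJ F T p q j A) (G.nuJ F T p q j (symmDiff A {e})) *
      (f A - f (symmDiff A {e})) ^ 2 = _
    have h2 : ∑ e, 1 / (q : ℝ) * (G.nuJ F T p q j A * chsC G F T p q j A e *
        (f A - f (symmDiff A {e})) ^ 2) = ∑ e ∈ univ \ F, 1 / (q : ℝ) *
          (G.nuJ F T p q j A * chsC G F T p q j A e * (f A - f (symmDiff A {e})) ^ 2) := by
      symm
      refine Finset.sum_subset (Finset.subset_univ _) fun e _ he => ?_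
      rw [Finset.mem_sdiff, not_and, not_not] at he
      have h3 : chsC G F T p q j A e = 0 := by
        unfold chsC
        rw [if_neg (fun h => h.1 (he (Finset.mem_univ e)))]
      rw [h3, mul_zero, zero_mul, mul_zero]
    rw [h2]
    refine Finset.sum_congr rfl fun e he => ?_
    rw [Finset.mem_sdiff] at he
    rw [G.chs_bal F T p q j hp hpq A e he.2]
    field_simp
  -- the right side
  have h2 : (2 * (K * K') / q : ℝ) * ∑ A, G.nuJ F T p q j A *
        (f A * (f A - avgOp (fun (d : Fin (K * K')) A => G.stepF F T p q j K d A) f A)) =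
      1 / q * ∑ A, ∑ e, 2 * (G.nuJ F T p q j A * chsC G F T p q j A e *
        (f A * (f A - f (symmDiff A {e})))) := by
    rw [Finset.mul_sum, Finset.mul_sum]
    refine Finset.sum_congr rfl fun A _ => ?_
    have h3 := G.chs_avg F T p q j K K' hpq hK hK0 hK' f A
    calc _ = 2 / q * G.nuJ F T p q j A * f A * (((K : ℝ) * K') * f A - ((K : ℝ) * K') *
          avgOp (fun (d : Fin (K * K')) A => G.stepF F T p q j K d A) f A) := by ring
      _ = _ := by
        rw [h3, sub_add_cancel_left, Finset.mul_sum, ← Finset.sum_neg_distrib, Finset.mul_sum]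
        refine Finset.sum_congr rfl fun e _ => ?_
        ring
  rw [h1, h2]
  congr 1
  rw [Finset.sum_comm, Finset.sum_comm (s := univ (α := Finset (Fin G.m)))]
  refine Finset.sum_congr rfl fun e _ => ?_
  have h3 : ∀ A, G.nuJ F T p q j A * chsC G F T p q j A e * (f A - f (symmDiff A {e})) ^ 2 =
      G.nuJ F T p q j A * chsC G F T p q j A e * (f A * (f A - f (symmDiff A {e}))) +
        G.nuJ F T p q j A * chsC G F T p q j A e *
          (f (symmDiff A {e}) * (f (symmDiff A {e}) - f A)) := fun A => by ring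
  have h4 : ∑ A, G.nuJ F T p q j A * chsC G F T p q j A e *
          (f (symmDiff A {e}) * (f (symmDiff A {e}) - f A)) =
      ∑ A, G.nuJ F T p q j A * chsC G F T p q j A e * (f A * (f A - f (symmDiff A {e}))) := by
    rw [← G.chs_swap e (fun A => G.nuJ F T p q j A * chsC G F T p q j A e *
      (f A * (f A - f (symmDiff A {e}))))]
    refine Finset.sum_congr rfl fun A _ => ?_
    rw [G.chs_sym F T p q j hp hpq A e, G.chs_invol]
  rw [Finset.sum_congr rfl fun A _ => h3 A, Finset.sum_add_distrib, h4, ← Finset.mul_sum]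
  ring

end step

end MGraph

end Pool.Agent.Lib.H2
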