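import Pool.Agent.Lib.MP_3493b8_lc.Poinc1

/-! Theorem P. -/

set_option autoImplicit false

open Finset

namespace Pool.Agent.Lib.H2

namespace Sys

variable {ι V : Type} [Fintype ι] [DecidableEq ι] [AddCommGroup V] [DecidableEq V] (s : Sys ι V)

/-- Theorem P (Poincaré inequality). -/
theorem poincare (κ : ℝ) (h : s.Ok κ) (hZ : 0 < s.Z 0) (f : Finset ι → ℝ) :
    (∑ A : Finset ι, s.nu A) * (∑ A : Finset ι, s.nu A * f A ^ 2) - (∑ A : Finset ι, s.nu A * f A) ^ 2 ≤
      (s.E0.card : ℝ) * κ * (∑ A : Finset ι, s.nu A) * s.En f := by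
  have hnu : ∀ A : Finset ι, 0 ≤ s.nu A := fun A => by
    unfold nu
    split_ifs with hA
    · exact mul_nonneg (Finset.prod_nonneg fun i _ => (h.w_pos i).le) (h.g_pos _ hA.2).le
    · exact le_rfl
  have hW : (∑ J : Finset ι, if s.bd J = s.T then s.nu J else 0) = s.g 0 * s.Z 0 := by
    unfold Z
    rw [Finset.mul_sum]
    refine (Finset.sum_subset (Finset.subset_univ s.E0.powerset) fun J _ hJ => ?_).symm.trans
      (Finset.sum_congr rfl fun J hJ => ?_)
    · have h1 : ¬ J ⊆ s.E0 := fun h1 => hJ (Finset.mem_powerset.2 h1)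
      have h2 : s.nu J = 0 := by
        unfold nu
        rw [if_neg fun h2 => h1 h2.1]
      rw [h2, ite_self]
    · rw [add_zero]
      by_cases hb : s.bd J = s.T
      · rw [if_pos hb, if_pos hb]
        unfold nu
        rw [hb, h.two, if_pos ⟨Finset.mem_powerset.1 hJ, h.zero_mem⟩, mul_comm]
      · rw [if_neg hb, if_neg hb, mul_zero]
  have hWpos : 0 < (∑ J : Finset ι, if s.bd J = s.T then s.nu J else 0) := by
    rw [hW]
    exact mul_pos (h.g_pos 0 h.zero_mem) hZ
  have hN : 0 ≤ ∑ A : Finset ι, s.nu A := Finset.sum_nonneg fun A _ => hnu A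
  have hone : ∀ J : Finset ι,
      (∑ A : Finset ι, s.nu A) * (∑ A : Finset ι, s.nu A * f A ^ 2) -
          (∑ A : Finset ι, s.nu A * f A) ^ 2 ≤
        (∑ A : Finset ι, s.nu A) * ∑ I : Finset ι, s.nu I * (f I - f J) ^ 2 := fun J => by
    have h1 : ∑ I : Finset ι, s.nu I * (f I - f J) ^ 2 =
        (∑ A : Finset ι, s.nu A * f A ^ 2) - 2 * f J * (∑ A : Finset ι, s.nu A * f A) +
          f J ^ 2 * (∑ A : Finset ι, s.nu A) := by
      rw [Finset.mul_sum, Finset.mul_sum, ← Finset.sum_sub_distrib, ← Finset.sum_add_distrib]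
      exact Finset.sum_congr rfl fun I _ => by ring
    rw [h1]
    nlinarith [sq_nonneg ((∑ A : Finset ι, s.nu A) * f J - ∑ A : Finset ι, s.nu A * f A)]
  have hp := s.paths κ h f
  rw [Finset.sum_comm] at hp
  have h2 : (∑ J : Finset ι, if s.bd J = s.T then s.nu J else 0) *
      ((∑ A : Finset ι, s.nu A) * (∑ A : Finset ι, s.nu A * f A ^ 2) -
          (∑ A : Finset ι, s.nu A * f A) ^ 2) ≤
      (∑ A : Finset ι, s.nu A) * ∑ J : Finset ι, ∑ I : Finset ι,
        (if s.bd J = s.T then s.nu I * s.nu J * (f I - f J) ^ 2 else 0) := by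
    rw [Finset.sum_mul Finset.univ]
    refine (Finset.sum_le_sum fun J _ => ?_).trans_eq (Finset.mul_sum Finset.univ _ _).symm
    by_cases hb : s.bd J = s.T
    · simp only [if_pos hb]
      have h3 : ∑ I : Finset ι, s.nu I * s.nu J * (f I - f J) ^ 2 =
          s.nu J * ∑ I : Finset ι, s.nu I * (f I - f J) ^ 2 := by
        rw [Finset.mul_sum]
        exact Finset.sum_congr rfl fun I _ => by ring
      rw [h3]
      calc s.nu J * ((∑ A : Finset ι, s.nu A) * (∑ A : Finset ι, s.nu A * f A ^ 2) -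
          (∑ A : Finset ι, s.nu A * f A) ^ 2)
          ≤ s.nu J * ((∑ A : Finset ι, s.nu A) * ∑ I : Finset ι, s.nu I * (f I - f J) ^ 2) :=
            mul_le_mul_of_nonneg_left (hone J) (hnu J)
        _ = _ := by ring
    · simp only [if_neg hb, zero_mul, Finset.sum_const_zero, mul_zero]
      exact le_rfl
  have h4 := mul_le_mul_of_nonneg_left hp hN
  have h5 := h2.trans h4
  refine le_of_mul_le_mul_left (h5.trans (le_of_eq ?_)) hWpos
  ring

end Sys

end Pool.Agent.Lib.H2
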