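import Pool.Agent.Lib.MP_3493b8_lc.ChainO
import Pool.Agent.Lib.MP_3493b8_lc.ChainS
import Pool.Agent.Lib.MP_3493b8_lc.Poinc

/-! Convergence of the chain of the algorithm. -/

set_option autoImplicit false

open Finset

namespace Pool.Agent.Lib.H2

namespace MGraph

variable (G : MGraph)

private theorem wj_bd (p q j : ℕ) (hp : 0 < p) (hpq : p < q) (i : Fin G.m) :
    1 / (q : ℝ) ≤ G.wj ((p : ℝ) / q) j i ∧ G.wj ((p : ℝ) / q) j i ≤ 1 := by
  have hq : (0 : ℝ) < q := by exact_mod_cast hp.trans hpq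
  have hp1 : (1 : ℝ) ≤ p := by exact_mod_cast hp
  have hpq' : (p : ℝ) ≤ q := by exact_mod_cast hpq.le
  unfold wj
  split_ifs with h
  · exact ⟨div_le_div_of_nonneg_right hp1 hq.le, (div_le_one hq).2 hpq'⟩
  · exact ⟨(div_le_one hq).2 (hp1.trans hpq'), le_rfl⟩

private theorem Z_pos (F : Finset (Fin G.m)) (p q j : ℕ) (hp : 0 < p) (hpq : p < q)
    (A : Finset (Fin G.m)) (hA : Disjoint A F) :
    0 < (G.chainSys F (G.bd A) (G.wj ((p : ℝ) / q) j)).Z 0 := by
  have hq : (0 : ℝ) < q := by exact_mod_cast hp.trans hpq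
  have hw : ∀ i, 0 < G.wj ((p : ℝ) / q) j i := fun i =>
    lt_of_lt_of_le (one_div_pos.2 hq) (G.wj_bd p q j hp hpq i).1
  rw [chainSys_Z, add_zero, Zs]
  have h1 : 0 < (if Disjoint A F ∧ G.bd A = G.bd A then ∏ i ∈ A, G.wj ((p : ℝ) / q) j i
      else 0) := by
    rw [if_pos ⟨hA, rfl⟩]
    exact prod_pos fun i _ => hw i
  refine lt_of_lt_of_le h1 (single_le_sum (f := fun B : Finset (Fin G.m) =>
    if Disjoint B F ∧ G.bd B = G.bd A then ∏ i ∈ B, G.wj ((p : ℝ) / q) j i else 0)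
    (fun B _ => ?_) (mem_univ A))
  split_ifs
  · exact prod_nonneg fun i _ => (hw i).le
  · exact le_rfl

/-- Convergence of the chain of stage `j`. -/
theorem chain_mix {F : Finset (Fin G.m)} {D : ℕ} (h : G.Short F D) (p q j K K' : ℕ) (hp : 0 < p)
    (hpq : p < q) (hK : G.m ≤ K) (hK0 : 0 < K) (hK' : 2 * q ≤ K') (A : Finset (Fin G.m))
    (hA : Disjoint A F) (f : Finset (Fin G.m) → ℝ) (hf : ∀ B, |f B| ≤ 1) (t : ℕ) :
    (avgIt (fun (d : Fin (K * K')) B => G.stepF F (G.bd A) p q j K d B) f t A -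
        (∑ B, G.nuJ F (G.bd A) p q j B * f B) / (∑ B, G.nuJ F (G.bd A) p q j B)) ^ 2 ≤
      (1 - 1 / (G.relax D q K K' : ℝ)) ^ t * (2 * (q : ℝ)) ^ G.m := by
  have hq0 : 0 < q := hp.trans hpq
  have hq : (0 : ℝ) < q := by exact_mod_cast hq0
  have hq1 : (1 : ℝ) ≤ q := by exact_mod_cast hq0
  have hK'0 : 0 < K' := by omega
  have hne : Nonempty (Fin (K * K')) := ⟨⟨0, Nat.mul_pos hK0 hK'0⟩⟩
  set R : ℝ := (G.relax D q K K' : ℝ) with hR
  have hRv : R = 2 * G.m * (((G.n : ℝ) + 1) ^ 2 * (q : ℝ) ^ (2 * D)) * (K * K') + 1 := by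
    rw [hR, relax]
    push_cast
    ring
  have hR1 : 1 ≤ R := by
    rw [hRv]
    have : (0 : ℝ) ≤ 2 * G.m * (((G.n : ℝ) + 1) ^ 2 * (q : ℝ) ^ (2 * D)) * (K * K') := by
      positivity
    linarith
  have hge := G.nuJ_ge F p q j hp hpq A hA
  have hpos : 0 < G.nuJ F (G.bd A) p q j A :=
    lt_of_lt_of_le (one_div_pos.2 (pow_pos hq _)) hge
  have hnn := G.nuJ_nonneg F (G.bd A) p q j
  have hmix := mix (fun (d : Fin (K * K')) B => G.stepF F (G.bd A) p q j K d B)
    (G.nuJ F (G.bd A) p q j) hnn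
    (G.step_rev F (G.bd A) p q j K K' hp hpq hK hK0 hK')
    (G.step_lazy F (G.bd A) p q j K K' hpq hK hK0 hK') R hR1 (by
      intro f
      have h1 := (G.chainSys F (G.bd A) (G.wj ((p : ℝ) / q) j)).poincare _
        (G.chain_ok h (G.wj ((p : ℝ) / q) j) q hq1 (G.wj_bd p q j hp hpq) A hA)
        (G.Z_pos F p q j hp hpq A hA) f
      have h2 : 0 ≤ (G.chainSys F (G.bd A) (G.wj ((p : ℝ) / q) j)).En f :=
        sum_nonneg fun B _ => sum_nonneg fun e _ =>
          mul_nonneg (le_min (hnn B) (hnn _)) (sq_nonneg _)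
      rw [G.step_energy F (G.bd A) p q j K K' hp hpq hK hK0 hK' f] at h1 h2
      set E : ℝ := ∑ B, G.nuJ F (G.bd A) p q j B *
        (f B * (f B - avgOp (fun (d : Fin (K * K')) B => G.stepF F (G.bd A) p q j K d B) f B))
        with hE
      set S : ℝ := ∑ B, G.nuJ F (G.bd A) p q j B with hS
      have hS0 : 0 ≤ S := sum_nonneg fun B _ => hnn B
      have hKK : (0 : ℝ) < 2 * (K * K') / q := by
        have h3 : (0 : ℝ) < K := by exact_mod_cast hK0
        have h4 : (0 : ℝ) < K' := by exact_mod_cast hK'0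
        positivity
      have hE0 : 0 ≤ E := nonneg_of_mul_nonneg_right h2 hKK
      refine h1.trans ?_
      set κ : ℝ := ((G.n : ℝ) + 1) ^ 2 * (q : ℝ) ^ (2 * D) with hκ
      have hκ0 : 0 ≤ κ := by positivity
      have hc : ((G.chainSys F (G.bd A) (G.wj ((p : ℝ) / q) j)).E0.card : ℝ) ≤ G.m := by
        have h5 := card_le_univ (G.chainSys F (G.bd A) (G.wj ((p : ℝ) / q) j)).E0
        rw [Fintype.card_fin] at h5
        exact_mod_cast h5
      have h6 : (2 * (K * K') / q : ℝ) ≤ 2 * (K * K') :=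
        div_le_self (by positivity) hq1
      have h7 : ((G.chainSys F (G.bd A) (G.wj ((p : ℝ) / q) j)).E0.card : ℝ) * κ *
          (2 * (K * K') / q : ℝ) ≤ R := by
        calc ((G.chainSys F (G.bd A) (G.wj ((p : ℝ) / q) j)).E0.card : ℝ) * κ *
              (2 * (K * K') / q : ℝ) ≤ G.m * κ * (2 * (K * K')) :=
              mul_le_mul (mul_le_mul_of_nonneg_right hc hκ0) h6 hKK.le (by positivity)
          _ ≤ R := by
            rw [hRv]
            linarith
      calc ((G.chainSys F (G.bd A) (G.wj ((p : ℝ) / q) j)).E0.card : ℝ) * κ * S *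
            ((2 * (K * K') / q : ℝ) * E) =
            ((G.chainSys F (G.bd A) (G.wj ((p : ℝ) / q) j)).E0.card : ℝ) * κ *
              (2 * (K * K') / q : ℝ) * (S * E) := by ring
        _ ≤ R * (S * E) := mul_le_mul_of_nonneg_right h7 (mul_nonneg hS0 hE0)
        _ = R * S * E := by ring) A hpos f hf t
  refine hmix.trans (mul_le_mul_of_nonneg_left ?_ (pow_nonneg ?_ t))
  · rw [div_le_iff₀ hpos]
    have h8 := G.nuJ_sum_le F (G.bd A) p q j hpq
    refine h8.trans ?_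
    have h9 : (2 : ℝ) ^ G.m = (2 * (q : ℝ)) ^ G.m * (1 / (q : ℝ) ^ G.m) := by
      rw [mul_pow]
      field_simp
    rw [h9]
    exact mul_le_mul_of_nonneg_left hge (by positivity)
  · rw [sub_nonneg, div_le_one (by linarith)]
    exact hR1

end MGraph

end Pool.Agent.Lib.H2
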