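import Pool.Agent.Lib.MP_3493b8_lc.Short0

/-! Moving defects along short paths. -/

set_option autoImplicit false

open Finset

namespace Pool.Agent.Lib.H2

namespace MGraph

variable (G : MGraph)

private theorem short_mem (y : Fin G.n → ZMod 2) (v : Fin G.n) : v ∈ G.supp y ↔ y v ≠ 0 := by
  unfold supp
  rw [mem_filter]
  exact ⟨fun h => h.2, fun h => ⟨mem_univ _, h⟩⟩

private theorem short_one {x : ZMod 2} (h : x ≠ 0) : x = 1 := by
  revert x
  decide

private theorem short_zero {y : Fin G.n → ZMod 2} (h : G.supp y = ∅) : y = 0 := by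
  funext v
  by_contra hv
  have h1 : v ∈ G.supp y := (G.short_mem y v).2 hv
  rw [h] at h1
  exact Finset.notMem_empty v h1

private theorem short_disj {F X P : Finset (Fin G.m)} (hX : Disjoint X F) (hP : Disjoint P F) :
    Disjoint (symmDiff X P) F := by
  refine Disjoint.mono_left ?_ (Finset.disjoint_union_left.2 ⟨hX, hP⟩)
  intro i hi
  rw [Finset.mem_symmDiff] at hi
  rw [Finset.mem_union]
  rcases hi with hi | hi
  · exact Or.inl hi.1
  · exact Or.inr hi.1

private theorem short_gen {F : Finset (Fin G.m)} {D : ℕ} (h : G.Short F D) (k : ℕ) :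
    ∀ A : Finset (Fin G.m), Disjoint A F → (G.supp (G.bd A)).card ≤ 2 * k →
      ∃ P, Disjoint P F ∧ G.bd P = G.bd A ∧ P.card ≤ k * D := by
  induction k with
  | zero =>
    intro A _ hc
    have h1 : G.supp (G.bd A) = ∅ := Finset.card_eq_zero.1 (by omega)
    exact ⟨∅, Finset.disjoint_empty_left _, by rw [G.bd_empty, G.short_zero h1],
      by rw [Finset.card_empty]; exact Nat.zero_le _⟩
  | succ k ih =>
    intro A hA hc
    rcases Finset.eq_empty_or_nonempty (G.supp (G.bd A)) with h0 | ⟨a, ha⟩
    · exact ⟨∅, Finset.disjoint_empty_left _, by rw [G.bd_empty, G.short_zero h0],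
        by rw [Finset.card_empty]; exact Nat.zero_le _⟩
    · obtain ⟨b, hb, hba, Q, hQA, hQ⟩ := G.peel A a ha
      have hQF : Disjoint Q F := hA.mono_left hQA
      obtain ⟨P₁, hP₁F, hP₁, hP₁c⟩ := h a b Q hQF hQ
      have hbd : G.bd (symmDiff A Q) = G.bd A + (Pi.single a 1 + Pi.single b 1) := by
        rw [G.bd_symmDiff, hQ]
      have hsub : G.supp (G.bd (symmDiff A Q)) ⊆ ((G.supp (G.bd A)).erase a).erase b := by
        intro v hv
        rw [short_mem, hbd, Pi.add_apply, Pi.add_apply] at hv
        rw [short_mem] at ha hb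
        rw [mem_erase, mem_erase, short_mem]
        refine ⟨?_, ?_, ?_⟩
        · rintro rfl
          apply hv
          rw [short_one hb, Pi.single_eq_same, Pi.single_eq_of_ne hba]
          decide
        · rintro rfl
          apply hv
          rw [short_one ha, Pi.single_eq_same, Pi.single_eq_of_ne (Ne.symm hba)]
          decide
        · intro h3
          by_cases hva : v = a
          · subst hva
            exact ha h3
          · by_cases hvb : v = b
            · subst hvb
              exact hb h3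
            · apply hv
              rw [h3, Pi.single_eq_of_ne hva, Pi.single_eq_of_ne hvb]
              decide
      have hcard : (G.supp (G.bd (symmDiff A Q))).card ≤ 2 * k := by
        have h3 := Finset.card_le_card hsub
        rw [Finset.card_erase_of_mem (mem_erase.2 ⟨hba, hb⟩), Finset.card_erase_of_mem ha] at h3
        omega
      obtain ⟨P₂, hP₂F, hP₂, hP₂c⟩ := ih (symmDiff A Q) (G.short_disj hA hQF) hcard
      refine ⟨symmDiff P₁ P₂, G.short_disj hP₁F hP₂F, ?_, ?_⟩
      · rw [G.bd_symmDiff, hP₁, hP₂, hbd]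
        have h3 := G.zmod_add_self (Pi.single a 1 + Pi.single b 1)
        calc (Pi.single a 1 + Pi.single b 1 : Fin G.n → ZMod 2) +
              (G.bd A + (Pi.single a 1 + Pi.single b 1)) =
              G.bd A + ((Pi.single a 1 + Pi.single b 1) + (Pi.single a 1 + Pi.single b 1)) := by
              abel
          _ = G.bd A := by rw [h3, add_zero]
      · have h3 : (symmDiff P₁ P₂).card ≤ P₁.card + P₂.card := by
          refine le_trans (Finset.card_le_card ?_) (Finset.card_union_le _ _)
          intro i hi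
          rw [Finset.mem_symmDiff] at hi
          rw [Finset.mem_union]
          rcases hi with hi | hi
          · exact Or.inl hi.1
          · exact Or.inr hi.1
        have h4 : (k + 1) * D = k * D + D := by ring
        omega

/-- a set with at most four odd vertices can be replaced by a short one -/
theorem short_four {F : Finset (Fin G.m)} {D : ℕ} (h : G.Short F D) (A : Finset (Fin G.m))
    (hA : Disjoint A F) (hc : (G.supp (G.bd A)).card ≤ 4) :
    ∃ P, Disjoint P F ∧ G.bd P = G.bd A ∧ P.card ≤ 2 * D :=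
  G.short_gen h 2 A hA hc

private theorem short_wt (w : Fin G.m → ℝ) (q : ℝ) (hq : 1 ≤ q)
    (hw : ∀ i, 1 / q ≤ w i ∧ w i ≤ 1) (X P : Finset (Fin G.m)) (k : ℕ) (hk : P.card ≤ k) :
    ∏ i ∈ X, w i ≤ q ^ k * ∏ i ∈ symmDiff X P, w i := by
  have hq0 : 0 < q := by linarith
  have hw0 : ∀ i, 0 < w i := fun i => lt_of_lt_of_le (by positivity) (hw i).1
  have h1 : ∏ i ∈ X, w i = (∏ i ∈ X \ P, w i) * ∏ i ∈ X ∩ P, w i := by
    rw [mul_comm]
    exact (Finset.prod_inter_mul_prod_sdiff X P w).symm
  have h2 : ∏ i ∈ symmDiff X P, w i = (∏ i ∈ X \ P, w i) * ∏ i ∈ P \ X, w i := by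
    have e : symmDiff X P = (X \ P) ∪ (P \ X) := rfl
    rw [e]
    refine Finset.prod_union ?_
    rw [Finset.disjoint_left]
    intro i hi hi'
    rw [Finset.mem_sdiff] at hi hi'
    exact hi.2 hi'.1
  have hpos : 0 ≤ ∏ i ∈ X \ P, w i := Finset.prod_nonneg fun i _ => (hw0 i).le
  have h3 : ∏ i ∈ X ∩ P, w i ≤ 1 := Finset.prod_le_one (fun i _ => (hw0 i).le) fun i _ => (hw i).2
  have h4 : (1 / q) ^ k ≤ ∏ i ∈ P \ X, w i := by
    have h5 : ∏ _i ∈ P \ X, (1 / q) ≤ ∏ i ∈ P \ X, w i :=
      Finset.prod_le_prod (fun _ _ => by positivity) fun i _ => (hw i).1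
    rw [Finset.prod_const] at h5
    refine le_trans ?_ h5
    refine pow_le_pow_of_le_one (by positivity) ?_ ((Finset.card_le_card Finset.sdiff_subset).trans hk)
    rw [div_le_one hq0]
    exact hq
  have h5 : 1 ≤ q ^ k * ∏ i ∈ P \ X, w i := by
    have h6 : q ^ k * (1 / q) ^ k = 1 := by
      rw [← mul_pow, mul_one_div_cancel hq0.ne', one_pow]
    rw [← h6]
    exact mul_le_mul_of_nonneg_left h4 (by positivity)
  rw [h1, h2]
  calc (∏ i ∈ X \ P, w i) * ∏ i ∈ X ∩ P, w i ≤ (∏ i ∈ X \ P, w i) * 1 :=
        mul_le_mul_of_nonneg_left h3 hpos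
    _ ≤ (∏ i ∈ X \ P, w i) * (q ^ k * ∏ i ∈ P \ X, w i) := mul_le_mul_of_nonneg_left h5 hpos
    _ = _ := by ring

/-- the ratio of two classes of sets differing in at most four defects -/
theorem Zs_ratio {F : Finset (Fin G.m)} {D : ℕ} (h : G.Short F D) (w : Fin G.m → ℝ) (q : ℝ)
    (hq : 1 ≤ q) (hw : ∀ i, 1 / q ≤ w i ∧ w i ≤ 1) (T y : Fin G.n → ZMod 2)
    (A : Finset (Fin G.m)) (hA : Disjoint A F) (hT : G.bd A = T) (hy : (G.supp y).card ≤ 4) :
    G.Zs F w (T + y) ≤ q ^ (2 * D) * G.Zs F w T := by
  classical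
  have hq0 : 0 < q := by linarith
  have hw0 : ∀ i, 0 < w i := fun i => lt_of_lt_of_le (by positivity) (hw i).1
  have hZ0 : 0 ≤ G.Zs F w T := by
    unfold Zs
    refine Finset.sum_nonneg fun X _ => ?_
    split_ifs
    · exact Finset.prod_nonneg fun i _ => (hw0 i).le
    · exact le_rfl
  by_cases hB : ∃ B : Finset (Fin G.m), Disjoint B F ∧ G.bd B = T + y
  · obtain ⟨B, hBF, hB⟩ := hB
    have hC : G.bd (symmDiff A B) = y := by
      rw [G.bd_symmDiff, hT, hB, ← add_assoc, G.zmod_add_self, zero_add]
    obtain ⟨P, hPF, hP, hPc⟩ := G.short_four h (symmDiff A B) (G.short_disj hA hBF)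
      (by rw [hC]; exact hy)
    rw [hC] at hP
    have hiff : ∀ X : Finset (Fin G.m), (Disjoint X F ∧ G.bd X = T + y) ↔
        (Disjoint (symmDiff X P) F ∧ G.bd (symmDiff X P) = T) := by
      intro X
      constructor
      · rintro ⟨h1, h2⟩
        refine ⟨G.short_disj h1 hPF, ?_⟩
        rw [G.bd_symmDiff, h2, hP, add_assoc, G.zmod_add_self, add_zero]
      · rintro ⟨h1, h2⟩
        have h3 := G.short_disj h1 hPF
        rw [symmDiff_symmDiff_cancel_right] at h3
        refine ⟨h3, ?_⟩
        rw [G.bd_symmDiff, hP] at h2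
        rw [← h2, add_assoc, G.zmod_add_self, add_zero]
    unfold Zs
    rw [Finset.mul_sum]
    rw [← Equiv.sum_comp (Function.Involutive.toPerm (fun X : Finset (Fin G.m) => symmDiff X P)
      (fun X => symmDiff_symmDiff_cancel_right P X))
      (fun X => q ^ (2 * D) * if Disjoint X F ∧ G.bd X = T then ∏ i ∈ X, w i else 0)]
    refine Finset.sum_le_sum fun X _ => ?_
    change _ ≤ q ^ (2 * D) * if Disjoint (symmDiff X P) F ∧ G.bd (symmDiff X P) = T then
      ∏ i ∈ symmDiff X P, w i else 0
    by_cases hX : Disjoint X F ∧ G.bd X = T + y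
    · rw [if_pos hX, if_pos ((hiff X).1 hX)]
      exact G.short_wt w q hq hw X P (2 * D) hPc
    · rw [if_neg hX, if_neg (fun h1 => hX ((hiff X).2 h1)), mul_zero]
  · have h0 : G.Zs F w (T + y) = 0 := by
      unfold Zs
      refine Finset.sum_eq_zero fun X _ => if_neg fun h1 => hB ⟨X, h1⟩
    rw [h0]
    positivity

/-- the number of vectors with at most two nonzero entries -/
theorem card_two : ((univ : Finset (Fin G.n → ZMod 2)).filter fun y => (G.supp y).card ≤ 2).card ≤
    (G.n + 1) ^ 2 := by
  classical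
  let g : Option (Fin G.n) → Fin G.n → ZMod 2 := fun o => o.elim 0 fun a => Pi.single a 1
  have hsub : ((univ : Finset (Fin G.n → ZMod 2)).filter fun y => (G.supp y).card ≤ 2) ⊆
      (univ : Finset (Option (Fin G.n) × Option (Fin G.n))).image fun p => g p.1 + g p.2 := by
    intro y hy
    rw [mem_filter] at hy
    rw [mem_image]
    have h3 : (G.supp y).card = 0 ∨ (G.supp y).card = 1 ∨ (G.supp y).card = 2 := by
      have := hy.2
      omega
    rcases h3 with h3 | h3 | h3
    · refine ⟨(none, none), mem_univ _, ?_⟩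
      rw [G.short_zero (Finset.card_eq_zero.1 h3)]
      exact add_zero _
    · obtain ⟨a, ha⟩ := Finset.card_eq_one.1 h3
      refine ⟨(some a, none), mem_univ _, ?_⟩
      change Pi.single a 1 + 0 = y
      rw [add_zero]
      funext v
      by_cases hv : v = a
      · subst hv
        rw [Pi.single_eq_same]
        exact (short_one ((G.short_mem y v).1 (by rw [ha]; exact mem_singleton_self v))).symm
      · rw [Pi.single_eq_of_ne hv]
        by_contra h0
        have h4 : v ∈ G.supp y := (G.short_mem y v).2 (Ne.symm h0)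
        rw [ha, mem_singleton] at h4
        exact hv h4
    · obtain ⟨a, b, hab, he⟩ := Finset.card_eq_two.1 h3
      refine ⟨(some a, some b), mem_univ _, ?_⟩
      change Pi.single a 1 + Pi.single b 1 = y
      funext v
      rw [Pi.add_apply]
      by_cases hv : v = a
      · subst hv
        rw [Pi.single_eq_same, Pi.single_eq_of_ne hab, add_zero]
        exact (short_one ((G.short_mem y v).1 (by rw [he]; simp))).symm
      · by_cases hvb : v = b
        · subst hvb
          rw [Pi.single_eq_same, Pi.single_eq_of_ne hv, zero_add]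
          exact (short_one ((G.short_mem y v).1 (by rw [he]; simp))).symm
        · rw [Pi.single_eq_of_ne hv, Pi.single_eq_of_ne hvb, add_zero]
          by_contra h0
          have h4 : v ∈ G.supp y := (G.short_mem y v).2 (Ne.symm h0)
          rw [he, mem_insert, mem_singleton] at h4
          rcases h4 with h4 | h4
          · exact hv h4
          · exact hvb h4
  refine (Finset.card_le_card hsub).trans (Finset.card_image_le.trans ?_)
  rw [Finset.card_univ, Fintype.card_prod, Fintype.card_option, Fintype.card_fin, sq]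

end MGraph

end Pool.Agent.Lib.H2
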