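import Pool.Agent.Lib.MP_3493b8_lc.StepF
import Pool.Agent.Lib.MP_3493b8_lc.Short

/-! The hypotheses of Theorem P for the chain; the base class. -/

set_option autoImplicit false

open Finset

namespace Pool.Agent.Lib.H2

namespace MGraph

variable (G : MGraph)

private theorem chO_sub (F B : Finset (Fin G.m)) : B ⊆ univ \ F ↔ Disjoint B F := by
  rw [subset_sdiff]
  exact ⟨fun h => h.2, fun h => ⟨subset_univ _, h⟩⟩

private theorem chO_add (x y T : Fin G.n → ZMod 2) : x + T = y ↔ x = T + y := by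
  constructor
  · rintro rfl
    rw [add_comm x T, ← add_assoc, G.zmod_add_self, zero_add]
  · rintro rfl
    rw [add_comm T y, add_assoc, G.zmod_add_self, add_zero]

private theorem chO_supp_zero : (G.supp 0).card ≤ 2 := by
  have h : G.supp 0 = ∅ := by
    unfold supp
    refine filter_eq_empty_iff.2 fun v _ => ?_
    simp
  rw [h]
  simp

private theorem chO_nuJ (F : Finset (Fin G.m)) (T : Fin G.n → ZMod 2) (p q j : ℕ)
    (B : Finset (Fin G.m)) : G.nuJ F T p q j B =
      if Disjoint B F ∧ (G.supp (G.bd B + T)).card ≤ 2 then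
        ∏ i ∈ B, G.wj ((p : ℝ) / q) j i else 0 := by
  have h1 : (B ⊆ univ \ F ∧ G.bd B + T ∈ univ.filter fun y => (G.supp y).card ≤ 2) ↔
      (Disjoint B F ∧ (G.supp (G.bd B + T)).card ≤ 2) := by
    rw [G.chO_sub, mem_filter]
    exact ⟨fun h => ⟨h.1, h.2.2⟩, fun h => ⟨h.1, mem_univ _, h.2⟩⟩
  unfold nuJ Sys.nu Sys.wt chainSys
  simp only [mul_one]
  by_cases h : Disjoint B F ∧ (G.supp (G.bd B + T)).card ≤ 2
  · rw [if_pos (h1.2 h), if_pos h]
  · rw [if_neg (fun h2 => h (h1.1 h2)), if_neg h]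

private theorem chO_w {p q : ℕ} (hp : 0 < p) (hpq : p < q) (j : ℕ) (i : Fin G.m) :
    1 / (q : ℝ) ≤ G.wj ((p : ℝ) / q) j i ∧ G.wj ((p : ℝ) / q) j i ≤ 1 := by
  have hq : (0 : ℝ) < q := by
    have : 0 < q := by omega
    exact_mod_cast this
  have hp1 : (1 : ℝ) ≤ p := by exact_mod_cast hp
  have hpq1 : (p : ℝ) ≤ q := by exact_mod_cast hpq.le
  have hq1 : (1 : ℝ) ≤ q := hp1.trans hpq1
  unfold wj
  split_ifs
  · exact ⟨div_le_div_of_nonneg_right hp1 hq.le, (div_le_one hq).2 hpq1⟩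
  · exact ⟨(div_le_one hq).2 hq1, le_rfl⟩

private theorem chO_w0 (p q j : ℕ) (i : Fin G.m) : 0 ≤ G.wj ((p : ℝ) / q) j i := by
  unfold wj
  split_ifs
  · positivity
  · exact zero_le_one

private theorem chO_Zs_nonneg (F : Finset (Fin G.m)) (w : Fin G.m → ℝ) (hw : ∀ i, 0 ≤ w i)
    (T : Fin G.n → ZMod 2) : 0 ≤ G.Zs F w T := by
  unfold Zs
  refine sum_nonneg fun A _ => ?_
  split_ifs
  · exact prod_nonneg fun i _ => hw i
  · exact le_rfl

/-- the bound for the sum over the classes -/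
private theorem chO_sum {F : Finset (Fin G.m)} {D : ℕ} (h : G.Short F D) (w : Fin G.m → ℝ) (q : ℝ)
    (hq : 1 ≤ q) (hw : ∀ i, 1 / q ≤ w i ∧ w i ≤ 1) (A : Finset (Fin G.m)) (hA : Disjoint A F)
    (y : Fin G.n → ZMod 2) (hy : (G.supp y).card ≤ 2) :
    ∑ y0 ∈ univ.filter (fun y => (G.supp y).card ≤ 2), G.Zs F w (G.bd A + (y0 + y)) ≤
      ((G.n : ℝ) + 1) ^ 2 * q ^ (2 * D) * G.Zs F w (G.bd A) := by
  have hq0 : 0 < q := lt_of_lt_of_le zero_lt_one hq
  have hw0 : ∀ i, 0 ≤ w i := fun i => le_trans (by positivity) (hw i).1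
  have hZ := G.chO_Zs_nonneg F w hw0 (G.bd A)
  calc ∑ y0 ∈ univ.filter (fun y => (G.supp y).card ≤ 2), G.Zs F w (G.bd A + (y0 + y))
      ≤ ∑ y0 ∈ univ.filter (fun y => (G.supp y).card ≤ 2), q ^ (2 * D) * G.Zs F w (G.bd A) := by
        refine sum_le_sum fun y0 hy0 => ?_
        have h1 := (mem_filter.1 hy0).2
        refine G.Zs_ratio h w q hq hw (G.bd A) (y0 + y) A hA rfl ?_
        have h2 := G.supp_add_le y0 y
        omega
    _ = ((univ.filter fun y : Fin G.n → ZMod 2 => (G.supp y).card ≤ 2).card : ℝ) *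
          (q ^ (2 * D) * G.Zs F w (G.bd A)) := by
        rw [sum_const, nsmul_eq_mul]
    _ ≤ ((G.n : ℝ) + 1) ^ 2 * (q ^ (2 * D) * G.Zs F w (G.bd A)) := by
        refine mul_le_mul_of_nonneg_right ?_ (mul_nonneg (by positivity) hZ)
        have h3 := G.card_two
        exact_mod_cast h3
    _ = _ := by ring

/-- class sums of the system -/
theorem chainSys_Z (F : Finset (Fin G.m)) (T y : Fin G.n → ZMod 2) (w : Fin G.m → ℝ) :
    (G.chainSys F T w).Z y = G.Zs F w (T + y) := by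
  have h1 : (univ \ F : Finset (Fin G.m)).powerset =
      univ.filter fun A : Finset (Fin G.m) => Disjoint A F := by
    ext B
    rw [mem_powerset, G.chO_sub, mem_filter]
    exact ⟨fun h => ⟨mem_univ _, h⟩, fun h => h.2⟩
  unfold Sys.Z Sys.wt chainSys Zs
  simp only
  rw [h1, sum_filter]
  refine sum_congr rfl fun B _ => ?_
  by_cases h2 : Disjoint B F
  · simp only [h2, if_true, true_and]
  · simp only [h2, if_false, false_and]

/-- The hypotheses of Theorem P. -/
theorem chain_ok {F : Finset (Fin G.m)} {D : ℕ} (h : G.Short F D) (w : Fin G.m → ℝ) (q : ℝ)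
    (hq : 1 ≤ q) (hw : ∀ i, 1 / q ≤ w i ∧ w i ≤ 1) (A : Finset (Fin G.m)) (hA : Disjoint A F) :
    (G.chainSys F (G.bd A) w).Ok (((G.n : ℝ) + 1) ^ 2 * q ^ (2 * D)) := by
  have hq0 : 0 < q := lt_of_lt_of_le zero_lt_one hq
  refine ⟨fun A B => G.bd_symmDiff A B, fun v => G.zmod_add_self v,
    fun i => lt_of_lt_of_le (by positivity) (hw i).1, fun y _ => zero_lt_one,
    mem_filter.2 ⟨mem_univ _, G.chO_supp_zero⟩, fun D' _ hD' hb => ?_, fun y hy _ => ?_,
    by positivity⟩
  · obtain ⟨e, he, he'⟩ := G.two_R D' hD' (mem_filter.1 hb).2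
    exact ⟨e, he, mem_filter.2 ⟨mem_univ _, he'⟩⟩
  · have h1 := G.chO_sum h w q hq hw A hA y (mem_filter.1 hy).2
    rw [G.chainSys_Z, add_zero]
    simp only [G.chainSys_Z]
    have h2 : (G.chainSys F (G.bd A) w).g = fun _ => 1 := rfl
    rw [h2]
    simp only [one_mul, mul_one]
    exact h1

/-- the base class has a polynomial share -/
theorem base_share {F : Finset (Fin G.m)} {D : ℕ} (h : G.Short F D) (p q j : ℕ) (hp : 0 < p)
    (hpq : p < q) (A : Finset (Fin G.m)) (hA : Disjoint A F) :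
    ∑ B, G.nuJ F (G.bd A) p q j B ≤ ((G.n : ℝ) + 1) ^ 2 * (q : ℝ) ^ (2 * D) *
      G.Zs F (G.wj ((p : ℝ) / q) j) (G.bd A) := by
  have hq1 : (1 : ℝ) ≤ q := by
    have : 1 ≤ q := by omega
    exact_mod_cast this
  have h1 := G.chO_sum h (G.wj ((p : ℝ) / q) j) q hq1 (fun i => G.chO_w hp hpq j i) A hA 0
    G.chO_supp_zero
  refine le_trans (le_of_eq ?_) h1
  unfold Zs
  rw [sum_comm]
  refine sum_congr rfl fun B _ => ?_
  rw [G.chO_nuJ]
  by_cases hB : Disjoint B F
  · simp only [hB, true_and, add_zero]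
    by_cases hs : (G.supp (G.bd B + G.bd A)).card ≤ 2
    · rw [if_pos hs, sum_eq_single (G.bd B + G.bd A)]
      · rw [if_pos ((G.chO_add _ _ _).1 rfl)]
      · intro y _ hy
        rw [if_neg]
        intro h2
        exact hy ((G.chO_add _ _ _).2 h2).symm
      · intro h2
        exact (h2 (mem_filter.2 ⟨mem_univ _, hs⟩)).elim
    · rw [if_neg hs]
      symm
      refine sum_eq_zero fun y hy => ?_
      rw [if_neg]
      intro h2
      apply hs
      rw [(G.chO_add _ _ _).2 h2]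
      exact (mem_filter.1 hy).2
  · simp only [hB, false_and, if_false, sum_const_zero]

theorem nuJ_nonneg (F : Finset (Fin G.m)) (T : Fin G.n → ZMod 2) (p q j : ℕ)
    (B : Finset (Fin G.m)) : 0 ≤ G.nuJ F T p q j B := by
  rw [G.chO_nuJ]
  split_ifs
  · exact prod_nonneg fun i _ => G.chO_w0 p q j i
  · exact le_rfl

/-- the total weight is at most `2 ^ m` -/
theorem nuJ_sum_le (F : Finset (Fin G.m)) (T : Fin G.n → ZMod 2) (p q j : ℕ) (hpq : p < q) :
    ∑ B, G.nuJ F T p q j B ≤ 2 ^ G.m := by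
  have h1 : ∀ B ∈ (univ : Finset (Finset (Fin G.m))), G.nuJ F T p q j B ≤ 1 := by
    intro B _
    rw [G.chO_nuJ]
    split_ifs
    · refine prod_le_one (fun i _ => G.chO_w0 p q j i) fun i _ => ?_
      unfold wj
      split_ifs
      · have hq : (0 : ℝ) < q := by
          have : 0 < q := by omega
          exact_mod_cast this
        exact (div_le_one hq).2 (by exact_mod_cast hpq.le)
      · exact le_rfl
    · exact zero_le_one
  refine (sum_le_card_nsmul _ _ _ h1).trans (le_of_eq ?_)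
  rw [card_univ, Fintype.card_finset, Fintype.card_fin, nsmul_eq_mul, mul_one]
  push_cast
  rfl

/-- the weight of a set of the base class -/
theorem nuJ_ge (F : Finset (Fin G.m)) (p q j : ℕ) (hp : 0 < p) (hpq : p < q)
    (A : Finset (Fin G.m)) (hA : Disjoint A F) : 1 / (q : ℝ) ^ G.m ≤ G.nuJ F (G.bd A) p q j A := by
  have hq0 : (0 : ℝ) < q := by
    have : 0 < q := by omega
    exact_mod_cast this
  have hq1 : 1 / (q : ℝ) ≤ 1 := by
    rw [div_le_one hq0]
    have : 1 ≤ q := by omega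
    exact_mod_cast this
  rw [G.chO_nuJ, if_pos ⟨hA, by rw [G.zmod_add_self]; exact G.chO_supp_zero⟩]
  calc 1 / (q : ℝ) ^ G.m = (1 / (q : ℝ)) ^ G.m := by rw [one_div_pow]
    _ ≤ (1 / (q : ℝ)) ^ A.card := by
        refine pow_le_pow_of_le_one (by positivity) hq1 ?_
        have := card_le_univ A
        rwa [Fintype.card_fin] at this
    _ = ∏ i ∈ A, (1 / (q : ℝ)) := by rw [prod_const]
    _ ≤ ∏ i ∈ A, G.wj ((p : ℝ) / q) j i :=
        prod_le_prod (fun i _ => by positivity) fun i _ => (G.chO_w hp hpq j i).1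

/-- the means of the observables are ratios of partition functions -/
theorem mean_U (F : Finset (Fin G.m)) (T : Fin G.n → ZMod 2) (p q j : ℕ) :
    ∑ B, G.nuJ F T p q j B * G.obsU T B = G.Zs F (G.wj ((p : ℝ) / q) j) T := by
  unfold Zs
  refine sum_congr rfl fun B _ => ?_
  rw [G.chO_nuJ]
  unfold obsU
  by_cases hB : G.bd B = T
  · rw [if_pos hB, mul_one]
    by_cases hF : Disjoint B F
    · rw [if_pos ⟨hF, by rw [hB, G.zmod_add_self]; exact G.chO_supp_zero⟩, if_pos ⟨hF, hB⟩]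
    · rw [if_neg fun h => hF h.1, if_neg fun h => hF h.1]
  · rw [if_neg hB, mul_zero, if_neg fun h => hB h.2]

theorem mean_V (F : Finset (Fin G.m)) (T : Fin G.n → ZMod 2) (p q : ℕ) (j : Fin G.m) :
    ∑ B, G.nuJ F T p q j B * G.obsV T ((p : ℝ) / q) j B =
      G.Zs F (G.wj ((p : ℝ) / q) (j + 1)) T := by
  unfold Zs
  refine sum_congr rfl fun B _ => ?_
  rw [G.chO_nuJ]
  unfold obsV
  have hprod : ∏ i ∈ B, G.wj ((p : ℝ) / q) (j + 1) i =
      (∏ i ∈ B, G.wj ((p : ℝ) / q) j i) * (if j ∈ B then (p : ℝ) / q else 1) := by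
    have h1 : ∀ i ∈ B, G.wj ((p : ℝ) / q) (j + 1) i =
        G.wj ((p : ℝ) / q) j i * (if i = j then (p : ℝ) / q else 1) := by
      intro i _
      unfold wj
      by_cases hij : i = j
      · subst hij
        rw [if_pos (Nat.lt_succ_self _), if_neg (lt_irrefl _), if_pos rfl, one_mul]
      · have hne : (i : ℕ) ≠ j := fun h => hij (Fin.ext h)
        rw [if_neg hij, mul_one]
        by_cases h2 : (i : ℕ) < j
        · rw [if_pos (by omega), if_pos h2]
        · rw [if_neg (by omega), if_neg h2]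
    rw [prod_congr rfl h1, prod_mul_distrib, prod_ite_eq']
  rw [hprod]
  generalize (if j ∈ B then (p : ℝ) / q else 1) = c
  by_cases hB : G.bd B = T
  · rw [if_pos hB]
    by_cases hF : Disjoint B F
    · rw [if_pos ⟨hF, by rw [hB, G.zmod_add_self]; exact G.chO_supp_zero⟩, if_pos ⟨hF, hB⟩]
    · rw [if_neg fun h => hF h.1, if_neg fun h => hF h.1, zero_mul]
  · rw [if_neg hB, mul_zero, if_neg fun h => hB h.2]

end MGraph

end Pool.Agent.Lib.H2
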