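import Pool.Agent.Lib.MP_3493b8_lc.Short

/-! Cluster decompositions with layers: consequences. -/

set_option autoImplicit false

open Finset

namespace Pool.Agent.Lib.H2

namespace MGraph

variable (G : MGraph)

/-- A decomposition into clusters of radius at most `r`: `lay v` is one plus the distance of `v` from
the root of its cluster, `F` is the set of edges between different clusters. -/
structure Clu (lay : Fin G.n → ℕ) (F : Finset (Fin G.m)) (r : ℕ) : Prop where
  pos : ∀ v, 1 ≤ lay v
  le : ∀ v, lay v ≤ r + 1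
  par : ∀ v, 2 ≤ lay v → ∃ i, i ∉ F ∧ ∃ w, (G.e i = (v, w) ∨ G.e i = (w, v)) ∧ lay w + 1 = lay v
  root : ∀ u v A, Disjoint A F → G.bd A = Pi.single u 1 + Pi.single v 1 → lay u = 1 → lay v = 1 →
    u = v

/-- the number of clusters -/
def roots (lay : Fin G.n → ℕ) : ℕ := ((univ : Finset (Fin G.n)).filter fun v => lay v = 1).card

variable {G}

private theorem disj_sd {A B F : Finset (Fin G.m)} (hA : Disjoint A F) (hB : Disjoint B F) :
    Disjoint (symmDiff A B) F :=
  Disjoint.mono_left (by
    intro x hx
    rw [Finset.mem_symmDiff] at hx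
    rcases hx with hx | hx
    · exact Finset.mem_union_left _ hx.1
    · exact Finset.mem_union_right _ hx.1) (Finset.disjoint_union_left.2 ⟨hA, hB⟩)

private theorem card_sd (A B : Finset (Fin G.m)) : (symmDiff A B).card ≤ A.card + B.card := by
  refine (Finset.card_le_card ?_).trans (Finset.card_union_le A B)
  intro x hx
  rw [Finset.mem_symmDiff] at hx
  rcases hx with hx | hx
  · exact Finset.mem_union_left _ hx.1
  · exact Finset.mem_union_right _ hx.1

/-- every vertex is joined to a root -/
theorem Clu.toRoot {lay : Fin G.n → ℕ} {F : Finset (Fin G.m)} {r : ℕ} (h : G.Clu lay F r)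
    (v : Fin G.n) : ∃ u P, lay u = 1 ∧ Disjoint P F ∧ G.bd P = Pi.single v 1 + Pi.single u 1 ∧
      P.card ≤ lay v - 1 := by
  have key : ∀ k : ℕ, ∀ v : Fin G.n, lay v = k + 1 → ∃ u P, lay u = 1 ∧ Disjoint P F ∧
      G.bd P = Pi.single v 1 + Pi.single u 1 ∧ P.card ≤ lay v - 1 := by
    intro k
    induction k with
    | zero =>
      intro v hv
      refine ⟨v, ∅, hv, Finset.disjoint_empty_left _, ?_, by simp⟩
      rw [G.bd_empty, G.zmod_add_self]
    | succ k ih =>
      intro v hv
      obtain ⟨i, hi, w, hw, hl⟩ := h.par v (by omega)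
      obtain ⟨u, P, h1, h2, h3, h4⟩ := ih w (by omega)
      refine ⟨u, symmDiff P {i}, h1, disj_sd h2 (Finset.disjoint_singleton_left.2 hi), ?_, ?_⟩
      · rw [G.bd_symmDiff, h3, G.bd_singleton]
        have e : (Pi.single (G.e i).1 1 + Pi.single (G.e i).2 1 : Fin G.n → ZMod 2) =
            Pi.single v 1 + Pi.single w 1 := by
          rcases hw with hw | hw
          · rw [hw]
          · rw [hw, add_comm]
        rw [e]
        have h5 := G.zmod_add_self (Pi.single w 1)
        calc (Pi.single w 1 + Pi.single u 1 + (Pi.single v 1 + Pi.single w 1) :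
              Fin G.n → ZMod 2)
            = Pi.single v 1 + Pi.single u 1 + (Pi.single w 1 + Pi.single w 1) := by abel
          _ = _ := by rw [h5, add_zero]
      · have h5 := card_sd P {i}
        rw [Finset.card_singleton] at h5
        omega
  exact key (lay v - 1) v (by have := h.pos v; omega)

theorem Clu.short {lay : Fin G.n → ℕ} {F : Finset (Fin G.m)} {r : ℕ} (h : G.Clu lay F r) :
    G.Short F (2 * r) := by
  intro u v A hA hbd
  obtain ⟨u', P, hu, hP, hPb, hPc⟩ := h.toRoot u
  obtain ⟨v', Q, hv, hQ, hQb, hQc⟩ := h.toRoot v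
  have hu1 := h.le u
  have hv1 := h.le v
  have e1 : G.bd (symmDiff A (symmDiff P Q)) = Pi.single u' 1 + Pi.single v' 1 := by
    rw [G.bd_symmDiff, G.bd_symmDiff, hbd, hPb, hQb]
    have h5 := G.zmod_add_self (Pi.single u 1)
    have h6 := G.zmod_add_self (Pi.single v 1)
    calc (Pi.single u 1 + Pi.single v 1 + (Pi.single u 1 + Pi.single u' 1 +
          (Pi.single v 1 + Pi.single v' 1)) : Fin G.n → ZMod 2)
        = (Pi.single u 1 + Pi.single u 1) + (Pi.single v 1 + Pi.single v 1) +
          (Pi.single u' 1 + Pi.single v' 1) := by abel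
      _ = _ := by rw [h5, h6, add_zero, zero_add]
  have huv : u' = v' := h.root u' v' _ (disj_sd hA (disj_sd hP hQ)) e1 hu hv
  subst huv
  refine ⟨symmDiff P Q, disj_sd hP hQ, ?_, ?_⟩
  · rw [G.bd_symmDiff, hPb, hQb]
    have h5 := G.zmod_add_self (Pi.single u' 1)
    calc (Pi.single u 1 + Pi.single u' 1 + (Pi.single v 1 + Pi.single u' 1) :
          Fin G.n → ZMod 2)
        = Pi.single u 1 + Pi.single v 1 + (Pi.single u' 1 + Pi.single u' 1) := by abel
      _ = _ := by rw [h5, add_zero]
  · have := card_sd P Q
    omega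

/-- a boundary supported on the roots vanishes -/
private theorem Clu.bd_zero {lay : Fin G.n → ℕ} {F : Finset (Fin G.m)} {r : ℕ}
    (h : G.Clu lay F r) (A : Finset (Fin G.m)) (hA : Disjoint A F)
    (hs : ∀ v, G.bd A v ≠ 0 → lay v = 1) : G.bd A = 0 := by
  by_contra hne
  obtain ⟨a, ha⟩ : ∃ a, G.bd A a ≠ 0 := by
    by_contra hcon
    simp only [not_exists, not_not] at hcon
    exact hne (funext hcon)
  have ha' : a ∈ G.supp (G.bd A) := by
    unfold supp
    rw [Finset.mem_filter]
    exact ⟨Finset.mem_univ _, ha⟩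
  obtain ⟨b, hb, hba, P, hP, hPb⟩ := G.peel A a ha'
  unfold supp at hb
  rw [Finset.mem_filter] at hb
  exact hba (h.root a b P (Disjoint.mono_left hP hA) hPb (hs a ha) (hs b hb.2)).symm

/-- every vector is the sum of a boundary and of a vector supported on the roots -/
private theorem Clu.split {lay : Fin G.n → ℕ} {F : Finset (Fin G.m)} {r : ℕ}
    (h : G.Clu lay F r) (y : Fin G.n → ZMod 2) : ∃ (A : Finset (Fin G.m))
      (z : Fin G.n → ZMod 2), Disjoint A F ∧ (∀ v, z v ≠ 0 → lay v = 1) ∧ G.bd A + z = y := by
  have key : ∀ S : Finset (Fin G.n), ∃ (A : Finset (Fin G.m)) (z : Fin G.n → ZMod 2),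
      Disjoint A F ∧ (∀ v, z v ≠ 0 → lay v = 1) ∧
        G.bd A + z = ∑ v ∈ S, (Pi.single v 1 : Fin G.n → ZMod 2) := by
    intro S
    induction S using Finset.induction_on with
    | empty =>
      refine ⟨∅, 0, Finset.disjoint_empty_left _, ?_, ?_⟩
      · intro v hv
        exact absurd rfl hv
      · rw [G.bd_empty, Finset.sum_empty, add_zero]
    | insert v S hv ih =>
      obtain ⟨A, z, h1, h2, h3⟩ := ih
      obtain ⟨u, P, hu, hP, hPb, _⟩ := h.toRoot v
      refine ⟨symmDiff A P, z + Pi.single u 1, disj_sd h1 hP, ?_, ?_⟩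
      · intro x hx
        by_cases hxu : x = u
        · rw [hxu]; exact hu
        · apply h2
          rw [Pi.add_apply, Pi.single_eq_of_ne hxu, add_zero] at hx
          exact hx
      · rw [Finset.sum_insert hv, ← h3, G.bd_symmDiff, hPb]
        have h5 := G.zmod_add_self (Pi.single u 1)
        calc (G.bd A + (Pi.single v 1 + Pi.single u 1) + (z + Pi.single u 1) :
              Fin G.n → ZMod 2)
            = Pi.single v 1 + (G.bd A + z) + (Pi.single u 1 + Pi.single u 1) := by abel
          _ = _ := by rw [h5, add_zero]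
  obtain ⟨A, z, h1, h2, h3⟩ := key (univ.filter fun v => y v ≠ 0)
  refine ⟨A, z, h1, h2, ?_⟩
  rw [h3]
  funext x
  rw [Finset.sum_apply]
  by_cases hx : y x = 0
  · rw [hx]
    apply Finset.sum_eq_zero
    intro v hv
    rw [Finset.mem_filter] at hv
    have hne : x ≠ v := by
      rintro rfl
      exact hv.2 hx
    exact Pi.single_eq_of_ne hne 1
  · rw [Finset.sum_eq_single_of_mem x (Finset.mem_filter.2 ⟨Finset.mem_univ _, hx⟩)]
    · rw [Pi.single_eq_same]
      have : ∀ t : ZMod 2, t ≠ 0 → 1 = t := by decide
      exact this _ hx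
    · intro v _ hv
      exact Pi.single_eq_of_ne (Ne.symm hv) 1

/-- the number of sets with a given boundary -/
theorem Clu.count {lay : Fin G.n → ℕ} {F : Finset (Fin G.m)} {r : ℕ} (h : G.Clu lay F r)
    (A : Finset (Fin G.m)) (hA : Disjoint A F) :
    ((univ : Finset (Finset (Fin G.m))).filter fun B => Disjoint B F ∧ G.bd B = G.bd A).card *
      2 ^ G.n = 2 ^ (G.m - F.card) * 2 ^ G.roots lay := by
  classical
  set EF : Finset (Finset (Fin G.m)) := univ.filter fun B => Disjoint B F with hEF
  have hEc : EF.card = 2 ^ (G.m - F.card) := by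
    have e : EF = (Fᶜ).powerset := by
      ext B
      rw [hEF, Finset.mem_filter, Finset.mem_powerset, Finset.subset_compl_iff_disjoint_right]
      simp
    rw [e, Finset.card_powerset, Finset.card_compl, Fintype.card_fin]
  set R : Finset (Fin G.n → ZMod 2) :=
    Fintype.piFinset fun v => if lay v = 1 then univ else {0} with hR
  have hRm : ∀ z, z ∈ R ↔ ∀ v, z v ≠ 0 → lay v = 1 := by
    intro z
    rw [hR, Fintype.mem_piFinset]
    constructor
    · intro hz v hv
      by_contra hne
      have := hz v
      rw [if_neg hne, Finset.mem_singleton] at this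
      exact hv this
    · intro hz v
      split_ifs with hl
      · exact Finset.mem_univ _
      · rw [Finset.mem_singleton]
        by_contra hne
        exact hl (hz v hne)
  have hRc : R.card = 2 ^ G.roots lay := by
    rw [hR, Fintype.card_piFinset]
    have e : ∀ v : Fin G.n, (if lay v = 1 then (univ : Finset (ZMod 2)) else {0}).card =
        if lay v = 1 then 2 else 1 := by
      intro v
      split_ifs
      · rfl
      · rfl
    simp only [e]
    rw [Finset.prod_ite, Finset.prod_const, Finset.prod_const_one, mul_one]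
    rfl
  set N := ((univ : Finset (Finset (Fin G.m))).filter fun B =>
    Disjoint B F ∧ G.bd B = G.bd A).card with hN
  have hfib : ∀ b ∈ EF.image G.bd, (EF.filter fun B => G.bd B = b).card = N := by
    intro b hb
    rw [Finset.mem_image] at hb
    obtain ⟨A', hA', rfl⟩ := hb
    rw [hEF, Finset.mem_filter] at hA'
    have hA1 := hA'.2
    rw [hN]
    apply Finset.card_nbij' (fun B => symmDiff B (symmDiff A A'))
      (fun B => symmDiff B (symmDiff A A'))
    · intro B hB
      simp only [hEF, Finset.coe_filter, Finset.mem_filter, Finset.mem_univ, true_and,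
        Set.mem_ofPred_eq] at hB ⊢
      refine ⟨disj_sd hB.1 (disj_sd hA hA1), ?_⟩
      rw [G.bd_symmDiff, G.bd_symmDiff, hB.2]
      have h5 := G.zmod_add_self (G.bd A')
      calc G.bd A' + (G.bd A + G.bd A') = G.bd A + (G.bd A' + G.bd A') := by abel
        _ = _ := by rw [h5, add_zero]
    · intro B hB
      simp only [hEF, Finset.coe_filter, Finset.mem_filter, Finset.mem_univ, true_and,
        Set.mem_ofPred_eq] at hB ⊢
      refine ⟨disj_sd hB.1 (disj_sd hA hA1), ?_⟩
      rw [G.bd_symmDiff, G.bd_symmDiff, hB.2]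
      have h5 := G.zmod_add_self (G.bd A)
      calc G.bd A + (G.bd A + G.bd A') = (G.bd A + G.bd A) + G.bd A' := by abel
        _ = _ := by rw [h5, zero_add]
    · intro B _
      simp
    · intro B _
      simp
  have hE : EF.card = (EF.image G.bd).card * N := by
    rw [Finset.card_eq_sum_card_image G.bd EF, Finset.sum_congr rfl hfib, Finset.sum_const,
      smul_eq_mul]
  have hI : (EF.image G.bd).card * R.card = 2 ^ G.n := by
    rw [← Finset.card_product]
    have e : ((EF.image G.bd) ×ˢ R).card = (univ : Finset (Fin G.n → ZMod 2)).card := by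
      apply Finset.card_nbij (fun p => p.1 + p.2)
      · intro p _
        exact Finset.mem_coe.2 (Finset.mem_univ _)
      · rintro ⟨y, z⟩ hp ⟨y', z'⟩ hp' heq
        rw [Finset.mem_coe, Finset.mem_product, Finset.mem_image, hRm] at hp hp'
        obtain ⟨⟨B, hB, hBy⟩, hz⟩ := hp
        obtain ⟨⟨B', hB', hBy'⟩, hz'⟩ := hp'
        rw [hEF, Finset.mem_filter] at hB hB'
        simp only at heq hBy hBy' hz hz'
        have h6 : y + y' = z + z' := by
          have h7 := G.zmod_add_self y'
          have h8 := G.zmod_add_self z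
          calc y + y' = (y + z) + y' + z := by
                calc y + y' = y + y' + (z + z) := by rw [h8, add_zero]
                  _ = _ := by abel
            _ = (y' + z') + y' + z := by rw [heq]
            _ = (y' + y') + (z + z') := by abel
            _ = _ := by rw [h7, zero_add]
        have h9 : G.bd (symmDiff B B') = 0 := by
          apply h.bd_zero _ (disj_sd hB.2 hB'.2)
          intro v hv
          rw [G.bd_symmDiff, hBy, hBy', h6, Pi.add_apply] at hv
          by_cases hzv : z v = 0
          · rw [hzv, zero_add] at hv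
            exact hz' v hv
          · exact hz v hzv
        rw [G.bd_symmDiff, hBy, hBy'] at h9
        have h10 : y = y' := by
          have h7 := G.zmod_add_self y'
          calc y = y + (y' + y') := by rw [h7, add_zero]
            _ = (y + y') + y' := by abel
            _ = y' := by rw [h9, zero_add]
        have h11 : z = z' := by
          rw [h10] at heq
          exact add_left_cancel heq
        rw [h10, h11]
      · intro y _
        obtain ⟨B, z, h1, h2, h3⟩ := h.split y
        refine ⟨(G.bd B, z), ?_, h3⟩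
        rw [Finset.mem_coe, Finset.mem_product, hRm]
        exact ⟨Finset.mem_image_of_mem _ (Finset.mem_filter.2 ⟨Finset.mem_univ _, h1⟩), h2⟩
    rw [e, Finset.card_univ, Fintype.card_fun, Fintype.card_fin, ZMod.card]
  rw [← hI, ← hEc, hE, ← hRc]
  ring

/-- without edges between clusters the clusters are the components -/
theorem Clu.comps {lay : Fin G.n → ℕ} {r : ℕ} (h : G.Clu lay ∅ r) :
    G.comps univ = G.roots lay := by
  classical
  unfold MGraph.comps roots
  set rel : Fin G.n → Fin G.n → Prop := fun u v => ∃ i ∈ (univ : Finset (Fin G.m)),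
    G.e i = (u, v) with hrel
  have hedge : ∀ i u v, (G.e i = (u, v) ∨ G.e i = (v, u)) → Quot.mk rel u = Quot.mk rel v := by
    intro i u v hi
    rcases hi with hi | hi
    · exact Quot.sound ⟨i, Finset.mem_univ _, hi⟩
    · exact (Quot.sound ⟨i, Finset.mem_univ _, hi⟩).symm
  have hroot : ∀ k : ℕ, ∀ v : Fin G.n, lay v = k + 1 → ∃ u, lay u = 1 ∧
      Quot.mk rel u = Quot.mk rel v := by
    intro k
    induction k with
    | zero => intro v hv; exact ⟨v, hv, rfl⟩
    | succ k ih =>
      intro v hv
      obtain ⟨i, _, w, hw, hl⟩ := h.par v (by omega)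
      obtain ⟨u, hu, huw⟩ := ih w (by omega)
      exact ⟨u, hu, huw.trans (hedge i v w hw).symm⟩
  have hgen : ∀ u v, Relation.EqvGen rel u v →
      ∃ A : Finset (Fin G.m), G.bd A = Pi.single u 1 + Pi.single v 1 := by
    intro u v huv
    induction huv with
    | rel u v hr =>
      obtain ⟨i, _, hi⟩ := hr
      refine ⟨{i}, ?_⟩
      rw [G.bd_singleton, hi]
    | refl u => exact ⟨∅, by rw [G.bd_empty, G.zmod_add_self]⟩
    | symm u v _ ih =>
      obtain ⟨A, hA⟩ := ih
      exact ⟨A, by rw [hA, add_comm]⟩
    | trans u v w _ _ ih1 ih2 =>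
      obtain ⟨A, hA⟩ := ih1
      obtain ⟨B, hB⟩ := ih2
      refine ⟨symmDiff A B, ?_⟩
      rw [G.bd_symmDiff, hA, hB]
      have h5 := G.zmod_add_self (Pi.single v 1)
      calc (Pi.single u 1 + Pi.single v 1 + (Pi.single v 1 + Pi.single w 1) :
            Fin G.n → ZMod 2)
          = Pi.single u 1 + Pi.single w 1 + (Pi.single v 1 + Pi.single v 1) := by abel
        _ = _ := by rw [h5, add_zero]
  have hbij : Function.Bijective (fun v : {v : Fin G.n // lay v = 1} => Quot.mk rel v.1) := by
    constructor
    · rintro ⟨u, hu⟩ ⟨v, hv⟩ huv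
      obtain ⟨A, hA⟩ := hgen u v (Quot.eqvGen_exact huv)
      exact Subtype.ext (h.root u v A (Finset.disjoint_empty_right _) hA hu hv)
    · intro q
      obtain ⟨v, rfl⟩ := Quot.exists_rep q
      obtain ⟨u, hu, huv⟩ := hroot (lay v - 1) v (by have := h.pos v; omega)
      exact ⟨⟨u, hu⟩, huv⟩
  rw [← Nat.card_congr (Equiv.ofBijective _ hbij), Nat.card_eq_fintype_card,
    Fintype.card_subtype]

end MGraph

end Pool.Agent.Lib.H2
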