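import Pool.Agent.Lib.MP_3493b8_lc.Short0

/-! Ball growing. -/

set_option autoImplicit false

open Finset

namespace Pool.Agent.Lib.H2

namespace MGraph

variable (G : MGraph)

/-- one more layer around `b`, among the vertices outside `S` -/
def grow (S b : Finset (Fin G.n)) : Finset (Fin G.n) :=
  univ.filter fun v => v ∈ b ∨ (v ∉ S ∧ ∃ i, ((G.e i).1 = v ∧ (G.e i).2 ∈ b) ∨
    ((G.e i).2 = v ∧ (G.e i).1 ∈ b))

/-- the ball of radius `h` around `r` in the graph without `S` -/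
def ball (S : Finset (Fin G.n)) (r : Fin G.n) : ℕ → Finset (Fin G.n)
  | 0 => {r}
  | h + 1 => G.grow S (ball S r h)

/-- the edges leaving `b`, except those to `S` -/
def cut (S b : Finset (Fin G.n)) : Finset (Fin G.m) :=
  univ.filter fun i => ((G.e i).1 ∈ b ∧ (G.e i).2 ∉ b ∧ (G.e i).2 ∉ S) ∨
    ((G.e i).2 ∈ b ∧ (G.e i).1 ∉ b ∧ (G.e i).1 ∉ S)

/-- the edges inside `b` -/
def inn (b : Finset (Fin G.n)) : Finset (Fin G.m) :=
  univ.filter fun i => (G.e i).1 ∈ b ∧ (G.e i).2 ∈ b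

private theorem clua_grow (S b : Finset (Fin G.n)) (v : Fin G.n) : v ∈ G.grow S b ↔
    (v ∈ b ∨ (v ∉ S ∧ ∃ i, ((G.e i).1 = v ∧ (G.e i).2 ∈ b) ∨
      ((G.e i).2 = v ∧ (G.e i).1 ∈ b))) := by
  unfold grow
  rw [mem_filter]
  exact ⟨fun h => h.2, fun h => ⟨mem_univ _, h⟩⟩

private theorem clua_cut (S b : Finset (Fin G.n)) (i : Fin G.m) : i ∈ G.cut S b ↔
    (((G.e i).1 ∈ b ∧ (G.e i).2 ∉ b ∧ (G.e i).2 ∉ S) ∨
      ((G.e i).2 ∈ b ∧ (G.e i).1 ∉ b ∧ (G.e i).1 ∉ S)) := by
  unfold cut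
  rw [mem_filter]
  exact ⟨fun h => h.2, fun h => ⟨mem_univ _, h⟩⟩

private theorem clua_inn (b : Finset (Fin G.n)) (i : Fin G.m) : i ∈ G.inn b ↔
    ((G.e i).1 ∈ b ∧ (G.e i).2 ∈ b) := by
  unfold inn
  rw [mem_filter]
  exact ⟨fun h => h.2, fun h => ⟨mem_univ _, h⟩⟩

theorem subset_grow (S b : Finset (Fin G.n)) : b ⊆ G.grow S b := by
  intro v hv
  exact (G.clua_grow S b v).2 (Or.inl hv)

theorem ball_mono (S : Finset (Fin G.n)) (r : Fin G.n) {h k : ℕ} (hk : h ≤ k) :
    G.ball S r h ⊆ G.ball S r k := by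
  induction k, hk using Nat.le_induction with
  | base => exact Subset.refl _
  | succ k _ ih => exact ih.trans (G.subset_grow S _)

theorem mem_ball_self (S : Finset (Fin G.n)) (r : Fin G.n) (h : ℕ) : r ∈ G.ball S r h :=
  G.ball_mono S r (Nat.zero_le h) (mem_singleton_self r)

theorem ball_disj (S : Finset (Fin G.n)) (r : Fin G.n) (hr : r ∉ S) (h : ℕ) :
    Disjoint (G.ball S r h) S := by
  induction h with
  | zero =>
    rw [Finset.disjoint_left]
    intro v hv
    rw [show v = r from mem_singleton.1 hv]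
    exact hr
  | succ h ih =>
    rw [Finset.disjoint_left] at ih ⊢
    intro v hv
    rcases (G.clua_grow S _ v).1 hv with h1 | h1
    · exact ih h1
    · exact h1.1

/-- the cut edges are inside the next ball -/
theorem cut_inn (S b : Finset (Fin G.n)) :
    (G.cut S b).card + (G.inn b).card ≤ (G.inn (G.grow S b)).card := by
  have hd : Disjoint (G.cut S b) (G.inn b) := by
    rw [Finset.disjoint_left]
    intro i hi hi'
    have h1 := (G.clua_inn b i).1 hi'
    rcases (G.clua_cut S b i).1 hi with h2 | h2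
    · exact h2.2.1 h1.2
    · exact h2.2.1 h1.1
  rw [← Finset.card_union_of_disjoint hd]
  refine Finset.card_le_card ?_
  intro i hi
  rw [clua_inn]
  rcases Finset.mem_union.1 hi with h1 | h1
  · rcases (G.clua_cut S b i).1 h1 with h2 | h2
    · exact ⟨G.subset_grow S b h2.1, (G.clua_grow S b _).2 (Or.inr ⟨h2.2.2, i, Or.inr ⟨rfl, h2.1⟩⟩)⟩
    · exact ⟨(G.clua_grow S b _).2 (Or.inr ⟨h2.2.2, i, Or.inl ⟨rfl, h2.1⟩⟩), G.subset_grow S b h2.1⟩
  · have h2 := (G.clua_inn b i).1 h1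
    exact ⟨G.subset_grow S b h2.1, G.subset_grow S b h2.2⟩

theorem grow_eq_of_cut (S b : Finset (Fin G.n)) (h : G.cut S b = ∅) : G.grow S b = b := by
  refine Finset.Subset.antisymm ?_ (G.subset_grow S b)
  intro v hv
  by_contra hvb
  rcases (G.clua_grow S b v).1 hv with h1 | ⟨hvS, i, h1 | h1⟩
  · exact hvb h1
  · have h2 : i ∈ G.cut S b := (G.clua_cut S b i).2 (Or.inr ⟨h1.2, by rw [h1.1]; exact ⟨hvb, hvS⟩⟩)
    rw [h] at h2
    exact Finset.notMem_empty i h2
  · have h2 : i ∈ G.cut S b := (G.clua_cut S b i).2 (Or.inl ⟨h1.2, by rw [h1.1]; exact ⟨hvb, hvS⟩⟩)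
    rw [h] at h2
    exact Finset.notMem_empty i h2

private theorem clua_stab (S : Finset (Fin G.n)) (r : Fin G.n) {h : ℕ}
    (h0 : G.cut S (G.ball S r h) = ∅) {k : ℕ} (hk : h ≤ k) : G.ball S r k = G.ball S r h := by
  induction k, hk using Nat.le_induction with
  | base => rfl
  | succ k _ ih =>
    show G.grow S (G.ball S r k) = G.ball S r h
    rw [ih]
    exact G.grow_eq_of_cut S _ h0

private theorem clua_strict (S b : Finset (Fin G.n)) (h : G.cut S b ≠ ∅) :
    b.card + 1 ≤ (G.grow S b).card := by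
  obtain ⟨i, hi⟩ := Finset.nonempty_iff_ne_empty.2 h
  have h1 : ∃ v, v ∈ G.grow S b ∧ v ∉ b := by
    rcases (G.clua_cut S b i).1 hi with h2 | h2
    · exact ⟨_, (G.clua_grow S b _).2 (Or.inr ⟨h2.2.2, i, Or.inr ⟨rfl, h2.1⟩⟩), h2.2.1⟩
    · exact ⟨_, (G.clua_grow S b _).2 (Or.inr ⟨h2.2.2, i, Or.inl ⟨rfl, h2.1⟩⟩), h2.2.1⟩
  obtain ⟨v, hv, hvb⟩ := h1
  exact Finset.card_lt_card ((Finset.ssubset_iff_of_subset (G.subset_grow S b)).2 ⟨v, hv, hvb⟩)

private theorem clua_card (S : Finset (Fin G.n)) (r : Fin G.n) (h : ℕ)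
    (hc : ∀ k < h, G.cut S (G.ball S r k) ≠ ∅) : h + 1 ≤ (G.ball S r h).card := by
  induction h with
  | zero => exact (Finset.card_singleton r).ge
  | succ h ih =>
    have h1 := ih fun k hk => hc k (by omega)
    have h2 := G.clua_strict S _ (hc h (by omega))
    exact (Nat.succ_le_succ h1).trans h2

private theorem clua_le (b : Finset (Fin G.n)) : b.card ≤ G.n := by
  have h1 := Finset.card_le_univ b
  rwa [Fintype.card_fin] at h1

/-- the ball of radius `n` is a component of the graph without `S` -/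
theorem cut_ball_n (S : Finset (Fin G.n)) (r : Fin G.n) : G.cut S (G.ball S r G.n) = ∅ := by
  by_contra hne
  have h1 := G.clua_card S r G.n fun k hk h0 => hne (by
    rw [G.clua_stab S r h0 hk.le]
    exact h0)
  have h2 := G.clua_le (G.ball S r G.n)
  omega

private theorem clua_bern (B L : ℕ) (hL : L ≤ B) (hB : 1 ≤ B) :
    (2 : ℝ) ^ L ≤ (1 + (L : ℝ) / B) ^ B := by
  rcases Nat.eq_zero_or_pos L with rfl | hL0
  · rw [pow_zero, Nat.cast_zero, zero_div, add_zero, one_pow]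
  · have hL1 : (0 : ℝ) < L := by exact_mod_cast hL0
    have hB1 : (0 : ℝ) < B := by exact_mod_cast hB
    have hLB : (L : ℝ) ≤ B := by exact_mod_cast hL
    have h0 : (0 : ℝ) ≤ (L : ℝ) / B := div_nonneg hL1.le hB1.le
    have h1 := one_add_mul_self_le_rpow_one_add (s := (L : ℝ) / B) (by linarith)
      (p := (B : ℝ) / L) ((one_le_div hL1).2 hLB)
    have h2 : (B : ℝ) / L * ((L : ℝ) / B) = 1 := by
      field_simp
    rw [h2] at h1
    have h3 : (2 : ℝ) ≤ (1 + (L : ℝ) / B) ^ ((B : ℝ) / L) := by linarith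
    have h4 : ((1 + (L : ℝ) / B) ^ ((B : ℝ) / L)) ^ L = (1 + (L : ℝ) / B) ^ B := by
      rw [← Real.rpow_natCast, ← Real.rpow_mul (by linarith), div_mul_cancel₀ _ hL1.ne',
        Real.rpow_natCast]
    rw [← h4]
    exact pow_le_pow_left₀ (by norm_num) h3 L

/-- ball growing: some ball of radius at most `B` has few cut edges -/
theorem growth (S : Finset (Fin G.n)) (r : Fin G.n) (B L : ℕ) (hL : L ≤ B) (hm : G.m + 1 < 2 ^ L) :
    ∃ h ≤ B, (G.cut S (G.ball S r h)).card * B ≤ L * (1 + (G.inn (G.ball S r h)).card) := by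
  by_contra hne
  push Not at hne
  have hB : 1 ≤ B := by
    by_contra hcon
    have hB0 : B = 0 := by omega
    have hL0 : L = 0 := by omega
    rw [hL0, pow_zero] at hm
    omega
  have hB1 : (0 : ℝ) < B := by exact_mod_cast hB
  have key : ∀ h ≤ B, (1 + (L : ℝ) / B) ^ h ≤ 1 + ((G.inn (G.ball S r h)).card : ℝ) := by
    intro h
    induction h with
    | zero =>
      intro _
      rw [pow_zero]
      have : (0 : ℝ) ≤ ((G.inn (G.ball S r 0)).card : ℝ) := Nat.cast_nonneg _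
      linarith
    | succ h ih =>
      intro hh
      have h1 := ih (by omega)
      have h2 := hne h (by omega)
      have h3 := G.cut_inn S (G.ball S r h)
      have h2' : (L : ℝ) * (1 + ((G.inn (G.ball S r h)).card : ℝ)) <
          ((G.cut S (G.ball S r h)).card : ℝ) * B := by exact_mod_cast h2
      have h3' : ((G.cut S (G.ball S r h)).card : ℝ) + ((G.inn (G.ball S r h)).card : ℝ) ≤
          ((G.inn (G.ball S r (h + 1))).card : ℝ) := by exact_mod_cast h3
      have h4 : (L : ℝ) / B * (1 + ((G.inn (G.ball S r h)).card : ℝ)) ≤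
          ((G.cut S (G.ball S r h)).card : ℝ) := by
        rw [div_mul_eq_mul_div, div_le_iff₀ hB1]
        exact h2'.le
      have h5 : (0 : ℝ) ≤ (L : ℝ) / B := div_nonneg (Nat.cast_nonneg _) hB1.le
      rw [pow_succ]
      have h6 := mul_le_mul_of_nonneg_right h1 (by linarith : (0 : ℝ) ≤ 1 + (L : ℝ) / B)
      nlinarith
  have h1 := key B le_rfl
  have h2 := clua_bern B L hL hB
  have h3 : (G.inn (G.ball S r B)).card ≤ G.m := by
    have := Finset.card_le_univ (G.inn (G.ball S r B))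
    rwa [Fintype.card_fin] at this
  have h4 : ((G.inn (G.ball S r B)).card : ℝ) ≤ G.m := by exact_mod_cast h3
  have h5 : ((G.m : ℝ) + 1) < 2 ^ L := by exact_mod_cast hm
  linarith

/-- the layer of a vertex is less than `n` -/
theorem dist_lt (S : Finset (Fin G.n)) (r v : Fin G.n) (h : ℕ) (hv : v ∈ G.ball S r h)
    (hh : ∀ k < h, v ∉ G.ball S r k) : h < G.n := by
  have h1 := G.clua_card S r h fun k hk h0 => hh k hk (by
    rw [G.clua_stab S r h0 hk.le] at hv
    exact hv)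
  have h2 := G.clua_le (G.ball S r h)
  omega

/-- a vertex of layer `h + 1` has a neighbour of layer `h` -/
theorem dist_par (S : Finset (Fin G.n)) (r v : Fin G.n) (hr : r ∉ S) (h : ℕ)
    (hv : v ∈ G.ball S r (h + 1)) (hh : ∀ k < h + 1, v ∉ G.ball S r k) :
    ∃ i w, (G.e i = (v, w) ∨ G.e i = (w, v)) ∧ w ∈ G.ball S r h ∧ ∀ k < h, w ∉ G.ball S r k := by
  rcases (G.clua_grow S _ v).1 hv with h1 | ⟨hvS, i, h1 | h1⟩
  · exact absurd h1 (hh h (by omega))
  · refine ⟨i, (G.e i).2, Or.inl (Prod.ext h1.1 rfl), h1.2, fun k hk hw => ?_⟩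
    exact hh (k + 1) (by omega) ((G.clua_grow S _ v).2 (Or.inr ⟨hvS, i, Or.inl ⟨h1.1, hw⟩⟩))
  · refine ⟨i, (G.e i).1, Or.inr (Prod.ext rfl h1.1), h1.2, fun k hk hw => ?_⟩
    exact hh (k + 1) (by omega) ((G.clua_grow S _ v).2 (Or.inr ⟨hvS, i, Or.inr ⟨h1.1, hw⟩⟩))

/-- walks avoiding `S` -/
theorem within_ball (S : Finset (Fin G.n)) (r : Fin G.n) (hr : r ∉ S)
    (hS : ∀ i, (G.e i).1 ∈ S ↔ (G.e i).2 ∈ S) (k : ℕ) (v : Fin G.n) (h : G.Within k r v) :
    v ∈ G.ball S r k := by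
  induction k generalizing v with
  | zero =>
    have h1 : r = v := h
    exact mem_singleton.2 h1.symm
  | succ k ih =>
    rcases h with h | ⟨w, hw, i, hi⟩
    · exact G.subset_grow S _ (ih v h)
    · have h1 := ih w hw
      have h2 : w ∉ S := fun h => (Finset.disjoint_left.1 (G.ball_disj S r hr k)) h1 h
      rcases hi with hi | hi
      · have h3 : v ∉ S := by
          intro h
          apply h2
          have h4 := (hS i).2 (by rw [hi]; exact h)
          rwa [hi] at h4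
        exact (G.clua_grow S _ v).2 (Or.inr ⟨h3, i, Or.inr (by rw [hi]; exact ⟨rfl, h1⟩)⟩)
      · have h3 : v ∉ S := by
          intro h
          apply h2
          have h4 := (hS i).1 (by rw [hi]; exact h)
          rwa [hi] at h4
        exact (G.clua_grow S _ v).2 (Or.inr ⟨h3, i, Or.inl (by rw [hi]; exact ⟨rfl, h1⟩)⟩)

theorem ball_within (S : Finset (Fin G.n)) (r : Fin G.n) (k : ℕ) (v : Fin G.n)
    (h : v ∈ G.ball S r k) : G.Within k r v := by
  induction k generalizing v with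
  | zero => exact (mem_singleton.1 h).symm
  | succ k ih =>
    rcases (G.clua_grow S _ v).1 h with h1 | ⟨-, i, h1 | h1⟩
    · exact Or.inl (ih v h1)
    · exact Or.inr ⟨(G.e i).2, ih _ h1.2, i, Or.inr (Prod.ext h1.1 rfl)⟩
    · exact Or.inr ⟨(G.e i).1, ih _ h1.2, i, Or.inl (Prod.ext rfl h1.1)⟩

/-- components of diameter at most `d` -/
theorem cut_diam (S : Finset (Fin G.n)) (r : Fin G.n) (hr : r ∉ S)
    (hS : ∀ i, (G.e i).1 ∈ S ↔ (G.e i).2 ∈ S) (d : ℕ) (hd : G.DiamLe d) :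
    G.cut S (G.ball S r d) = ∅ := by
  rw [Finset.eq_empty_iff_forall_notMem]
  intro i hi
  rcases (G.clua_cut S _ i).1 hi with h1 | h1
  · apply h1.2.1
    refine G.within_ball S r hr hS d _ (hd (d + 1) r _ (Or.inr ⟨(G.e i).1, ?_, i, Or.inl rfl⟩))
    exact G.ball_within S r d _ h1.1
  · apply h1.2.1
    refine G.within_ball S r hr hS d _ (hd (d + 1) r _ (Or.inr ⟨(G.e i).2, ?_, i, Or.inr rfl⟩))
    exact G.ball_within S r d _ h1.1

end MGraph

end Pool.Agent.Lib.H2
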