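import Pool.Agent.Lib.MP_3493b8_lc.CluA
import Pool.Agent.Lib.MP_3493b8_lc.Clu

/-! The invariant of the cluster decomposition. -/

set_option autoImplicit false

open Finset

namespace Pool.Agent.Lib.H2

namespace MGraph

variable (G : MGraph)

/-- the vertices which have a layer -/
def done (lay : Fin G.n → ℕ) : Finset (Fin G.n) := univ.filter fun v => lay v ≠ 0

/-- the edges with an end which has a layer -/
def touch (lay : Fin G.n → ℕ) : Finset (Fin G.m) :=
  univ.filter fun i => lay (G.e i).1 ≠ 0 ∨ lay (G.e i).2 ≠ 0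

/-- Invariant: `cl v` is the root of the cluster of `v`. -/
structure Inv (lay : Fin G.n → ℕ) (F : Finset (Fin G.m)) (cl : Fin G.n → Fin G.n) (R B L : ℕ) :
    Prop where
  root : ∀ v, lay v ≠ 0 → lay (cl v) = 1
  self : ∀ v, lay v = 1 → cl v = v
  edge : ∀ i, i ∉ F → (lay (G.e i).1 ≠ 0 ↔ lay (G.e i).2 ≠ 0) ∧
    (lay (G.e i).1 ≠ 0 → cl (G.e i).1 = cl (G.e i).2)
  par : ∀ v, 2 ≤ lay v → ∃ i, i ∉ F ∧ ∃ w, (G.e i = (v, w) ∨ G.e i = (w, v)) ∧ lay w + 1 = lay v
  le : ∀ v, lay v ≤ R + 1
  le_n : ∀ v, lay v ≤ G.n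
  sub : F ⊆ G.touch lay
  size : F.card * B ≤ L * (G.touch lay).card

theorem inv_init (R B L : ℕ) :
    G.Inv (fun _ => 0) ∅ (fun v => v) R B L := by
  refine ⟨fun v hv => absurd rfl hv, fun v hv => rfl, fun i _ => ⟨Iff.rfl, fun h => absurd rfl h⟩, ?_, ?_, ?_, ?_, ?_⟩
  · intro v hv
    have hv' : 2 ≤ 0 := hv
    omega
  · exact fun v => Nat.zero_le _
  · exact fun v => Nat.zero_le _
  · exact Finset.empty_subset _
  · rw [Finset.card_empty, Nat.zero_mul]
    exact Nat.zero_le _

/-- the new layers after the ball of radius `h` around `r` has been added -/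
noncomputable def newLay (lay : Fin G.n → ℕ) (r : Fin G.n) (h : ℕ) (v : Fin G.n) : ℕ :=
  if v ∈ G.ball (G.done lay) r h then 1 + sInf {k | v ∈ G.ball (G.done lay) r k} else lay v

private theorem club_done (lay : Fin G.n → ℕ) (v : Fin G.n) : v ∈ G.done lay ↔ lay v ≠ 0 := by
  unfold done
  rw [mem_filter]
  exact ⟨fun h => h.2, fun h => ⟨mem_univ _, h⟩⟩

private theorem club_touch (lay : Fin G.n → ℕ) (i : Fin G.m) :
    i ∈ G.touch lay ↔ lay (G.e i).1 ≠ 0 ∨ lay (G.e i).2 ≠ 0 := by
  unfold touch
  rw [mem_filter]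
  exact ⟨fun h => h.2, fun h => ⟨mem_univ _, h⟩⟩

private theorem club_cut (S b : Finset (Fin G.n)) (i : Fin G.m) :
    i ∈ G.cut S b ↔ ((G.e i).1 ∈ b ∧ (G.e i).2 ∉ b ∧ (G.e i).2 ∉ S) ∨
      ((G.e i).2 ∈ b ∧ (G.e i).1 ∉ b ∧ (G.e i).1 ∉ S) := by
  unfold cut
  rw [mem_filter]
  exact ⟨fun h => h.2, fun h => ⟨mem_univ _, h⟩⟩

private theorem club_inn (b : Finset (Fin G.n)) (i : Fin G.m) :
    i ∈ G.inn b ↔ (G.e i).1 ∈ b ∧ (G.e i).2 ∈ b := by
  unfold inn
  rw [mem_filter]
  exact ⟨fun h => h.2, fun h => ⟨mem_univ _, h⟩⟩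

private theorem club_in {lay : Fin G.n → ℕ} {r : Fin G.n} {k : ℕ} {v : Fin G.n}
    (hv : v ∈ G.ball (G.done lay) r k) :
    G.newLay lay r k v = 1 + sInf {k | v ∈ G.ball (G.done lay) r k} := by
  unfold newLay
  rw [if_pos hv]

private theorem club_out {lay : Fin G.n → ℕ} {r : Fin G.n} {k : ℕ} {v : Fin G.n}
    (hv : v ∉ G.ball (G.done lay) r k) : G.newLay lay r k v = lay v := by
  unfold newLay
  rw [if_neg hv]

private theorem club_notin {lay : Fin G.n → ℕ} {r : Fin G.n} (hr : lay r = 0) {k : ℕ} {v : Fin G.n}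
    (hv : v ∈ G.ball (G.done lay) r k) : lay v = 0 := by
  by_contra h
  have hr' : r ∉ G.done lay := by
    rw [G.club_done]
    exact fun h => h hr
  exact Finset.disjoint_left.1 (G.ball_disj (G.done lay) r hr' k) hv ((G.club_done lay v).2 h)

private theorem club_sinf {S : Finset (Fin G.n)} {r v : Fin G.n} {k : ℕ}
    (hv : v ∈ G.ball S r k) : v ∈ G.ball S r (sInf {k | v ∈ G.ball S r k}) ∧
      sInf {k | v ∈ G.ball S r k} ≤ k ∧ ∀ j < sInf {k | v ∈ G.ball S r k}, v ∉ G.ball S r j := by
  refine ⟨?_, ?_, ?_⟩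
  · exact Nat.sInf_mem (s := {k | v ∈ G.ball S r k}) ⟨k, hv⟩
  · exact Nat.sInf_le hv
  · exact fun j hj hv' => Nat.notMem_of_lt_sInf hj hv'

/-- one more cluster -/
theorem inv_step {lay : Fin G.n → ℕ} {F : Finset (Fin G.m)} {cl : Fin G.n → Fin G.n} {R B L : ℕ}
    (h : G.Inv lay F cl R B L) (r : Fin G.n) (hr : lay r = 0) (k : ℕ) (hk : k ≤ R)
    (hc : (G.cut (G.done lay) (G.ball (G.done lay) r k)).card * B ≤
      L * (1 + (G.inn (G.ball (G.done lay) r k)).card)) :
    ∃ cl', G.Inv (G.newLay lay r k) (F ∪ G.cut (G.done lay) (G.ball (G.done lay) r k)) cl' R B L := by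
  classical
  have hr' : r ∉ G.done lay := by
    rw [G.club_done]
    exact fun h => h hr
  set b := G.ball (G.done lay) r k with hb
  have hrb : r ∈ b := G.mem_ball_self _ _ _
  have hnew : ∀ v, G.newLay lay r k v ≠ 0 ↔ v ∈ b ∨ lay v ≠ 0 := by
    intro v
    by_cases hv : v ∈ b
    · rw [G.club_in hv]
      exact ⟨fun _ => Or.inl hv, fun _ => by omega⟩
    · rw [G.club_out hv]
      exact ⟨fun h => Or.inr h, fun h => h.resolve_left hv⟩
  have hin : ∀ v, v ∈ b → lay v = 0 := fun v hv => G.club_notin hr hv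
  have hout : ∀ v, lay v ≠ 0 → v ∉ b := fun v hv hv' => hv (hin v hv')
  have hcutS : ∀ i, i ∈ G.cut (G.done lay) b → lay (G.e i).1 = 0 ∧ lay (G.e i).2 = 0 := by
    intro i hi
    rw [G.club_cut, G.club_done, G.club_done, not_not, not_not] at hi
    rcases hi with hi | hi
    · exact ⟨hin _ hi.1, hi.2.2⟩
    · exact ⟨hi.2.2, hin _ hi.1⟩
  refine ⟨fun v => if v ∈ b then r else cl v, ?_, ?_, ?_, ?_, ?_, ?_, ?_, ?_⟩
  · -- root
    intro v hv
    by_cases hvb : v ∈ b
    · simp only [if_pos hvb]
      rw [G.club_in hrb]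
      have h1 : sInf {k | r ∈ G.ball (G.done lay) r k} ≤ 0 := Nat.sInf_le (G.mem_ball_self (G.done lay) r 0)
      omega
    · simp only [if_neg hvb]
      have hl : lay v ≠ 0 := ((hnew v).1 hv).resolve_left hvb
      have h1 := h.root v hl
      rw [G.club_out (hout _ (by rw [h1]; exact one_ne_zero))]
      exact h1
  · -- self
    intro v hv
    by_cases hvb : v ∈ b
    · simp only [if_pos hvb]
      rw [G.club_in hvb] at hv
      have h1 := (G.club_sinf hvb).1
      have h2 : sInf {k | v ∈ G.ball (G.done lay) r k} = 0 := by omega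
      rw [h2] at h1
      exact (Finset.mem_singleton.1 h1).symm
    · simp only [if_neg hvb]
      rw [G.club_out hvb] at hv
      exact h.self v hv
  · -- edge
    intro i hi
    rw [Finset.mem_union, not_or, G.club_cut, G.club_done, G.club_done] at hi
    obtain ⟨h1, h2⟩ := h.edge i hi.1
    have h3 : (G.e i).1 ∈ b ↔ (G.e i).2 ∈ b := by
      constructor
      · intro hx
        by_contra hy
        refine hi.2 (Or.inl ⟨hx, hy, fun hz => ?_⟩)
        exact (h1.2 hz) (hin _ hx)
      · intro hx
        by_contra hy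
        refine hi.2 (Or.inr ⟨hx, hy, fun hz => ?_⟩)
        exact (h1.1 hz) (hin _ hx)
    refine ⟨?_, ?_⟩
    · rw [hnew, hnew, h3, h1]
    · intro h4
      by_cases hx : (G.e i).1 ∈ b
      · simp only [if_pos hx, if_pos (h3.1 hx)]
      · simp only [if_neg hx, if_neg (fun h => hx (h3.2 h))]
        exact h2 (((hnew _).1 h4).resolve_left hx)
  · -- par
    intro v hv
    by_cases hvb : v ∈ b
    · rw [G.club_in hvb] at hv
      obtain ⟨h1, h2, h3⟩ := G.club_sinf hvb
      obtain ⟨j, hj⟩ : ∃ j, sInf {k | v ∈ G.ball (G.done lay) r k} = j + 1 :=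
        ⟨sInf {k | v ∈ G.ball (G.done lay) r k} - 1, by omega⟩
      rw [hj] at h1 h2 h3
      obtain ⟨i, w, hi, hw1, hw2⟩ := G.dist_par (G.done lay) r v hr' j h1 h3
      have hwb : w ∈ b := G.ball_mono _ _ (by omega) hw1
      have hws : sInf {k | w ∈ G.ball (G.done lay) r k} = j := by
        have h4 := G.club_sinf hw1
        refine le_antisymm h4.2.1 (not_lt.1 fun h5 => ?_)
        exact hw2 _ h5 h4.1
      refine ⟨i, ?_, w, hi, ?_⟩
      · rw [Finset.mem_union, not_or]
        constructor
        · intro hF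
          have h4 := h.sub hF
          rw [G.club_touch] at h4
          rcases hi with hi | hi
          · rw [hi] at h4
            exact h4.elim (fun h => h (hin _ hvb)) (fun h => h (hin _ hwb))
          · rw [hi] at h4
            exact h4.elim (fun h => h (hin _ hwb)) (fun h => h (hin _ hvb))
        · rw [G.club_cut]
          rcases hi with hi | hi
          · rw [hi]
            rintro (h4 | h4)
            · exact h4.2.1 hwb
            · exact h4.2.1 hvb
          · rw [hi]
            rintro (h4 | h4)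
            · exact h4.2.1 hvb
            · exact h4.2.1 hwb
      · rw [G.club_in hwb, G.club_in hvb, hws, hj]
        omega
    · rw [G.club_out hvb] at hv
      obtain ⟨i, hi, w, hw, hl⟩ := h.par v hv
      have hwb : w ∉ b := hout w (by
        intro h0
        omega)
      have hwz : lay w ≠ 0 ∨ w ∉ b := Or.inr hwb
      refine ⟨i, ?_, w, hw, ?_⟩
      · rw [Finset.mem_union, not_or]
        refine ⟨hi, ?_⟩
        rw [G.club_cut]
        rcases hw with hw | hw
        · rw [hw]
          rintro (h4 | h4)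
          · exact hvb h4.1
          · exact hwb h4.1
        · rw [hw]
          rintro (h4 | h4)
          · exact hwb h4.1
          · exact hvb h4.1
      · rw [G.club_out hwb, G.club_out hvb]
        exact hl
  · -- le
    intro v
    by_cases hvb : v ∈ b
    · rw [G.club_in hvb]
      have := (G.club_sinf hvb).2.1
      omega
    · rw [G.club_out hvb]
      exact h.le v
  · -- le_n
    intro v
    by_cases hvb : v ∈ b
    · rw [G.club_in hvb]
      have h1 := G.club_sinf hvb
      have := G.dist_lt (G.done lay) r v _ h1.1 h1.2.2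
      omega
    · rw [G.club_out hvb]
      exact h.le_n v
  · -- sub
    intro i hi
    rw [G.club_touch, hnew, hnew]
    rcases Finset.mem_union.1 hi with hi | hi
    · have h1 := h.sub hi
      rw [G.club_touch] at h1
      exact h1.elim (fun h => Or.inl (Or.inr h)) (fun h => Or.inr (Or.inr h))
    · rw [G.club_cut] at hi
      exact hi.elim (fun h => Or.inl (Or.inl h.1)) (fun h => Or.inr (Or.inl h.1))
  · -- size
    have hd1 : Disjoint (G.touch lay) (G.cut (G.done lay) b) := by
      rw [Finset.disjoint_left]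
      intro i hi hi'
      rw [G.club_touch] at hi
      have h1 := hcutS i hi'
      exact hi.elim (fun h => h h1.1) (fun h => h h1.2)
    have hd2 : Disjoint (G.touch lay ∪ G.cut (G.done lay) b) (G.inn b) := by
      rw [Finset.disjoint_left]
      intro i hi hi'
      rw [G.club_inn] at hi'
      rcases Finset.mem_union.1 hi with hi | hi
      · rw [G.club_touch] at hi
        exact hi.elim (fun h => h (hin _ hi'.1)) (fun h => h (hin _ hi'.2))
      · rw [G.club_cut] at hi
        exact hi.elim (fun h => h.2.1 hi'.2) (fun h => h.2.1 hi'.1)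
    have hsub : (G.touch lay ∪ G.cut (G.done lay) b) ∪ G.inn b ⊆ G.touch (G.newLay lay r k) := by
      intro i hi
      rw [G.club_touch, hnew, hnew]
      rcases Finset.mem_union.1 hi with hi | hi
      · rcases Finset.mem_union.1 hi with hi | hi
        · rw [G.club_touch] at hi
          exact hi.elim (fun h => Or.inl (Or.inr h)) (fun h => Or.inr (Or.inr h))
        · rw [G.club_cut] at hi
          exact hi.elim (fun h => Or.inl (Or.inl h.1)) (fun h => Or.inr (Or.inl h.1))
      · rw [G.club_inn] at hi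
        exact Or.inl (Or.inl hi.1)
    have hcard : (G.touch lay).card + (G.cut (G.done lay) b).card + (G.inn b).card ≤
        (G.touch (G.newLay lay r k)).card := by
      rw [← Finset.card_union_of_disjoint hd1, ← Finset.card_union_of_disjoint hd2]
      exact Finset.card_le_card hsub
    have hsize := h.size
    have hu := Finset.card_union_le F (G.cut (G.done lay) b)
    have h1 : (F ∪ G.cut (G.done lay) b).card * B ≤ F.card * B + (G.cut (G.done lay) b).card * B := by
      rw [← Nat.add_mul]
      exact Nat.mul_le_mul_right _ hu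
    refine h1.trans ?_
    rcases Nat.eq_zero_or_pos (G.cut (G.done lay) b).card with h0 | h0
    · rw [h0, Nat.zero_mul, Nat.add_zero]
      exact hsize.trans (Nat.mul_le_mul_left _ (by omega))
    · calc F.card * B + (G.cut (G.done lay) b).card * B
          ≤ L * (G.touch lay).card + L * (1 + (G.inn b).card) := Nat.add_le_add hsize hc
        _ = L * ((G.touch lay).card + (1 + (G.inn b).card)) := (Nat.mul_add _ _ _).symm
        _ ≤ L * (G.touch (G.newLay lay r k)).card := Nat.mul_le_mul_left _ (by omega)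

/-- the new cut edges are new -/
theorem cut_new {lay : Fin G.n → ℕ} {F : Finset (Fin G.m)} {cl : Fin G.n → Fin G.n} {R B L : ℕ}
    (h : G.Inv lay F cl R B L) (r : Fin G.n) (hr : lay r = 0) (k : ℕ) :
    Disjoint F (G.cut (G.done lay) (G.ball (G.done lay) r k)) := by
  rw [Finset.disjoint_left]
  intro i hi hi'
  have h1 := h.sub hi
  rw [G.club_touch] at h1
  rw [G.club_cut, G.club_done, G.club_done, not_not, not_not] at hi'
  rcases hi' with hi' | hi'
  · exact h1.elim (fun h => h (G.club_notin hr hi'.1)) (fun h => h hi'.2.2)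
  · exact h1.elim (fun h => h hi'.2.2) (fun h => h (G.club_notin hr hi'.1))

theorem newLay_ne (lay : Fin G.n → ℕ) (r : Fin G.n) (h : ℕ) (v : Fin G.n) (hv : lay v ≠ 0) :
    G.newLay lay r h v ≠ 0 := by
  by_cases hvb : v ∈ G.ball (G.done lay) r h
  · rw [G.club_in hvb]
    omega
  · rw [G.club_out hvb]
    exact hv

theorem newLay_r (lay : Fin G.n → ℕ) (r : Fin G.n) (h : ℕ) : G.newLay lay r h r ≠ 0 := by
  rw [G.club_in (G.mem_ball_self _ _ _)]
  omega

/-- at the end the clusters form a cluster decomposition -/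
theorem Inv.clu {lay : Fin G.n → ℕ} {F : Finset (Fin G.m)} {cl : Fin G.n → Fin G.n} {R B L : ℕ}
    (h : G.Inv lay F cl R B L) (hall : ∀ v, lay v ≠ 0) : G.Clu lay F R := by
  classical
  refine ⟨fun v => Nat.one_le_iff_ne_zero.2 (hall v), h.le, h.par, ?_⟩
  intro u v A hA hbd hu hv
  have h1 : ∑ w ∈ univ.filter (fun w => cl w = u), G.bd A w = 0 := by
    unfold bd
    simp only [Finset.sum_apply, Pi.add_apply]
    rw [Finset.sum_comm]
    refine Finset.sum_eq_zero fun i hi => ?_
    have hiF : i ∉ F := Finset.disjoint_left.1 hA hi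
    have h2 := (h.edge i hiF).2 (hall _)
    rw [Finset.sum_add_distrib, Finset.sum_pi_single', Finset.sum_pi_single']
    simp only [Finset.mem_filter, Finset.mem_univ, true_and]
    by_cases h3 : cl (G.e i).1 = u
    · rw [if_pos h3, if_pos (h2.symm.trans h3)]
      decide
    · rw [if_neg h3, if_neg (fun h => h3 (h2.trans h)), add_zero]
  rw [hbd] at h1
  simp only [Pi.add_apply] at h1
  rw [Finset.sum_add_distrib, Finset.sum_pi_single', Finset.sum_pi_single'] at h1
  simp only [Finset.mem_filter, Finset.mem_univ, true_and] at h1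
  rw [if_pos (h.self u hu), h.self v hv] at h1
  by_contra hne
  rw [if_neg (fun h' => hne h'.symm), add_zero] at h1
  exact one_ne_zero h1

end MGraph

end Pool.Agent.Lib.H2
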