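import Pool.Agent.Lib.MP_3493b8_lc.Bd

/-! Components and colourings. -/

set_option autoImplicit false

open Finset

namespace Pool.Agent.Lib.H2

namespace MGraph

variable (G : MGraph)

private theorem iden0_surj (A : Finset (Fin G.m)) : Function.Surjective
    (Quot.mk (fun u v : Fin G.n => ∃ i ∈ A, G.e i = (u, v))) := Quot.mk_surjective

private theorem iden0_fin (A : Finset (Fin G.m)) :
    Finite (Quot fun u v : Fin G.n => ∃ i ∈ A, G.e i = (u, v)) :=
  Finite.of_surjective _ (G.iden0_surj A)

/-- number of two-colourings constant on the components of `A` -/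
theorem card_colour (A : Finset (Fin G.m)) :
    ((univ : Finset (Fin G.n → Bool)).filter fun σ => ∀ i ∈ A, σ (G.e i).1 = σ (G.e i).2).card =
      2 ^ G.comps A := by
  classical
  have := G.iden0_fin A
  have h1 : ∀ σ : {σ : Fin G.n → Bool // ∀ i ∈ A, σ (G.e i).1 = σ (G.e i).2}, ∀ u v : Fin G.n,
      (∃ i ∈ A, G.e i = (u, v)) → σ.1 u = σ.1 v := by
    rintro σ u v ⟨i, hi, hu⟩
    have h2 := σ.2 i hi
    rw [hu] at h2
    exact h2
  let e : {σ : Fin G.n → Bool // ∀ i ∈ A, σ (G.e i).1 = σ (G.e i).2} ≃
      ((Quot fun u v : Fin G.n => ∃ i ∈ A, G.e i = (u, v)) → Bool) :=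
    { toFun := fun σ => Quot.lift σ.1 (h1 σ)
      invFun := fun f => ⟨fun u => f (Quot.mk _ u), fun i hi =>
        congrArg f (Quot.sound ⟨i, hi, rfl⟩)⟩
      left_inv := fun σ => rfl
      right_inv := fun f => by
        funext x
        induction x using Quot.ind with
        | mk u => rfl }
  have h3 := Nat.card_congr e
  rw [Nat.card_fun, Nat.card_eq_fintype_card (α := Bool), Fintype.card_bool] at h3
  have h4 : G.comps A = Nat.card (Quot fun u v : Fin G.n => ∃ i ∈ A, G.e i = (u, v)) := rfl
  rw [h4, ← h3, Nat.card_eq_fintype_card, Fintype.card_subtype]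

theorem comps_le (A : Finset (Fin G.m)) : G.comps A ≤ G.n := by
  have h := Nat.card_le_card_of_surjective _ (G.iden0_surj A)
  rwa [Nat.card_eq_fintype_card (α := Fin G.n), Fintype.card_fin] at h

private theorem iden0_mono {A B : Finset (Fin G.m)} (h : A ⊆ B) : G.comps B ≤ G.comps A := by
  have := G.iden0_fin A
  refine Nat.card_le_card_of_surjective (Quot.map id fun u v huv => ?_) ?_
  · obtain ⟨i, hi, hu⟩ := huv
    exact ⟨i, h hi, hu⟩
  · intro x
    induction x using Quot.ind with
    | mk u => exact ⟨Quot.mk _ u, rfl⟩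

theorem comps_univ_le (A : Finset (Fin G.m)) : G.comps univ ≤ G.comps A :=
  G.iden0_mono (subset_univ A)

private theorem iden0_insert (A : Finset (Fin G.m)) (a : Fin G.m) :
    G.comps A ≤ G.comps (insert a A) + 1 := by
  classical
  have := G.iden0_fin A
  have := G.iden0_fin (insert a A)
  have hmap : ∀ u v : Fin G.n, (∃ i ∈ A, G.e i = (u, v)) → ∃ i ∈ insert a A, G.e i = (id u, id v) := by
    rintro u v ⟨i, hi, hu⟩
    exact ⟨i, mem_insert_of_mem hi, hu⟩
  let g : (Quot fun u v : Fin G.n => ∃ i ∈ A, G.e i = (u, v)) →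
      Quot fun u v : Fin G.n => ∃ i ∈ insert a A, G.e i = (u, v) := Quot.map id hmap
  let z : Quot fun u v : Fin G.n => ∃ i ∈ A, G.e i = (u, v) := Quot.mk _ (G.e a).2
  let z' : Quot fun u v : Fin G.n => ∃ i ∈ A, G.e i = (u, v) := Quot.mk _ (G.e a).1
  have hb : ∀ u v : Fin G.n, (∃ i ∈ insert a A, G.e i = (u, v)) →
      (if (Quot.mk _ u : Quot fun u v : Fin G.n => ∃ i ∈ A, G.e i = (u, v)) = z then z'
        else Quot.mk _ u) =
      (if (Quot.mk _ v : Quot fun u v : Fin G.n => ∃ i ∈ A, G.e i = (u, v)) = z then z'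
        else Quot.mk _ v) := by
    rintro u v ⟨i, hi, hu⟩
    rcases mem_insert.1 hi with rfl | hi
    · have h1 : (Quot.mk _ v : Quot fun u v : Fin G.n => ∃ i ∈ A, G.e i = (u, v)) = z := by
        show _ = Quot.mk _ (G.e i).2
        rw [hu]
      have h2 : (Quot.mk _ u : Quot fun u v : Fin G.n => ∃ i ∈ A, G.e i = (u, v)) = z' := by
        show _ = Quot.mk _ (G.e i).1
        rw [hu]
      rw [if_pos h1, h2]
      split_ifs
      · rfl
      · rfl
    · have h1 : (Quot.mk _ u : Quot fun u v : Fin G.n => ∃ i ∈ A, G.e i = (u, v)) =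
          Quot.mk _ v := Quot.sound ⟨i, hi, hu⟩
      rw [h1]
  let k : (Quot fun u v : Fin G.n => ∃ i ∈ insert a A, G.e i = (u, v)) →
      Quot fun u v : Fin G.n => ∃ i ∈ A, G.e i = (u, v) :=
    Quot.lift (fun u => if (Quot.mk _ u : Quot fun u v : Fin G.n => ∃ i ∈ A, G.e i = (u, v)) = z
      then z' else Quot.mk _ u) hb
  have hk : ∀ x, x ≠ z → k (g x) = x := by
    intro x
    induction x using Quot.ind with
    | mk u => exact fun hx => if_neg hx
  let f : (Quot fun u v : Fin G.n => ∃ i ∈ A, G.e i = (u, v)) →
      Option (Quot fun u v : Fin G.n => ∃ i ∈ insert a A, G.e i = (u, v)) :=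
    fun x => if x = z then none else some (g x)
  have hf : Function.Injective f := by
    intro x y hxy
    by_cases hx : x = z
    · by_cases hy : y = z
      · rw [hx, hy]
      · have h1 : f x = none := if_pos hx
        have h2 : f y = some (g y) := if_neg hy
        rw [h1, h2] at hxy
        exact absurd hxy.symm (Option.some_ne_none _)
    · by_cases hy : y = z
      · have h1 : f y = none := if_pos hy
        have h2 : f x = some (g x) := if_neg hx
        rw [h1, h2] at hxy
        exact absurd hxy (Option.some_ne_none _)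
      · have h1 : f x = some (g x) := if_neg hx
        have h2 : f y = some (g y) := if_neg hy
        rw [h1, h2, Option.some_inj] at hxy
        rw [← hk x hx, ← hk y hy, hxy]
  have h5 := Nat.card_le_card_of_injective f hf
  rwa [Finite.card_option] at h5

/-- the rank is at most the number of edges -/
theorem rk_le_card (A : Finset (Fin G.m)) : G.rk A ≤ A.card := by
  classical
  have h : G.n ≤ G.comps A + A.card := by
    induction A using Finset.induction_on with
    | empty =>
      have h1 := G.card_colour ∅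
      have h2 : ((univ : Finset (Fin G.n → Bool)).filter fun σ =>
          ∀ i ∈ (∅ : Finset (Fin G.m)), σ (G.e i).1 = σ (G.e i).2) = univ := by
        refine filter_true_of_mem fun σ _ i hi => ?_
        exact absurd hi (notMem_empty i)
      rw [h2, card_univ, Fintype.card_fun, Fintype.card_bool, Fintype.card_fin] at h1
      have h3 := Nat.pow_right_injective (le_refl 2) h1
      rw [card_empty, add_zero]
      exact h3.le
    | insert a A ha ih =>
      have h1 := G.iden0_insert A a
      rw [card_insert_of_notMem ha]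
      omega
  unfold rk
  omega

end MGraph

end Pool.Agent.Lib.H2
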