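import Pool.Agent.Lib.MP_3493b8_lc.CluN2
import Pool.Agent.Lib.MP_3493b8_lc.Iden0

/-! The cluster decomposition used by the algorithm. -/

set_option autoImplicit false

open Finset

namespace Pool.Agent.Lib.H2

open Pool.Agent.Lib.PTC

namespace MGraph

variable (G : MGraph) (N : ℕ)

theorem LL_code : LL (G.code N) ≤ BB (G.code N) ∧ G.m + 1 < 2 ^ LL (G.code N) := by
  refine ⟨?_, ?_⟩
  · unfold BB
    omega
  · unfold LL
    rw [mm_code]
    exact Nat.lt_size_self _

private theorem inv_A : (∀ v, G.lay N (lyA (G.code N)) v ≠ 0) ∧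
    lyA (G.code N) < (G.n + 2) ^ G.n ∧ fA (G.code N) < 2 ^ G.m ∧
    ∃ cl, G.Inv (G.lay N (lyA (G.code N))) (G.eset (fA (G.code N))) cl (BB (G.code N))
      (BB (G.code N)) (LL (G.code N)) :=
  G.cluN_inv N (BB (G.code N)) (LL (G.code N)) (Or.inl (G.LL_code N))

/-- the layers and cut edges of the algorithm -/
theorem clu_A : G.Clu (G.lay N (lyA (G.code N))) (G.eset (fA (G.code N))) (rA (G.code N)) := by
  obtain ⟨h1, _, _, cl, h2⟩ := G.inv_A N
  have h3 := h2.clu G h1
  refine ⟨h3.pos, fun v => ?_, h3.par, h3.root⟩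
  have h4 := maxLay_ge (G.code N) (lyA (G.code N)) v v.2
  have h5 := h3.pos v
  unfold rA
  unfold lay at h5 ⊢
  omega

theorem lyA_lt : lyA (G.code N) < (G.n + 2) ^ G.n := (G.inv_A N).2.1

theorem lay_A_le (v : Fin G.n) : G.lay N (lyA (G.code N)) v ≤ G.n := by
  obtain ⟨_, _, _, cl, h2⟩ := G.inv_A N
  exact h2.le_n v

theorem fA_lt : fA (G.code N) < 2 ^ G.m := (G.inv_A N).2.2.1

theorem kA_code : kA (G.code N) = (G.eset (fA (G.code N))).card := G.sizeN_code N _

theorem rootsN_code (Ly : ℕ) : rootsN (G.code N) Ly = G.roots (G.lay N Ly) := by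
  unfold rootsN roots lay
  rw [nn_code, Finset.sum_range (fun v => if layN (G.code N) Ly v = 1 then 1 else 0),
    Finset.card_filter]

/-- the nullity -/
theorem nul_code : nul (G.code N) = G.m - G.rk univ := by
  obtain ⟨h1, _, _, cl, h2⟩ := G.cluN_inv N G.n (LL (G.code N)) (Or.inr le_rfl)
  obtain ⟨h3, _⟩ := G.cluN_diam N G.n (LL (G.code N)) G.n le_rfl G.diam_n
  have h4 := h2.clu G h1
  have h5 : G.eset (cluN (G.code N) G.n (LL (G.code N))).2 = ∅ := by
    rw [h3]
    unfold eset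
    simp
  rw [h5] at h4
  have h6 := h4.comps
  unfold nul rk lyC
  rw [mm_code, nn_code, rootsN_code, h6]

/-- the product of the number of cut edges and `BB` -/
private theorem kA_BB : kA (G.code N) * BB (G.code N) ≤ G.m * LL (G.code N) := by
  obtain ⟨_, _, _, cl, h2⟩ := G.inv_A N
  have h3 := h2.size
  have h4 : (G.touch (G.lay N (lyA (G.code N)))).card ≤ G.m := by
    have := Finset.card_le_univ (G.touch (G.lay N (lyA (G.code N))))
    rwa [Fintype.card_fin] at this
  rw [kA_code, mul_comm G.m]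
  exact h3.trans (Nat.mul_le_mul_left _ h4)

private theorem BB_sq : G.m * LL (G.code N) < BB (G.code N) * BB (G.code N) := by
  have h2 : Nat.sqrt (G.m * LL (G.code N)) + 1 ≤ BB (G.code N) := by
    unfold BB
    rw [mm_code]
    omega
  have h3 := Nat.lt_succ_sqrt (G.m * LL (G.code N))
  exact lt_of_lt_of_le h3 (Nat.mul_le_mul h2 h2)

private theorem kA_lt : kA (G.code N) < BB (G.code N) := by
  by_contra hcon
  rw [not_lt] at hcon
  have h1 := Nat.mul_le_mul_right (BB (G.code N)) hcon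
  have h2 := G.kA_BB N
  have h3 := G.BB_sq N
  omega

/-- the number of cut edges is at most `√(m L)` -/
theorem kA_le : kA (G.code N) * kA (G.code N) ≤ G.m * LL (G.code N) :=
  (Nat.mul_le_mul_left _ (G.kA_lt N).le).trans (G.kA_BB N)

theorem rA_le : rA (G.code N) ≤ BB (G.code N) := by
  obtain ⟨_, _, _, cl, h2⟩ := G.inv_A N
  have h3 : maxLay (G.code N) (lyA (G.code N)) ≤ BB (G.code N) + 1 :=
    maxLay_le _ _ _ fun v hv => h2.le ⟨v, hv⟩
  unfold rA
  omega

/-- small diameter -/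
theorem kA_diam (d : ℕ) (hd : G.DiamLe d) : kA (G.code N) ≤ d ∧ rA (G.code N) ≤ d := by
  by_cases hdB : d ≤ BB (G.code N)
  · obtain ⟨h1, h2⟩ := G.cluN_diam N (BB (G.code N)) (LL (G.code N)) d hdB hd
    have h3 : maxLay (G.code N) (lyA (G.code N)) ≤ d + 1 :=
      maxLay_le _ _ _ fun v hv => h2 ⟨v, hv⟩
    refine ⟨?_, ?_⟩
    · rw [kA_code]
      have h4 : fA (G.code N) = 0 := h1
      rw [h4]
      unfold eset
      simp
    · unfold rA
      omega
  · have h1 := G.kA_lt N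
    have h2 := G.rA_le N
    exact ⟨by omega, by omega⟩

private theorem LL_log : (LL (G.code N) : ℝ) ≤ 3 * Real.log (G.m + 2) := by
  have h1 : 2 ^ (LL (G.code N) - 1) ≤ G.m + 1 := by
    unfold LL
    rw [mm_code]
    exact Nat.lt_size.1 (Nat.sub_lt (Nat.size_pos.2 (Nat.succ_pos _)) one_pos)
  have h2 : (2 : ℝ) ^ (LL (G.code N) - 1) ≤ (G.m : ℝ) + 2 := by
    have h3 : ((2 ^ (LL (G.code N) - 1) : ℕ) : ℝ) ≤ ((G.m + 1 : ℕ) : ℝ) := by exact_mod_cast h1
    push_cast at h3
    linarith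
  have h3 : ((LL (G.code N) - 1 : ℕ) : ℝ) * Real.log 2 ≤ Real.log (G.m + 2) := by
    rw [← Real.log_pow]
    exact Real.log_le_log (by positivity) h2
  have h4 : (LL (G.code N) : ℝ) ≤ ((LL (G.code N) - 1 : ℕ) : ℝ) + 1 := by
    have : LL (G.code N) ≤ (LL (G.code N) - 1) + 1 := by omega
    exact_mod_cast this
  have h5 : Real.log 2 ≤ Real.log (G.m + 2) :=
    Real.log_le_log (by norm_num) (by have : (0 : ℝ) ≤ G.m := Nat.cast_nonneg _; linarith)
  have h6 := Real.log_two_gt_d9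
  have h7 : (0 : ℝ) ≤ ((LL (G.code N) - 1 : ℕ) : ℝ) := Nat.cast_nonneg _
  nlinarith

/-- in general -/
theorem kA_rA_sqrt : ((kA (G.code N) : ℝ) + rA (G.code N)) ≤
    10 * Real.sqrt (G.m * Real.log (G.m + 2)) + 10 * Real.log (G.m + 2) + 2 := by
  have hm : (0 : ℝ) ≤ G.m := Nat.cast_nonneg _
  have hL := G.LL_log N
  have hL0 : (0 : ℝ) ≤ LL (G.code N) := Nat.cast_nonneg _
  have hlog : 0 ≤ Real.log (G.m + 2) := Real.log_nonneg (by linarith)
  have h1 : (G.m : ℝ) * LL (G.code N) ≤ 4 * (G.m * Real.log (G.m + 2)) := by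
    have := mul_le_mul_of_nonneg_left hL hm
    have := mul_nonneg hm hlog
    linarith
  have h2 : Real.sqrt ((G.m : ℝ) * LL (G.code N)) ≤
      2 * Real.sqrt (G.m * Real.log (G.m + 2)) := by
    have h3 : Real.sqrt (4 * (G.m * Real.log (G.m + 2))) =
        2 * Real.sqrt (G.m * Real.log (G.m + 2)) := by
      rw [Real.sqrt_mul (by norm_num)]
      have : Real.sqrt 4 = 2 := by
        rw [show (4 : ℝ) = 2 ^ 2 by norm_num]
        exact Real.sqrt_sq (by norm_num)
      rw [this]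
    rw [← h3]
    exact Real.sqrt_le_sqrt h1
  have h3 : (kA (G.code N) : ℝ) ≤ Real.sqrt ((G.m : ℝ) * LL (G.code N)) := by
    refine Real.le_sqrt_of_sq_le ?_
    have := G.kA_le N
    rw [pow_two]
    exact_mod_cast this
  have h4 : (rA (G.code N) : ℝ) ≤ Real.sqrt ((G.m : ℝ) * LL (G.code N)) + LL (G.code N) + 1 := by
    have h5 := G.rA_le N
    unfold BB at h5
    rw [mm_code] at h5
    have h6 : (rA (G.code N) : ℝ) ≤
        ((Nat.sqrt (G.m * LL (G.code N)) + LL (G.code N) + 1 : ℕ) : ℝ) := by exact_mod_cast h5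
    push_cast at h6
    have h7 := @Real.nat_sqrt_le_real_sqrt (G.m * LL (G.code N))
    push_cast at h7
    linarith
  have h8 : 0 ≤ Real.sqrt (G.m * Real.log (G.m + 2)) := Real.sqrt_nonneg _
  linarith

end MGraph

end Pool.Agent.Lib.H2
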