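import Pool.Agent.Lib.MP_3493b8_lc.Sem1
import Pool.Agent.Lib.MP_3493b8_lc.CluB

/-! Meaning of the numeric functions for ball growing. -/

set_option autoImplicit false

open Finset

namespace Pool.Agent.Lib.H2

open Pool.Agent.Lib.PTC

private theorem srch_aux (P : ℕ → Prop) [DecidablePred P] (t : ℕ) (j : ℕ) (hj : j ≤ t) :
    (itr (fun i b => if b = t ∧ P i then i else b) t j < j ∧
      P (itr (fun i b => if b = t ∧ P i then i else b) t j) ∧
      ∀ i < itr (fun i b => if b = t ∧ P i then i else b) t j, ¬ P i) ∨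
    ((∀ i < j, ¬ P i) ∧ itr (fun i b => if b = t ∧ P i then i else b) t j = t) := by
  induction j with
  | zero => exact Or.inr ⟨fun i hi => absurd hi (Nat.not_lt_zero i), rfl⟩
  | succ j ih =>
    have e : itr (fun i b => if b = t ∧ P i then i else b) t (j + 1) =
        if itr (fun i b => if b = t ∧ P i then i else b) t j = t ∧ P j then j
        else itr (fun i b => if b = t ∧ P i then i else b) t j := rfl
    rw [e]
    rcases ih (by omega) with ⟨h1, h2, h3⟩ | ⟨h1, h2⟩
    · rw [if_neg (by rintro ⟨h4, -⟩; omega)]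
      exact Or.inl ⟨by omega, h2, h3⟩
    · by_cases hP : P j
      · rw [if_pos ⟨h2, hP⟩]
        exact Or.inl ⟨Nat.lt_succ_self j, hP, h1⟩
      · rw [if_neg (fun h => hP h.2)]
        refine Or.inr ⟨fun i hi => ?_, h2⟩
        rcases Nat.lt_succ_iff_lt_or_eq.1 hi with h3 | h3
        · exact h1 i h3
        · rw [h3]
          exact hP

/-- the search finds the least solution -/
theorem srch_lt (P : ℕ → Prop) [DecidablePred P] (t : ℕ) (h : ∃ i < t, P i) :
    srch P t < t ∧ P (srch P t) := by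
  rcases srch_aux P t t le_rfl with ⟨h1, h2, -⟩ | ⟨h1, -⟩
  · exact ⟨h1, h2⟩
  · obtain ⟨i, hi, hP⟩ := h
    exact absurd hP (h1 i hi)

theorem srch_min (P : ℕ → Prop) [DecidablePred P] (t i : ℕ) (h : i < srch P t) : ¬ P i := by
  rcases srch_aux P t t le_rfl with ⟨-, -, h3⟩ | ⟨h1, h2⟩
  · exact h3 i h
  · have h3 : srch P t = t := h2
    rw [h3] at h
    exact h1 i h

theorem srch_le (P : ℕ → Prop) [DecidablePred P] (t : ℕ) : srch P t ≤ t := by
  rcases srch_aux P t t le_rfl with ⟨h1, -, -⟩ | ⟨-, h2⟩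
  · exact le_of_lt h1
  · exact le_of_eq h2

theorem srch_none (P : ℕ → Prop) [DecidablePred P] (t : ℕ) (h : ∀ i < t, ¬ P i) :
    srch P t = t := by
  rcases srch_aux P t t le_rfl with ⟨h1, h2, -⟩ | ⟨-, h2⟩
  · exact absurd h2 (h _ h1)
  · exact h2

private theorem digit_sum_lt' (b n : ℕ) (f : ℕ → ℕ) (hf : ∀ v < n, f v < b) :
    (∑ v ∈ range n, f v * b ^ v) < b ^ n := by
  induction n with
  | zero => simp
  | succ n ih =>
    rw [sum_range_succ, pow_succ]
    have h1 := ih fun v hv => hf v (by omega)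
    have h2 : (f n + 1) * b ^ n ≤ b * b ^ n := Nat.mul_le_mul_right _ (hf n (Nat.lt_succ_self n))
    rw [Nat.add_mul, one_mul] at h2
    rw [mul_comm (b ^ n) b]
    omega

/-- digits of a sum -/
theorem digit_sum (b n : ℕ) (f : ℕ → ℕ) (hf : ∀ v < n, f v < b) (k : ℕ) (hk : k < n) :
    (∑ v ∈ range n, f v * b ^ v) / b ^ k % b = f k := by
  obtain ⟨r, rfl⟩ : ∃ r, n = k + (r + 1) := ⟨n - k - 1, by omega⟩
  have hb : 0 < b := lt_of_le_of_lt (Nat.zero_le _) (hf k hk)
  have h1 := digit_sum_lt' b k f fun v hv => hf v (by omega)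
  have h2 : ∑ v ∈ range (k + (r + 1)), f v * b ^ v =
      ∑ v ∈ range k, f v * b ^ v + b ^ k * (f k + b * ∑ v ∈ range r, f (k + (v + 1)) * b ^ v) := by
    rw [sum_range_add, sum_range_succ']
    congr 1
    rw [mul_add, ← mul_assoc, mul_sum, add_comm]
    congr 1
    · rw [add_zero, mul_comm]
    · refine sum_congr rfl fun v _ => ?_
      rw [pow_add, pow_succ]
      ring
  rw [h2, Nat.add_mul_div_left _ _ (pow_pos hb k), Nat.div_eq_of_lt h1, zero_add,
    Nat.add_mul_mod_self_left, Nat.mod_eq_of_lt (hf k hk)]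

theorem sum_digit (b n y : ℕ) (hy : y < b ^ n) :
    (∑ v ∈ range n, (y / b ^ v % b) * b ^ v) = y := by
  have h : ∀ k : ℕ, (∑ v ∈ range k, (y / b ^ v % b) * b ^ v) = y % b ^ k := by
    intro k
    induction k with
    | zero => simp [Nat.mod_one]
    | succ k ih => rw [sum_range_succ, ih, Nat.mod_pow_succ, mul_comm (b ^ k)]
  rw [h, Nat.mod_eq_of_lt hy]

theorem digit_sum_lt (b n : ℕ) (f : ℕ → ℕ) (hf : ∀ v < n, f v < b) :
    (∑ v ∈ range n, f v * b ^ v) < b ^ n :=
  digit_sum_lt' b n f hf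

namespace MGraph

variable (G : MGraph) (N : ℕ)

/-- the vertex set of a mask -/
def vset (b : ℕ) : Finset (Fin G.n) := univ.filter fun v => b.testBit v = true

/-- the layers coded by a number -/
def lay (Ly : ℕ) (v : Fin G.n) : ℕ := layN (G.code N) Ly v

private theorem mem_vset (b : ℕ) (v : Fin G.n) : v ∈ G.vset b ↔ b.testBit v = true := by
  unfold vset
  rw [mem_filter]
  exact ⟨fun h => h.2, fun h => ⟨mem_univ _, h⟩⟩

private theorem not_mem_done (Ly : ℕ) (v : Fin G.n) :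
    v ∉ G.done (G.lay N Ly) ↔ layN (G.code N) Ly v = 0 := by
  unfold done lay
  rw [mem_filter]
  constructor
  · intro h
    by_contra h1
    exact h ⟨mem_univ _, h1⟩
  · intro h h1
    exact h1.2 h

theorem growN_code (Ly b : ℕ) :
    G.vset (growN (G.code N) Ly b) = G.grow (G.done (G.lay N Ly)) (G.vset b) := by
  ext v
  rw [mem_vset]
  unfold growN grow
  rw [testBit_sum, decide_eq_true_iff, mem_filter, mem_vset, not_mem_done, nn_code, mm_code]
  constructor
  · rintro ⟨-, h | ⟨h1, i, hi, h2⟩⟩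
    · exact ⟨mem_univ _, Or.inl h⟩
    · refine ⟨mem_univ _, Or.inr ⟨h1, ⟨i, hi⟩, ?_⟩⟩
      have e1 := G.eu_code N ⟨i, hi⟩
      have e2 := G.ev_code N ⟨i, hi⟩
      simp only at e1 e2
      rw [e1, e2] at h2
      rcases h2 with ⟨h2, h3⟩ | ⟨h2, h3⟩
      · exact Or.inl ⟨Fin.ext h2, (G.mem_vset b _).2 h3⟩
      · exact Or.inr ⟨Fin.ext h2, (G.mem_vset b _).2 h3⟩
  · rintro ⟨-, h | ⟨h1, i, h2⟩⟩
    · exact ⟨v.isLt, Or.inl h⟩
    · refine ⟨v.isLt, Or.inr ⟨h1, i.val, i.isLt, ?_⟩⟩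
      rw [G.eu_code N i, G.ev_code N i]
      rcases h2 with ⟨h2, h3⟩ | ⟨h2, h3⟩
      · exact Or.inl ⟨congrArg Fin.val h2, (G.mem_vset b _).1 h3⟩
      · exact Or.inr ⟨congrArg Fin.val h2, (G.mem_vset b _).1 h3⟩

theorem ballN_code (Ly : ℕ) (r : Fin G.n) (h : ℕ) :
    G.vset (ballN (G.code N) Ly r h) = G.ball (G.done (G.lay N Ly)) r h := by
  induction h with
  | zero =>
    ext v
    rw [mem_vset]
    have e1 : ballN (G.code N) Ly r 0 = 2 ^ (r : ℕ) := rfl
    have e2 : G.ball (G.done (G.lay N Ly)) r 0 = {r} := rfl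
    rw [e1, e2, Nat.testBit_two_pow, decide_eq_true_iff, mem_singleton, Fin.ext_iff]
    exact eq_comm
  | succ h ih =>
    have e1 : ballN (G.code N) Ly r (h + 1) =
        growN (G.code N) Ly (ballN (G.code N) Ly r h) := rfl
    have e2 : G.ball (G.done (G.lay N Ly)) r (h + 1) =
        G.grow (G.done (G.lay N Ly)) (G.ball (G.done (G.lay N Ly)) r h) := rfl
    rw [e1, e2, growN_code, ih]

theorem ballN_testBit (Ly : ℕ) (r v : Fin G.n) (h : ℕ) :
    (ballN (G.code N) Ly r h).testBit v = true ↔ v ∈ G.ball (G.done (G.lay N Ly)) r h := by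
  rw [← ballN_code, mem_vset]

theorem cutN_code (Ly b : ℕ) (i : Fin G.m) :
    CutN (G.code N) Ly b i ↔ i ∈ G.cut (G.done (G.lay N Ly)) (G.vset b) := by
  unfold CutN cut
  rw [mem_filter, G.eu_code N i, G.ev_code N i, mem_vset, mem_vset, not_mem_done, not_mem_done,
    Bool.not_eq_true, Bool.not_eq_true]
  exact ⟨fun h => ⟨mem_univ _, h⟩, fun h => h.2⟩

theorem dlN_code (Ly b : ℕ) :
    dlN (G.code N) Ly b = (G.cut (G.done (G.lay N Ly)) (G.vset b)).card := by
  classical
  unfold dlN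
  rw [mm_code, sum_range, ← card_filter]
  congr 1
  ext i
  rw [mem_filter, cutN_code]
  exact ⟨fun h => h.2, fun h => ⟨mem_univ _, h⟩⟩

theorem dinN_code (b : ℕ) : dinN (G.code N) b = (G.inn (G.vset b)).card := by
  classical
  unfold dinN inn
  rw [mm_code, sum_range, ← card_filter]
  congr 1
  ext i
  rw [mem_filter, mem_filter, G.eu_code N i, G.ev_code N i, mem_vset, mem_vset]

/-- the radius of the next cluster -/
theorem radN_spec (B L Ly : ℕ) (r : Fin G.n)
    (h : ∃ k ≤ B, (G.cut (G.done (G.lay N Ly)) (G.ball (G.done (G.lay N Ly)) r k)).card * B ≤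
      L * (1 + (G.inn (G.ball (G.done (G.lay N Ly)) r k)).card)) :
    radN (G.code N) B L Ly r ≤ B ∧
      (G.cut (G.done (G.lay N Ly)) (G.ball (G.done (G.lay N Ly)) r
        (radN (G.code N) B L Ly r))).card * B ≤
      L * (1 + (G.inn (G.ball (G.done (G.lay N Ly)) r (radN (G.code N) B L Ly r))).card) := by
  unfold radN
  by_cases h1 : srch (fun h => dlN (G.code N) Ly (ballN (G.code N) Ly r h) = 0) (B + 1) ≤ B
  · rw [if_pos h1]
    refine ⟨h1, ?_⟩
    have h2 : ∃ i < B + 1, dlN (G.code N) Ly (ballN (G.code N) Ly r i) = 0 := by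
      by_contra h3
      simp only [not_exists, not_and] at h3
      have h4 := srch_none (fun h => dlN (G.code N) Ly (ballN (G.code N) Ly r h) = 0) (B + 1) h3
      omega
    have h3 := (srch_lt (fun h => dlN (G.code N) Ly (ballN (G.code N) Ly r h) = 0) (B + 1) h2).2
    beta_reduce at h3
    rw [dlN_code, ballN_code] at h3
    rw [h3, zero_mul]
    exact Nat.zero_le _
  · rw [if_neg h1]
    obtain ⟨k, hk, hk1⟩ := h
    have h2 : ∃ i < B + 1, dlN (G.code N) Ly (ballN (G.code N) Ly r i) * B ≤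
        L * (1 + dinN (G.code N) (ballN (G.code N) Ly r i)) := by
      refine ⟨k, by omega, ?_⟩
      rw [dlN_code, dinN_code, ballN_code]
      exact hk1
    obtain ⟨h3, h4⟩ := srch_lt (fun h => dlN (G.code N) Ly (ballN (G.code N) Ly r h) * B ≤
        L * (1 + dinN (G.code N) (ballN (G.code N) Ly r h))) (B + 1) h2
    refine ⟨by omega, ?_⟩
    rw [dlN_code, dinN_code, ballN_code] at h4
    exact h4

/-- if the component is exhausted in time, nothing is cut -/
theorem radN_cut (B L Ly : ℕ) (r : Fin G.n) (k : ℕ) (hk : k ≤ B)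
    (h : G.cut (G.done (G.lay N Ly)) (G.ball (G.done (G.lay N Ly)) r k) = ∅) :
    radN (G.code N) B L Ly r ≤ k ∧
      G.cut (G.done (G.lay N Ly)) (G.ball (G.done (G.lay N Ly)) r
        (radN (G.code N) B L Ly r)) = ∅ := by
  have h1 : dlN (G.code N) Ly (ballN (G.code N) Ly r k) = 0 := by
    rw [dlN_code, ballN_code, h, card_empty]
  obtain ⟨h2, h3⟩ := srch_lt (fun h => dlN (G.code N) Ly (ballN (G.code N) Ly r h) = 0) (B + 1)
    ⟨k, by omega, h1⟩
  have h4 : srch (fun h => dlN (G.code N) Ly (ballN (G.code N) Ly r h) = 0) (B + 1) ≤ k := by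
    by_contra h5
    exact srch_min (fun h => dlN (G.code N) Ly (ballN (G.code N) Ly r h) = 0) (B + 1) k
      (not_le.1 h5) h1
  unfold radN
  rw [if_pos (by omega)]
  refine ⟨h4, ?_⟩
  rw [dlN_code, ballN_code] at h3
  exact card_eq_zero.1 h3

end MGraph

end Pool.Agent.Lib.H2
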