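import Pool.Agent.Lib.MP_3493b8_lc.CluN1

/-! The numeric cluster decomposition. -/

set_option autoImplicit false

open Finset

namespace Pool.Agent.Lib.H2

open Pool.Agent.Lib.PTC

namespace MGraph

variable (G : MGraph) (N : ℕ)

/-- addition of numbers with disjoint binary digits -/
private theorem cn2_add (k : ℕ) : ∀ a b : ℕ, (∀ k, ¬ (a.testBit k = true ∧ b.testBit k = true)) →
    (a + b).testBit k = (a.testBit k || b.testBit k) := by
  induction k with
  | zero =>
    intro a b h
    have h0 := h 0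
    rw [Nat.testBit_zero, Nat.testBit_zero, decide_eq_true_iff, decide_eq_true_iff] at h0
    rw [Nat.testBit_zero, Nat.testBit_zero, Nat.testBit_zero]
    rcases Nat.mod_two_eq_zero_or_one a with ha | ha
    · rcases Nat.mod_two_eq_zero_or_one b with hb | hb
      · have h1 : (a + b) % 2 = 0 := by omega
        simp [ha, hb, h1]
      · have h1 : (a + b) % 2 = 1 := by omega
        simp [ha, hb, h1]
    · have hb : b % 2 = 0 := by omega
      have h1 : (a + b) % 2 = 1 := by omega
      simp [ha, hb, h1]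
  | succ k ih =>
    intro a b h
    have h0 := h 0
    rw [Nat.testBit_zero, Nat.testBit_zero, decide_eq_true_iff, decide_eq_true_iff] at h0
    have h1 : (a + b) / 2 = a / 2 + b / 2 := by omega
    rw [Nat.testBit_succ, Nat.testBit_succ, Nat.testBit_succ, h1]
    refine ih _ _ fun j => ?_
    have h2 := h (j + 1)
    rwa [Nat.testBit_succ, Nat.testBit_succ] at h2

/-- the new cut edges as a number -/
private theorem cn2_mask (Ly b : ℕ) :
    G.eset (∑ i ∈ range (mm (G.code N)), if CutN (G.code N) Ly b i then 2 ^ i else 0) =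
      G.cut (G.done (G.lay N Ly)) (G.vset b) := by
  ext i
  unfold eset
  rw [mem_filter, testBit_sum, mm_code]
  have h := G.cutN_code N Ly b i
  constructor
  · rintro ⟨-, h1⟩
    exact h.1 (of_decide_eq_true h1).2
  · intro h1
    exact ⟨mem_univ _, decide_eq_true ⟨i.isLt, h.2 h1⟩⟩

private theorem cn2_disj (a b : ℕ) (hb : b < 2 ^ G.m) (hd : Disjoint (G.eset a) (G.eset b)) :
    ∀ k, ¬ (a.testBit k = true ∧ b.testBit k = true) := by
  rintro k ⟨h1, h2⟩
  by_cases hk : k < G.m
  · have h3 : (⟨k, hk⟩ : Fin G.m) ∈ G.eset a := by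
      unfold eset
      rw [mem_filter]
      exact ⟨mem_univ _, h1⟩
    have h4 : (⟨k, hk⟩ : Fin G.m) ∈ G.eset b := by
      unfold eset
      rw [mem_filter]
      exact ⟨mem_univ _, h2⟩
    exact Finset.disjoint_left.1 hd h3 h4
  · rw [Nat.testBit_eq_false_of_lt (lt_of_lt_of_le hb (Nat.pow_le_pow_right two_pos
      (not_lt.1 hk)))] at h2
    exact Bool.false_ne_true h2

private theorem cn2_eset (a b : ℕ) (hb : b < 2 ^ G.m) (hd : Disjoint (G.eset a) (G.eset b)) :
    G.eset (a + b) = G.eset a ∪ G.eset b := by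
  ext i
  rw [mem_union]
  unfold eset
  rw [mem_filter, mem_filter, mem_filter, cn2_add i.val a b (G.cn2_disj a b hb hd),
    Bool.or_eq_true]
  simp

private theorem cn2_lt (a b : ℕ) (ha : a < 2 ^ G.m) (hb : b < 2 ^ G.m)
    (hd : Disjoint (G.eset a) (G.eset b)) : a + b < 2 ^ G.m := by
  refine Nat.lt_pow_two_of_testBit _ fun k hk => ?_
  rw [cn2_add k a b (G.cn2_disj a b hb hd),
    Nat.testBit_eq_false_of_lt (lt_of_lt_of_le ha (Nat.pow_le_pow_right two_pos hk)),
    Nat.testBit_eq_false_of_lt (lt_of_lt_of_le hb (Nat.pow_le_pow_right two_pos hk))]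
  rfl

private theorem cn2_vset (Ly h : ℕ) (r : Fin G.n) :
    G.vset (ballN (G.code N) Ly r h) = G.ball (G.done (G.lay N Ly)) r h :=
  G.ballN_code N Ly r h

private theorem cn2_done (lay : Fin G.n → ℕ) (v : Fin G.n) : v ∉ G.done lay ↔ lay v = 0 := by
  unfold done
  rw [mem_filter]
  simp

/-- the layer found by the search -/
private theorem cn2_srch (Ly ρ : ℕ) (r v : Fin G.n)
    (hv : v ∈ G.ball (G.done (G.lay N Ly)) r ρ) :
    srch (fun h => (ballN (G.code N) Ly r h).testBit v = true) (ρ + 1) < G.n ∧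
      sInf {k | v ∈ G.ball (G.done (G.lay N Ly)) r k} =
        srch (fun h => (ballN (G.code N) Ly r h).testBit v = true) (ρ + 1) := by
  obtain ⟨s, hs⟩ : ∃ s, s = srch (fun h => (ballN (G.code N) Ly r h).testBit v = true) (ρ + 1) :=
    ⟨_, rfl⟩
  have h1 := srch_lt (fun h => (ballN (G.code N) Ly r h).testBit v = true) (ρ + 1)
    ⟨ρ, Nat.lt_succ_self ρ, (G.ballN_testBit N Ly r v ρ).2 hv⟩
  have h2 := srch_min (fun h => (ballN (G.code N) Ly r h).testBit v = true) (ρ + 1)
  rw [← hs] at h1 h2 ⊢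
  have h3 : v ∈ G.ball (G.done (G.lay N Ly)) r s := (G.ballN_testBit N Ly r v s).1 h1.2
  have h4 : ∀ k < s, v ∉ G.ball (G.done (G.lay N Ly)) r k := fun k hk hvk =>
    h2 k hk ((G.ballN_testBit N Ly r v k).2 hvk)
  refine ⟨G.dist_lt _ r v s h3 h4, ?_⟩
  refine IsLeast.csInf_eq ⟨h3, fun k hk => ?_⟩
  by_contra hlt
  exact h4 k (not_le.1 hlt) hk

/-- the digits after one step -/
private theorem cn2_digit (Ly ρ : ℕ) (r : Fin G.n) (hr : layN (G.code N) Ly r = 0) (v : ℕ)
    (hv : v < G.n) : layN (G.code N) Ly v +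
      (if (ballN (G.code N) Ly r ρ).testBit v = true then
        1 + srch (fun h => (ballN (G.code N) Ly r h).testBit v = true) (ρ + 1) else 0) <
        G.n + 2 := by
  by_cases h : (ballN (G.code N) Ly r ρ).testBit v = true
  · rw [if_pos h]
    have h1 : (⟨v, hv⟩ : Fin G.n) ∈ G.ball (G.done (G.lay N Ly)) r ρ :=
      (G.ballN_testBit N Ly r ⟨v, hv⟩ ρ).1 h
    have h2 := (G.cn2_srch N Ly ρ r ⟨v, hv⟩ h1).1
    have h3 := G.ball_disj (G.done (G.lay N Ly)) r ((G.cn2_done _ r).2 hr) ρ
    have h4 : layN (G.code N) Ly v = 0 :=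
      (G.cn2_done (G.lay N Ly) ⟨v, hv⟩).1 (Finset.disjoint_left.1 h3 h1)
    simp only at h2
    omega
  · rw [if_neg h, add_zero]
    unfold layN
    rw [nn_code]
    exact Nat.mod_lt _ (by omega)

private theorem cn2_sum (Ly ρ : ℕ) (r : Fin G.n) (h1 : Ly < (G.n + 2) ^ G.n) :
    (Ly + ∑ v ∈ range (nn (G.code N)), if (ballN (G.code N) Ly r ρ).testBit v = true then
      (1 + srch (fun h => (ballN (G.code N) Ly r h).testBit v = true) (ρ + 1)) *
        (nn (G.code N) + 2) ^ v else 0) =
    ∑ v ∈ range G.n, (layN (G.code N) Ly v +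
      (if (ballN (G.code N) Ly r ρ).testBit v = true then
        1 + srch (fun h => (ballN (G.code N) Ly r h).testBit v = true) (ρ + 1) else 0)) *
          (G.n + 2) ^ v := by
  rw [nn_code]
  have h2 := sum_digit (G.n + 2) G.n Ly h1
  have h3 : Ly = ∑ v ∈ range G.n, layN (G.code N) Ly v * (G.n + 2) ^ v := by
    unfold layN
    rw [nn_code]
    exact h2.symm
  conv_lhs => rw [h3]
  rw [← Finset.sum_add_distrib]
  refine Finset.sum_congr rfl fun v _ => ?_
  rw [← h3]
  split_ifs
  · ring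
  · ring

/-- the layers after one step -/
theorem nextN_lay (B L : ℕ) (r : Fin G.n) (c : ℕ × ℕ) (h1 : c.1 < (G.n + 2) ^ G.n)
    (h2 : layN (G.code N) c.1 r = 0) :
    G.lay N (nextN (G.code N) B L r c).1 =
      G.newLay (G.lay N c.1) r (radN (G.code N) B L c.1 r) := by
  obtain ⟨ρ, hρ⟩ : ∃ ρ, ρ = radN (G.code N) B L c.1 r := ⟨_, rfl⟩
  have e1 : (nextN (G.code N) B L r c).1 = ∑ v ∈ range G.n, (layN (G.code N) c.1 v +
      (if (ballN (G.code N) c.1 r ρ).testBit v = true then
        1 + srch (fun h => (ballN (G.code N) c.1 r h).testBit v = true) (ρ + 1) else 0)) *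
          (G.n + 2) ^ v := by
    rw [← G.cn2_sum N c.1 ρ r h1, hρ]
    unfold nextN
    rw [if_pos h2]
  rw [← hρ]
  funext v
  have e2 := digit_sum (G.n + 2) G.n (fun v => layN (G.code N) c.1 v +
      (if (ballN (G.code N) c.1 r ρ).testBit v = true then
        1 + srch (fun h => (ballN (G.code N) c.1 r h).testBit v = true) (ρ + 1) else 0))
    (fun v hv => G.cn2_digit N c.1 ρ r h2 v hv) v v.isLt
  have e3 : G.lay N (nextN (G.code N) B L r c).1 v = layN (G.code N) c.1 v +
      (if (ballN (G.code N) c.1 r ρ).testBit v = true then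
        1 + srch (fun h => (ballN (G.code N) c.1 r h).testBit v = true) (ρ + 1) else 0) := by
    rw [← e2, ← e1]
    rfl
  rw [e3]
  unfold newLay
  by_cases hv : v ∈ G.ball (G.done (G.lay N c.1)) r ρ
  · rw [if_pos hv, if_pos ((G.ballN_testBit N c.1 r v ρ).2 hv), (G.cn2_srch N c.1 ρ r v hv).2]
    have h3 := G.ball_disj (G.done (G.lay N c.1)) r ((G.cn2_done _ r).2 h2) ρ
    have h4 : layN (G.code N) c.1 v = 0 :=
      (G.cn2_done (G.lay N c.1) v).1 (Finset.disjoint_left.1 h3 hv)
    rw [h4, zero_add]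
  · rw [if_neg hv, if_neg (fun h => hv ((G.ballN_testBit N c.1 r v ρ).1 h)), add_zero]
    rfl

/-- the cut edges after one step -/
theorem nextN_cut (B L : ℕ) (r : Fin G.n) (c : ℕ × ℕ) (h2 : layN (G.code N) c.1 r = 0)
    (hd : Disjoint (G.eset c.2) (G.cut (G.done (G.lay N c.1))
      (G.ball (G.done (G.lay N c.1)) r (radN (G.code N) B L c.1 r)))) :
    G.eset (nextN (G.code N) B L r c).2 = G.eset c.2 ∪ (G.cut (G.done (G.lay N c.1))
      (G.ball (G.done (G.lay N c.1)) r (radN (G.code N) B L c.1 r))) := by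
  have e1 : (nextN (G.code N) B L r c).2 = c.2 + ∑ i ∈ range (mm (G.code N)),
      if CutN (G.code N) c.1 (ballN (G.code N) c.1 r (radN (G.code N) B L c.1 r)) i then
        2 ^ i else 0 := by
    unfold nextN
    rw [if_pos h2]
  have e2 := G.cn2_mask N c.1 (ballN (G.code N) c.1 r (radN (G.code N) B L c.1 r))
  rw [G.ballN_code N c.1 r] at e2
  rw [← e2] at hd ⊢
  rw [e1]
  exact G.cn2_eset _ _ (sum_two_pow_lt _ _) hd

theorem nextN_lt (B L : ℕ) (r : Fin G.n) (c : ℕ × ℕ) (h1 : c.1 < (G.n + 2) ^ G.n)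
    (h2 : c.2 < 2 ^ G.m) (hd : Disjoint (G.eset c.2) (G.cut (G.done (G.lay N c.1))
      (G.ball (G.done (G.lay N c.1)) r (radN (G.code N) B L c.1 r)))) :
    (nextN (G.code N) B L r c).1 < (G.n + 2) ^ G.n ∧
      (nextN (G.code N) B L r c).2 < 2 ^ G.m := by
  by_cases h : layN (G.code N) c.1 r = 0
  · obtain ⟨ρ, hρ⟩ : ∃ ρ, ρ = radN (G.code N) B L c.1 r := ⟨_, rfl⟩
    have e1 : (nextN (G.code N) B L r c).1 = ∑ v ∈ range G.n, (layN (G.code N) c.1 v +
        (if (ballN (G.code N) c.1 r ρ).testBit v = true then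
          1 + srch (fun h => (ballN (G.code N) c.1 r h).testBit v = true) (ρ + 1) else 0)) *
            (G.n + 2) ^ v := by
      rw [← G.cn2_sum N c.1 ρ r h1, hρ]
      unfold nextN
      rw [if_pos h]
    have e3 : (nextN (G.code N) B L r c).2 = c.2 + ∑ i ∈ range (mm (G.code N)),
        if CutN (G.code N) c.1 (ballN (G.code N) c.1 r (radN (G.code N) B L c.1 r)) i then
          2 ^ i else 0 := by
      unfold nextN
      rw [if_pos h]
    have e2 := G.cn2_mask N c.1 (ballN (G.code N) c.1 r (radN (G.code N) B L c.1 r))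
    rw [G.ballN_code N c.1 r] at e2
    rw [← e2] at hd
    refine ⟨?_, ?_⟩
    · rw [e1]
      exact digit_sum_lt (G.n + 2) G.n (fun v => layN (G.code N) c.1 v +
        (if (ballN (G.code N) c.1 r ρ).testBit v = true then
          1 + srch (fun h => (ballN (G.code N) c.1 r h).testBit v = true) (ρ + 1) else 0))
        (fun v hv => G.cn2_digit N c.1 ρ r h v hv)
    · rw [e3]
      exact G.cn2_lt _ _ h2 (sum_two_pow_lt _ _) hd
  · have e : nextN (G.code N) B L r c = c := by
      unfold nextN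
      rw [if_neg h]
    rw [e]
    exact ⟨h1, h2⟩

private theorem cn2_lay0 : G.lay N 0 = fun _ => 0 := by
  funext v
  unfold lay layN
  rw [Nat.zero_div, Nat.zero_mod]

private theorem cn2_eset0 : G.eset 0 = ∅ := by
  unfold eset
  refine Finset.filter_eq_empty_iff.2 fun i _ => ?_
  rw [Nat.zero_testBit]
  exact Bool.false_ne_true

/-- The numeric cluster decomposition satisfies the invariant. -/
theorem cluN_inv (B L : ℕ) (hB : (L ≤ B ∧ G.m + 1 < 2 ^ L) ∨ G.n ≤ B) :
    (∀ v, G.lay N (cluN (G.code N) B L).1 v ≠ 0) ∧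
      (cluN (G.code N) B L).1 < (G.n + 2) ^ G.n ∧ (cluN (G.code N) B L).2 < 2 ^ G.m ∧
      ∃ cl, G.Inv (G.lay N (cluN (G.code N) B L).1) (G.eset (cluN (G.code N) B L).2) cl B B L := by
  obtain ⟨P, hP⟩ : ∃ P : ℕ → ℕ × ℕ → Prop, ∀ t c, P t c ↔
      ((∀ v : Fin G.n, v.val < t → G.lay N c.1 v ≠ 0) ∧ c.1 < (G.n + 2) ^ G.n ∧
        c.2 < 2 ^ G.m ∧ ∃ cl, G.Inv (G.lay N c.1) (G.eset c.2) cl B B L) :=
    ⟨_, fun _ _ => Iff.rfl⟩
  have key : ∀ t ≤ G.n, P t (itr (fun r c => nextN (G.code N) B L r c) (0, 0) t) := by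
    intro t
    induction t with
    | zero =>
      intro _
      rw [hP]
      refine ⟨fun v hv => absurd hv (Nat.not_lt_zero _), Nat.pos_of_ne_zero (by positivity),
        Nat.two_pow_pos _, fun v => v, ?_⟩
      change G.Inv (G.lay N 0) (G.eset 0) (fun v => v) B B L
      rw [G.cn2_lay0 N, G.cn2_eset0]
      exact G.inv_init B B L
    | succ t ih =>
      intro ht
      have h := ih (by omega)
      change P (t + 1) (nextN (G.code N) B L t
        (itr (fun r c => nextN (G.code N) B L r c) (0, 0) t))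
      generalize itr (fun r c => nextN (G.code N) B L r c) (0, 0) t = c at h ⊢
      rw [hP] at h ⊢
      obtain ⟨h1, h2, h3, cl, h4⟩ := h
      obtain ⟨r, hr⟩ : ∃ r : Fin G.n, r.val = t := ⟨⟨t, by omega⟩, rfl⟩
      subst hr
      by_cases h0 : layN (G.code N) c.1 r = 0
      · have hne := G.cut_new h4 r h0 (radN (G.code N) B L c.1 r)
        have hlt := G.nextN_lt N B L r c h2 h3 hne
        have hk := G.radN_spec N B L c.1 r (by
          rcases hB with ⟨hB1, hB2⟩ | hB
          · exact G.growth _ r B L hB1 hB2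
          · refine ⟨G.n, hB, ?_⟩
            rw [G.cut_ball_n, Finset.card_empty, zero_mul]
            exact Nat.zero_le _)
        obtain ⟨cl', h5⟩ := G.inv_step h4 r h0 _ hk.1 hk.2
        rw [G.nextN_lay N B L r c h2 h0, G.nextN_cut N B L r c h0 hne]
        refine ⟨fun v hv => ?_, hlt.1, hlt.2, cl', h5⟩
        rcases Nat.lt_succ_iff_lt_or_eq.1 hv with hv | hv
        · exact G.newLay_ne _ r _ v (h1 v hv)
        · rw [Fin.ext hv]
          exact G.newLay_r _ r _
      · have e : nextN (G.code N) B L r c = c := by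
          unfold nextN
          rw [if_neg h0]
        rw [e]
        refine ⟨fun v hv => ?_, h2, h3, cl, h4⟩
        rcases Nat.lt_succ_iff_lt_or_eq.1 hv with hv | hv
        · exact h1 v hv
        · rw [Fin.ext hv]
          exact h0
  have h := key G.n le_rfl
  rw [hP] at h
  exact ⟨fun v => h.1 v v.isLt, h.2⟩

/-- If every component is exhausted within `d ≤ B` steps, nothing is cut. -/
theorem cluN_diam (B L d : ℕ) (hd : d ≤ B) (hG : G.DiamLe d) :
    (cluN (G.code N) B L).2 = 0 ∧ ∀ v, G.lay N (cluN (G.code N) B L).1 v ≤ d + 1 := by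
  obtain ⟨P, hP⟩ : ∃ P : ℕ → ℕ × ℕ → Prop, ∀ t c, P t c ↔
      (c.1 < (G.n + 2) ^ G.n ∧ c.2 = 0 ∧ ∃ cl, G.Inv (G.lay N c.1) ∅ cl d 0 0) :=
    ⟨_, fun _ _ => Iff.rfl⟩
  have key : ∀ t ≤ G.n, P t (itr (fun r c => nextN (G.code N) B L r c) (0, 0) t) := by
    intro t
    induction t with
    | zero =>
      intro _
      rw [hP]
      refine ⟨Nat.pos_of_ne_zero (by positivity), rfl, fun v => v, ?_⟩
      change G.Inv (G.lay N 0) ∅ (fun v => v) d 0 0
      rw [G.cn2_lay0 N]
      exact G.inv_init d 0 0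
    | succ t ih =>
      intro ht
      have h := ih (by omega)
      change P (t + 1) (nextN (G.code N) B L t
        (itr (fun r c => nextN (G.code N) B L r c) (0, 0) t))
      generalize itr (fun r c => nextN (G.code N) B L r c) (0, 0) t = c at h ⊢
      rw [hP] at h ⊢
      obtain ⟨h2, h3, cl, h4⟩ := h
      obtain ⟨r, hr⟩ : ∃ r : Fin G.n, r.val = t := ⟨⟨t, by omega⟩, rfl⟩
      subst hr
      by_cases h0 : layN (G.code N) c.1 r = 0
      · have hS : ∀ i, (G.e i).1 ∈ G.done (G.lay N c.1) ↔ (G.e i).2 ∈ G.done (G.lay N c.1) := by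
          intro i
          have h5 := (h4.edge i (Finset.notMem_empty i)).1
          unfold done
          rw [mem_filter, mem_filter]
          exact ⟨fun h => ⟨mem_univ _, h5.1 h.2⟩, fun h => ⟨mem_univ _, h5.2 h.2⟩⟩
        have h6 := G.radN_cut N B L c.1 r d hd
          (G.cut_diam _ r ((G.cn2_done _ r).2 h0) hS d hG)
        have hne : Disjoint (G.eset c.2) (G.cut (G.done (G.lay N c.1))
            (G.ball (G.done (G.lay N c.1)) r (radN (G.code N) B L c.1 r))) := by
          rw [h6.2]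
          exact Finset.disjoint_empty_right _
        have hlt := G.nextN_lt N B L r c h2 (by rw [h3]; exact Nat.two_pow_pos _) hne
        obtain ⟨cl', h7⟩ := G.inv_step h4 r h0 _ h6.1 (by simp)
        have h8 := G.nextN_cut N B L r c h0 hne
        rw [h6.2, h3, G.cn2_eset0, Finset.union_empty] at h8
        rw [G.nextN_lay N B L r c h2 h0]
        refine ⟨hlt.1, ?_, cl', ?_⟩
        · exact G.eset_injOn hlt.2 (Nat.two_pow_pos _) (h8.trans G.cn2_eset0.symm)
        · rw [h6.2, Finset.union_empty] at h7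
          exact h7
      · have e : nextN (G.code N) B L r c = c := by
          unfold nextN
          rw [if_neg h0]
        rw [e]
        exact ⟨h2, h3, cl, h4⟩
  have h := key G.n le_rfl
  rw [hP] at h
  obtain ⟨_, h2, cl, h3⟩ := h
  exact ⟨h2, h3.le⟩

theorem diam_n : G.DiamLe G.n := by
  classical
  intro k u v h
  have h1 := G.within_ball ∅ u (Finset.notMem_empty u)
    (fun i => ⟨fun h => absurd h (Finset.notMem_empty _),
      fun h => absurd h (Finset.notMem_empty _)⟩) k v h
  have hex : ∃ k, v ∈ G.ball ∅ u k := ⟨k, h1⟩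
  have h2 := G.dist_lt ∅ u v (Nat.find hex) (Nat.find_spec hex) fun j hj => Nat.find_min hex hj
  exact G.ball_within ∅ u G.n v (G.ball_mono ∅ u h2.le (Nat.find_spec hex))

theorem maxLay_ge (x : List ℤ) (Ly v : ℕ) (hv : v < nn x) : layN x Ly v ≤ maxLay x Ly := by
  have key : ∀ t, ∀ v < t, layN x Ly v ≤ itr (fun v b => max b (layN x Ly v)) 0 t := by
    intro t
    induction t with
    | zero => intro v hv; exact absurd hv (Nat.not_lt_zero _)
    | succ t ih =>
      intro v hv
      change _ ≤ max (itr (fun v b => max b (layN x Ly v)) 0 t) (layN x Ly t)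
      rcases Nat.lt_succ_iff_lt_or_eq.1 hv with hv | hv
      · exact (ih v hv).trans (le_max_left _ _)
      · rw [hv]
        exact le_max_right _ _
  exact key (nn x) v hv

theorem maxLay_le (x : List ℤ) (Ly D : ℕ) (h : ∀ v < nn x, layN x Ly v ≤ D) :
    maxLay x Ly ≤ D := by
  have key : ∀ t ≤ nn x, itr (fun v b => max b (layN x Ly v)) 0 t ≤ D := by
    intro t
    induction t with
    | zero => intro _; exact Nat.zero_le _
    | succ t ih =>
      intro ht
      exact max_le (ih (by omega)) (h t (by omega))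
  exact key (nn x) le_rfl

end MGraph

end Pool.Agent.Lib.H2
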