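import Pool.Agent.Lib.PTC.Of
import Pool.Agent.Lib.MP_3493b8_lc.Alg

/-! The functions of the algorithm are computable in polynomial time: the chain. -/

set_option autoImplicit false
set_option linter.unusedVariables false

open Finset

namespace Pool.Agent.Lib.H2

open Pool.Agent.Lib.PTC

variable {S : List ℤ → ℕ} {σ : Type} [Tup σ]

/-- The size parameter dominates the size of the graph. -/
structure Dom (S : List ℤ → ℕ) : Prop where
  n : ∀ x, nn x ≤ S x
  m : ∀ x, mm x ≤ S x
  N : ∀ x, NN x ≤ S x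

theorem c_nn : Comp S fun x (_ : σ) => nn x := Comp.inp (Comp.const 0)

theorem c_mm : Comp S fun x (_ : σ) => mm x := Comp.inp (Comp.const 1)

theorem c_NN : Comp S fun x (_ : σ) => NN x := Comp.inp (Comp.const 2)

theorem t_nn (H : Dom S) : Tm S fun x (_ : σ) => nn x := Tm.scale.mono fun x _ => H.n x

theorem t_mm (H : Dom S) : Tm S fun x (_ : σ) => mm x := Tm.scale.mono fun x _ => H.m x

theorem t_NN (H : Dom S) : Tm S fun x (_ : σ) => NN x := Tm.scale.mono fun x _ => H.N x

theorem c_eu {i : List ℤ → σ → ℕ} (hi : Comp S i) : Comp S fun x w => eu x (i x w) :=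
  Comp.inp (Comp.add (Comp.const 3) (Comp.mul (Comp.const 2) hi))

theorem c_ev {i : List ℤ → σ → ℕ} (hi : Comp S i) : Comp S fun x w => ev x (i x w) :=
  Comp.inp (Comp.add (Comp.const 4) (Comp.mul (Comp.const 2) hi))

theorem c_tog {A i : List ℤ → σ → ℕ} (hA : Comp S A) (hi : Comp S i) (ti : Tm S i) :
    Comp S fun x w => tog (A x w) (i x w) := by
  unfold tog
  exact Comp.ite (CompP.testBit hA hi) (Comp.sub hA (Comp.pow2 hi ti)) (Comp.add hA (Comp.pow2 hi ti))

theorem tog_le (A i : ℕ) : tog A i ≤ A + 2 ^ i := by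
  unfold tog
  split_ifs
  · exact (Nat.sub_le _ _).trans (Nat.le_add_right _ _)
  · exact le_rfl

theorem c_incN {i v : List ℤ → σ → ℕ} (hi : Comp S i) (hv : Comp S v) :
    Comp S fun x w => incN x (i x w) (v x w) := by
  unfold incN
  exact Comp.add (Comp.ite (CompP.eq (c_eu hi) hv) (Comp.const 1) (Comp.const 0))
    (Comp.ite (CompP.eq (c_ev hi) hv) (Comp.const 1) (Comp.const 0))

theorem c_bdN (H : Dom S) {A v : List ℤ → σ → ℕ} (hA : Comp S A) (hv : Comp S v) :
    Comp S fun x w => bdN x (A x w) (v x w) := by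
  unfold bdN
  exact Comp.mod (Comp.sum (Comp.ite (CompP.testBit hA.up Comp.id.snd) (c_incN Comp.id.snd hv.up)
    (Comp.const 0)) c_mm (t_mm H)) (Comp.const 2)

theorem c_defN (H : Dom S) {T A : List ℤ → σ → ℕ} (hT : Comp S T) (hA : Comp S A) :
    Comp S fun x w => defN x (T x w) (A x w) := by
  unfold defN
  exact Comp.sum (Comp.ite (CompP.eq (c_bdN H hA.up Comp.id.snd)
    (Comp.ite (CompP.testBit hT.up Comp.id.snd) (Comp.const 1) (Comp.const 0))) (Comp.const 0)
    (Comp.const 1)) c_nn (t_nn H)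

theorem c_kE : Comp S fun x (_ : σ) => kE x := by
  unfold kE
  exact Comp.pow2 (Comp.size c_mm) (Tm.size (Comp.bd c_mm))

theorem two_pow_size_le (m : ℕ) : 2 ^ Nat.size m ≤ 2 * m + 1 := by
  rcases Nat.eq_zero_or_pos m with h | h
  · subst h; simp
  · have h1 : 0 < Nat.size m := Nat.size_pos.2 h
    have h2 : 2 ^ (Nat.size m - 1) ≤ m := Nat.lt_size.1 (by omega)
    have h3 : 2 ^ Nat.size m = 2 ^ (Nat.size m - 1) * 2 := by
      rw [← pow_succ]
      congr 1
      omega
    omega

theorem kE_pos (x : List ℤ) : 0 < kE x := by unfold kE; positivity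

theorem t_kE (H : Dom S) : Tm S fun x (_ : σ) => kE x :=
  (((Tm.const 2).mul (t_mm H)).add (Tm.const 1)).mono fun x _ => two_pow_size_le _

theorem c_digs {b r i : List ℤ → σ → ℕ} (hb : Comp S b) (hr : Comp S r) (hi : Comp S i) :
    Comp S fun x w => digs (b x w) (r x w) (i x w) := by
  unfold digs
  exact Comp.digit hr hb hi

theorem c_stepN (H : Dom S) (p q : ℕ) {F T j d A : List ℤ → σ → ℕ} (hF : Comp S F) (hT : Comp S T)
    (hj : Comp S j) (hd : Comp S d) (hA : Comp S A) :
    Comp S fun x w => stepN x p q (F x w) (T x w) (j x w) (d x w) (A x w) := by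
  have hi : Comp S fun x w => d x w % kE x := Comp.mod hd c_kE
  have ti : Tm S fun x w => d x w % kE x :=
    (t_kE H).mono fun x w => (Nat.mod_lt _ (kE_pos x)).le
  have ht : Comp S fun x w => tog (A x w) (d x w % kE x) := c_tog hA hi ti
  unfold stepN
  exact Comp.ite (CompP.and (CompP.lt hi c_mm) (CompP.and (CompP.testBit_false hF hi)
    (CompP.and (CompP.le (c_defN H hT ht) (Comp.const 2)) (CompP.lt (Comp.div hd c_kE)
      (Comp.ite (CompP.and (CompP.testBit_false hA hi) (CompP.lt hi hj)) (Comp.const p)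
        (Comp.const q)))))) ht hA

theorem stepN_le (x : List ℤ) (p q F T j d A : ℕ) : stepN x p q F T j d A ≤ A + 2 ^ kE x := by
  have h1 : tog A (d % kE x) ≤ A + 2 ^ kE x :=
    (tog_le _ _).trans (Nat.add_le_add_left (Nat.pow_le_pow_right (by omega)
      (Nat.mod_lt _ (kE_pos x)).le) _)
  have h2 : A ≤ A + 2 ^ kE x := Nat.le_add_right _ _
  unfold stepN
  split_ifs <;> assumption

theorem c_runN (H : Dom S) (p q : ℕ) {F T j t r A : List ℤ → σ → ℕ} (hF : Comp S F) (hT : Comp S T)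
    (hj : Comp S j) (ht : Comp S t) (tt : Tm S t) (hr : Comp S r) (hA : Comp S A) :
    Comp S fun x w => runN x p q (F x w) (T x w) (j x w) (t x w) (r x w) (A x w) := by
  unfold runN
  refine Comp.itr_nat (F := fun x w => A x w + t x w * 2 ^ kE x)
    (c_stepN H p q hF.up hT.up hj.up (c_digs (Comp.mul c_kE (Comp.const (kU q))) hr.up
      Comp.id.snd.fst) Comp.id.snd.snd) hA ht tt
    (hA.bd.add (ht.bd.mul ((Bd.const 2).pow (t_kE H)))) fun x w i hi => ?_
  have key : ∀ i, itr (fun i B => stepN x p q (F x w) (T x w) (j x w)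
      (digs (kE x * kU q) (r x w) i) B) (A x w) i ≤ A x w + i * 2 ^ kE x := by
    intro i
    induction i with
    | zero => rw [itr]; omega
    | succ i ih =>
      rw [itr]
      refine (stepN_le _ _ _ _ _ _ _ _).trans ?_
      rw [Nat.succ_mul]
      omega
  exact (key i).trans (Nat.add_le_add_left (Nat.mul_le_mul_right _ hi) _)

theorem c_smpN (H : Dom S) (p q : ℕ) {F T A j t ω i : List ℤ → σ → ℕ} (hF : Comp S F) (hT : Comp S T)
    (hA : Comp S A) (hj : Comp S j) (ht : Comp S t) (tt : Tm S t) (hω : Comp S ω) (hi : Comp S i) :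
    Comp S fun x w => smpN x p q (F x w) (T x w) (A x w) (j x w) (t x w) (ω x w) (i x w) := by
  unfold smpN
  exact c_runN H p q hF hT hj ht tt (c_digs (Comp.pow (Comp.mul c_kE (Comp.const (kU q))) ht tt) hω hi) hA

theorem c_cntU (H : Dom S) (p q : ℕ) {F T A j t s o ω : List ℤ → σ → ℕ} (hF : Comp S F)
    (hT : Comp S T) (hA : Comp S A) (hj : Comp S j) (ht : Comp S t) (tt : Tm S t) (hs : Comp S s)
    (ts : Tm S s) (ho : Comp S o) (hω : Comp S ω) :
    Comp S fun x w => cntU x p q (F x w) (T x w) (A x w) (j x w) (t x w) (s x w) (o x w) (ω x w) := by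
  unfold cntU
  exact Comp.sum (Comp.ite (CompP.eq (c_defN H hT.up (c_smpN H p q hF.up hT.up hA.up hj.up ht.up tt.up
    hω.up (Comp.add ho.up Comp.id.snd))) (Comp.const 0)) (Comp.const 1) (Comp.const 0)) hs ts

theorem c_cntB (H : Dom S) (p q : ℕ) {F T A j t s o ω : List ℤ → σ → ℕ} (hF : Comp S F)
    (hT : Comp S T) (hA : Comp S A) (hj : Comp S j) (ht : Comp S t) (tt : Tm S t) (hs : Comp S s)
    (ts : Tm S s) (ho : Comp S o) (hω : Comp S ω) :
    Comp S fun x w => cntB x p q (F x w) (T x w) (A x w) (j x w) (t x w) (s x w) (o x w) (ω x w) := by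
  unfold cntB
  have h := c_smpN H p q hF.up hT.up hA.up hj.up ht.up tt.up hω.up (Comp.add ho.up (Comp.id (S := S) (σ := σ × ℕ)).snd)
  exact Comp.sum (Comp.ite (CompP.and (CompP.eq (c_defN H hT.up h) (Comp.const 0))
    (CompP.testBit h hj.up)) (Comp.const 1) (Comp.const 0)) hs ts

theorem c_numX (H : Dom S) (p q : ℕ) {F T A t s a ω : List ℤ → σ → ℕ} (hF : Comp S F)
    (hT : Comp S T) (hA : Comp S A) (ht : Comp S t) (tt : Tm S t) (hs : Comp S s)
    (ts : Tm S s) (ha : Comp S a) (hω : Comp S ω) :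
    Comp S fun x w => numX x p q (F x w) (T x w) (A x w) (t x w) (s x w) (a x w) (ω x w) := by
  unfold numX
  have ho : Comp S fun x (v : σ × ℕ) => (a x v.1 * mm x + v.2) * s x v.1 :=
    Comp.mul (Comp.add (Comp.mul ha.up c_mm) Comp.id.snd) hs.up
  have hj : Comp S fun _ (v : σ × ℕ) => v.2 := Comp.id.snd
  have hU := c_cntU H p q hF.up hT.up hA.up hj ht.up tt.up hs.up ts.up ho hω.up
  have hB := c_cntB H p q hF.up hT.up hA.up hj ht.up tt.up hs.up ts.up ho hω.up
  exact Comp.prod (Comp.add (Comp.mul (Comp.const q) (Comp.sub hU hB)) (Comp.mul (Comp.const p) hB))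
    c_mm (t_mm H)

theorem c_denX (H : Dom S) (p q : ℕ) {F T A t s a ω : List ℤ → σ → ℕ} (hF : Comp S F)
    (hT : Comp S T) (hA : Comp S A) (ht : Comp S t) (tt : Tm S t) (hs : Comp S s)
    (ts : Tm S s) (ha : Comp S a) (hω : Comp S ω) :
    Comp S fun x w => denX x p q (F x w) (T x w) (A x w) (t x w) (s x w) (a x w) (ω x w) := by
  unfold denX
  have ho : Comp S fun x (v : σ × ℕ) => (a x v.1 * mm x + v.2) * s x v.1 :=
    Comp.mul (Comp.add (Comp.mul ha.up c_mm) Comp.id.snd) hs.up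
  have hj : Comp S fun _ (v : σ × ℕ) => v.2 := Comp.id.snd
  have hU := c_cntU H p q hF.up hT.up hA.up hj ht.up tt.up hs.up ts.up ho hω.up
  exact Comp.prod (Comp.mul (Comp.const q) hU) c_mm (t_mm H)

end Pool.Agent.Lib.H2
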