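import Pool.Agent.Lib.MP_3493b8_lc.CompA

/-! The functions of the algorithm are computable in polynomial time: parts and clusters. -/

set_option autoImplicit false
set_option linter.unusedVariables false

open Finset

namespace Pool.Agent.Lib.H2

open Pool.Agent.Lib.PTC

variable {S : List ℤ → ℕ} {σ : Type} [Tup σ]

theorem c_belowN {F i : List ℤ → σ → ℕ} (hF : Comp S F) (hi : Comp S i) (ti : Tm S i) :
    Comp S fun x w => belowN (F x w) (i x w) := by
  unfold belowN
  exact Comp.sum (Comp.ite (CompP.testBit hF.up Comp.id.snd) (Comp.const 1) (Comp.const 0)) hi ti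

theorem c_sizeN (H : Dom S) {F : List ℤ → σ → ℕ} (hF : Comp S F) :
    Comp S fun x w => sizeN x (F x w) := by
  unfold sizeN
  exact c_belowN hF c_mm (t_mm H)

theorem belowN_le (F i : ℕ) : belowN F i ≤ i := by
  unfold belowN
  calc ∑ k ∈ range i, (if F.testBit k = true then 1 else 0) ≤ ∑ k ∈ range i, 1 :=
        Finset.sum_le_sum fun k _ => by split_ifs <;> omega
    _ = i := by simp

theorem sizeN_le (x : List ℤ) (F : ℕ) : sizeN x F ≤ mm x := belowN_le _ _

theorem t_sizeN (H : Dom S) {F : List ℤ → σ → ℕ} : Tm S fun x w => sizeN x (F x w) :=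
  (t_mm H).mono fun x w => sizeN_le _ _

/-- the loop variable below the number of edges -/
theorem c_im : Comp S fun x (v : σ × ℕ) => min v.2 (mm x) := Comp.min Comp.id.snd c_mm

theorem t_im (H : Dom S) : Tm S fun x (v : σ × ℕ) => min v.2 (mm x) := Tm.min_right (t_mm H)

theorem c_in : Comp S fun x (v : σ × ℕ) => min v.2 (nn x) := Comp.min Comp.id.snd c_nn

theorem t_in (H : Dom S) : Tm S fun x (v : σ × ℕ) => min v.2 (nn x) := Tm.min_right (t_nn H)

theorem c_subN (H : Dom S) {F a : List ℤ → σ → ℕ} (hF : Comp S F) (ha : Comp S a) :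
    Comp S fun x w => subN x (F x w) (a x w) := by
  unfold subN
  refine Comp.sum_of (f' := fun x w i => if (F x w).testBit i = true ∧
    (a x w).testBit (belowN (F x w) (min i (mm x))) = true then 2 ^ min i (mm x) else 0)
    (Comp.ite (CompP.and (CompP.testBit hF.up Comp.id.snd)
      (CompP.testBit ha.up (c_belowN hF.up c_im (t_im H)))) (Comp.pow2 c_im (t_im H)) (Comp.const 0))
    c_mm (t_mm H) fun x w i hi => ?_
  rw [min_eq_left hi.le]

theorem c_mkT (H : Dom S) {A : List ℤ → σ → ℕ} (hA : Comp S A) : Comp S fun x w => mkT x (A x w) := by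
  unfold mkT
  refine Comp.sum_of (f' := fun x w v => bdN x (A x w) v * 2 ^ min v (nn x))
    (Comp.mul (c_bdN H hA.up Comp.id.snd) (Comp.pow2 c_in (t_in H))) c_nn (t_nn H)
    fun x w i hi => ?_
  rw [min_eq_left hi.le]

theorem c_layN {Ly v : List ℤ → σ → ℕ} (hL : Comp S Ly) (hv : Comp S v) :
    Comp S fun x w => layN x (Ly x w) (v x w) := by
  unfold layN
  exact Comp.digit hL (Comp.add c_nn (Comp.const 2)) hv

theorem c_srch_le (P : ℕ → Prop) [DecidablePred P] (t : ℕ) : srch P t ≤ t := by
  unfold srch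
  have key : ∀ s, s ≤ t → itr (fun i b => if b = t ∧ P i then i else b) t s ≤ t := by
    intro s
    induction s with
    | zero => intro _; exact le_rfl
    | succ s ih =>
      intro hs
      rw [itr]
      split_ifs
      · omega
      · exact ih (by omega)
  exact key t le_rfl

theorem c_srch {P : List ℤ → σ → ℕ → Prop} [∀ x w, DecidablePred (P x w)] {T : List ℤ → σ → ℕ}
    (hP : CompP S fun x (p : σ × ℕ) => P x p.1 p.2) (hT : Comp S T) (tT : Tm S T) :
    Comp S fun x w => srch (P x w) (T x w) := by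
  unfold srch
  have hP' : CompP S fun x (p : σ × ℕ × ℕ) => P x p.1 p.2.1 :=
    hP.comp (Comp.pair Comp.id.fst Comp.id.snd.fst)
  refine Comp.itr_nat (F := T) (Comp.ite (CompP.and (CompP.eq Comp.id.snd.snd hT.up) hP')
    Comp.id.snd.fst Comp.id.snd.snd) hT hT tT hT.bd fun x w i hi => ?_
  have key : ∀ s, s ≤ T x w → itr (fun i b => if b = T x w ∧ P x w i then i else b) (T x w) s ≤ T x w := by
    intro s
    induction s with
    | zero => intro _; exact le_rfl
    | succ s ih =>
      intro hs
      rw [itr]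
      split_ifs
      · omega
      · exact ih (by omega)
  exact key i hi

theorem srch_congr {P Q : ℕ → Prop} [DecidablePred P] [DecidablePred Q] {t : ℕ}
    (h : ∀ i < t, (P i ↔ Q i)) : srch P t = srch Q t := by
  unfold srch
  refine itr_congr (fun _ _ => True) trivial fun i hi v _ => ⟨trivial, ?_⟩
  refine if_congr (and_congr Iff.rfl (h i hi)) rfl rfl

theorem c_srch_of {P P' : List ℤ → σ → ℕ → Prop} [∀ x w, DecidablePred (P x w)]
    [∀ x w, DecidablePred (P' x w)] {T : List ℤ → σ → ℕ}
    (hP : CompP S fun x (p : σ × ℕ) => P' x p.1 p.2) (hT : Comp S T) (tT : Tm S T)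
    (h : ∀ x w, ∀ i < T x w, (P x w i ↔ P' x w i)) : Comp S fun x w => srch (P x w) (T x w) :=
  (c_srch hP hT tT).of_eq fun x w => (srch_congr (h x w)).symm

theorem c_parN (H : Dom S) {Ly F v : List ℤ → σ → ℕ} (hL : Comp S Ly) (hF : Comp S F) (hv : Comp S v) :
    Comp S fun x w => parN x (Ly x w) (F x w) (v x w) := by
  unfold parN
  have hi : Comp S fun _ (p : σ × ℕ) => p.2 := Comp.id.snd
  exact c_srch (CompP.and (CompP.testBit_false hF.up hi) (CompP.or
    (CompP.and (CompP.eq (c_eu hi) hv.up) (CompP.eq (Comp.succ (c_layN hL.up (c_ev hi)))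
      (c_layN hL.up hv.up)))
    (CompP.and (CompP.eq (c_ev hi) hv.up) (CompP.eq (Comp.succ (c_layN hL.up (c_eu hi)))
      (c_layN hL.up hv.up))))) c_mm (t_mm H)

theorem c_othN {i v : List ℤ → σ → ℕ} (hi : Comp S i) (hv : Comp S v) :
    Comp S fun x w => othN x (i x w) (v x w) := by
  unfold othN
  exact Comp.ite (CompP.eq (c_eu hi) hv) (c_ev hi) (c_eu hi)

theorem othN_le (x : List ℤ) (i v : ℕ) : othN x i v ≤ eu x i + ev x i := by
  unfold othN
  split_ifs <;> omega

theorem c_pathN (H : Dom S) {Ly F v i : List ℤ → σ → ℕ} (hL : Comp S Ly) (hF : Comp S F)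
    (hv : Comp S v) (hi : Comp S i) :
    Comp S fun x w => pathN x (Ly x w) (F x w) (v x w) (i x w) := by
  unfold pathN
  refine Comp.snd (Comp.itr_le (F := fun x w => v x w +
    (range (mm x + 1)).sup (fun i => eu x i + ev x i) + nn x) ?_ (Comp.pair hv (Comp.const 0)) c_nn
    (t_nn H) ?_ fun x w s hs => ?_)
  · have hc : Comp S fun _ (p : σ × ℕ × ℕ × ℕ) => p.2.2.1 := Comp.id.snd.snd.fst
    have hp := c_parN H hL.up hF.up hc
    exact Comp.ite (CompP.le (Comp.const 2) (c_layN hL.up hc))
      (Comp.pair (c_othN hp hc) (Comp.add Comp.id.snd.snd.snd (Comp.ite (CompP.eq hp hi.up)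
        (Comp.const 1) (Comp.const 0)))) Comp.id.snd.snd
  · exact (hv.bd.add (Bd.sup (F := fun x (_ : σ) i => eu x i + ev x i)
      ((c_eu Comp.id.snd).bd.add (c_ev Comp.id.snd).bd) c_mm.bd)).add c_nn.bd
  · have key : ∀ s ≤ nn x, (itr (fun _ (c : ℕ × ℕ) => if 2 ≤ layN x (Ly x w) c.1 then
        (othN x (parN x (Ly x w) (F x w) c.1) c.1,
          c.2 + (if parN x (Ly x w) (F x w) c.1 = i x w then 1 else 0)) else c) (v x w, 0) s).1 ≤
        v x w + (range (mm x + 1)).sup (fun i => eu x i + ev x i) ∧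
        (itr (fun _ (c : ℕ × ℕ) => if 2 ≤ layN x (Ly x w) c.1 then
        (othN x (parN x (Ly x w) (F x w) c.1) c.1,
          c.2 + (if parN x (Ly x w) (F x w) c.1 = i x w then 1 else 0)) else c) (v x w, 0) s).2 ≤ s := by
      intro s
      induction s with
      | zero => intro _; exact ⟨Nat.le_add_right _ _, le_rfl⟩
      | succ s ih =>
        intro hs
        obtain ⟨h1, h2⟩ := ih (by omega)
        rw [itr]
        generalize itr (fun _ (c : ℕ × ℕ) => if 2 ≤ layN x (Ly x w) c.1 then
          (othN x (parN x (Ly x w) (F x w) c.1) c.1,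
            c.2 + (if parN x (Ly x w) (F x w) c.1 = i x w then 1 else 0)) else c) (v x w, 0) s = c at *
        by_cases h : 2 ≤ layN x (Ly x w) c.1
        · rw [if_pos h]
          refine ⟨?_, ?_⟩
          · refine (othN_le _ _ _).trans (le_trans ?_ (Nat.le_add_left _ _))
            exact le_sup_range (F := fun i => eu x i + ev x i) (c_srch_le _ _)
          · change c.2 + (if _ then 1 else 0) ≤ s + 1
            split_ifs <;> omega
        · rw [if_neg h]
          exact ⟨h1, by omega⟩
    obtain ⟨h1, h2⟩ := key s hs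
    refine lt_prod.2 ⟨lt_nat.2 ?_, lt_nat.2 ?_⟩
    · refine lt_of_le_of_lt h1 ?_
      change _ < v x w + (range (mm x + 1)).sup (fun i => eu x i + ev x i) + nn x + 1
      omega
    · refine lt_of_le_of_lt h2 ?_
      change _ < v x w + (range (mm x + 1)).sup (fun i => eu x i + ev x i) + nn x + 1
      omega

theorem c_startN (H : Dom S) {Ly F X : List ℤ → σ → ℕ} (hL : Comp S Ly) (hF : Comp S F)
    (hX : Comp S X) : Comp S fun x w => startN x (Ly x w) (F x w) (X x w) := by
  unfold startN
  have hi : Comp S fun _ (p : (σ × ℕ) × ℕ) => p.1.2 := Comp.id.fst.snd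
  have hf : Comp S fun _ (p : (σ × ℕ) × ℕ) => p.2 := Comp.id.snd
  refine Comp.sum_of (f' := fun x w i => (((if (F x w).testBit i = true then 0 else 1) +
    ∑ f ∈ range (mm x), if (F x w).testBit f = true ∧ (X x w).testBit f = false then
      pathN x (Ly x w) (F x w) (eu x f) i + pathN x (Ly x w) (F x w) (ev x f) i else 0) % 2) *
        2 ^ min i (mm x))
    (Comp.mul (Comp.mod (Comp.add (Comp.ite (CompP.testBit hF.up Comp.id.snd) (Comp.const 0)
      (Comp.const 1)) (Comp.sum (Comp.ite (CompP.and (CompP.testBit hF.up.up hf)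
        (CompP.testBit_false hX.up.up hf)) (Comp.add (c_pathN H hL.up.up hF.up.up (c_eu hf) hi)
          (c_pathN H hL.up.up hF.up.up (c_ev hf) hi)) (Comp.const 0)) c_mm (t_mm H))) (Comp.const 2))
      (Comp.pow2 c_im (t_im H))) c_mm (t_mm H) fun x w i hi => ?_
  rw [min_eq_left hi.le]

end Pool.Agent.Lib.H2
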