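import Pool.Agent.Lib.MP_3493b8_lc.CompB

/-! The functions of the algorithm are computable in polynomial time: clusters. -/

set_option autoImplicit false
set_option linter.unusedVariables false

open Finset

namespace Pool.Agent.Lib.H2

open Pool.Agent.Lib.PTC

variable {S : List ℤ → ℕ} {σ : Type} [Tup σ]

theorem c_growN (H : Dom S) {Ly b : List ℤ → σ → ℕ} (hL : Comp S Ly) (hb : Comp S b) :
    Comp S fun x w => growN x (Ly x w) (b x w) := by
  unfold growN
  have hv : Comp S fun _ (p : (σ × ℕ) × ℕ) => p.1.2 := Comp.id.fst.snd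
  have hi : Comp S fun _ (p : (σ × ℕ) × ℕ) => p.2 := Comp.id.snd
  refine Comp.sum_of (f' := fun x w v => if (b x w).testBit v = true ∨ (layN x (Ly x w) v = 0 ∧
    ∃ i < mm x, (eu x i = v ∧ (b x w).testBit (ev x i) = true) ∨
      (ev x i = v ∧ (b x w).testBit (eu x i) = true)) then 2 ^ min v (nn x) else 0)
    (Comp.ite (CompP.or (CompP.testBit hb.up Comp.id.snd) (CompP.and
      (CompP.eq (c_layN hL.up Comp.id.snd) (Comp.const 0)) (CompP.exists_lt (CompP.or
        (CompP.and (CompP.eq (c_eu hi) hv) (CompP.testBit hb.up.up (c_ev hi)))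
        (CompP.and (CompP.eq (c_ev hi) hv) (CompP.testBit hb.up.up (c_eu hi)))) c_mm (t_mm H))))
      (Comp.pow2 c_in (t_in H)) (Comp.const 0)) c_nn (t_nn H) fun x w i hi => ?_
  rw [min_eq_left hi.le]

theorem sum_ite_pow_le (P : ℕ → Prop) [DecidablePred P] (f : ℕ → ℕ) (n M : ℕ) (h : ∀ i < n, f i ≤ M) :
    (∑ i ∈ range n, if P i then f i else 0) ≤ n * M := by
  calc (∑ i ∈ range n, if P i then f i else 0) ≤ ∑ i ∈ range n, M :=
        Finset.sum_le_sum fun i hi => by
          split_ifs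
          · exact h i (Finset.mem_range.1 hi)
          · exact Nat.zero_le _
    _ = n * M := by rw [Finset.sum_const, Finset.card_range, smul_eq_mul]

theorem growN_le (x : List ℤ) (Ly b : ℕ) : growN x Ly b ≤ nn x * 2 ^ nn x := by
  unfold growN
  exact sum_ite_pow_le _ _ _ _ fun i hi => Nat.pow_le_pow_right (by omega) hi.le

theorem c_ballN (H : Dom S) {Ly r h : List ℤ → σ → ℕ} (hL : Comp S Ly) (hr : Comp S r) (tr : Tm S r)
    (hh : Comp S h) (th : Tm S h) : Comp S fun x w => ballN x (Ly x w) (r x w) (h x w) := by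
  unfold ballN
  refine Comp.itr_nat (F := fun x w => 2 ^ r x w + nn x * 2 ^ nn x)
    (c_growN H hL.up Comp.id.snd.snd) (Comp.pow2 hr tr) hh th
    (((Bd.const 2).pow tr).add (c_nn.bd.mul ((Bd.const 2).pow (t_nn H)))) fun x w i hi => ?_
  cases i with
  | zero => exact Nat.le_add_right _ _
  | succ i =>
    rw [itr]
    exact (growN_le _ _ _).trans (Nat.le_add_left _ _)

theorem c_dinN (H : Dom S) {b : List ℤ → σ → ℕ} (hb : Comp S b) : Comp S fun x w => dinN x (b x w) := by
  unfold dinN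
  exact Comp.sum (Comp.ite (CompP.and (CompP.testBit hb.up (c_eu Comp.id.snd))
    (CompP.testBit hb.up (c_ev Comp.id.snd))) (Comp.const 1) (Comp.const 0)) c_mm (t_mm H)

theorem c_cutN {Ly b i : List ℤ → σ → ℕ} (hL : Comp S Ly) (hb : Comp S b) (hi : Comp S i) :
    CompP S fun x w => CutN x (Ly x w) (b x w) (i x w) := by
  unfold CutN
  exact CompP.or (CompP.and (CompP.testBit hb (c_eu hi)) (CompP.and (CompP.testBit_false hb (c_ev hi))
    (CompP.eq (c_layN hL (c_ev hi)) (Comp.const 0))))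
    (CompP.and (CompP.testBit hb (c_ev hi)) (CompP.and (CompP.testBit_false hb (c_eu hi))
    (CompP.eq (c_layN hL (c_eu hi)) (Comp.const 0))))

theorem c_dlN (H : Dom S) {Ly b : List ℤ → σ → ℕ} (hL : Comp S Ly) (hb : Comp S b) :
    Comp S fun x w => dlN x (Ly x w) (b x w) := by
  unfold dlN
  exact Comp.sum (Comp.ite (c_cutN hL.up hb.up Comp.id.snd) (Comp.const 1) (Comp.const 0)) c_mm (t_mm H)

theorem c_radN (H : Dom S) {B L Ly r : List ℤ → σ → ℕ} (hB : Comp S B) (tB : Tm S B) (hL : Comp S L)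
    (hLy : Comp S Ly) (hr : Comp S r) (tr : Tm S r) :
    Comp S fun x w => radN x (B x w) (L x w) (Ly x w) (r x w) := by
  have hB1 : Comp S fun x w => B x w + 1 := hB.succ
  have tB1 : Tm S fun x w => B x w + 1 := tB.add (Tm.const 1)
  have hb : Comp S fun x (p : σ × ℕ) => ballN x (Ly x p.1) (r x p.1) (min p.2 (B x p.1 + 1)) :=
    c_ballN H hLy.up hr.up tr.up (Comp.cut hB1) (Tm.cut tB1)
  have h1 : Comp S fun x w => srch (fun h => dlN x (Ly x w) (ballN x (Ly x w) (r x w) h) = 0)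
      (B x w + 1) := by
    refine c_srch_of (P' := fun x w h => dlN x (Ly x w) (ballN x (Ly x w) (r x w)
      (min h (B x w + 1))) = 0) (CompP.eq (c_dlN H hLy.up hb) (Comp.const 0)) hB1 tB1
      fun x w i hi => ?_
    rw [min_eq_left hi.le]
  have h2 : Comp S fun x w => srch (fun h => dlN x (Ly x w) (ballN x (Ly x w) (r x w) h) * B x w ≤
      L x w * (1 + dinN x (ballN x (Ly x w) (r x w) h))) (B x w + 1) := by
    refine c_srch_of (P' := fun x w h => dlN x (Ly x w) (ballN x (Ly x w) (r x w)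
      (min h (B x w + 1))) * B x w ≤ L x w * (1 + dinN x (ballN x (Ly x w) (r x w)
        (min h (B x w + 1)))))
      (CompP.le (Comp.mul (c_dlN H hLy.up hb) hB.up) (Comp.mul hL.up (Comp.add (Comp.const 1)
        (c_dinN H hb)))) hB1 tB1 fun x w i hi => ?_
    rw [min_eq_left hi.le]
  unfold radN
  exact Comp.ite (CompP.le h1 hB) h1 h2

theorem radN_le (x : List ℤ) (B L Ly r : ℕ) : radN x B L Ly r ≤ B + 1 := by
  unfold radN
  split_ifs
  · exact c_srch_le _ _
  · exact c_srch_le _ _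

theorem t_radN {B L Ly r : List ℤ → σ → ℕ} (tB : Tm S B) :
    Tm S fun x w => radN x (B x w) (L x w) (Ly x w) (r x w) :=
  (tB.add (Tm.const 1)).mono fun _ _ => radN_le _ _ _ _ _

theorem c_nextN (H : Dom S) {B L r : List ℤ → σ → ℕ} {c : List ℤ → σ → ℕ × ℕ} (hB : Comp S B)
    (tB : Tm S B) (hL : Comp S L) (hr : Comp S r) (tr : Tm S r) (hc : Comp S c) :
    Comp S fun x w => nextN x (B x w) (L x w) (r x w) (c x w) := by
  have hR : Comp S fun x w => radN x (B x w) (L x w) (c x w).1 (r x w) := c_radN H hB tB hL hc.fst hr tr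
  have tR : Tm S fun x w => radN x (B x w) (L x w) (c x w).1 (r x w) := t_radN tB
  have hR1 : Comp S fun x w => radN x (B x w) (L x w) (c x w).1 (r x w) + 1 := hR.succ
  have tR1 : Tm S fun x w => radN x (B x w) (L x w) (c x w).1 (r x w) + 1 := tR.add (Tm.const 1)
  have hb : Comp S fun x w => ballN x (c x w).1 (r x w) (radN x (B x w) (L x w) (c x w).1 (r x w)) :=
    c_ballN H hc.fst hr tr hR tR
  have h1 : Comp S fun x w => ∑ v ∈ range (nn x), if (ballN x (c x w).1 (r x w)
      (radN x (B x w) (L x w) (c x w).1 (r x w))).testBit v = true then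
        (1 + srch (fun h => (ballN x (c x w).1 (r x w) h).testBit v = true)
          (radN x (B x w) (L x w) (c x w).1 (r x w) + 1)) * (nn x + 2) ^ v else 0 := by
    refine Comp.sum_of (f' := fun x w v => if (ballN x (c x w).1 (r x w)
      (radN x (B x w) (L x w) (c x w).1 (r x w))).testBit v = true then
        (1 + srch (fun h => (ballN x (c x w).1 (r x w) h).testBit v = true)
          (radN x (B x w) (L x w) (c x w).1 (r x w) + 1)) * (nn x + 2) ^ min v (nn x) else 0)
      (Comp.ite (CompP.testBit hb.up Comp.id.snd) (Comp.mul (Comp.add (Comp.const 1) ?_)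
        (Comp.pow (Comp.add c_nn (Comp.const 2)) c_in (t_in H))) (Comp.const 0)) c_nn (t_nn H)
      fun x w i hi => ?_
    · refine c_srch_of (P := fun x (p : σ × ℕ) h => (ballN x (c x p.1).1 (r x p.1) h).testBit p.2 = true)
        (P' := fun x (p : σ × ℕ) h => (ballN x (c x p.1).1 (r x p.1)
        (min h (radN x (B x p.1) (L x p.1) (c x p.1).1 (r x p.1) + 1))).testBit p.2 = true)
        (CompP.testBit (c_ballN H hc.fst.up.up hr.up.up tr.up.up (Comp.cut hR1.up) (Tm.cut tR1.up))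
          Comp.id.fst.snd) hR1.up tR1.up fun x p i hi => ?_
      rw [min_eq_left hi.le]
    · rw [min_eq_left hi.le]
  have h2 : Comp S fun x w => ∑ i ∈ range (mm x), if CutN x (c x w).1 (ballN x (c x w).1 (r x w)
      (radN x (B x w) (L x w) (c x w).1 (r x w))) i then 2 ^ i else 0 := by
    refine Comp.sum_of (f' := fun x w i => if CutN x (c x w).1 (ballN x (c x w).1 (r x w)
      (radN x (B x w) (L x w) (c x w).1 (r x w))) i then 2 ^ min i (mm x) else 0)
      (Comp.ite (c_cutN hc.fst.up hb.up Comp.id.snd) (Comp.pow2 c_im (t_im H)) (Comp.const 0)) c_mm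
      (t_mm H) fun x w i hi => ?_
    rw [min_eq_left hi.le]
  unfold nextN
  exact Comp.ite (CompP.eq (c_layN hc.fst hr) (Comp.const 0))
    (Comp.pair (Comp.add hc.fst h1) (Comp.add hc.snd h2)) hc

theorem nextN_le (x : List ℤ) (B L r : ℕ) (c : ℕ × ℕ) :
    (nextN x B L r c).1 ≤ c.1 + nn x * ((B + 3) * (nn x + 2) ^ nn x) ∧
    (nextN x B L r c).2 ≤ c.2 + mm x * 2 ^ mm x := by
  unfold nextN
  split_ifs
  · refine ⟨Nat.add_le_add_left (sum_ite_pow_le _ _ _ _ fun v hv => ?_) _,
      Nat.add_le_add_left (sum_ite_pow_le _ _ _ _ fun i hi => ?_) _⟩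
    · refine Nat.mul_le_mul ?_ (Nat.pow_le_pow_right (by omega) hv.le)
      have h1 := c_srch_le (fun h => (ballN x c.1 r h).testBit v = true) (radN x B L c.1 r + 1)
      have h2 := radN_le x B L c.1 r
      omega
    · exact Nat.pow_le_pow_right (by omega) hi.le
  · exact ⟨Nat.le_add_right _ _, Nat.le_add_right _ _⟩

theorem c_cluN (H : Dom S) {B L : List ℤ → σ → ℕ} (hB : Comp S B) (tB : Tm S B) (hL : Comp S L) :
    Comp S fun x w => cluN x (B x w) (L x w) := by
  unfold cluN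
  have hr : Comp S fun x (p : σ × ℕ × ℕ × ℕ) => min p.2.1 (nn x) := Comp.min Comp.id.snd.fst c_nn
  refine Comp.itr_of (h' := fun x w r c => nextN x (B x w) (L x w) (min r (nn x)) c)
    (F := fun x w => nn x * (nn x * ((B x w + 3) * (nn x + 2) ^ nn x)) + nn x * (mm x * 2 ^ mm x))
    (fun x w i c => c.1 ≤ i * (nn x * ((B x w + 3) * (nn x + 2) ^ nn x)) ∧
      c.2 ≤ i * (mm x * 2 ^ mm x))
    (c_nextN H hB.up tB.up hL.up hr (Tm.min_right (t_nn H)) Comp.id.snd.snd) (Comp.const (0, 0)) c_nn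
    (t_nn H) ?_ (fun x w => ⟨by simp, by simp⟩) (fun x w i hi c hc => ?_) fun x w i hi c hc => ?_
  · exact (c_nn.bd.mul (c_nn.bd.mul ((hB.bd.add (Bd.const 3)).mul
      ((c_nn.bd.add (Bd.const 2)).pow (t_nn H))))).add (c_nn.bd.mul (c_mm.bd.mul
        ((Bd.const 2).pow (t_mm H))))
  · obtain ⟨h1, h2⟩ := nextN_le x (B x w) (L x w) i c
    refine ⟨⟨?_, ?_⟩, ?_⟩
    · rw [Nat.succ_mul]
      exact h1.trans (Nat.add_le_add_right hc.1 _)
    · rw [Nat.succ_mul]
      exact h2.trans (Nat.add_le_add_right hc.2 _)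
    · rw [min_eq_left hi.le]
  · have h1 := hc.1.trans (Nat.mul_le_mul_right _ hi)
    have h2 := hc.2.trans (Nat.mul_le_mul_right _ hi)
    refine lt_prod.2 ⟨lt_nat.2 ?_, lt_nat.2 ?_⟩
    · exact Nat.lt_succ_of_le (h1.trans (Nat.le_add_right _ _))
    · exact Nat.lt_succ_of_le (h2.trans (Nat.le_add_left _ _))

theorem c_rootsN (H : Dom S) {Ly : List ℤ → σ → ℕ} (hL : Comp S Ly) :
    Comp S fun x w => rootsN x (Ly x w) := by
  unfold rootsN
  exact Comp.sum (Comp.ite (CompP.eq (c_layN hL.up Comp.id.snd) (Comp.const 1)) (Comp.const 1)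
    (Comp.const 0)) c_nn (t_nn H)

theorem rootsN_le (x : List ℤ) (Ly : ℕ) : rootsN x Ly ≤ nn x := by
  unfold rootsN
  have h := sum_ite_pow_le (fun v => layN x Ly v = 1) (fun _ => 1) (nn x) 1 fun _ _ => le_rfl
  rwa [mul_one] at h

theorem maxLay_aux (x : List ℤ) (Ly s : ℕ) :
    itr (fun v b => max b (layN x Ly v)) 0 s ≤ nn x + 2 := by
  induction s with
  | zero => exact Nat.zero_le _
  | succ s ih =>
    rw [itr]
    refine max_le ih ?_
    unfold layN
    exact (Nat.mod_lt _ (by omega)).le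

theorem c_maxLay (H : Dom S) {Ly : List ℤ → σ → ℕ} (hL : Comp S Ly) :
    Comp S fun x w => maxLay x (Ly x w) := by
  unfold maxLay
  exact Comp.itr_nat (F := fun x _ => nn x + 2) (Comp.max Comp.id.snd.snd (c_layN hL.up Comp.id.snd.fst))
    (Comp.const 0) c_nn (t_nn H) (c_nn.bd.add (Bd.const 2)) fun x w i hi => maxLay_aux _ _ _

theorem c_maxLay_le (x : List ℤ) (Ly : ℕ) : maxLay x Ly ≤ nn x + 2 := maxLay_aux _ _ _

end Pool.Agent.Lib.H2
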