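import Pool.Agent.Lib.MP_3493b8_lc.CompC
import Pool.Agent.Lib.PTC.Prob

/-! The algorithm is computable in time polynomial in a size parameter which dominates the numbers of
vertices, edges, steps, samples and parts. -/

set_option autoImplicit false
set_option linter.unusedVariables false

open Finset
open scoped ENNReal

namespace Pool.Agent.Lib.H2

open Pool.Agent.Lib.PTC

variable {S : List ℤ → ℕ} {σ : Type} [Tup σ]

theorem c_LL : Comp S fun x (_ : σ) => LL x := by
  unfold LL
  exact Comp.size (Comp.succ c_mm)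

theorem t_LL : Tm S fun x (_ : σ) => LL x := by
  unfold LL
  exact Tm.size (Comp.succ c_mm).bd

theorem c_BB : Comp S fun x (_ : σ) => BB x := by
  unfold BB
  exact Comp.succ (Comp.add (Comp.sqrt (Comp.mul c_mm c_LL)) c_LL)

theorem t_BB (H : Dom S) : Tm S fun x (_ : σ) => BB x := by
  unfold BB
  exact ((((t_mm H).mul t_LL).mono fun x _ => Nat.sqrt_le_self _).add t_LL).add (Tm.const 1)

theorem c_lyA (H : Dom S) : Comp S fun x (_ : σ) => lyA x := by
  unfold lyA
  exact Comp.fst (c_cluN H c_BB (t_BB H) c_LL)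

theorem c_fA (H : Dom S) : Comp S fun x (_ : σ) => fA x := by
  unfold fA
  exact Comp.snd (c_cluN H c_BB (t_BB H) c_LL)

theorem c_lyC (H : Dom S) : Comp S fun x (_ : σ) => lyC x := by
  unfold lyC
  exact Comp.fst (c_cluN H c_nn (t_nn H) c_LL)

theorem c_rA (H : Dom S) : Comp S fun x (_ : σ) => rA x := by
  unfold rA
  exact Comp.pred (c_maxLay H (c_lyA H))

theorem t_rA (H : Dom S) : Tm S fun x (_ : σ) => rA x :=
  ((t_nn H).add (Tm.const 2)).mono fun x _ => (Nat.sub_le _ _).trans (c_maxLay_le _ _)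

theorem c_kA (H : Dom S) : Comp S fun x (_ : σ) => kA x := by
  unfold kA
  exact c_sizeN H (c_fA H)

theorem t_kA (H : Dom S) : Tm S fun x (_ : σ) => kA x := (t_mm H).mono fun x _ => sizeN_le _ _

theorem c_nul (H : Dom S) : Comp S fun x (_ : σ) => nul x := by
  unfold nul
  exact Comp.sub c_mm (Comp.sub c_nn (c_rootsN H (c_lyC H)))

theorem t_nul (H : Dom S) : Tm S fun x (_ : σ) => nul x := (t_mm H).mono fun x _ => Nat.sub_le _ _

theorem c_S1 : Comp S fun x (_ : σ) => S1 x := by
  unfold S1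
  exact Comp.add (Comp.add (Comp.add c_nn c_mm) c_NN) (Comp.const 2)

theorem t_S1 (H : Dom S) : Tm S fun x (_ : σ) => S1 x := by
  unfold S1
  exact (((t_nn H).add (t_mm H)).add (t_NN H)).add (Tm.const 2)

theorem c_tPar (H : Dom S) (q : ℕ) : Comp S fun x (_ : σ) => tPar x q := by
  unfold tPar
  exact Comp.mul (Comp.succ (Comp.mul (Comp.mul (Comp.mul (Comp.const 2) c_mm)
    (Comp.mul (Comp.pow (Comp.succ c_nn) (Comp.const 2) (Tm.const 2))
      (Comp.pow (Comp.const q) (Comp.mul (Comp.const 4) (c_rA H)) ((Tm.const 4).mul (t_rA H)))))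
    (Comp.mul c_kE (Comp.const (kU q)))))
    (Comp.mul (Comp.mul (Comp.const (30 * q)) c_S1) (Comp.succ (c_rA H)))

theorem c_sPar (H : Dom S) (q : ℕ) : Comp S fun x (_ : σ) => sPar x q := by
  unfold sPar
  exact Comp.mul (Comp.mul (Comp.mul (Comp.const (2 ^ 20)) (Comp.pow2 (c_kA H) (t_kA H)))
    (Comp.pow c_S1 (Comp.const 7) (Tm.const 7)))
    (Comp.pow (Comp.const q) (Comp.succ (Comp.mul (Comp.const 4) (c_rA H)))
      (((Tm.const 4).mul (t_rA H)).add (Tm.const 1)))

/-- The size parameter dominates the numbers of vertices, edges, steps, samples and parts. -/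
structure Dom2 (S : List ℤ → ℕ) (q : ℕ) : Prop extends Dom S where
  t : ∀ x, tPar x q ≤ S x
  s : ∀ x, sPar x q ≤ S x
  k : ∀ x, 2 ^ kA x ≤ S x

theorem t_tPar {q : ℕ} (H : Dom2 S q) : Tm S fun x (_ : σ) => tPar x q := Tm.scale.mono fun x _ => H.t x

theorem t_sPar {q : ℕ} (H : Dom2 S q) : Tm S fun x (_ : σ) => sPar x q := Tm.scale.mono fun x _ => H.s x

theorem t_kP {q : ℕ} (H : Dom2 S q) : Tm S fun x (_ : σ) => 2 ^ kA x := Tm.scale.mono fun x _ => H.k x

theorem c_bits {q : ℕ} (H : Dom2 S q) : Comp S fun x (_ : σ) => bits x q := by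
  unfold bits
  exact Comp.mul (Comp.mul (Comp.add (Comp.size c_mm) (Comp.const (Nat.size q + 1)))
    (c_tPar H.toDom q)) (Comp.mul (Comp.mul (Comp.pow2 (c_kA H.toDom) (t_kA H.toDom)) c_mm)
      (c_sPar H.toDom q))

theorem t_bits {q : ℕ} (H : Dom2 S q) : Tm S fun x (_ : σ) => bits x q := by
  unfold bits
  exact (((Tm.size c_mm.bd).add (Tm.const (Nat.size q + 1))).mul (t_tPar H)).mul
    (((t_kP H).mul (t_mm H.toDom)).mul (t_sPar H))

theorem c_termN {q : ℕ} (H : Dom2 S q) (p b K : ℕ) {a ω : List ℤ → σ → ℕ} (ha : Comp S a)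
    (hω : Comp S ω) : Comp S fun x w => termN x p q b K (a x w) (ω x w) := by
  have D := H.toDom
  have h2 : Comp S fun x (_ : σ) => 2 ^ mm x := Comp.pow2 c_mm (t_mm D)
  have hX : Comp S fun x w => subN x (fA x) (a x w) := c_subN D (c_fA D) ha
  have hT : Comp S fun x w => mkT x (2 ^ mm x - 1 - subN x (fA x) (a x w)) :=
    c_mkT D (Comp.sub (Comp.pred h2) hX)
  have hA : Comp S fun x w => startN x (lyA x) (fA x) (subN x (fA x) (a x w)) :=
    c_startN D (c_lyA D) (c_fA D) hX
  have hN := c_numX D p q (c_fA D) hT hA (c_tPar D q) (t_tPar H) (c_sPar D q) (t_sPar H) ha hω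
  have hD := c_denX D p q (c_fA D) hT hA (c_tPar D q) (t_tPar H) (c_sPar D q) (t_sPar H) ha hω
  have hs : Comp S fun x w => sizeN x (subN x (fA x) (a x w)) := c_sizeN D hX
  have ts : Tm S fun x w => sizeN x (subN x (fA x) (a x w)) := t_sizeN D
  have hr : Comp S fun x (_ : σ) => rootsN x (lyA x) := c_rootsN D (c_lyA D)
  have tr : Tm S fun x (_ : σ) => rootsN x (lyA x) := (t_nn D).mono fun x _ => rootsN_le _ _
  unfold termN
  exact Comp.ite (CompP.eq (c_defN D hT hA) (Comp.const 0))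
    (Comp.div
      (Comp.mul (Comp.mul (Comp.mul (Comp.mul (Comp.pow (Comp.const K) c_S1 (t_S1 D))
        (Comp.pow (Comp.const q) (c_nul D) (t_nul D))) (Comp.pow (Comp.const p) hs ts))
        (Comp.pow2 (Comp.add c_mm hr) ((t_mm D).add tr))) hN)
      (Comp.mul (Comp.mul (Comp.mul (Comp.pow (Comp.const (2 * b)) (c_nul D) (t_nul D))
        (Comp.pow (Comp.const q) hs ts))
        (Comp.pow2 (Comp.add (c_kA D) c_nn) ((t_kA D).add (t_nn D)))) hD))
    (Comp.const 0)

/-- **The output is computable in polynomial time.** -/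
theorem c_outN {q : ℕ} (H : Dom2 S q) (p b K : ℕ) {ω : List ℤ → σ → ℕ} (hω : Comp S ω) :
    Comp S fun x w => outN x p q b K (ω x w) := by
  unfold outN
  exact Comp.pair (Comp.mod (c_nul H.toDom) (Comp.const 2))
    (Comp.sum (c_termN H p b K Comp.id.snd hω.up) (Comp.pow2 (c_kA H.toDom) (t_kA H.toDom)) (t_kP H))

theorem outZ_eq (x : List ℤ) (p q b K ω : ℕ) : outZ x p q b K ω = zout (outN x p q b K ω) := rfl

/-- **The program of the algorithm**: it halts for all coin flips within time `S x ^ C`, and the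
probability of an event is its probability under a random number `ω < 2 ^ bits x q`. -/
theorem exists_alg {q : ℕ} (H : Dom2 S q) (p b K : ℕ) :
    ∃ (P : List PRam.Instr) (C : ℕ), ∀ x : List ℤ, 2 ≤ S x → Valid x (S x) →
      (∀ (good : ℤ → Prop) [DecidablePred good], probThat P x good =
        (((range (2 ^ bits x q)).filter fun ω => good (outZ x p q b K ω)).card : ℝ≥0∞) /
          2 ^ bits x q) ∧
      TimeLe P x ((S x : ℝ) ^ C) := by
  obtain ⟨P, C, h⟩ := exists_prog (S := S) (b := fun x => bits x q)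
    (out := fun x ω => outN x p q b K ω) (c_bits H) (t_bits H)
    (c_outN H p b K (Comp.id (S := S) (σ := ℕ)))
  exact ⟨P, C, fun x h2 hV => ⟨fun good _ => (h x h2 hV).1 good, (h x h2 hV).2⟩⟩

end Pool.Agent.Lib.H2
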