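import Pool.Agent.Lib.MP_3493b8_lc.CompD
import Pool.Agent.Lib.MP_3493b8_lc.Bound

/-! The output and the number of coin flips are computable in time polynomial in `szA`. -/

set_option autoImplicit false

namespace Pool.Agent.Lib.H2

open Pool.Agent.Lib.PTC

theorem dom_szA (q : ℕ) : Dom2 (szA q) q := by
  have key : ∀ x, nn x ≤ szA q x ∧ mm x ≤ szA q x ∧ NN x ≤ szA q x ∧ tPar x q ≤ szA q x ∧
      sPar x q ≤ szA q x ∧ 2 ^ kA x ≤ szA q x := by
    intro x
    unfold szA
    generalize 2 ^ kA x = u
    omega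
  exact
    { n := fun x => (key x).1
      m := fun x => (key x).2.1
      N := fun x => (key x).2.2.1
      t := fun x => (key x).2.2.2.1
      s := fun x => (key x).2.2.2.2.1
      k := fun x => (key x).2.2.2.2.2 }

theorem comp_outN (s b : ℕ) :
    Comp (szA (s + b)) fun x om => outN x (s - b) (s + b) b (4 * (s + b) ^ 2) om :=
  c_outN (dom_szA (s + b)) (s - b) b (4 * (s + b) ^ 2) Comp.id

theorem comp_bits (q : ℕ) : Comp (szA q) fun x (_ : Unit) => bits x q := c_bits (dom_szA q)

theorem tm_bits (q : ℕ) : Tm (szA q) fun x (_ : Unit) => bits x q := t_bits (dom_szA q)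

end Pool.Agent.Lib.H2
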