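import Pool.Agent.Lib.PTC.Def

/-! Multigraphs, the Tutte polynomial, the input format. -/

set_option autoImplicit false

namespace Pool.Agent.Lib.H2

/-- A finite multigraph: vertices `0, …, n-1`, edges `0, …, m-1`, edge `i` joins the two entries of
`e i`.  Loops and parallel edges are allowed. -/
structure MGraph where
  n : ℕ
  m : ℕ
  e : Fin m → Fin n × Fin n

namespace MGraph

variable (G : MGraph)

/-- The number `k(A)` of connected components of `(V, A)`. -/
noncomputable def comps (A : Finset (Fin G.m)) : ℕ :=
  Nat.card (Quot fun u v : Fin G.n => ∃ i ∈ A, G.e i = (u, v))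

/-- The rank `r(A) = |V| - k(A)`. -/
noncomputable def rk (A : Finset (Fin G.m)) : ℕ := G.n - G.comps A

/-- The Tutte polynomial `T(G; x, y)`. -/
noncomputable def tutte (x y : ℝ) : ℝ :=
  ∑ A : Finset (Fin G.m), (x - 1) ^ (G.rk Finset.univ - G.rk A) * (y - 1) ^ (A.card - G.rk A)

/-- Two vertices are adjacent if an edge joins them. -/
def Adj (u v : Fin G.n) : Prop := ∃ i, G.e i = (u, v) ∨ G.e i = (v, u)

/-- There is a walk from `u` to `v` with at most `k` edges. -/
def Within : ℕ → Fin G.n → Fin G.n → Prop
  | 0, u, v => u = v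
  | k + 1, u, v => Within k u v ∨ ∃ w, Within k u w ∧ G.Adj w v

/-- Every connected component has diameter at most `d`: two vertices joined by a walk are joined by
a walk with at most `d` edges. -/
def DiamLe (d : ℕ) : Prop := ∀ k u v, G.Within k u v → G.Within d u v

/-- The input of the algorithm: the number of vertices, the number of edges, the precision `N`, and
then the two ends of every edge. -/
def code (N : ℕ) : List ℤ :=
  (G.n : ℤ) :: (G.m : ℤ) :: (N : ℤ) ::
    (List.ofFn fun i => [((G.e i).1.val : ℤ), ((G.e i).2.val : ℤ)]).flatten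

end MGraph

/-- `a` approximates `b` with relative error `ε` (in the sense `e^(-ε) ≤ a / b ≤ e^ε`). -/
def Close (ε a b : ℝ) : Prop := Real.exp (-ε) ≤ a / b ∧ a / b ≤ Real.exp ε

end Pool.Agent.Lib.H2
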