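import Pool.Agent.Lib.MP_3493b8_lc.Est

/-! The counts of the algorithm as sums over the samples. -/

set_option autoImplicit false

open Finset

namespace Pool.Agent.Lib.H2

open Pool.Agent.Lib.PTC

namespace MGraph

variable (G : MGraph) (N : ℕ)

private theorem est2_zero (a A : ℕ) :
    defN (G.code N) (G.cT N a) A = 0 ↔ G.bd (G.eset A) = G.cB N a := by
  rw [G.defN_zero N, G.vvec_cT N]

private theorem est2_mem (A : ℕ) (j : Fin G.m) : j ∈ G.eset A ↔ A.testBit j = true := by
  unfold eset
  rw [mem_filter]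
  exact ⟨fun h => h.2, fun h => ⟨mem_univ _, h⟩⟩

/-- the counts of the algorithm in terms of the samples -/
theorem cntU_smp (p q a j ω : ℕ) :
    ((cntU (G.code N) p q (fA (G.code N)) (G.cT N a) (G.cA N a) j (tPar (G.code N) q)
      (sPar (G.code N) q) ((a * mm (G.code N) + j) * sPar (G.code N) q) ω : ℕ) : ℝ) =
      G.smp N p q a j ω (G.obsU (G.cB N a)) := by
  unfold cntU smp
  rw [Nat.cast_sum]
  refine Finset.sum_congr rfl fun i _ => ?_
  unfold obsU
  by_cases h : defN (G.code N) (G.cT N a) (smpN (G.code N) p q (fA (G.code N)) (G.cT N a)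
      (G.cA N a) j (tPar (G.code N) q) ω ((a * mm (G.code N) + j) * sPar (G.code N) q + i)) = 0
  · rw [if_pos h, if_pos ((G.est2_zero N a _).1 h), Nat.cast_one]
  · rw [if_neg h, if_neg fun h2 => h ((G.est2_zero N a _).2 h2), Nat.cast_zero]

theorem cntV_smp (p q a ω : ℕ) (j : Fin G.m) (hp : 0 < p) (hpq : p < q) :
    ((q * (cntU (G.code N) p q (fA (G.code N)) (G.cT N a) (G.cA N a) j (tPar (G.code N) q)
          (sPar (G.code N) q) ((a * mm (G.code N) + j) * sPar (G.code N) q) ω -
        cntB (G.code N) p q (fA (G.code N)) (G.cT N a) (G.cA N a) j (tPar (G.code N) q)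
          (sPar (G.code N) q) ((a * mm (G.code N) + j) * sPar (G.code N) q) ω) +
      p * cntB (G.code N) p q (fA (G.code N)) (G.cT N a) (G.cA N a) j (tPar (G.code N) q)
          (sPar (G.code N) q) ((a * mm (G.code N) + j) * sPar (G.code N) q) ω : ℕ) : ℝ) =
      q * G.smp N p q a j ω (G.obsV (G.cB N a) ((p : ℝ) / q) j) := by
  have hq : (q : ℝ) ≠ 0 := Nat.cast_ne_zero.2 (by omega)
  have hle : cntB (G.code N) p q (fA (G.code N)) (G.cT N a) (G.cA N a) j (tPar (G.code N) q)
      (sPar (G.code N) q) ((a * mm (G.code N) + j) * sPar (G.code N) q) ω ≤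
      cntU (G.code N) p q (fA (G.code N)) (G.cT N a) (G.cA N a) j (tPar (G.code N) q)
      (sPar (G.code N) q) ((a * mm (G.code N) + j) * sPar (G.code N) q) ω := by
    unfold cntB cntU
    refine Finset.sum_le_sum fun i _ => ?_
    by_cases h : defN (G.code N) (G.cT N a) (smpN (G.code N) p q (fA (G.code N)) (G.cT N a)
        (G.cA N a) j (tPar (G.code N) q) ω ((a * mm (G.code N) + j) * sPar (G.code N) q + i)) = 0
    · rw [if_pos h]
      split_ifs
      · exact le_rfl
      · exact Nat.zero_le _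
    · rw [if_neg fun h2 => h h2.1]
      exact Nat.zero_le _
  rw [Nat.cast_add, Nat.cast_mul, Nat.cast_mul, Nat.cast_sub hle]
  unfold cntU cntB smp
  rw [Nat.cast_sum, Nat.cast_sum, ← Finset.sum_sub_distrib, Finset.mul_sum, Finset.mul_sum,
    Finset.mul_sum, ← Finset.sum_add_distrib]
  refine Finset.sum_congr rfl fun i _ => ?_
  unfold obsV
  generalize smpN (G.code N) p q (fA (G.code N)) (G.cT N a)
      (G.cA N a) j (tPar (G.code N) q) ω ((a * mm (G.code N) + j) * sPar (G.code N) q + i) = A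
  by_cases h : defN (G.code N) (G.cT N a) A = 0
  · rw [if_pos h, if_pos ((G.est2_zero N a _).1 h)]
    by_cases hj : A.testBit j = true
    · rw [if_pos ⟨h, hj⟩, if_pos ((G.est2_mem A j).2 hj), Nat.cast_one, sub_self, mul_zero,
        zero_add, mul_one, mul_div_cancel₀ _ hq]
    · rw [if_neg fun h2 => hj h2.2, if_neg fun h2 => hj ((G.est2_mem A j).1 h2), Nat.cast_one,
        Nat.cast_zero, sub_zero, mul_zero, add_zero]
  · rw [if_neg h, if_neg fun h2 => h h2.1, if_neg fun h2 => h ((G.est2_zero N a _).2 h2),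
      Nat.cast_zero, sub_zero, mul_zero, mul_zero, add_zero]

end MGraph

end Pool.Agent.Lib.H2
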