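import Pool.Agent.Lib.MP_3493b8_lc.Det

/-! The terms of the output for good random numbers. -/

set_option autoImplicit false

open Finset

namespace Pool.Agent.Lib.H2

open Pool.Agent.Lib.PTC

namespace MGraph

variable (G : MGraph) (N : ℕ)

/-- the number of sets of the class -/
theorem Zs_zero_count (l : ℝ) (a : ℕ) (ha : G.Solv N a) :
    G.Zs (G.cF N) (G.wj l 0) (G.cB N a) * (2 ^ kA (G.code N) * 2 ^ nn (G.code N)) =
      2 ^ mm (G.code N) * 2 ^ rootsN (G.code N) (lyA (G.code N)) := by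
  obtain ⟨A, hA, hb⟩ := ha
  have h1 := (G.clu_A N).count A hA
  have h2 : (G.cF N).card ≤ G.m := by
    have := Finset.card_le_univ (G.cF N)
    rwa [Fintype.card_fin] at this
  rw [Zs_wj_zero, ← hb, kA_code, nn_code, mm_code, rootsN_code]
  change (((univ : Finset (Finset (Fin G.m))).filter fun B => Disjoint B (G.cF N) ∧
    G.bd B = G.bd A).card : ℝ) * (2 ^ (G.cF N).card * 2 ^ G.n) = 2 ^ G.m * 2 ^ G.roots _
  have h3 : ((univ : Finset (Finset (Fin G.m))).filter fun B => Disjoint B (G.cF N) ∧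
      G.bd B = G.bd A).card * (2 ^ (G.cF N).card * 2 ^ G.n) =
      2 ^ G.m * 2 ^ G.roots (G.lay N (lyA (G.code N))) := by
    have h4 : 2 ^ (G.m - (G.cF N).card) * 2 ^ (G.cF N).card = 2 ^ G.m := by
      rw [← pow_add, Nat.sub_add_cancel h2]
    calc _ = (((univ : Finset (Finset (Fin G.m))).filter fun B => Disjoint B (G.cF N) ∧
          G.bd B = G.bd A).card * 2 ^ G.n) * 2 ^ (G.cF N).card := by ring
      _ = (2 ^ (G.m - (G.cF N).card) * 2 ^ G.roots (G.lay N (lyA (G.code N)))) *
          2 ^ (G.cF N).card := by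
          congr 1
      _ = _ := by rw [← h4]; ring
  exact_mod_cast h3

private theorem det2_floor (A B : ℕ) (hB : 0 < B) :
    (A : ℝ) / B - 1 ≤ ((A / B : ℕ) : ℝ) ∧ ((A / B : ℕ) : ℝ) ≤ (A : ℝ) / B := by
  refine ⟨?_, Nat.cast_div_le⟩
  have h1 : (A : ℝ) < ((A / B : ℕ) + 1 : ℝ) * B := by
    have := Nat.lt_div_mul_add (a := A) hB
    have h2 : A < (A / B + 1) * B := by
      rw [add_mul, one_mul]
      exact this
    exact_mod_cast h2
  have hB' : (0 : ℝ) < B := by exact_mod_cast hB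
  have h3 : (A : ℝ) / B < ((A / B : ℕ) + 1 : ℝ) := by
    rw [div_lt_iff₀ hB']
    exact h1
  linarith

/-- the term `a` of the output -/
theorem term_bound (p q b K a ω : ℕ) (hp : 0 < p) (hpq : p < q) (hb : 0 < b) (hN : 1 ≤ N)
    (hω : G.Good N p q ω) (haa : a < 2 ^ kA (G.code N)) :
    Real.exp (-(1 / (4 * N))) * G.exact N p q b K a - 1 ≤ (termN (G.code N) p q b K a ω : ℝ) ∧
      (termN (G.code N) p q b K a ω : ℝ) ≤ Real.exp (1 / (4 * N)) * G.exact N p q b K a := by
  by_cases ha : G.Solv N a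
  · obtain ⟨hd, h1, h2⟩ := G.est_quot N p q a ω hp hpq hN hω haa ha
    have hc := G.Zs_zero_count N ((p : ℝ) / q) a ha
    set Z0 : ℝ := G.Zs (G.cF N) (G.wj ((p : ℝ) / q) 0) (G.cB N a) with hZ0
    set Z1 : ℝ := G.Zs (G.cF N) (fun _ => (p : ℝ) / q) (G.cB N a) with hZ1
    set nX : ℕ := numX (G.code N) p q (fA (G.code N)) (G.cT N a) (G.cA N a) (tPar (G.code N) q)
        (sPar (G.code N) q) a ω with hnX
    set dX : ℕ := denX (G.code N) p q (fA (G.code N)) (G.cT N a) (G.cA N a) (tPar (G.code N) q)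
        (sPar (G.code N) q) a ω with hdX
    have hq : 0 < q := lt_trans hp hpq
    have hq' : (0 : ℝ) < q := by exact_mod_cast hq
    have hb' : (0 : ℝ) < b := by exact_mod_cast hb
    have hp' : (0 : ℝ) < p := by exact_mod_cast hp
    have hd' : (0 : ℝ) < dX := by exact_mod_cast hd
    have hZ0p : 0 < Z0 := by
      have h3 : (0 : ℝ) < 2 ^ mm (G.code N) * 2 ^ rootsN (G.code N) (lyA (G.code N)) := by
        positivity
      rw [← hc] at h3
      exact pos_of_mul_pos_left h3 (by positivity)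
    have hterm : termN (G.code N) p q b K a ω =
        (K ^ S1 (G.code N) * q ^ nul (G.code N) * p ^ (G.cX N a).card *
          2 ^ (mm (G.code N) + rootsN (G.code N) (lyA (G.code N))) * nX) /
        ((2 * b) ^ nul (G.code N) * q ^ (G.cX N a).card *
          2 ^ (kA (G.code N) + nn (G.code N)) * dX) := by
      unfold termN
      rw [sizeN_code]
      exact if_pos ((G.solv_iff N a).2 ha)
    have hDpos : 0 < (2 * b) ^ nul (G.code N) * q ^ (G.cX N a).card *
        2 ^ (kA (G.code N) + nn (G.code N)) * dX := by positivity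
    obtain ⟨h3, h4⟩ := det2_floor (K ^ S1 (G.code N) * q ^ nul (G.code N) *
      p ^ (G.cX N a).card * 2 ^ (mm (G.code N) + rootsN (G.code N) (lyA (G.code N))) * nX) _ hDpos
    rw [← hterm] at h3 h4
    set C : ℝ := (K : ℝ) ^ S1 (G.code N) * ((q : ℝ) / (2 * b)) ^ nul (G.code N) *
      ((p : ℝ) / q) ^ (G.cX N a).card with hC
    have hC0 : 0 ≤ C := by positivity
    have hR : ((K ^ S1 (G.code N) * q ^ nul (G.code N) * p ^ (G.cX N a).card *
          2 ^ (mm (G.code N) + rootsN (G.code N) (lyA (G.code N))) * nX : ℕ) : ℝ) /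
        (((2 * b) ^ nul (G.code N) * q ^ (G.cX N a).card *
          2 ^ (kA (G.code N) + nn (G.code N)) * dX : ℕ) : ℝ) = C * Z0 * ((nX : ℝ) / dX) := by
      have h5 : Z0 = 2 ^ (mm (G.code N) + rootsN (G.code N) (lyA (G.code N))) /
          2 ^ (kA (G.code N) + nn (G.code N)) := by
        rw [pow_add, pow_add, eq_div_iff (by positivity)]
        exact hc
      rw [h5, hC, div_pow, div_pow]
      push_cast
      field_simp
    rw [hR] at h3 h4
    have hex : G.exact N p q b K a = C * Z0 * (Z1 / Z0) := by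
      have h6 : C * Z0 * (Z1 / Z0) = C * Z1 := by
        field_simp
      rw [h6, hC]
      unfold exact
      ring
    have hCZ : 0 ≤ C * Z0 := mul_nonneg hC0 hZ0p.le
    rw [hex]
    constructor
    · have h7 := mul_le_mul_of_nonneg_left h1 hCZ
      calc _ = C * Z0 * (Real.exp (-(1 / (4 * N))) * (Z1 / Z0)) - 1 := by ring
        _ ≤ C * Z0 * ((nX : ℝ) / dX) - 1 := by linarith
        _ ≤ _ := h3
    · have h7 := mul_le_mul_of_nonneg_left h2 hCZ
      calc _ ≤ C * Z0 * ((nX : ℝ) / dX) := h4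
        _ ≤ C * Z0 * (Real.exp (1 / (4 * N)) * (Z1 / Z0)) := h7
        _ = _ := by ring
  · have h1 : termN (G.code N) p q b K a ω = 0 := by
      unfold termN
      exact if_neg fun h => ha ((G.solv_iff N a).1 h)
    have h2 : G.exact N p q b K a = 0 := by
      unfold exact
      rw [G.Zs_eq_zero (G.cF N) _ (G.cB N a) fun A hA hb => ha ⟨A, hA, hb⟩]
      ring
    rw [h1, h2]
    constructor <;> norm_num

end MGraph

end Pool.Agent.Lib.H2
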