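import Pool.Agent.Lib.MP_3493b8_lc.Iden0

/-! The Tutte polynomial on `(x-1)(y-1) = 2` as a sum over edge sets with given boundary. -/

set_option autoImplicit false

open Finset

namespace Pool.Agent.Lib.H2

namespace MGraph

variable (G : MGraph)

/-- the sign `± 1` of a colour -/
def idenChi (b : Bool) : ℝ := if b = true then 1 else -1

/-- the power of the sign with exponent in `ZMod 2` -/
def idenP (z : ZMod 2) (b : Bool) : ℝ := if z = 0 then 1 else idenChi b

theorem idenP_add (z w : ZMod 2) (b : Bool) : idenP (z + w) b = idenP z b * idenP w b := by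
  have h : ∀ z : ZMod 2, z = 0 ∨ z = 1 := by decide
  have h10 : (1 : ZMod 2) ≠ 0 := by decide
  have h11 : (1 : ZMod 2) + 1 = 0 := by decide
  unfold idenP idenChi
  rcases h z with rfl | rfl <;> rcases h w with rfl | rfl <;> cases b <;>
    simp [h10, h11]

theorem idenChi_eq (a b : Bool) : (if a = b then (1 : ℝ) else -1) = idenChi a * idenChi b := by
  unfold idenChi
  cases a <;> cases b <;> simp

theorem prod_idenP_add {n : ℕ} (z w : Fin n → ZMod 2) (σ : Fin n → Bool) :
    ∏ x, idenP ((z + w) x) (σ x) = (∏ x, idenP (z x) (σ x)) * ∏ x, idenP (w x) (σ x) := by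
  rw [← Finset.prod_mul_distrib]
  exact Finset.prod_congr rfl fun x _ => by rw [Pi.add_apply, idenP_add]

theorem prod_idenP_zero {n : ℕ} (σ : Fin n → Bool) :
    ∏ x, idenP ((0 : Fin n → ZMod 2) x) (σ x) = 1 :=
  Finset.prod_eq_one fun x _ => by
    rw [Pi.zero_apply]
    unfold idenP
    rw [if_pos rfl]

theorem prod_idenP_single {n : ℕ} (u : Fin n) (σ : Fin n → Bool) :
    ∏ x, idenP ((Pi.single u 1 : Fin n → ZMod 2) x) (σ x) = idenChi (σ u) := by
  have h10 : (1 : ZMod 2) ≠ 0 := by decide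
  rw [Finset.prod_eq_single u]
  · unfold idenP
    rw [Pi.single_eq_same, if_neg h10]
  · intro x _ hx
    unfold idenP
    rw [Pi.single_eq_of_ne hx, if_pos rfl]
  · intro h
    exact absurd (Finset.mem_univ u) h

/-- the product of the signs of the edges of `B` -/
theorem prod_sign (B : Finset (Fin G.m)) (σ : Fin G.n → Bool) :
    ∏ i ∈ B, (if σ (G.e i).1 = σ (G.e i).2 then (1 : ℝ) else -1) =
      ∏ x, idenP (G.bd B x) (σ x) := by
  classical
  induction B using Finset.induction_on with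
  | empty =>
    rw [Finset.prod_empty, bd_empty, prod_idenP_zero]
  | insert i B hi ih =>
    have h1 : G.bd (insert i B) = (Pi.single (G.e i).1 1 + Pi.single (G.e i).2 1) + G.bd B := by
      unfold bd
      rw [Finset.sum_insert hi]
    rw [Finset.prod_insert hi, ih, h1, prod_idenP_add, prod_idenP_add, prod_idenP_single,
      prod_idenP_single, idenChi_eq]

theorem sum_sign (z : Fin G.n → ZMod 2) :
    ∑ σ : Fin G.n → Bool, ∏ x, idenP (z x) (σ x) = if z = 0 then 2 ^ G.n else 0 := by
  classical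
  have h1 : ∑ σ : Fin G.n → Bool, ∏ x, idenP (z x) (σ x) =
      ∏ x, ∑ b : Bool, idenP (z x) b := by
    rw [Finset.prod_univ_sum, Fintype.piFinset_univ]
  have h2 : ∀ x, ∑ b : Bool, idenP (z x) b = if z x = 0 then (2 : ℝ) else 0 := by
    intro x
    rw [Fintype.sum_bool]
    unfold idenP idenChi
    by_cases hz : z x = 0
    · rw [if_pos hz, if_pos hz, if_pos hz]
      norm_num
    · rw [if_neg hz, if_neg hz, if_neg hz]
      simp
  rw [h1, Finset.prod_congr rfl fun x _ => h2 x]
  by_cases hz : z = 0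
  · rw [if_pos hz, Finset.prod_congr rfl fun x _ => if_pos (by rw [hz, Pi.zero_apply]),
      Finset.prod_const, Finset.card_univ, Fintype.card_fin]
  · rw [if_neg hz]
    obtain ⟨x, hx⟩ : ∃ x, z x ≠ 0 := by
      by_contra h
      push Not at h
      exact hz (funext h)
    exact Finset.prod_eq_zero (Finset.mem_univ x) (if_neg hx)

/-- Fortuin-Kasteleyn: expansion of the product over the edges -/
theorem fk (v : ℝ) : ∑ A : Finset (Fin G.m), v ^ A.card * 2 ^ G.comps A =
    ∑ σ : Fin G.n → Bool, ∏ i, (1 + if σ (G.e i).1 = σ (G.e i).2 then v else 0) := by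
  classical
  symm
  have h1 : ∀ σ : Fin G.n → Bool,
      ∏ i, (1 + if σ (G.e i).1 = σ (G.e i).2 then v else 0) =
        ∑ A : Finset (Fin G.m), if ∀ i ∈ A, σ (G.e i).1 = σ (G.e i).2 then v ^ A.card else 0 := by
    intro σ
    rw [Finset.prod_one_add, Finset.powerset_univ]
    refine Finset.sum_congr rfl fun A _ => ?_
    rw [Finset.prod_ite_zero, Finset.prod_const]
    by_cases h : ∀ i ∈ A, σ (G.e i).1 = σ (G.e i).2
    · rw [if_pos h, if_pos h]
    · rw [if_neg h, if_neg h]
  rw [Finset.sum_congr rfl fun σ _ => h1 σ, Finset.sum_comm]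
  refine Finset.sum_congr rfl fun A _ => ?_
  have h2 := G.card_colour A
  rw [← Finset.sum_filter, Finset.sum_const, nsmul_eq_mul, mul_comm]
  congr 1
  have h3 : ((((univ : Finset (Fin G.n → Bool)).filter fun σ =>
      ∀ i ∈ A, σ (G.e i).1 = σ (G.e i).2).card : ℕ) : ℝ) = ((2 ^ G.comps A : ℕ) : ℝ) := by
    rw [← h2]
  rw [h3]
  push_cast
  rfl

/-- high temperature expansion -/
theorem high_temp (v l : ℝ) :
    ∑ σ : Fin G.n → Bool, ∏ i, (v * (l + if σ (G.e i).1 = σ (G.e i).2 then 1 else -1)) =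
      v ^ G.m * 2 ^ G.n * G.Zs ∅ (fun _ => l) (G.bd univ) := by
  classical
  have h1 : ∀ σ : Fin G.n → Bool,
      ∏ i, (v * (l + if σ (G.e i).1 = σ (G.e i).2 then 1 else -1)) =
        v ^ G.m * ∑ A : Finset (Fin G.m), l ^ A.card * ∏ x, idenP (G.bd (univ \ A) x) (σ x) := by
    intro σ
    rw [Finset.prod_mul_distrib, Finset.prod_const, Finset.card_univ, Fintype.card_fin,
      Finset.prod_add, Finset.powerset_univ]
    congr 1
    refine Finset.sum_congr rfl fun A _ => ?_
    rw [Finset.prod_const, prod_sign]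
  rw [Finset.sum_congr rfl fun σ _ => h1 σ, ← Finset.mul_sum, Finset.sum_comm, mul_assoc]
  congr 1
  unfold Zs
  rw [Finset.mul_sum]
  refine Finset.sum_congr rfl fun A _ => ?_
  rw [← Finset.mul_sum, sum_sign]
  have h2 : symmDiff univ A = univ \ A := by
    ext x
    simp [Finset.mem_symmDiff]
  have h3 : G.bd (univ \ A) = G.bd univ + G.bd A := by rw [← h2, bd_symmDiff]
  have h4 : G.bd (univ \ A) = 0 ↔ (Disjoint A ∅ ∧ G.bd A = G.bd univ) := by
    rw [h3]
    constructor
    · intro h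
      refine ⟨Finset.disjoint_empty_right A, ?_⟩
      have h5 := G.zmod_add_self (G.bd univ)
      exact add_left_cancel (h.trans h5.symm)
    · rintro ⟨-, h⟩
      rw [h]
      exact G.zmod_add_self _
  by_cases h6 : G.bd (univ \ A) = 0
  · rw [if_pos h6, if_pos (h4.1 h6), Finset.prod_const, mul_comm]
  · rw [if_neg h6, if_neg fun h => h6 (h4.2 h), mul_zero, mul_zero]

/-- The Tutte polynomial on the hyperbola `(x-1)(y-1) = 2`. -/
theorem tutte_eq (y : ℝ) (hy : y < -1) : G.tutte (1 + 2 / (y - 1)) y =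
    ((y - 1) / 2) ^ (G.m - G.rk univ) * G.Zs ∅ (fun _ => (y + 1) / (y - 1)) (G.bd univ) := by
  classical
  obtain ⟨q, hq⟩ : ∃ q : ℝ, q = y - 1 := ⟨_, rfl⟩
  have hq0 : q ≠ 0 := by
    intro h
    linarith
  have hy1 : y + 1 = q + 2 := by
    rw [hq]
    ring
  have hx : (1 + 2 / (y - 1)) - 1 = 2 / q := by
    rw [← hq]
    ring
  have hc1 : G.comps univ ≤ G.n := G.comps_le univ
  -- each term
  have hterm : ∀ A : Finset (Fin G.m),
      2 ^ G.comps univ * q ^ G.rk univ *
        ((2 / q) ^ (G.rk univ - G.rk A) * q ^ (A.card - G.rk A)) = q ^ A.card * 2 ^ G.comps A := by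
    intro A
    have a1 := G.comps_univ_le A
    have a2 := G.comps_le A
    have a3 := G.rk_le_card A
    have a4 : G.rk univ - G.rk A = G.comps A - G.comps univ := by
      unfold rk
      omega
    have a5 : G.rk univ = (G.comps A - G.comps univ) + G.rk A := by
      unfold rk
      omega
    obtain ⟨b, hb⟩ := Nat.exists_eq_add_of_le a1
    obtain ⟨c, hc⟩ := Nat.exists_eq_add_of_le a3
    have a6 : G.comps A - G.comps univ = b := by omega
    have a7 : A.card - G.rk A = c := by omega
    rw [a4, a5, a6, a7]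
    have a8 : A.card = G.rk A + c := hc
    rw [a8, hb, div_pow, pow_add, pow_add, pow_add]
    field_simp
  have hsum : 2 ^ G.comps univ * q ^ G.rk univ * G.tutte (1 + 2 / (y - 1)) y =
      ∑ A : Finset (Fin G.m), q ^ A.card * 2 ^ G.comps A := by
    unfold tutte
    rw [Finset.mul_sum, hx, ← hq]
    exact Finset.sum_congr rfl fun A _ => hterm A
  have hprod : ∀ σ : Fin G.n → Bool,
      ∏ i, (1 + if σ (G.e i).1 = σ (G.e i).2 then q else 0) =
        ∏ i, (q / 2 * ((y + 1) / (y - 1) + if σ (G.e i).1 = σ (G.e i).2 then 1 else -1)) := by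
    intro σ
    refine Finset.prod_congr rfl fun i _ => ?_
    rw [← hq, hy1]
    split_ifs
    · field_simp
      ring
    · field_simp
      ring
  have h := G.fk q
  rw [Finset.sum_congr rfl fun σ _ => hprod σ, G.high_temp, ← hsum] at h
  obtain ⟨Z, hZ⟩ : ∃ Z : ℝ, Z = G.Zs ∅ (fun _ => (y + 1) / (y - 1)) (G.bd univ) := ⟨_, rfl⟩
  obtain ⟨U, hU⟩ : ∃ U : ℝ, U = G.tutte (1 + 2 / (y - 1)) y := ⟨_, rfl⟩
  rw [← hZ, ← hU] at h
  rw [← hZ, ← hU, ← hq]
  have hrm : G.rk univ ≤ G.m := by
    have := G.rk_le_card univ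
    rwa [Finset.card_univ, Fintype.card_fin] at this
  obtain ⟨c, hc⟩ := Nat.exists_eq_add_of_le hrm
  have hn : G.n = G.comps univ + G.rk univ := by
    unfold rk
    omega
  have hc' : G.m - G.rk univ = c := by omega
  rw [hc']
  have h2 : (2 : ℝ) ^ G.comps univ * q ^ G.rk univ ≠ 0 := by positivity
  apply mul_left_cancel₀ h2
  have hn2 : (2 : ℝ) ^ G.n = 2 ^ G.comps univ * 2 ^ G.rk univ := by
    rw [← pow_add, ← hn]
  have hm2 : (q / 2) ^ G.m = (q / 2) ^ G.rk univ * (q / 2) ^ c := by
    rw [← pow_add, ← hc]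
  rw [h, hn2, hm2, div_pow, div_pow]
  field_simp

end MGraph

end Pool.Agent.Lib.H2
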