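import Pool.Agent.Lib.MP_3493b8_lc.Est
import Pool.Agent.Lib.MP_3493b8_lc.Iden

/-! The sum of the exact terms. -/

set_option autoImplicit false

open Finset

namespace Pool.Agent.Lib.H2

open Pool.Agent.Lib.PTC

namespace MGraph

variable (G : MGraph) (N : ℕ)

/-- the sum of the exact terms -/
theorem sum_exact (p q b K : ℕ) :
    ∑ a ∈ range (2 ^ kA (G.code N)), G.exact N p q b K a =
      (K : ℝ) ^ S1 (G.code N) * (((q : ℝ) / (2 * b)) ^ nul (G.code N) *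
        G.Zs ∅ (fun _ => (p : ℝ) / q) (G.bd univ)) := by
  classical
  have h1 : ∀ X : Finset (Fin G.m), G.bd (univ \ X) = G.bd univ + G.bd X := by
    intro X
    rw [← G.bd_symmDiff]
    congr 1
    ext i
    simp [Finset.mem_symmDiff]
  have h2 := G.sum_sub N (fA (G.code N)) (fun X => ((p : ℝ) / q) ^ X.card *
    G.Zs (G.cF N) (fun _ => (p : ℝ) / q) (G.bd (univ \ X)))
  have h3 : G.Zs ∅ (fun _ => (p : ℝ) / q) (G.bd univ) = ∑ X ∈ (G.eset (fA (G.code N))).powerset,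
      ((p : ℝ) / q) ^ X.card * G.Zs (G.cF N) (fun _ => (p : ℝ) / q) (G.bd (univ \ X)) := by
    rw [G.Zs_split (G.cF N)]
    refine Finset.sum_congr rfl fun X _ => ?_
    rw [Finset.prod_const, h1 X]
  rw [h3, ← h2, Finset.mul_sum, Finset.mul_sum]
  refine Finset.sum_congr rfl fun a _ => ?_
  unfold exact cB cX
  ring

/-- the sum is not small -/
theorem sum_exact_ge (p q b : ℕ) (hp : 0 < p) (hpq : p < q) (hb : 0 < b) (hbq : 2 * b ≤ q) :
    (4 : ℝ) ^ S1 (G.code N) ≤ ((4 * q ^ 2 : ℕ) : ℝ) ^ S1 (G.code N) *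
      (((q : ℝ) / (2 * b)) ^ nul (G.code N) * G.Zs ∅ (fun _ => (p : ℝ) / q) (G.bd univ)) := by
  classical
  have hq : 0 < q := hp.trans hpq
  have hqR : (0 : ℝ) < (q : ℝ) := by exact_mod_cast hq
  have hq1 : (1 : ℝ) ≤ (q : ℝ) := by exact_mod_cast hq
  have hpR : (1 : ℝ) ≤ (p : ℝ) := by exact_mod_cast hp
  have h1 : ((p : ℝ) / q) ^ G.m ≤ G.Zs ∅ (fun _ => (p : ℝ) / q) (G.bd univ) := by
    unfold Zs
    have h2 : ((p : ℝ) / q) ^ G.m = if Disjoint (univ : Finset (Fin G.m)) ∅ ∧ G.bd univ = G.bd univ then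
        ∏ _i ∈ (univ : Finset (Fin G.m)), (p : ℝ) / q else 0 := by
      rw [if_pos ⟨Finset.disjoint_empty_right _, rfl⟩, Finset.prod_const, Finset.card_univ, Fintype.card_fin]
    rw [h2]
    refine Finset.single_le_sum (f := fun A : Finset (Fin G.m) =>
      if Disjoint A ∅ ∧ G.bd A = G.bd univ then ∏ _i ∈ A, (p : ℝ) / q else 0) (fun A _ => ?_) (Finset.mem_univ _)
    split_ifs
    · exact Finset.prod_nonneg fun _ _ => by positivity
    · exact le_rfl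
  have h3 : (1 / (q : ℝ)) ^ G.m ≤ ((p : ℝ) / q) ^ G.m :=
    pow_le_pow_left₀ (by positivity) (div_le_div_of_nonneg_right hpR hqR.le) _
  have h4 : (1 : ℝ) ≤ ((q : ℝ) / (2 * b)) ^ nul (G.code N) := by
    refine one_le_pow₀ ?_
    have hb' : (0 : ℝ) < 2 * (b : ℝ) := by positivity
    rw [le_div_iff₀ hb', one_mul]
    exact_mod_cast hbq
  have h5 : G.m ≤ 2 * S1 (G.code N) := by
    unfold S1
    rw [G.mm_code]
    omega
  have h6 : (q : ℝ) ^ G.m ≤ (q : ℝ) ^ (2 * S1 (G.code N)) := pow_le_pow_right₀ hq1 h5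
  have h7 : ((4 * q ^ 2 : ℕ) : ℝ) ^ S1 (G.code N) = 4 ^ S1 (G.code N) * (q : ℝ) ^ (2 * S1 (G.code N)) := by
    push_cast
    rw [mul_pow, ← pow_mul]
  have h8 : (1 / (q : ℝ)) ^ G.m ≤ ((q : ℝ) / (2 * b)) ^ nul (G.code N) *
      G.Zs ∅ (fun _ => (p : ℝ) / q) (G.bd univ) := by
    have h9 := h3.trans h1
    have h10 : (0 : ℝ) ≤ (1 / (q : ℝ)) ^ G.m := by positivity
    calc (1 / (q : ℝ)) ^ G.m = 1 * (1 / (q : ℝ)) ^ G.m := (one_mul _).symm
      _ ≤ _ := mul_le_mul h4 h9 h10 (zero_le_one.trans h4)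
  rw [h7]
  have h11 : (1 : ℝ) ≤ (q : ℝ) ^ (2 * S1 (G.code N)) * (((q : ℝ) / (2 * b)) ^ nul (G.code N) *
      G.Zs ∅ (fun _ => (p : ℝ) / q) (G.bd univ)) := by
    calc (1 : ℝ) = (q : ℝ) ^ G.m * (1 / (q : ℝ)) ^ G.m := by
          rw [← mul_pow, mul_one_div_cancel hqR.ne', one_pow]
      _ ≤ _ := mul_le_mul h6 h8 (by positivity) (by positivity)
  calc (4 : ℝ) ^ S1 (G.code N) = 4 ^ S1 (G.code N) * 1 := (mul_one _).symm
    _ ≤ 4 ^ S1 (G.code N) * ((q : ℝ) ^ (2 * S1 (G.code N)) * (((q : ℝ) / (2 * b)) ^ nul (G.code N) *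
        G.Zs ∅ (fun _ => (p : ℝ) / q) (G.bd univ))) := mul_le_mul_of_nonneg_left h11 (by positivity)
    _ = _ := by ring

end MGraph

end Pool.Agent.Lib.H2
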