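import Mathlib

/-! Inequalities between the parameters. -/

set_option autoImplicit false

namespace Pool.Agent.Lib.H2

/-- `a` is `s u` up to a relative error `ε` -/
def Near (ε s a u : ℝ) : Prop := (1 - ε) * (s * u) ≤ a ∧ a ≤ (1 + ε) * (s * u)

/-- the running time suffices -/
theorem num_mix (m n N q r R : ℕ) (hm : 1 ≤ m) (hN : 1 ≤ N) (hq : 2 ≤ q) (hR : 1 ≤ R) :
    (1 - 1 / (R : ℝ)) ^ (R * (30 * q * (n + m + N + 2) * (r + 1))) * (2 * (q : ℝ)) ^ m ≤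
      (1 / (100 * m * N) * (1 / (((n : ℝ) + 1) ^ 2 * (q : ℝ) ^ (4 * r + 1)))) ^ 2 := by
  have hm' : (1 : ℝ) ≤ m := by exact_mod_cast hm
  have hN' : (1 : ℝ) ≤ N := by exact_mod_cast hN
  have hq' : (2 : ℝ) ≤ q := by exact_mod_cast hq
  have hR' : (1 : ℝ) ≤ R := by exact_mod_cast hR
  have hn' : (0 : ℝ) ≤ n := Nat.cast_nonneg n
  have hr' : (0 : ℝ) ≤ r := Nat.cast_nonneg r
  set t : ℕ := 30 * q * (n + m + N + 2) * (r + 1) with ht
  have h1 : (1 - 1 / (R : ℝ)) ^ (R * t) ≤ Real.exp (-(t : ℝ)) := by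
    have h2 : (1 - 1 / (R : ℝ)) ≤ Real.exp (-(1 / (R : ℝ))) := by
      have := Real.add_one_le_exp (-(1 / (R : ℝ)))
      linarith
    have h3 : 0 ≤ 1 - 1 / (R : ℝ) := by
      rw [sub_nonneg, div_le_one (by linarith)]
      exact hR'
    calc (1 - 1 / (R : ℝ)) ^ (R * t) ≤ (Real.exp (-(1 / (R : ℝ)))) ^ (R * t) :=
          pow_le_pow_left₀ h3 h2 _
      _ = Real.exp (-(t : ℝ)) := by
          rw [← Real.exp_nat_mul]
          congr 1
          push_cast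
          field_simp
  have e1 : (2 * (q : ℝ)) ^ m ≤ Real.exp ((m : ℝ) * (2 * q - 1)) := by
    rw [Real.exp_nat_mul]
    apply pow_le_pow_left₀ (by linarith)
    have := Real.add_one_le_exp (2 * (q : ℝ) - 1)
    linarith
  have e2 : (m : ℝ) ≤ Real.exp m := by
    have := Real.add_one_le_exp (m : ℝ)
    linarith
  have e3 : (N : ℝ) ≤ Real.exp N := by
    have := Real.add_one_le_exp (N : ℝ)
    linarith
  have e4 : ((n : ℝ) + 1) ≤ Real.exp n := Real.add_one_le_exp (n : ℝ)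
  have e5 : (q : ℝ) ^ (4 * r + 1) ≤ Real.exp (((4 * r + 1 : ℕ) : ℝ) * ((q : ℝ) - 1)) := by
    rw [Real.exp_nat_mul]
    apply pow_le_pow_left₀ (by linarith)
    have := Real.add_one_le_exp ((q : ℝ) - 1)
    linarith
  have e6 : (100 : ℝ) ≤ Real.exp 5 := by
    have h2 : (2.7 : ℝ) ≤ Real.exp 1 := by
      have := Real.exp_one_gt_d9
      linarith
    have h3 : Real.exp 5 = (Real.exp 1) ^ 5 := by
      rw [← Real.exp_nat_mul]
      norm_num
    rw [h3]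
    calc (100 : ℝ) ≤ (2.7 : ℝ) ^ 5 := by norm_num
      _ ≤ (Real.exp 1) ^ 5 := pow_le_pow_left₀ (by norm_num) h2 _
  set D : ℝ := 100 * m * N * (((n : ℝ) + 1) ^ 2 * (q : ℝ) ^ (4 * r + 1)) with hD
  have hD0 : 0 < D := by positivity
  have hD1 : D ≤ Real.exp (5 + m + N + 2 * n + ((4 * r + 1 : ℕ) : ℝ) * ((q : ℝ) - 1)) := by
    have h4 : ((n : ℝ) + 1) ^ 2 ≤ Real.exp (2 * n) := by
      calc ((n : ℝ) + 1) ^ 2 ≤ (Real.exp n) ^ 2 := pow_le_pow_left₀ (by linarith) e4 _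
        _ = Real.exp (2 * n) := by
            rw [← Real.exp_nat_mul]
            norm_num
    calc D ≤ Real.exp 5 * Real.exp m * Real.exp N * (Real.exp (2 * n) *
          Real.exp (((4 * r + 1 : ℕ) : ℝ) * ((q : ℝ) - 1))) := by
          rw [hD]
          gcongr
      _ = Real.exp (5 + m + N + 2 * n + ((4 * r + 1 : ℕ) : ℝ) * ((q : ℝ) - 1)) := by
          rw [← Real.exp_add, ← Real.exp_add, ← Real.exp_add, ← Real.exp_add]
          congr 1
          ring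
  have hrhs : (1 / (100 * (m : ℝ) * N) * (1 / (((n : ℝ) + 1) ^ 2 * (q : ℝ) ^ (4 * r + 1)))) ^ 2 =
      1 / D ^ 2 := by
    rw [hD]
    field_simp
  rw [hrhs, le_div_iff₀ (by positivity)]
  have hlin : -(t : ℝ) + (m : ℝ) * (2 * q - 1) +
      2 * (5 + m + N + 2 * n + ((4 * r + 1 : ℕ) : ℝ) * ((q : ℝ) - 1)) ≤ 0 := by
    rw [ht]
    push_cast
    have a1 : (0 : ℝ) ≤ q * r := by positivity
    have a2 : (0 : ℝ) ≤ (q : ℝ) * (n + m + N) * r := by positivity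
    have a3 : (2 : ℝ) * n ≤ q * n := mul_le_mul_of_nonneg_right hq' hn'
    have a4 : (2 : ℝ) * m ≤ q * m := mul_le_mul_of_nonneg_right hq' (by linarith)
    have a5 : (2 : ℝ) * N ≤ q * N := mul_le_mul_of_nonneg_right hq' (by linarith)
    nlinarith
  calc (1 - 1 / (R : ℝ)) ^ (R * t) * (2 * (q : ℝ)) ^ m * D ^ 2
      ≤ Real.exp (-(t : ℝ)) * Real.exp ((m : ℝ) * (2 * q - 1)) *
        (Real.exp (5 + m + N + 2 * n + ((4 * r + 1 : ℕ) : ℝ) * ((q : ℝ) - 1))) ^ 2 := by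
        gcongr
    _ = Real.exp (-(t : ℝ) + (m : ℝ) * (2 * q - 1) +
        2 * (5 + m + N + 2 * n + ((4 * r + 1 : ℕ) : ℝ) * ((q : ℝ) - 1))) := by
        rw [← Real.exp_nat_mul, ← Real.exp_add, ← Real.exp_add]
        congr 1
    _ ≤ 1 := Real.exp_le_one_iff.mpr hlin

/-- the number of samples suffices -/
theorem num_s (m n N q r k : ℕ) (hm : 1 ≤ m) (hN : 1 ≤ N) (hq : 2 ≤ q) (μ : ℝ)
    (hμ : 99 / 100 * (1 / (((n : ℝ) + 1) ^ 2 * (q : ℝ) ^ (4 * r + 1))) ≤ μ) :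
    16 * 2 ^ k * (m : ℝ) ≤ (1 / (100 * m * N)) ^ 2 *
      (((2 ^ 20 * 2 ^ k * (n + m + N + 2) ^ 7 * q ^ (4 * r + 1) : ℕ) : ℝ) * μ) := by
  have hm' : (1 : ℝ) ≤ m := by exact_mod_cast hm
  have hN' : (1 : ℝ) ≤ N := by exact_mod_cast hN
  have hq' : (2 : ℝ) ≤ q := by exact_mod_cast hq
  have hn' : (0 : ℝ) ≤ n := Nat.cast_nonneg n
  have hQ : (0 : ℝ) < (q : ℝ) ^ (4 * r + 1) := by positivity
  have h1 : (m : ℝ) ^ 3 * (N : ℝ) ^ 2 * ((n : ℝ) + 1) ^ 2 ≤ ((n : ℝ) + m + N + 2) ^ 7 := by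
    calc (m : ℝ) ^ 3 * (N : ℝ) ^ 2 * ((n : ℝ) + 1) ^ 2
        ≤ ((n : ℝ) + m + N + 2) ^ 3 * ((n : ℝ) + m + N + 2) ^ 2 * ((n : ℝ) + m + N + 2) ^ 2 := by
          gcongr <;> linarith
      _ = ((n : ℝ) + m + N + 2) ^ 7 := by ring
  have h2 : (1 / (100 * (m : ℝ) * N)) ^ 2 *
      (((2 ^ 20 * 2 ^ k * (n + m + N + 2) ^ 7 * q ^ (4 * r + 1) : ℕ) : ℝ) *
        (99 / 100 * (1 / (((n : ℝ) + 1) ^ 2 * (q : ℝ) ^ (4 * r + 1))))) ≤
      (1 / (100 * m * N)) ^ 2 *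
      (((2 ^ 20 * 2 ^ k * (n + m + N + 2) ^ 7 * q ^ (4 * r + 1) : ℕ) : ℝ) * μ) := by
    gcongr
  refine le_trans ?_ h2
  push_cast
  have h3 : (1 / (100 * (m : ℝ) * N)) ^ 2 *
      (1048576 * 2 ^ k * ((n : ℝ) + m + N + 2) ^ 7 * (q : ℝ) ^ (4 * r + 1) *
        (99 / 100 * (1 / (((n : ℝ) + 1) ^ 2 * (q : ℝ) ^ (4 * r + 1))))) =
      (1048576 * (99 / 100) / 10000 * 2 ^ k * ((n : ℝ) + m + N + 2) ^ 7) /
        ((m : ℝ) ^ 2 * (N : ℝ) ^ 2 * ((n : ℝ) + 1) ^ 2) := by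
    field_simp
    ring
  rw [h3, le_div_iff₀ (by positivity)]
  have hk : (0 : ℝ) < 2 ^ k := by positivity
  have h4 : 16 * 2 ^ k * (m : ℝ) * ((m : ℝ) ^ 2 * (N : ℝ) ^ 2 * ((n : ℝ) + 1) ^ 2) =
      16 * 2 ^ k * ((m : ℝ) ^ 3 * (N : ℝ) ^ 2 * ((n : ℝ) + 1) ^ 2) := by ring
  rw [h4]
  have h5 : (0 : ℝ) ≤ ((n : ℝ) + m + N + 2) ^ 7 := by positivity
  calc 16 * 2 ^ k * ((m : ℝ) ^ 3 * (N : ℝ) ^ 2 * ((n : ℝ) + 1) ^ 2)
      ≤ 16 * 2 ^ k * ((n : ℝ) + m + N + 2) ^ 7 := by gcongr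
    _ ≤ 1048576 * (99 / 100) / 10000 * 2 ^ k * ((n : ℝ) + m + N + 2) ^ 7 := by
        gcongr
        norm_num

/-- combination of the two errors -/
theorem num_near (m N : ℕ) (hm : 1 ≤ m) (hN : 1 ≤ N) (s S μ μ0 : ℝ) (hs : 0 ≤ s) (hμ0 : 0 ≤ μ0)
    (h1 : |S - s * μ| ≤ 1 / (100 * m * N) * (s * μ)) (h2 : |μ - μ0| ≤ 1 / (100 * m * N) * μ0) :
    Near (1 / (40 * m * N)) s S μ0 := by
  have hm' : (1 : ℝ) ≤ m := by exact_mod_cast hm
  have hN' : (1 : ℝ) ≤ N := by exact_mod_cast hN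
  have hmN : (1 : ℝ) ≤ m * N := by nlinarith
  obtain ⟨ε, hε⟩ : ∃ ε : ℝ, ε = 1 / (100 * m * N) := ⟨_, rfl⟩
  have hε1 : ε ≤ 1 / 100 := by
    rw [hε]
    apply one_div_le_one_div_of_le (by norm_num)
    nlinarith
  have hε0 : 0 < ε := by rw [hε]; positivity
  have hε2 : 1 / (40 * (m : ℝ) * N) = 5 / 2 * ε := by
    rw [hε]
    field_simp
    norm_num
  rw [← hε] at h1 h2
  rw [Near, hε2]
  rw [abs_le] at h1 h2
  have h3 : 0 ≤ s * μ0 := by positivity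
  have h4 : s * μ ≤ s * ((1 + ε) * μ0) := by
    apply mul_le_mul_of_nonneg_left _ hs
    linarith [h2.2]
  have h5 : s * ((1 - ε) * μ0) ≤ s * μ := by
    apply mul_le_mul_of_nonneg_left _ hs
    linarith [h2.1]
  constructor
  · have h6 : (1 - ε) * (s * μ) ≤ S := by linarith [h1.1]
    have h7 : (1 - ε) * (s * ((1 - ε) * μ0)) ≤ (1 - ε) * (s * μ) :=
      mul_le_mul_of_nonneg_left h5 (by linarith)
    have h8 : (1 - ε) * (s * ((1 - ε) * μ0)) = (1 - ε) ^ 2 * (s * μ0) := by ring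
    have h9 : (1 - 5 / 2 * ε) * (s * μ0) ≤ (1 - ε) ^ 2 * (s * μ0) := by
      apply mul_le_mul_of_nonneg_right _ h3
      nlinarith
    linarith
  · have h6 : S ≤ (1 + ε) * (s * μ) := by linarith [h1.2]
    have h7 : (1 + ε) * (s * μ) ≤ (1 + ε) * (s * ((1 + ε) * μ0)) :=
      mul_le_mul_of_nonneg_left h4 (by linarith)
    have h8 : (1 + ε) * (s * ((1 + ε) * μ0)) = (1 + ε) ^ 2 * (s * μ0) := by ring
    have h9 : (1 + ε) ^ 2 * (s * μ0) ≤ (1 + 5 / 2 * ε) * (s * μ0) := by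
      apply mul_le_mul_of_nonneg_right _ h3
      nlinarith
    linarith

private theorem num_quot_aux (ε s U V u v : ℝ) (hε0 : 0 < ε) (hε : ε ≤ 1 / 40) (hs : 0 < s)
    (hu : 0 < u) (hv : 0 < v) (hU : Near ε s U u) (hV : Near ε s V v) :
    0 < U ∧ 0 < V ∧ V / U ≤ Real.exp (10 * ε) * (v / u) := by
  obtain ⟨hU1, hU2⟩ := hU
  obtain ⟨hV1, hV2⟩ := hV
  have hsu : 0 < s * u := by positivity
  have hsv : 0 < s * v := by positivity
  have h1 : 0 < 1 - ε := by linarith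
  have hU0 : 0 < U := lt_of_lt_of_le (by positivity) hU1
  have hV0 : 0 < V := lt_of_lt_of_le (by positivity) hV1
  refine ⟨hU0, hV0, ?_⟩
  have h2 : 1 + ε ≤ (1 - ε) * Real.exp (10 * ε) := by
    have h3 := Real.add_one_le_exp (10 * ε)
    have h4 : (1 - ε) * (10 * ε + 1) ≤ (1 - ε) * Real.exp (10 * ε) :=
      mul_le_mul_of_nonneg_left h3 h1.le
    nlinarith
  rw [div_le_iff₀ hU0]
  calc V ≤ (1 + ε) * (s * v) := hV2
    _ ≤ ((1 - ε) * Real.exp (10 * ε)) * (s * v) := mul_le_mul_of_nonneg_right h2 hsv.le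
    _ = Real.exp (10 * ε) * (v / u) * ((1 - ε) * (s * u)) := by
        field_simp
    _ ≤ Real.exp (10 * ε) * (v / u) * U := by
        apply mul_le_mul_of_nonneg_left hU1
        positivity

/-- quotient of two estimates -/
theorem num_quot (m N : ℕ) (hm : 1 ≤ m) (hN : 1 ≤ N) (s U V u v : ℝ) (hs : 0 < s) (hu : 0 < u)
    (hv : 0 < v) (hU : Near (1 / (40 * m * N)) s U u) (hV : Near (1 / (40 * m * N)) s V v) :
    0 < U ∧ 0 < V ∧ Real.exp (-(1 / (4 * m * N))) * (v / u) ≤ V / U ∧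
      V / U ≤ Real.exp (1 / (4 * m * N)) * (v / u) := by
  have hm' : (1 : ℝ) ≤ m := by exact_mod_cast hm
  have hN' : (1 : ℝ) ≤ N := by exact_mod_cast hN
  have hmN : (1 : ℝ) ≤ m * N := by nlinarith
  have hε0 : (0 : ℝ) < 1 / (40 * m * N) := by positivity
  have hε1 : 1 / (40 * (m : ℝ) * N) ≤ 1 / 40 := by
    apply one_div_le_one_div_of_le (by norm_num)
    nlinarith
  have h10 : 10 * (1 / (40 * (m : ℝ) * N)) = 1 / (4 * m * N) := by
    field_simp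
    norm_num
  obtain ⟨hU0, hV0, h1⟩ := num_quot_aux _ s U V u v hε0 hε1 hs hu hv hU hV
  obtain ⟨-, -, h2⟩ := num_quot_aux _ s V U v u hε0 hε1 hs hv hu hV hU
  rw [h10] at h1 h2
  refine ⟨hU0, hV0, ?_, h1⟩
  rw [Real.exp_neg]
  have hE : 0 < Real.exp (1 / (4 * m * N)) := Real.exp_pos _
  rw [le_div_iff₀ hU0]
  rw [div_le_iff₀ hV0] at h2
  have h3 : (Real.exp (1 / (4 * (m : ℝ) * N)))⁻¹ * (v / u) * U ≤
      (Real.exp (1 / (4 * (m : ℝ) * N)))⁻¹ * (v / u) *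
        (Real.exp (1 / (4 * m * N)) * (u / v) * V) := by
    apply mul_le_mul_of_nonneg_left h2
    positivity
  have h4 : (Real.exp (1 / (4 * (m : ℝ) * N)))⁻¹ * (v / u) *
        (Real.exp (1 / (4 * m * N)) * (u / v) * V) = V := by
    generalize Real.exp (1 / (4 * (m : ℝ) * N)) = E at hE ⊢
    field_simp
  linarith

/-- the floor errors -/
theorem num_floor (N S : ℕ) (hN : 1 ≤ N) (k : ℕ) (hk : k + N + 2 ≤ S) (M E : ℝ) (hM : 4 ^ S ≤ M)
    (h1 : Real.exp (-(1 / (4 * N))) * M - 2 ^ k ≤ E) (h2 : E ≤ Real.exp (1 / (4 * N)) * M) :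
    Real.exp (-(1 / N)) * M ≤ E ∧ E ≤ Real.exp (1 / N) * M := by
  have hN' : (1 : ℝ) ≤ N := by exact_mod_cast hN
  have hM0 : 0 < M := lt_of_lt_of_le (by positivity) hM
  obtain ⟨a, ha⟩ : ∃ a : ℝ, a = 1 / (4 * N) := ⟨_, rfl⟩
  have ha0 : 0 < a := by rw [ha]; positivity
  have ha1 : a ≤ 1 / 4 := by
    rw [ha]
    apply one_div_le_one_div_of_le (by norm_num)
    linarith
  have h4a : 1 / (N : ℝ) = 4 * a := by
    rw [ha]
    field_simp
  rw [← ha] at h1 h2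
  rw [h4a]
  constructor
  · have h3 : a ≤ Real.exp (-a) - Real.exp (-(4 * a)) := by
      have h5 : Real.exp (-a) = Real.exp (-(4 * a)) * Real.exp (3 * a) := by
        rw [← Real.exp_add]
        congr 1
        ring
      have h6 : (1 / 3 : ℝ) ≤ Real.exp (-(4 * a)) := by
        have h7 : Real.exp (-1) ≤ Real.exp (-(4 * a)) := Real.exp_le_exp.mpr (by linarith)
        have h8 : (1 / 3 : ℝ) ≤ Real.exp (-1) := by
          rw [Real.exp_neg, ← one_div]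
          apply one_div_le_one_div_of_le (Real.exp_pos 1)
          have := Real.exp_one_lt_d9
          linarith
        linarith
      have h7 : 3 * a + 1 ≤ Real.exp (3 * a) := Real.add_one_le_exp _
      rw [h5]
      nlinarith [Real.exp_pos (-(4 * a))]
    have h8 : (2 : ℝ) ^ k ≤ a * M := by
      have h9 : (N : ℝ) ≤ 4 ^ N := by
        have : N < 4 ^ N := Nat.lt_pow_self (by norm_num)
        exact_mod_cast this.le
      have h10 : (4 : ℝ) ^ (k + N + 2) ≤ M :=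
        le_trans (pow_le_pow_right₀ (by norm_num) hk) hM
      have h11 : (4 : ℝ) ^ (k + N + 2) = 16 * 4 ^ k * 4 ^ N := by
        rw [pow_add, pow_add]
        ring
      have h12 : (2 : ℝ) ^ k ≤ 4 ^ k := pow_le_pow_left₀ (by norm_num) (by norm_num) k
      have h13 : (2 : ℝ) ^ k * (4 * N) ≤ M := by
        calc (2 : ℝ) ^ k * (4 * N) ≤ 4 ^ k * (16 * 4 ^ N) := by
              apply mul_le_mul h12 _ (by positivity) (by positivity)
              linarith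
          _ = 4 ^ (k + N + 2) := by rw [h11]; ring
          _ ≤ M := h10
      rw [ha, one_div_mul_eq_div, le_div_iff₀ (by positivity)]
      exact h13
    have h9 : a * M ≤ (Real.exp (-a) - Real.exp (-(4 * a))) * M :=
      mul_le_mul_of_nonneg_right h3 hM0.le
    linarith
  · refine le_trans h2 ?_
    apply mul_le_mul_of_nonneg_right _ hM0.le
    exact Real.exp_le_exp.mpr (by linarith)

end Pool.Agent.Lib.H2
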