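import Pool.Agent.Lib.MP_3493b8_lc.StepF

/-! Splitting off a set of edges; telescoping from weight one. -/

set_option autoImplicit false

open Finset

namespace Pool.Agent.Lib.H2

namespace MGraph

variable (G : MGraph)

private theorem split_bd (A F : Finset (Fin G.m)) (T : Fin G.n → ZMod 2) :
    G.bd A = T ↔ G.bd (A \ F) = T + G.bd (A ∩ F) := by
  have h1 : symmDiff (A ∩ F) (A \ F) = A := by
    ext x
    simp only [mem_symmDiff, mem_inter, mem_sdiff]
    tauto
  have h2 : G.bd A = G.bd (A ∩ F) + G.bd (A \ F) := by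
    rw [← G.bd_symmDiff, h1]
  have h3 := G.zmod_add_self (G.bd (A ∩ F))
  constructor
  · intro h
    rw [← h, h2]
    calc G.bd (A \ F) = G.bd (A \ F) + 0 := (add_zero _).symm
      _ = G.bd (A \ F) + (G.bd (A ∩ F) + G.bd (A ∩ F)) := by rw [h3]
      _ = G.bd (A ∩ F) + G.bd (A \ F) + G.bd (A ∩ F) := by abel
  · intro h
    rw [h2, h]
    calc G.bd (A ∩ F) + (T + G.bd (A ∩ F)) = T + (G.bd (A ∩ F) + G.bd (A ∩ F)) := by abel
      _ = T := by rw [h3, add_zero]

/-- sum over the traces on `F` -/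
theorem Zs_split (F : Finset (Fin G.m)) (w : Fin G.m → ℝ) (T : Fin G.n → ZMod 2) :
    G.Zs ∅ w T = ∑ X ∈ F.powerset, (∏ i ∈ X, w i) * G.Zs F w (T + G.bd X) := by
  classical
  have hR : ∑ X ∈ F.powerset, (∏ i ∈ X, w i) * G.Zs F w (T + G.bd X) =
      ∑ p ∈ (F.powerset ×ˢ (univ : Finset (Finset (Fin G.m)))).filter (fun p => Disjoint p.2 F),
        if G.bd p.2 = T + G.bd p.1 then (∏ i ∈ p.1, w i) * ∏ i ∈ p.2, w i else 0 := by
    rw [sum_filter, sum_product]
    refine sum_congr rfl fun X _ => ?_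
    unfold Zs
    rw [mul_sum]
    refine sum_congr rfl fun B _ => ?_
    dsimp only
    by_cases h1 : Disjoint B F
    · by_cases h2 : G.bd B = T + G.bd X
      · rw [if_pos ⟨h1, h2⟩, if_pos h1, if_pos h2]
      · rw [if_neg fun h => h2 h.2, if_pos h1, if_neg h2, mul_zero]
    · rw [if_neg fun h => h1 h.1, if_neg h1, mul_zero]
  rw [hR]
  unfold Zs
  refine sum_nbij' (fun A => (A ∩ F, A \ F)) (fun p => p.1 ∪ p.2) ?_ ?_ ?_ ?_ ?_
  · intro A _
    rw [mem_filter, mem_product, mem_powerset]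
    exact ⟨⟨inter_subset_right, mem_univ _⟩, sdiff_disjoint⟩
  · intro p _
    exact mem_univ _
  · intro A _
    dsimp only
    rw [union_comm, sdiff_union_inter]
  · intro p hp
    rw [mem_filter, mem_product, mem_powerset] at hp
    obtain ⟨⟨h1, -⟩, h2⟩ := hp
    refine Prod.ext ?_ ?_
    · ext x
      simp only [mem_inter, mem_union]
      constructor
      · rintro ⟨h3 | h3, h4⟩
        · exact h3
        · exact absurd h4 (disjoint_left.1 h2 h3)
      · exact fun h3 => ⟨Or.inl h3, h1 h3⟩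
    · ext x
      simp only [mem_sdiff, mem_union]
      constructor
      · rintro ⟨h3 | h3, h4⟩
        · exact absurd (h1 h3) h4
        · exact h3
      · exact fun h3 => ⟨Or.inr h3, disjoint_left.1 h2 h3⟩
  · intro A _
    dsimp only
    have h1 : (∏ i ∈ A ∩ F, w i) * ∏ i ∈ A \ F, w i = ∏ i ∈ A, w i := by
      rw [← prod_union (disjoint_sdiff_inter A F).symm, union_comm, sdiff_union_inter]
    by_cases h2 : G.bd A = T
    · rw [if_pos ⟨disjoint_empty_right _, h2⟩, if_pos ((G.split_bd A F T).1 h2), h1]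
    · rw [if_neg fun h => h2 h.2, if_neg fun h => h2 ((G.split_bd A F T).2 h)]

/-- one step of the telescope -/
theorem Zs_wj_succ (F : Finset (Fin G.m)) (l : ℝ) (T : Fin G.n → ZMod 2) (j : Fin G.m) :
    G.Zs F (G.wj l (j + 1)) T =
      ∑ A : Finset (Fin G.m), if Disjoint A F ∧ G.bd A = T then
        (∏ i ∈ A, G.wj l j i) * (if j ∈ A then l else 1) else 0 := by
  classical
  unfold Zs
  refine sum_congr rfl fun A _ => ?_
  have h1 : ∀ i : Fin G.m, G.wj l (j + 1) i = G.wj l j i * (if i = j then l else 1) := by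
    intro i
    unfold wj
    by_cases hij : i = j
    · subst hij
      rw [if_pos (Nat.lt_succ_self _), if_neg (lt_irrefl _), if_pos rfl, one_mul]
    · have h2 : (i : ℕ) ≠ j := fun h => hij (Fin.ext h)
      rw [if_neg hij, mul_one]
      by_cases h3 : (i : ℕ) < j
      · rw [if_pos h3, if_pos (by omega)]
      · rw [if_neg h3, if_neg (by omega)]
  have h2 : ∏ i ∈ A, G.wj l (j + 1) i = (∏ i ∈ A, G.wj l j i) * (if j ∈ A then l else 1) := by
    rw [prod_congr rfl fun i _ => h1 i, prod_mul_distrib, prod_ite_eq']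
  rw [h2]

/-- weight one: counting -/
theorem Zs_wj_zero (F : Finset (Fin G.m)) (l : ℝ) (T : Fin G.n → ZMod 2) :
    G.Zs F (G.wj l 0) T =
      (((univ : Finset (Finset (Fin G.m))).filter fun A => Disjoint A F ∧ G.bd A = T).card : ℝ) := by
  classical
  unfold Zs
  rw [card_filter]
  push_cast
  refine sum_congr rfl fun A _ => ?_
  have h1 : ∏ i ∈ A, G.wj l 0 i = 1 := prod_eq_one fun i _ => if_neg (Nat.not_lt_zero _)
  rw [h1]

theorem Zs_nonneg (F : Finset (Fin G.m)) (w : Fin G.m → ℝ) (hw : ∀ i, 0 ≤ w i)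
    (T : Fin G.n → ZMod 2) : 0 ≤ G.Zs F w T := by
  unfold Zs
  refine sum_nonneg fun A _ => ?_
  split_ifs
  · exact prod_nonneg fun i _ => hw i
  · exact le_rfl

theorem Zs_pos (F : Finset (Fin G.m)) (w : Fin G.m → ℝ) (hw : ∀ i, 0 < w i)
    (A : Finset (Fin G.m)) (hA : Disjoint A F) : 0 < G.Zs F w (G.bd A) := by
  unfold Zs
  refine sum_pos' (fun B _ => ?_) ⟨A, mem_univ _, ?_⟩
  · split_ifs
    · exact prod_nonneg fun i _ => (hw i).le
    · exact le_rfl
  · rw [if_pos ⟨hA, rfl⟩]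
    exact prod_pos fun i _ => hw i

theorem Zs_eq_zero (F : Finset (Fin G.m)) (w : Fin G.m → ℝ) (T : Fin G.n → ZMod 2)
    (h : ∀ A, Disjoint A F → G.bd A ≠ T) : G.Zs F w T = 0 := by
  unfold Zs
  exact sum_eq_zero fun A _ => if_neg fun h' => h A h'.1 h'.2

end MGraph

end Pool.Agent.Lib.H2
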