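import Pool.Agent.Lib.MP_3493b8_lc.CluN1

/-! The start states. -/

set_option autoImplicit false

open Finset

namespace Pool.Agent.Lib.H2

open Pool.Agent.Lib.PTC

private def startPst (x : List ℤ) (Ly F i : ℕ) (c : ℕ × ℕ) : ℕ × ℕ :=
  if 2 ≤ layN x Ly c.1 then
    (othN x (parN x Ly F c.1) c.1, c.2 + (if parN x Ly F c.1 = i then 1 else 0)) else c

private theorem start_pos (x : List ℤ) (Ly F i : ℕ) (c : ℕ × ℕ) (h : 2 ≤ layN x Ly c.1) :
    startPst x Ly F i c = (othN x (parN x Ly F c.1) c.1,
      c.2 + (if parN x Ly F c.1 = i then 1 else 0)) := if_pos h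

private theorem start_neg (x : List ℤ) (Ly F i : ℕ) (c : ℕ × ℕ) (h : ¬ 2 ≤ layN x Ly c.1) :
    startPst x Ly F i c = c := if_neg h

/-- the coefficient of the start state -/
private def startCo (x : List ℤ) (Ly F X i : ℕ) : ℕ :=
  (if F.testBit i = true then 0 else 1) +
    ∑ f ∈ range (mm x), if F.testBit f = true ∧ X.testBit f = false then
      pathN x Ly F (eu x f) i + pathN x Ly F (ev x f) i else 0

private theorem start_eq (x : List ℤ) (Ly F X : ℕ) :
    startN x Ly F X = ∑ i ∈ range (mm x), if startCo x Ly F X i % 2 = 1 then 2 ^ i else 0 := by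
  have h0 : startN x Ly F X = ∑ i ∈ range (mm x), (startCo x Ly F X i % 2) * 2 ^ i := rfl
  rw [h0]
  refine sum_congr rfl fun i _ => ?_
  by_cases h : startCo x Ly F X i % 2 = 1
  · rw [if_pos h, h, one_mul]
  · have h1 : startCo x Ly F X i % 2 = 0 := by omega
    rw [if_neg h, h1, zero_mul]

namespace MGraph

variable (G : MGraph) (N : ℕ)

private theorem start_mem (A : ℕ) (i : Fin G.m) : i ∈ G.eset A ↔ A.testBit i = true := by
  unfold eset
  rw [mem_filter]
  exact ⟨fun h => h.2, fun h => ⟨mem_univ _, h⟩⟩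

/-- the edge to the previous layer -/
theorem parN_spec {Ly F r : ℕ} (h : G.Clu (G.lay N Ly) (G.eset F) r) (v : Fin G.n)
    (hv : 2 ≤ G.lay N Ly v) :
    ∃ (i : Fin G.m) (w : Fin G.n), parN (G.code N) Ly F v = i ∧ othN (G.code N) i v = w ∧
      i ∉ G.eset F ∧ (G.e i = (v, w) ∨ G.e i = (w, v)) ∧ G.lay N Ly w + 1 = G.lay N Ly v := by
  obtain ⟨i, hi, w, hw, hl⟩ := h.par v hv
  rw [start_mem, Bool.not_eq_true] at hi
  have hex : ∃ j < mm (G.code N), F.testBit j = false ∧
      ((eu (G.code N) j = v ∧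
        layN (G.code N) Ly (ev (G.code N) j) + 1 = layN (G.code N) Ly v) ∨
      (ev (G.code N) j = v ∧
        layN (G.code N) Ly (eu (G.code N) j) + 1 = layN (G.code N) Ly v)) := by
    refine ⟨i, i.isLt, hi, ?_⟩
    rw [G.eu_code N i, G.ev_code N i]
    rcases hw with hw | hw
    · rw [hw]
      exact Or.inl ⟨rfl, hl⟩
    · rw [hw]
      exact Or.inr ⟨rfl, hl⟩
  have hs := srch_lt (fun j => F.testBit j = false ∧
      ((eu (G.code N) j = v ∧
        layN (G.code N) Ly (ev (G.code N) j) + 1 = layN (G.code N) Ly v) ∨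
      (ev (G.code N) j = v ∧
        layN (G.code N) Ly (eu (G.code N) j) + 1 = layN (G.code N) Ly v))) _ hex
  obtain ⟨j, hj⟩ : ∃ j : Fin G.m, parN (G.code N) Ly F v = j :=
    ⟨⟨parN (G.code N) Ly F v, hs.1⟩, rfl⟩
  have h2 : F.testBit (parN (G.code N) Ly F v) = false ∧
      ((eu (G.code N) (parN (G.code N) Ly F v) = v ∧
        layN (G.code N) Ly (ev (G.code N) (parN (G.code N) Ly F v)) + 1 =
          layN (G.code N) Ly v) ∨
      (ev (G.code N) (parN (G.code N) Ly F v) = v ∧
        layN (G.code N) Ly (eu (G.code N) (parN (G.code N) Ly F v)) + 1 =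
          layN (G.code N) Ly v)) := hs.2
  rw [hj, G.eu_code N j, G.ev_code N j] at h2
  obtain ⟨h3, h4⟩ := h2
  have hjF : j ∉ G.eset F := by
    rw [start_mem, h3]
    exact Bool.false_ne_true
  rcases h4 with ⟨h4, h5⟩ | ⟨h4, h5⟩
  · refine ⟨j, (G.e j).2, hj, ?_, hjF, Or.inl ?_, h5⟩
    · unfold othN
      rw [G.eu_code N j, if_pos h4, G.ev_code N j]
    · exact Prod.ext (Fin.ext h4) rfl
  · refine ⟨j, (G.e j).1, hj, ?_, hjF, Or.inr ?_, h5⟩
    · unfold othN
      rw [G.eu_code N j, if_neg]
      intro h6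
      rw [h6] at h5
      omega
    · exact Prod.ext rfl (Fin.ext h4)

private theorem start_key {Ly F r : ℕ} (h : G.Clu (G.lay N Ly) (G.eset F) r) (v : Fin G.n)
    (t : ℕ) :
    ∃ u : Fin G.n,
      (∀ i : ℕ, (itr (fun _ c => startPst (G.code N) Ly F i c) ((v : ℕ), 0) t).1 = u) ∧
      (G.lay N Ly u = 1 ∨ G.lay N Ly u + t ≤ G.lay N Ly v) ∧
      (∑ i : Fin G.m,
        (((itr (fun _ c => startPst (G.code N) Ly F i c) ((v : ℕ), 0) t).2 : ℕ) : ZMod 2) •
        (Pi.single (G.e i).1 1 + Pi.single (G.e i).2 1 : Fin G.n → ZMod 2)) =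
        Pi.single v 1 + Pi.single u 1 ∧
      ∀ i ∈ G.eset F, (itr (fun _ c => startPst (G.code N) Ly F i c) ((v : ℕ), 0) t).2 = 0 := by
  induction t with
  | zero =>
    refine ⟨v, fun i => rfl, Or.inr le_rfl, ?_, fun i _ => rfl⟩
    rw [G.zmod_add_self]
    refine sum_eq_zero fun i _ => ?_
    have e : (itr (fun _ c => startPst (G.code N) Ly F i c) ((v : ℕ), 0) 0).2 = 0 := rfl
    rw [e, Nat.cast_zero, zero_smul]
  | succ t ih =>
    obtain ⟨u, h1, h2, h3, h4⟩ := ih
    have hs : ∀ i : ℕ, itr (fun _ c => startPst (G.code N) Ly F i c) ((v : ℕ), 0) (t + 1) =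
        startPst (G.code N) Ly F i
          (itr (fun _ c => startPst (G.code N) Ly F i c) ((v : ℕ), 0) t) := fun i => rfl
    have hp := h.pos u
    by_cases hu : 2 ≤ G.lay N Ly u
    · obtain ⟨j, w, hj, hw, hjF, he, hl⟩ := G.parN_spec N h u hu
      have hs' : ∀ i : ℕ, startPst (G.code N) Ly F i
          (itr (fun _ c => startPst (G.code N) Ly F i c) ((v : ℕ), 0) t) =
          ((w : ℕ), (itr (fun _ c => startPst (G.code N) Ly F i c) ((v : ℕ), 0) t).2 +
            (if (j : ℕ) = i then 1 else 0)) := by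
        intro i
        rw [start_pos _ _ _ _ _ (by rw [h1 i]; exact hu), h1 i, hj, hw]
      refine ⟨w, fun i => ?_, ?_, ?_, fun i hi => ?_⟩
      · rw [hs, hs']
      · right
        rcases h2 with h2 | h2 <;> omega
      · have e1 : ∀ i : Fin G.m,
            (((itr (fun _ c => startPst (G.code N) Ly F i c) ((v : ℕ), 0) (t + 1)).2 : ℕ) :
              ZMod 2) • (Pi.single (G.e i).1 1 + Pi.single (G.e i).2 1 : Fin G.n → ZMod 2) =
            (((itr (fun _ c => startPst (G.code N) Ly F i c) ((v : ℕ), 0) t).2 : ℕ) :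
              ZMod 2) • (Pi.single (G.e i).1 1 + Pi.single (G.e i).2 1 : Fin G.n → ZMod 2) +
            (if j = i then
              (Pi.single (G.e i).1 1 + Pi.single (G.e i).2 1 : Fin G.n → ZMod 2) else 0) := by
          intro i
          rw [hs, hs']
          have e2 : ((j : ℕ) = i) ↔ j = i := Fin.ext_iff.symm
          by_cases hji : j = i
          · rw [if_pos hji, if_pos (e2.2 hji), Nat.cast_add, Nat.cast_one, add_smul, one_smul]
          · rw [if_neg hji, if_neg (fun h0 => hji (e2.1 h0)), Nat.add_zero, add_zero]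
        rw [sum_congr rfl fun i _ => e1 i, sum_add_distrib, h3, sum_ite_eq, if_pos (mem_univ _)]
        have e3 : (Pi.single (G.e j).1 1 + Pi.single (G.e j).2 1 : Fin G.n → ZMod 2) =
            Pi.single u 1 + Pi.single w 1 := by
          rcases he with he | he
          · rw [he]
          · rw [he, add_comm]
        rw [e3]
        have h5 := G.zmod_add_self (Pi.single u 1)
        calc (Pi.single v 1 + Pi.single u 1 + (Pi.single u 1 + Pi.single w 1) :
              Fin G.n → ZMod 2)
            = Pi.single v 1 + Pi.single w 1 + (Pi.single u 1 + Pi.single u 1) := by abel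
          _ = _ := by rw [h5, add_zero]
      · rw [hs, hs', h4 i hi, if_neg]
        intro h0
        exact hjF (by rw [Fin.ext h0]; exact hi)
    · have hs' : ∀ i : ℕ, startPst (G.code N) Ly F i
          (itr (fun _ c => startPst (G.code N) Ly F i c) ((v : ℕ), 0) t) =
          itr (fun _ c => startPst (G.code N) Ly F i c) ((v : ℕ), 0) t := by
        intro i
        exact start_neg _ _ _ _ _ (by rw [h1 i]; exact hu)
      refine ⟨u, fun i => ?_, Or.inl (by omega), ?_, fun i hi => ?_⟩
      · rw [hs, hs', h1]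
      · rw [← h3]
        refine sum_congr rfl fun i _ => ?_
        rw [hs, hs']
      · rw [hs, hs', h4 i hi]

/-- the path from `v` to the root of its cluster -/
theorem pathN_spec {Ly F r : ℕ} (h : G.Clu (G.lay N Ly) (G.eset F) r) (v : Fin G.n) :
    ∃ u : Fin G.n, G.lay N Ly u = 1 ∧
      (∑ i : Fin G.m, ((pathN (G.code N) Ly F v i : ℕ) : ZMod 2) •
        (Pi.single (G.e i).1 1 + Pi.single (G.e i).2 1 : Fin G.n → ZMod 2)) =
        Pi.single v 1 + Pi.single u 1 ∧
      ∀ i ∈ G.eset F, pathN (G.code N) Ly F v i = 0 := by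
  obtain ⟨u, -, h2, h3, h4⟩ := G.start_key N h v G.n
  refine ⟨u, ?_, h3, h4⟩
  have hp := h.pos u
  have hlt : G.lay N Ly v < G.n + 2 := Nat.mod_lt _ (Nat.succ_pos _)
  rcases h2 with h2 | h2 <;> omega

theorem startN_lt (Ly F X : ℕ) : startN (G.code N) Ly F X < 2 ^ G.m := by
  rw [start_eq]
  exact sum_two_pow_lt _ _

private theorem start_bit (Ly F X k : ℕ) : (startN (G.code N) Ly F X).testBit k = true ↔
    k < G.m ∧ startCo (G.code N) Ly F X k % 2 = 1 := by
  rw [start_eq, testBit_sum, decide_eq_true_iff, mm_code]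

theorem startN_disj {Ly F r : ℕ} (h : G.Clu (G.lay N Ly) (G.eset F) r) (X : ℕ) :
    Disjoint (G.eset (startN (G.code N) Ly F X)) (G.eset F) := by
  rw [disjoint_left]
  intro i hi hiF
  rw [start_mem, start_bit] at hi
  have h0 : ∀ v : Fin G.n, pathN (G.code N) Ly F v i = 0 := fun v => by
    obtain ⟨u, -, -, h4⟩ := G.pathN_spec N h v
    exact h4 i hiF
  have h1 : startCo (G.code N) Ly F X i = 0 := by
    unfold startCo
    rw [if_pos ((G.start_mem F i).1 hiF), zero_add]
    refine sum_eq_zero fun f hf => ?_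
    rw [mem_range, mm_code] at hf
    have e1 := G.eu_code N ⟨f, hf⟩
    have e2 := G.ev_code N ⟨f, hf⟩
    simp only at e1 e2
    split_ifs
    · rw [e1, e2, h0, h0, Nat.add_zero]
    · rfl
  rw [h1] at hi
  omega

private theorem start_sum (Ly F X : ℕ) : G.bd (G.eset (startN (G.code N) Ly F X)) =
    ∑ i : Fin G.m, ((startCo (G.code N) Ly F X i : ℕ) : ZMod 2) •
      (Pi.single (G.e i).1 1 + Pi.single (G.e i).2 1 : Fin G.n → ZMod 2) := by
  unfold bd eset
  rw [sum_filter]
  refine sum_congr rfl fun i _ => ?_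
  have e : ((startCo (G.code N) Ly F X i : ℕ) : ZMod 2) =
      ((startCo (G.code N) Ly F X i % 2 : ℕ) : ZMod 2) := (ZMod.natCast_mod _ 2).symm
  by_cases h1 : startCo (G.code N) Ly F X i % 2 = 1
  · rw [if_pos ((G.start_bit N Ly F X i).2 ⟨i.isLt, h1⟩), e, h1, Nat.cast_one, one_smul]
  · have h2 : startCo (G.code N) Ly F X i % 2 = 0 := by omega
    rw [if_neg (fun h3 => h1 ((G.start_bit N Ly F X i).1 h3).2), e, h2, Nat.cast_zero, zero_smul]

private theorem start_root {Ly F r : ℕ} (h : G.Clu (G.lay N Ly) (G.eset F) r) (X : ℕ)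
    (hX : G.eset X ⊆ G.eset F) : ∃ R : Fin G.n → ZMod 2, (∀ v, R v ≠ 0 → G.lay N Ly v = 1) ∧
      G.bd (G.eset (startN (G.code N) Ly F X)) = G.bd (univ \ G.eset X) + R := by
  choose u hu1 hu2 hu3 using fun v => G.pathN_spec N h v
  refine ⟨∑ f : Fin G.m, if F.testBit f = true ∧ X.testBit f = false then
    (Pi.single (u (G.e f).1) 1 + Pi.single (u (G.e f).2) 1 : Fin G.n → ZMod 2) else 0,
    fun v hv => ?_, ?_⟩
  · rw [Finset.sum_apply] at hv
    obtain ⟨f, -, hf⟩ := exists_ne_zero_of_sum_ne_zero hv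
    split_ifs at hf with hc
    · rw [Pi.add_apply] at hf
      by_cases e1 : v = u (G.e f).1
      · rw [e1]
        exact hu1 _
      · by_cases e2 : v = u (G.e f).2
        · rw [e2]
          exact hu1 _
        · rw [Pi.single_eq_of_ne e1, Pi.single_eq_of_ne e2, add_zero] at hf
          exact absurd rfl hf
    · exact absurd rfl hf
  · rw [start_sum]
    have e1 : ∀ i : Fin G.m, ((startCo (G.code N) Ly F X i : ℕ) : ZMod 2) =
        (if F.testBit i = true then 0 else 1) + ∑ f : Fin G.m,
          if F.testBit f = true ∧ X.testBit f = false then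
            ((pathN (G.code N) Ly F (G.e f).1 i : ℕ) : ZMod 2) +
              ((pathN (G.code N) Ly F (G.e f).2 i : ℕ) : ZMod 2) else 0 := by
      intro i
      unfold startCo
      rw [mm_code, sum_range, Nat.cast_add, Nat.cast_sum, Nat.cast_ite, Nat.cast_zero,
        Nat.cast_one]
      refine congrArg _ (sum_congr rfl fun f _ => ?_)
      rw [G.eu_code N f, G.ev_code N f]
      split_ifs
      · rw [Nat.cast_add]
      · rw [Nat.cast_zero]
    rw [sum_congr rfl fun i _ => by rw [e1 i, add_smul, sum_smul], sum_add_distrib, sum_comm]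
    have e2 : (∑ i : Fin G.m, (if F.testBit i = true then (0 : ZMod 2) else 1) •
        (Pi.single (G.e i).1 1 + Pi.single (G.e i).2 1 : Fin G.n → ZMod 2)) =
        G.bd (univ \ G.eset F) := by
      unfold bd
      have e3 : univ \ G.eset F = univ.filter fun i : Fin G.m => ¬ F.testBit i = true := by
        ext i
        rw [mem_sdiff, start_mem, mem_filter]
      rw [e3, sum_filter]
      refine sum_congr rfl fun i _ => ?_
      by_cases hi : F.testBit i = true
      · rw [if_pos hi, if_neg (not_not.2 hi), zero_smul]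
      · rw [if_neg hi, if_pos hi, one_smul]
    have e4 : ∀ f : Fin G.m, (∑ i : Fin G.m,
        (if F.testBit f = true ∧ X.testBit f = false then
            ((pathN (G.code N) Ly F (G.e f).1 i : ℕ) : ZMod 2) +
              ((pathN (G.code N) Ly F (G.e f).2 i : ℕ) : ZMod 2) else 0) •
        (Pi.single (G.e i).1 1 + Pi.single (G.e i).2 1 : Fin G.n → ZMod 2)) =
        (if F.testBit f = true ∧ X.testBit f = false then
          (Pi.single (G.e f).1 1 + Pi.single (G.e f).2 1 : Fin G.n → ZMod 2) else 0) +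
        if F.testBit f = true ∧ X.testBit f = false then
          (Pi.single (u (G.e f).1) 1 + Pi.single (u (G.e f).2) 1 : Fin G.n → ZMod 2) else 0 := by
      intro f
      by_cases hf : F.testBit f = true ∧ X.testBit f = false
      · simp only [if_pos hf]
        rw [sum_congr rfl fun i _ => add_smul _ _ _, sum_add_distrib, hu2, hu2]
        abel
      · simp only [if_neg hf]
        rw [add_zero]
        exact sum_eq_zero fun i _ => zero_smul _ _
    have e5 : (∑ f : Fin G.m, if F.testBit f = true ∧ X.testBit f = false then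
          (Pi.single (G.e f).1 1 + Pi.single (G.e f).2 1 : Fin G.n → ZMod 2) else 0) =
        G.bd (G.eset F \ G.eset X) := by
      unfold bd
      have e3 : G.eset F \ G.eset X =
          univ.filter fun i : Fin G.m => F.testBit i = true ∧ X.testBit i = false := by
        ext i
        rw [mem_sdiff, start_mem, start_mem, mem_filter, Bool.not_eq_true]
        exact ⟨fun h => ⟨mem_univ _, h⟩, fun h => h.2⟩
      rw [e3, sum_filter]
    have e6 : G.bd (univ \ G.eset X) = G.bd (univ \ G.eset F) + G.bd (G.eset F \ G.eset X) := by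
      have e7 : univ \ G.eset X = (univ \ G.eset F) ∪ (G.eset F \ G.eset X) := by
        ext i
        rw [mem_union, mem_sdiff, mem_sdiff, mem_sdiff]
        have h1 : i ∈ G.eset X → i ∈ G.eset F := fun h => hX h
        have h2 := mem_univ i
        tauto
      unfold bd
      rw [e7, sum_union]
      rw [disjoint_left]
      intro i hi hi'
      rw [mem_sdiff] at hi hi'
      exact hi.2 hi'.1
    rw [sum_congr rfl fun f _ => e4 f, sum_add_distrib, e2, e5, e6]
    abel

/-- the boundary of the start state differs from the wanted one only at the roots -/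
theorem startN_bd {Ly F r : ℕ} (h : G.Clu (G.lay N Ly) (G.eset F) r) (X : ℕ)
    (hX : G.eset X ⊆ G.eset F) (v : Fin G.n)
    (hv : G.bd (G.eset (startN (G.code N) Ly F X)) v ≠ G.bd (univ \ G.eset X) v) :
    G.lay N Ly v = 1 := by
  obtain ⟨R, hR, hb⟩ := G.start_root N h X hX
  refine hR v fun h0 => hv ?_
  rw [hb, Pi.add_apply, h0, add_zero]

/-- The start state has the wanted boundary if some set outside `F` has. -/
theorem startN_iff {Ly F r : ℕ} (h : G.Clu (G.lay N Ly) (G.eset F) r) (X : ℕ)
    (hX : G.eset X ⊆ G.eset F) :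
    G.bd (G.eset (startN (G.code N) Ly F X)) = G.bd (univ \ G.eset X) ↔
      ∃ A, Disjoint A (G.eset F) ∧ G.bd A = G.bd (univ \ G.eset X) := by
  constructor
  · intro h1
    exact ⟨_, G.startN_disj N h X, h1⟩
  · rintro ⟨A, hA, hbA⟩
    by_contra hne
    have hB : G.bd (symmDiff A (G.eset (startN (G.code N) Ly F X))) =
        G.bd (univ \ G.eset X) + G.bd (G.eset (startN (G.code N) Ly F X)) := by
      rw [G.bd_symmDiff, hbA]
    have hdis : Disjoint (symmDiff A (G.eset (startN (G.code N) Ly F X))) (G.eset F) := by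
      rw [disjoint_left]
      intro i hi hiF
      rw [mem_symmDiff] at hi
      rcases hi with hi | hi
      · exact disjoint_left.1 hA hi.1 hiF
      · exact disjoint_left.1 (G.startN_disj N h X) hi.1 hiF
    have hone : ∀ v, G.bd (symmDiff A (G.eset (startN (G.code N) Ly F X))) v ≠ 0 →
        G.lay N Ly v = 1 := by
      intro v hv
      refine G.startN_bd N h X hX v fun h0 => hv ?_
      rw [hB, Pi.add_apply, h0]
      exact CharTwo.add_self_eq_zero _
    obtain ⟨a, ha⟩ : ∃ a, G.bd (symmDiff A (G.eset (startN (G.code N) Ly F X))) a ≠ 0 := by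
      by_contra hcon
      simp only [not_exists, not_not] at hcon
      refine hne (funext fun v => ?_)
      have h1 := hcon v
      rw [hB, Pi.add_apply] at h1
      exact (CharTwo.add_eq_zero.1 h1).symm
    obtain ⟨b, hb, hba, P, hP, hPb⟩ := G.peel _ a (by
      unfold supp
      rw [mem_filter]
      exact ⟨mem_univ _, ha⟩)
    unfold supp at hb
    rw [mem_filter] at hb
    exact hba (h.root a b P (Disjoint.mono_left hP hdis) hPb (hone a ha) (hone b hb.2)).symm

end MGraph

end Pool.Agent.Lib.H2
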