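import Pool.Agent.Lib.MP_3493b8_lc.Sem1

/-! Enumeration of the subsets of the cut edges. -/

set_option autoImplicit false

open Finset

namespace Pool.Agent.Lib.H2

open Pool.Agent.Lib.PTC

private theorem sub_exists (F n k : ℕ) (h : k < belowN F n) :
    ∃ i < n, F.testBit i = true ∧ belowN F i = k := by
  induction n with
  | zero =>
    unfold belowN at h
    rw [Finset.range_zero, Finset.sum_empty] at h
    exact absurd h (Nat.not_lt_zero k)
  | succ n ih =>
    by_cases hk : k < belowN F n
    · obtain ⟨i, h1, h2⟩ := ih hk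
      exact ⟨i, by omega, h2⟩
    · have e : belowN F (n + 1) = belowN F n + if F.testBit n = true then 1 else 0 := by
        unfold belowN
        rw [Finset.sum_range_succ]
      rw [e] at h
      by_cases hF : F.testBit n = true
      · rw [if_pos hF] at h
        exact ⟨n, by omega, hF, by omega⟩
      · rw [if_neg hF] at h
        omega

theorem subN_testBit (x : List ℤ) (F a i : ℕ) :
    (subN x F a).testBit i =
      decide (i < mm x ∧ F.testBit i = true ∧ a.testBit (belowN F i) = true) := by
  unfold subN
  exact testBit_sum (mm x) (fun i => F.testBit i = true ∧ a.testBit (belowN F i) = true) i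

namespace MGraph

variable (G : MGraph) (N : ℕ)

theorem subN_sub (F a : ℕ) : G.eset (subN (G.code N) F a) ⊆ G.eset F := by
  intro i hi
  unfold eset at hi ⊢
  rw [mem_filter, subN_testBit] at hi
  rw [mem_filter]
  exact ⟨mem_univ _, (of_decide_eq_true hi.2).2.1⟩

theorem subN_lt (F a : ℕ) : subN (G.code N) F a < 2 ^ G.m := by
  exact sum_two_pow_lt G.m _

/-- Every subset of `F` is met exactly once. -/
theorem sum_sub (F : ℕ) (g : Finset (Fin G.m) → ℝ) :
    ∑ a ∈ range (2 ^ sizeN (G.code N) F), g (G.eset (subN (G.code N) F a)) =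
      ∑ X ∈ (G.eset F).powerset, g X := by
  classical
  have hinj : Set.InjOn (fun a => G.eset (subN (G.code N) F a))
      (range (2 ^ sizeN (G.code N) F) : Set ℕ) := by
    intro a ha b hb hab
    have ha' : a < 2 ^ sizeN (G.code N) F := Finset.mem_range.1 (Finset.mem_coe.1 ha)
    have hb' : b < 2 ^ sizeN (G.code N) F := Finset.mem_range.1 (Finset.mem_coe.1 hb)
    have h1 := G.eset_injOn (G.subN_lt N F a) (G.subN_lt N F b) hab
    refine Nat.eq_of_testBit_eq fun k => ?_
    by_cases hk : k < sizeN (G.code N) F
    · obtain ⟨i, hi, hF, rfl⟩ := sub_exists F _ k hk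
      have h2 := congrArg (fun t => t.testBit i) h1
      change (subN (G.code N) F a).testBit i = (subN (G.code N) F b).testBit i at h2
      rw [subN_testBit, subN_testBit] at h2
      have h3 := decide_eq_decide.1 h2
      refine Bool.eq_iff_iff.2 ⟨fun h4 => ?_, fun h4 => ?_⟩
      · exact (h3.1 ⟨hi, hF, h4⟩).2.2
      · exact (h3.2 ⟨hi, hF, h4⟩).2.2
    · have h2 : 2 ^ sizeN (G.code N) F ≤ 2 ^ k := Nat.pow_le_pow_right two_pos (not_lt.1 hk)
      rw [Nat.testBit_eq_false_of_lt (lt_of_lt_of_le ha' h2),
        Nat.testBit_eq_false_of_lt (lt_of_lt_of_le hb' h2)]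
  have himg : (range (2 ^ sizeN (G.code N) F)).image (fun a => G.eset (subN (G.code N) F a)) =
      (G.eset F).powerset := by
    refine Finset.eq_of_subset_of_card_le ?_ ?_
    · intro X hX
      obtain ⟨a, -, rfl⟩ := Finset.mem_image.1 hX
      exact Finset.mem_powerset.2 (G.subN_sub N F a)
    · rw [Finset.card_image_of_injOn hinj, Finset.card_powerset, Finset.card_range, sizeN_code]
  rw [← himg, Finset.sum_image hinj]

end MGraph

end Pool.Agent.Lib.H2
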