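import Pool.Agent.Lib.MP_3493b8_lc.Sem2
import Pool.Agent.Lib.MP_3493b8_lc.ChainO
import Pool.Agent.Lib.MP_3493b8_lc.Split
import Pool.Agent.Lib.MP_3493b8_lc.Sub
import Pool.Agent.Lib.MP_3493b8_lc.Start
import Pool.Agent.Lib.MP_3493b8_lc.CluF
import Pool.Agent.Lib.MP_3493b8_lc.Num

/-! The estimates of the algorithm: definitions and first properties. -/

set_option autoImplicit false

open Finset

namespace Pool.Agent.Lib.H2

open Pool.Agent.Lib.PTC

namespace MGraph

variable (G : MGraph) (N : ℕ)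

/-- the cut edges -/
def cF : Finset (Fin G.m) := G.eset (fA (G.code N))

/-- the part with number `a` of the cut edges -/
def cX (a : ℕ) : Finset (Fin G.m) := G.eset (subN (G.code N) (fA (G.code N)) a)

/-- the boundary which is left for the part `a` -/
def cB (a : ℕ) : Fin G.n → ZMod 2 := G.bd (univ \ G.cX N a)

/-- its mask -/
def cT (a : ℕ) : ℕ := mkT (G.code N) (2 ^ mm (G.code N) - 1 - subN (G.code N) (fA (G.code N)) a)

/-- the start state -/
def cA (a : ℕ) : ℕ :=
  startN (G.code N) (lyA (G.code N)) (fA (G.code N)) (subN (G.code N) (fA (G.code N)) a)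

/-- some set outside the cut edges has the wanted boundary -/
def Solv (a : ℕ) : Prop := ∃ A, Disjoint A (G.cF N) ∧ G.bd A = G.cB N a

/-- the exact mean of an observable in stage `j` -/
noncomputable def mean (p q a j : ℕ) (f : Finset (Fin G.m) → ℝ) : ℝ :=
  (∑ B, G.nuJ (G.cF N) (G.cB N a) p q j B * f B) / (∑ B, G.nuJ (G.cF N) (G.cB N a) p q j B)

/-- the sum over the samples of an observable -/
noncomputable def smp (p q a j ω : ℕ) (f : Finset (Fin G.m) → ℝ) : ℝ :=
  ∑ i ∈ range (sPar (G.code N) q), f (G.eset (smpN (G.code N) p q (fA (G.code N)) (G.cT N a)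
    (G.cA N a) j (tPar (G.code N) q) ω ((a * mm (G.code N) + j) * sPar (G.code N) q + i)))

/-- the exact value of the term `a`, in fixed point format -/
noncomputable def exact (p q b K a : ℕ) : ℝ :=
  (K : ℝ) ^ S1 (G.code N) * ((q : ℝ) / (2 * b)) ^ nul (G.code N) *
    (((p : ℝ) / q) ^ (G.cX N a).card * G.Zs (G.cF N) (fun _ => (p : ℝ) / q) (G.cB N a))

/-- The random number `ω` is good. -/
def Good (p q ω : ℕ) : Prop :=
  ∀ a < 2 ^ kA (G.code N), G.Solv N a → ∀ j : Fin G.m,
    Near (1 / (40 * G.m * N)) (sPar (G.code N) q) (G.smp N p q a j ω (G.obsU (G.cB N a)))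
      (G.mean N p q a j (G.obsU (G.cB N a))) ∧
    Near (1 / (40 * G.m * N)) (sPar (G.code N) q)
      (G.smp N p q a j ω (G.obsV (G.cB N a) ((p : ℝ) / q) j))
      (G.mean N p q a j (G.obsV (G.cB N a) ((p : ℝ) / q) j))

theorem vvec_cT (a : ℕ) : G.vvec (G.cT N a) = G.cB N a := by
  unfold cT cB cX
  rw [mkT_code, mm_code, eset_compl _ _ (G.subN_lt N _ _)]

theorem cA_lt (a : ℕ) : G.cA N a < 2 ^ G.m := by
  exact G.startN_lt N _ _ _

theorem cA_disj (a : ℕ) : Disjoint (G.eset (G.cA N a)) (G.cF N) := by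
  exact G.startN_disj N (G.clu_A N) _

theorem solv_iff (a : ℕ) : defN (G.code N) (G.cT N a) (G.cA N a) = 0 ↔ G.Solv N a := by
  rw [defN_zero, vvec_cT]
  exact G.startN_iff N (G.clu_A N) _ (G.subN_sub N _ _)

theorem bd_cA (a : ℕ) (ha : G.Solv N a) : G.bd (G.eset (G.cA N a)) = G.cB N a := by
  have h := (G.solv_iff N a).2 ha
  rwa [defN_zero, vvec_cT] at h

theorem short_cF : G.Short (G.cF N) (2 * rA (G.code N)) := by
  exact (G.clu_A N).short

end MGraph

end Pool.Agent.Lib.H2
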