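import Pool.Agent.Lib.MP_3493b8_lc.Est

/-! The means of the observables. -/

set_option autoImplicit false

open Finset

namespace Pool.Agent.Lib.H2

open Pool.Agent.Lib.PTC

namespace MGraph

variable (G : MGraph) (N : ℕ)

private theorem est1_pos (p q a j : ℕ) (ha : G.Solv N a) (hp : 0 < p) (hpq : p < q) :
    0 < ∑ B, G.nuJ (G.cF N) (G.cB N a) p q j B := by
  obtain ⟨A, hA, hAb⟩ := ha
  rw [← hAb]
  have hq : (0 : ℝ) < q := by exact_mod_cast hp.trans hpq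
  have h1 := G.nuJ_ge (G.cF N) p q j hp hpq A hA
  have h2 : 0 < G.nuJ (G.cF N) (G.bd A) p q j A :=
    lt_of_lt_of_le (one_div_pos.2 (pow_pos hq _)) h1
  exact sum_pos' (fun B _ => G.nuJ_nonneg _ _ p q j B) ⟨A, mem_univ _, h2⟩

private theorem est1_share (p q a j : ℕ) (ha : G.Solv N a) (hp : 0 < p) (hpq : p < q) :
    ∑ B, G.nuJ (G.cF N) (G.cB N a) p q j B ≤
      ((G.n : ℝ) + 1) ^ 2 * (q : ℝ) ^ (4 * rA (G.code N)) *
        G.Zs (G.cF N) (G.wj ((p : ℝ) / q) j) (G.cB N a) := by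
  obtain ⟨A, hA, hAb⟩ := ha
  have h1 := G.base_share (G.short_cF N) p q j hp hpq A hA
  rw [hAb, show 2 * (2 * rA (G.code N)) = 4 * rA (G.code N) by ring] at h1
  exact h1

private theorem est1_succ (F : Finset (Fin G.m)) (T : Fin G.n → ZMod 2) (p q : ℕ) (j : Fin G.m)
    (hp : 0 < p) (hpq : p < q) : G.Zs F (G.wj ((p : ℝ) / q) j) T ≤
      q * G.Zs F (G.wj ((p : ℝ) / q) (j + 1)) T := by
  have hq : (0 : ℝ) < q := by exact_mod_cast hp.trans hpq
  have hp1 : (1 : ℝ) ≤ p := by exact_mod_cast hp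
  have hq1 : (1 : ℝ) ≤ q := by exact_mod_cast hp.trans hpq
  rw [G.Zs_wj_succ, mul_sum]
  unfold Zs
  refine sum_le_sum fun A _ => ?_
  by_cases h : Disjoint A F ∧ G.bd A = T
  · rw [if_pos h, if_pos h]
    have h0 : 0 ≤ ∏ i ∈ A, G.wj ((p : ℝ) / q) j i := by
      refine prod_nonneg fun i _ => ?_
      unfold wj
      split_ifs
      · positivity
      · exact zero_le_one
    have h1 : (1 : ℝ) ≤ q * (if j ∈ A then (p : ℝ) / q else 1) := by
      split_ifs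
      · rw [mul_div_cancel₀ _ hq.ne']
        exact hp1
      · rw [mul_one]
        exact hq1
    calc ∏ i ∈ A, G.wj ((p : ℝ) / q) j i
        ≤ (∏ i ∈ A, G.wj ((p : ℝ) / q) j i) * (q * (if j ∈ A then (p : ℝ) / q else 1)) :=
          le_mul_of_one_le_right h0 h1
      _ = q * ((∏ i ∈ A, G.wj ((p : ℝ) / q) j i) * (if j ∈ A then (p : ℝ) / q else 1)) := by ring
  · rw [if_neg h, if_neg h, mul_zero]

/-- the mean of the first observable -/
theorem mean_obsU (p q a : ℕ) (j : ℕ) (ha : G.Solv N a) (hp : 0 < p) (hpq : p < q) :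
    G.mean N p q a j (G.obsU (G.cB N a)) = G.Zs (G.cF N) (G.wj ((p : ℝ) / q) j) (G.cB N a) /
      (∑ B, G.nuJ (G.cF N) (G.cB N a) p q j B) ∧
    1 / (((G.n : ℝ) + 1) ^ 2 * (q : ℝ) ^ (4 * rA (G.code N))) ≤
      G.mean N p q a j (G.obsU (G.cB N a)) := by
  have hq : (0 : ℝ) < q := by exact_mod_cast hp.trans hpq
  have he : G.mean N p q a j (G.obsU (G.cB N a)) =
      G.Zs (G.cF N) (G.wj ((p : ℝ) / q) j) (G.cB N a) /
        (∑ B, G.nuJ (G.cF N) (G.cB N a) p q j B) := by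
    unfold mean
    rw [G.mean_U]
  refine ⟨he, ?_⟩
  have h1 := G.est1_pos N p q a j ha hp hpq
  have h2 := G.est1_share N p q a j ha hp hpq
  rw [he, div_le_div_iff₀ (by positivity) h1]
  linarith

/-- the mean of the second observable -/
theorem mean_obsV (p q a : ℕ) (j : Fin G.m) (ha : G.Solv N a) (hp : 0 < p) (hpq : p < q) :
    G.mean N p q a j (G.obsV (G.cB N a) ((p : ℝ) / q) j) =
      G.Zs (G.cF N) (G.wj ((p : ℝ) / q) (j + 1)) (G.cB N a) /
      (∑ B, G.nuJ (G.cF N) (G.cB N a) p q j B) ∧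
    1 / (((G.n : ℝ) + 1) ^ 2 * (q : ℝ) ^ (4 * rA (G.code N) + 1)) ≤
      G.mean N p q a j (G.obsV (G.cB N a) ((p : ℝ) / q) j) := by
  have hq : (0 : ℝ) < q := by exact_mod_cast hp.trans hpq
  have he : G.mean N p q a j (G.obsV (G.cB N a) ((p : ℝ) / q) j) =
      G.Zs (G.cF N) (G.wj ((p : ℝ) / q) (j + 1)) (G.cB N a) /
        (∑ B, G.nuJ (G.cF N) (G.cB N a) p q j B) := by
    unfold mean
    rw [G.mean_V]
  refine ⟨he, ?_⟩
  have h1 := G.est1_pos N p q a j ha hp hpq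
  have h2 := G.est1_share N p q a j ha hp hpq
  have h3 := G.est1_succ (G.cF N) (G.cB N a) p q j hp hpq
  have h4 : (0 : ℝ) ≤ ((G.n : ℝ) + 1) ^ 2 * (q : ℝ) ^ (4 * rA (G.code N)) := by positivity
  have h5 := mul_le_mul_of_nonneg_left h3 h4
  have h6 : ((G.n : ℝ) + 1) ^ 2 * (q : ℝ) ^ (4 * rA (G.code N)) *
      (q * G.Zs (G.cF N) (G.wj ((p : ℝ) / q) (j + 1)) (G.cB N a)) =
      G.Zs (G.cF N) (G.wj ((p : ℝ) / q) (j + 1)) (G.cB N a) *
        (((G.n : ℝ) + 1) ^ 2 * (q : ℝ) ^ (4 * rA (G.code N) + 1)) := by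
    rw [pow_succ (q : ℝ) (4 * rA (G.code N))]
    ring
  rw [he, div_le_div_iff₀ (by positivity) h1, one_mul, ← h6]
  exact h2.trans h5

end MGraph

end Pool.Agent.Lib.H2
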