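import Mathlib

/-! The general chain on edge sets with controlled boundary (Theorem P). -/

set_option autoImplicit false

open Finset

namespace Pool.Agent.Lib.H2

/-- Data of the chain: ground set, boundary, weights, base boundary, allowed defects, class weights. -/
structure Sys (ι V : Type) where
  E0 : Finset ι
  bd : Finset ι → V
  w : ι → ℝ
  T : V
  Y : Finset V
  g : V → ℝ

namespace Sys

variable {ι V : Type} [Fintype ι] [DecidableEq ι] [AddCommGroup V] [DecidableEq V] (s : Sys ι V)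

/-- weight of a set -/
def wt (A : Finset ι) : ℝ := ∏ i ∈ A, s.w i

/-- total weight of the sets with boundary `T + y` -/
def Z (y : V) : ℝ := ∑ A ∈ s.E0.powerset, if s.bd A = s.T + y then s.wt A else 0

/-- weight of the state `A` (zero if `A` is not a state) -/
def nu (A : Finset ι) : ℝ :=
  if A ⊆ s.E0 ∧ s.bd A + s.T ∈ s.Y then s.wt A * s.g (s.bd A + s.T) else 0

/-- Hypotheses of Theorem P. -/
structure Ok (κ : ℝ) : Prop where
  symm : ∀ A B, s.bd (symmDiff A B) = s.bd A + s.bd B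
  two : ∀ v : V, v + v = 0
  w_pos : ∀ i, 0 < s.w i
  g_pos : ∀ y ∈ s.Y, 0 < s.g y
  zero_mem : (0 : V) ∈ s.Y
  R : ∀ D ⊆ s.E0, D.Nonempty → s.bd D ∈ s.Y → ∃ e ∈ D, s.bd (D.erase e) ∈ s.Y
  K : ∀ y ∈ s.Y, s.Z y ≠ 0 → ∑ y0 ∈ s.Y, s.g y0 * s.Z (y0 + y) ≤ κ * s.g y * s.Z 0
  kap : 0 ≤ κ

/-- energy form -/
def En (f : Finset ι → ℝ) : ℝ :=
  ∑ A : Finset ι, ∑ e ∈ s.E0, min (s.nu A) (s.nu (symmDiff A {e})) * (f A - f (symmDiff A {e})) ^ 2

end Sys

end Pool.Agent.Lib.H2
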