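import Pool.Agent.Lib.MP_3493b8_lc.Short0
import Pool.Agent.Lib.MP_3493b8_lc.Sys

/-! The chain of the algorithm: definitions. -/

set_option autoImplicit false

open Finset

namespace Pool.Agent.Lib.H2

namespace MGraph

variable (G : MGraph)

/-- One step of the chain: the digit `d` proposes the edge `d % K` and accepts with the threshold
`p` (adding an edge of weight `p / q`) or `q` (otherwise), compared with `d / K`. -/
def stepF (F : Finset (Fin G.m)) (T : Fin G.n → ZMod 2) (p q j K d : ℕ) (A : Finset (Fin G.m)) :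
    Finset (Fin G.m) :=
  if h : d % K < G.m then
    if (⟨d % K, h⟩ : Fin G.m) ∉ F ∧
        (G.supp (G.bd (symmDiff A {(⟨d % K, h⟩ : Fin G.m)}) + T)).card ≤ 2 ∧
        d / K < (if (⟨d % K, h⟩ : Fin G.m) ∉ A ∧ d % K < j then p else q) then
      symmDiff A {(⟨d % K, h⟩ : Fin G.m)}
    else A
  else A

/-- the weights of stage `j`: the first `j` edges have weight `l`, the others weight `1` -/
def wj (l : ℝ) (j : ℕ) (i : Fin G.m) : ℝ := if (i : ℕ) < j then l else 1

theorem wj_last (l : ℝ) : G.wj l G.m = fun _ => l := by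
  funext i
  simp [wj]

/-- the system of Theorem P for the chain -/
noncomputable def chainSys (F : Finset (Fin G.m)) (T : Fin G.n → ZMod 2) (w : Fin G.m → ℝ) :
    Sys (Fin G.m) (Fin G.n → ZMod 2) where
  E0 := univ \ F
  bd := G.bd
  w := w
  T := T
  Y := univ.filter fun y => (G.supp y).card ≤ 2
  g := fun _ => 1

/-- the weight of a state in stage `j` -/
noncomputable def nuJ (F : Finset (Fin G.m)) (T : Fin G.n → ZMod 2) (p q j : ℕ)
    (A : Finset (Fin G.m)) : ℝ := (G.chainSys F T (G.wj ((p : ℝ) / q) j)).nu A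

/-- relaxation time -/
def relax (D q K K' : ℕ) : ℕ := 2 * G.m * ((G.n + 1) ^ 2 * q ^ (2 * D)) * (K * K') + 1

/-- the two observables of stage `j` -/
noncomputable def obsU (T : Fin G.n → ZMod 2) (B : Finset (Fin G.m)) : ℝ :=
  if G.bd B = T then 1 else 0

noncomputable def obsV (T : Fin G.n → ZMod 2) (l : ℝ) (j : Fin G.m) (B : Finset (Fin G.m)) : ℝ :=
  if G.bd B = T then (if j ∈ B then l else 1) else 0

end MGraph

end Pool.Agent.Lib.H2
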