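import Pool.Agent.Lib.MP_3493b8_lc.Sem1
import Pool.Agent.Lib.MP_3493b8_lc.StepF
import Pool.Agent.Lib.MP_3493b8_lc.Contr

/-! The numeric chain is the chain on edge sets. -/

set_option autoImplicit false

open Finset

namespace Pool.Agent.Lib.H2

open Pool.Agent.Lib.PTC

private theorem itr_congr {τ : Type} (f g : ℕ → τ → τ) (s : τ) (t : ℕ)
    (h : ∀ i < t, f i = g i) : itr f s t = itr g s t := by
  induction t with
  | zero => rfl
  | succ t ih =>
    change f t (itr f s t) = g t (itr g s t)
    rw [ih fun i hi => h i (by omega), h t (by omega)]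

private theorem sum_range_split (F : ℕ → ℝ) (M k : ℕ) :
    ∑ r ∈ range (M * k), F r = ∑ d ∈ range k, ∑ r ∈ range M, F (M * d + r) := by
  induction k with
  | zero => simp
  | succ k ih => rw [Nat.mul_succ, sum_range_add, ih, sum_range_succ]

private theorem digs_low {b : ℕ} (hb : 0 < b) {t i : ℕ} (hi : i < t) (d r : ℕ) :
    digs b (b ^ t * d + r) i = digs b r i := by
  unfold digs
  obtain ⟨k, rfl⟩ : ∃ k, t = i + (k + 1) := ⟨t - i - 1, by omega⟩
  have h1 : b ^ (i + (k + 1)) * d + r = r + b ^ i * (b ^ (k + 1) * d) := by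
    rw [pow_add]
    ring
  rw [h1, Nat.add_mul_div_left _ _ (pow_pos hb i)]
  have h2 : b ^ (k + 1) * d = b * (b ^ k * d) := by
    rw [pow_succ]
    ring
  rw [h2, Nat.add_mul_mod_self_left]

private theorem digs_top {b : ℕ} (hb : 0 < b) {t d r : ℕ} (hr : r < b ^ t) (hd : d < b) :
    digs b (b ^ t * d + r) t = d := by
  unfold digs
  rw [Nat.mul_add_div (pow_pos hb t), Nat.div_eq_of_lt hr, add_zero, Nat.mod_eq_of_lt hd]

namespace MGraph

variable (G : MGraph) (N : ℕ)

theorem stepN_lt (p q F T j d A : ℕ) (hA : A < 2 ^ G.m) :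
    stepN (G.code N) p q F T j d A < 2 ^ G.m := by
  unfold stepN
  split_ifs with h1 h2 h2
  · exact tog_lt A _ h2.1 hA
  · exact hA
  · exact tog_lt A _ h2.1 hA
  · exact hA

private theorem mem_eset (A : ℕ) (i : Fin G.m) : i ∉ G.eset A ↔ A.testBit i.val = false := by
  unfold eset
  rw [mem_filter]
  cases h : A.testBit i.val <;> simp

/-- the numeric step is the step of the chain -/
theorem stepN_code (p q F T j d A : ℕ) :
    G.eset (stepN (G.code N) p q F T j d A) =
      G.stepF (G.eset F) (G.vvec T) p q j (kE (G.code N)) d (G.eset A) := by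
  classical
  unfold stepN stepF
  rw [mm_code]
  by_cases h : d % kE (G.code N) < G.m
  · have e1 := G.eset_tog A (⟨d % kE (G.code N), h⟩ : Fin G.m)
    have e2 := G.defN_code N T (tog A (d % kE (G.code N)))
    simp only at e1
    rw [e1] at e2
    have e3 := G.mem_eset F (⟨d % kE (G.code N), h⟩ : Fin G.m)
    have e4 := G.mem_eset A (⟨d % kE (G.code N), h⟩ : Fin G.m)
    rw [dif_pos h, e2]
    have e5 : (if A.testBit (d % kE (G.code N)) = false ∧ d % kE (G.code N) < j then p else q) =
        (if (⟨d % kE (G.code N), h⟩ : Fin G.m) ∉ G.eset A ∧ d % kE (G.code N) < j then p else q) := by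
      by_cases h4 : A.testBit (d % kE (G.code N)) = false ∧ d % kE (G.code N) < j
      · rw [if_pos h4, if_pos ⟨e4.2 h4.1, h4.2⟩]
      · rw [if_neg h4, if_neg fun h5 => h4 ⟨e4.1 h5.1, h5.2⟩]
    rw [e5]
    by_cases hc : (⟨d % kE (G.code N), h⟩ : Fin G.m) ∉ G.eset F ∧
        (G.supp (G.bd (symmDiff (G.eset A) {(⟨d % kE (G.code N), h⟩ : Fin G.m)}) +
          G.vvec T)).card ≤ 2 ∧
        d / kE (G.code N) < (if (⟨d % kE (G.code N), h⟩ : Fin G.m) ∉ G.eset A ∧
          d % kE (G.code N) < j then p else q)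
    · rw [if_pos hc, if_pos ⟨h, e3.1 hc.1, hc.2.1, hc.2.2⟩, e1]
    · rw [if_neg hc, if_neg fun h5 => hc ⟨e3.2 h5.2.1, h5.2.2.1, h5.2.2.2⟩]
  · rw [dif_neg h, if_neg fun h5 => h h5.1]

theorem runN_lt (p q F T j t r A : ℕ) (hA : A < 2 ^ G.m) :
    runN (G.code N) p q F T j t r A < 2 ^ G.m := by
  unfold runN
  generalize (fun i => digs (kE (G.code N) * kU q) r i) = dg
  induction t with
  | zero => exact hA
  | succ t ih => exact G.stepN_lt N p q F T j _ _ ih

/-- averages over the random numbers of one run -/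
theorem runN_avg (p q F T j t A : ℕ) (f : Finset (Fin G.m) → ℝ) :
    (∑ r ∈ range ((kE (G.code N) * kU q) ^ t), f (G.eset (runN (G.code N) p q F T j t r A))) /
        (((kE (G.code N) * kU q) ^ t : ℕ) : ℝ) =
      avgIt (fun (d : Fin (kE (G.code N) * kU q)) B =>
        G.stepF (G.eset F) (G.vvec T) p q j (kE (G.code N)) d B) f t (G.eset A) := by
  have hb : 0 < kE (G.code N) * kU q := by
    unfold kE kU
    positivity
  have hbR : (0 : ℝ) < ((kE (G.code N) * kU q : ℕ) : ℝ) := by exact_mod_cast hb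
  induction t generalizing f with
  | zero =>
    rw [pow_zero, sum_range_one, Nat.cast_one, div_one]
    rfl
  | succ t ih =>
    have h1 : avgIt (fun (d : Fin (kE (G.code N) * kU q)) B =>
        G.stepF (G.eset F) (G.vvec T) p q j (kE (G.code N)) d B) f (t + 1) =
        avgIt (fun (d : Fin (kE (G.code N) * kU q)) B =>
          G.stepF (G.eset F) (G.vvec T) p q j (kE (G.code N)) d B)
          (avgOp (fun (d : Fin (kE (G.code N) * kU q)) B =>
            G.stepF (G.eset F) (G.vvec T) p q j (kE (G.code N)) d B) f) t := by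
      unfold avgIt
      rw [Function.iterate_succ_apply]
    rw [h1, ← ih]
    have hrun : ∀ d < kE (G.code N) * kU q, ∀ r < (kE (G.code N) * kU q) ^ t,
        runN (G.code N) p q F T j (t + 1) ((kE (G.code N) * kU q) ^ t * d + r) A =
          stepN (G.code N) p q F T j d (runN (G.code N) p q F T j t r A) := by
      intro d hd r hr
      unfold runN
      change stepN (G.code N) p q F T j
        (digs (kE (G.code N) * kU q) ((kE (G.code N) * kU q) ^ t * d + r) t)
        (itr _ A t) = _
      rw [digs_top hb hr hd]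
      congr 1
      refine itr_congr _ _ _ _ fun i hi => ?_
      funext B
      rw [digs_low hb hi]
    have hsum : ∑ r ∈ range ((kE (G.code N) * kU q) ^ (t + 1)),
        f (G.eset (runN (G.code N) p q F T j (t + 1) r A)) =
        ∑ r ∈ range ((kE (G.code N) * kU q) ^ t), ((kE (G.code N) * kU q : ℕ) : ℝ) *
          avgOp (fun (d : Fin (kE (G.code N) * kU q)) B =>
            G.stepF (G.eset F) (G.vvec T) p q j (kE (G.code N)) d B) f
            (G.eset (runN (G.code N) p q F T j t r A)) := by
      rw [pow_succ, sum_range_split, sum_comm]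
      refine sum_congr rfl fun r hr => ?_
      unfold avgOp
      rw [Fintype.card_fin, mul_div_cancel₀ _ hbR.ne',
        ← Fin.sum_univ_eq_sum_range (fun d => f (G.eset (runN (G.code N) p q F T j (t + 1)
          ((kE (G.code N) * kU q) ^ t * d + r) A)))]
      refine sum_congr rfl fun d _ => ?_
      rw [hrun d.val d.isLt r (mem_range.1 hr), stepN_code]
    have h2 : (((kE (G.code N) * kU q) ^ (t + 1) : ℕ) : ℝ) =
        ((kE (G.code N) * kU q : ℕ) : ℝ) * (((kE (G.code N) * kU q) ^ t : ℕ) : ℝ) := by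
      rw [pow_succ, Nat.cast_mul, mul_comm]
    rw [hsum, ← mul_sum, h2, mul_div_mul_left _ _ hbR.ne']

end MGraph

end Pool.Agent.Lib.H2
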