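import Pool.Agent.Lib.MP_3493b8_lc.Sys

/-! Theorem P, first part: canonical paths to the base class. -/

set_option autoImplicit false

open Finset

namespace Pool.Agent.Lib.H2

namespace Sys

variable {ι V : Type} [Fintype ι] [DecidableEq ι] [AddCommGroup V] [DecidableEq V] (s : Sys ι V)

section aux

variable {s}

omit [Fintype ι] in
private theorem wt_pos {κ : ℝ} (h : s.Ok κ) (A : Finset ι) : 0 < s.wt A :=
  Finset.prod_pos fun i _ => h.w_pos i

omit [Fintype ι] in
private theorem nu_nonneg {κ : ℝ} (h : s.Ok κ) (A : Finset ι) : 0 ≤ s.nu A := by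
  unfold nu
  split_ifs with hA
  · exact (mul_pos (wt_pos h A) (h.g_pos _ hA.2)).le
  · exact le_rfl

omit [Fintype ι] in
private theorem of_nu_ne {A : Finset ι} (hA : s.nu A ≠ 0) :
    A ⊆ s.E0 ∧ s.bd A + s.T ∈ s.Y ∧ s.nu A = s.wt A * s.g (s.bd A + s.T) := by
  unfold nu at hA ⊢
  by_cases h : A ⊆ s.E0 ∧ s.bd A + s.T ∈ s.Y
  · exact ⟨h.1, h.2, if_pos h⟩
  · exact absurd (if_neg h) hA

omit [Fintype ι] in
private theorem Z_nonneg {κ : ℝ} (h : s.Ok κ) (y : V) : 0 ≤ s.Z y := by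
  unfold Z
  refine Finset.sum_nonneg fun A _ => ?_
  split_ifs
  · exact (wt_pos h A).le
  · exact le_rfl

omit [DecidableEq V] [AddCommGroup V] in
private theorem wt_mul_wt {I J F : Finset ι} (hF : symmDiff F J ⊆ symmDiff I J) :
    s.wt I * s.wt J = s.wt F * s.wt (symmDiff (symmDiff I J) F) := by
  have key : ∀ A : Finset ι, s.wt A = ∏ i : ι, if i ∈ A then s.w i else 1 := by
    intro A
    unfold wt
    rw [Finset.prod_ite_mem, Finset.univ_inter]
  simp only [key]
  rw [← Finset.prod_mul_distrib, ← Finset.prod_mul_distrib]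
  refine Finset.prod_congr rfl fun i _ => ?_
  have h1 := @hF i
  simp only [Finset.mem_symmDiff] at h1 ⊢
  by_cases hI : i ∈ I <;> by_cases hJ : i ∈ J <;> by_cases hFi : i ∈ F <;> simp_all

/-- The weight of the base class. -/
private theorem base_eq {κ : ℝ} (h : s.Ok κ) :
    (∑ J : Finset ι, if s.bd J = s.T then s.nu J else 0) = s.g 0 * s.Z 0 := by
  have h1 : ∀ J : Finset ι, (if s.bd J = s.T then s.nu J else 0) =
      if J ∈ s.E0.powerset then (s.g 0 * if s.bd J = s.T + 0 then s.wt J else 0) else 0 := by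
    intro J
    rw [add_zero]
    by_cases hJ : s.bd J = s.T
    · rw [if_pos hJ, if_pos hJ, nu, hJ, h.two]
      by_cases hE : J ⊆ s.E0
      · rw [if_pos ⟨hE, h.zero_mem⟩, if_pos (Finset.mem_powerset.2 hE), mul_comm]
      · rw [if_neg fun h' => hE h'.1, if_neg fun h' => hE (Finset.mem_powerset.1 h')]
    · rw [if_neg hJ, if_neg hJ, mul_zero, ite_self]
  rw [Finset.sum_congr rfl fun J _ => h1 J, Finset.sum_ite_mem, Finset.univ_inter, Z,
    Finset.mul_sum]

/-- The encoding bound. -/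
private theorem bound {κ : ℝ} (h : s.Ok κ) (F : Finset ι) (p : Finset ι → Finset ι → Prop)
    [∀ I J, Decidable (p I J)] (hD : ∀ I J, p I J → symmDiff I J ⊆ s.E0)
    (hF : ∀ I J, p I J → symmDiff F J ⊆ symmDiff I J)
    (hY : ∀ I J, p I J → s.bd (symmDiff F J) ∈ s.Y)
    (hinj : ∀ I J I' J', p I J → p I' J' →
      symmDiff (symmDiff I J) F = symmDiff (symmDiff I' J') F → I = I' ∧ J = J') :
    (∑ I : Finset ι, ∑ J : Finset ι,
      if p I J then (if s.bd J = s.T then s.nu I * s.nu J else 0) else 0) ≤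
      κ * s.nu F * (s.g 0 * s.Z 0) := by
  have hg0 : 0 < s.g 0 := h.g_pos 0 h.zero_mem
  rw [← Fintype.sum_prod_type' (f := fun I J : Finset ι =>
    if p I J then (if s.bd J = s.T then s.nu I * s.nu J else 0) else 0)]
  let S : Finset (Finset ι × Finset ι) := Finset.univ.filter fun x =>
    p x.1 x.2 ∧ s.bd x.2 = s.T ∧ s.nu x.1 ≠ 0 ∧ s.nu x.2 ≠ 0
  have hS : ∀ x, x ∈ S ↔ p x.1 x.2 ∧ s.bd x.2 = s.T ∧ s.nu x.1 ≠ 0 ∧ s.nu x.2 ≠ 0 := by
    intro x
    simp [S]
  have h1 : (∑ x : Finset ι × Finset ι,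
      if p x.1 x.2 then (if s.bd x.2 = s.T then s.nu x.1 * s.nu x.2 else 0) else 0) =
      ∑ x ∈ S, s.nu x.1 * s.nu x.2 := by
    rw [Finset.sum_filter]
    refine Finset.sum_congr rfl fun x _ => ?_
    by_cases hp : p x.1 x.2
    · by_cases hT : s.bd x.2 = s.T
      · by_cases h3 : s.nu x.1 = 0
        · simp [h3]
        · by_cases h4 : s.nu x.2 = 0
          · simp [h4]
          · rw [if_pos hp, if_pos hT, if_pos ⟨hp, hT, h3, h4⟩]
      · rw [if_pos hp, if_neg hT, if_neg fun h' => hT h'.2.1]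
    · rw [if_neg hp, if_neg fun h' => hp h'.1]
  rw [h1]
  rcases S.eq_empty_or_nonempty with hemp | ⟨x0, hx0⟩
  · rw [hemp, Finset.sum_empty]
    exact mul_nonneg (mul_nonneg h.kap (nu_nonneg h F)) (mul_nonneg hg0.le (Z_nonneg h 0))
  -- `F` is a state
  obtain ⟨hp0, hT0, hn1, hn2⟩ := (hS x0).1 hx0
  have hJE := (of_nu_ne hn2).1
  have hFE : F ⊆ s.E0 := by
    intro i hi
    by_cases hiJ : i ∈ x0.2
    · exact hJE hiJ
    · exact hD _ _ hp0 (hF _ _ hp0 (Finset.mem_symmDiff.2 (Or.inl ⟨hi, hiJ⟩)))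
  have hFY : s.bd F + s.T ∈ s.Y := by
    have := hY _ _ hp0
    rwa [h.symm, hT0] at this
  have hnuF : s.nu F = s.wt F * s.g (s.bd F + s.T) := if_pos ⟨hFE, hFY⟩
  have hZF : s.Z (s.bd F + s.T) ≠ 0 := by
    have h2 : 0 < s.Z (s.bd F + s.T) := by
      unfold Z
      refine Finset.sum_pos' (fun A _ => ?_) ⟨F, Finset.mem_powerset.2 hFE, ?_⟩
      · split_ifs
        · exact (wt_pos h A).le
        · exact le_rfl
      · rw [if_pos]
        · exact wt_pos h F
        · have : s.T + (s.bd F + s.T) = s.bd F + (s.T + s.T) := by abel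
          rw [this, h.two, add_zero]
    exact h2.ne'
  -- the encoding
  let φ : V × Finset ι → ℝ := fun z =>
    if s.bd z.2 = s.T + (z.1 + (s.bd F + s.T)) then s.g z.1 * s.wt z.2 else 0
  let Φ : Finset ι × Finset ι → V × Finset ι := fun x =>
    (s.bd x.1 + s.T, symmDiff (symmDiff x.1 x.2) F)
  have hΦ : ∀ x ∈ S, Φ x ∈ s.Y ×ˢ s.E0.powerset := by
    intro x hx
    obtain ⟨hp, hT, h3, h4⟩ := (hS x).1 hx
    rw [Finset.mem_product, Finset.mem_powerset]
    refine ⟨(of_nu_ne h3).2.1, ?_⟩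
    intro i hi
    rcases Finset.mem_symmDiff.1 hi with hi | hi
    · exact hD _ _ hp hi.1
    · exact hFE hi.1
  have hval : ∀ x ∈ S, s.nu x.1 * s.nu x.2 = s.g 0 * s.wt F * φ (Φ x) := by
    intro x hx
    obtain ⟨hp, hT, h3, h4⟩ := (hS x).1 hx
    have hb : s.bd (symmDiff (symmDiff x.1 x.2) F) =
        s.T + ((s.bd x.1 + s.T) + (s.bd F + s.T)) := by
      rw [h.symm, h.symm, hT]
      have : s.T + ((s.bd x.1 + s.T) + (s.bd F + s.T)) =
          s.bd x.1 + s.T + s.bd F + (s.T + s.T) := by abel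
      rw [this, h.two, add_zero]
    have hφ : φ (Φ x) = s.g (s.bd x.1 + s.T) * s.wt (symmDiff (symmDiff x.1 x.2) F) :=
      if_pos hb
    rw [hφ, (of_nu_ne h3).2.2, (of_nu_ne h4).2.2, hT, h.two]
    have h5 := wt_mul_wt (s := s) (hF _ _ hp)
    linear_combination (s.g (s.bd x.1 + s.T) * s.g 0) * h5
  have hinj' : Set.InjOn Φ (S : Set (Finset ι × Finset ι)) := by
    intro x hx x' hx' he
    have h6 := hinj x.1 x.2 x'.1 x'.2 ((hS x).1 hx).1 ((hS x').1 hx').1 (Prod.ext_iff.1 he).2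
    exact Prod.ext h6.1 h6.2
  have hφ0 : ∀ z ∈ s.Y ×ˢ s.E0.powerset, 0 ≤ φ z := by
    intro z hz
    change 0 ≤ (if s.bd z.2 = s.T + (z.1 + (s.bd F + s.T)) then s.g z.1 * s.wt z.2 else 0)
    split_ifs
    · exact mul_nonneg (h.g_pos _ (Finset.mem_product.1 hz).1).le (wt_pos h _).le
    · exact le_rfl
  have hsum : ∑ x ∈ S, φ (Φ x) ≤ κ * s.g (s.bd F + s.T) * s.Z 0 := by
    calc ∑ x ∈ S, φ (Φ x) = ∑ z ∈ S.image Φ, φ z := (Finset.sum_image hinj').symm
      _ ≤ ∑ z ∈ s.Y ×ˢ s.E0.powerset, φ z := by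
        refine Finset.sum_le_sum_of_subset_of_nonneg ?_ fun z hz _ => hφ0 z hz
        intro z hz
        obtain ⟨x, hx, rfl⟩ := Finset.mem_image.1 hz
        exact hΦ x hx
      _ = ∑ y ∈ s.Y, s.g y * s.Z (y + (s.bd F + s.T)) := by
        rw [Finset.sum_product]
        refine Finset.sum_congr rfl fun y _ => ?_
        rw [Z, Finset.mul_sum]
        refine Finset.sum_congr rfl fun A _ => ?_
        rw [mul_ite, mul_zero]
      _ ≤ κ * s.g (s.bd F + s.T) * s.Z 0 := h.K _ hFY hZF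
  rw [Finset.sum_congr rfl hval, ← Finset.mul_sum, hnuF]
  calc s.g 0 * s.wt F * ∑ x ∈ S, φ (Φ x)
      ≤ s.g 0 * s.wt F * (κ * s.g (s.bd F + s.T) * s.Z 0) :=
        mul_le_mul_of_nonneg_left hsum (mul_nonneg hg0.le (wt_pos h F).le)
    _ = κ * (s.wt F * s.g (s.bd F + s.T)) * (s.g 0 * s.Z 0) := by ring

/-- The property of the choice of the canonical order. -/
private def IsSt (s : Sys ι V) (st : Finset ι → Finset ι) : Prop :=
  ∀ D, D ⊆ s.E0 → D.Nonempty → s.bd D ∈ s.Y →
    ∃ e ∈ D, st D = D.erase e ∧ s.bd (st D) ∈ s.Y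

omit [Fintype ι] in
private theorem exists_st {κ : ℝ} (h : s.Ok κ) : ∃ st : Finset ι → Finset ι, IsSt s st := by
  have : ∀ D : Finset ι, ∃ D' : Finset ι, D ⊆ s.E0 → D.Nonempty → s.bd D ∈ s.Y →
      ∃ e ∈ D, D' = D.erase e ∧ s.bd D' ∈ s.Y := by
    intro D
    by_cases hD : D ⊆ s.E0 ∧ D.Nonempty ∧ s.bd D ∈ s.Y
    · obtain ⟨e, he, he'⟩ := h.R D hD.1 hD.2.1 hD.2.2
      exact ⟨D.erase e, fun _ _ _ => ⟨e, he, rfl, he'⟩⟩
    · exact ⟨∅, fun h1 h2 h3 => absurd ⟨h1, h2, h3⟩ hD⟩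
  choose st hst using this
  exact ⟨st, hst⟩

omit [Fintype ι] in
private theorem st_facts {st : Finset ι → Finset ι} (hst : IsSt s st) {D : Finset ι}
    (hD : D ⊆ s.E0) (hY : s.bd D ∈ s.Y) (k : ℕ) (hk : k ≤ D.card) :
    st^[k] D ⊆ D ∧ s.bd (st^[k] D) ∈ s.Y ∧ (st^[k] D).card = D.card - k := by
  induction k with
  | zero => exact ⟨Finset.Subset.refl _, hY, by simp⟩
  | succ k ih =>
    obtain ⟨h1, h2, h3⟩ := ih (by omega)
    rw [Function.iterate_succ_apply']
    obtain ⟨e, he, he1, he2⟩ := hst (st^[k] D) (h1.trans hD)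
      (Finset.card_pos.1 (by omega)) h2
    refine ⟨?_, he2, ?_⟩
    · rw [he1]
      exact (Finset.erase_subset _ _).trans h1
    · rw [he1, Finset.card_erase_of_mem he, h3]
      omega

omit [Fintype ι] in
private theorem st_mono {st : Finset ι → Finset ι} (hst : IsSt s st) {D : Finset ι}
    (hD : D ⊆ s.E0) (hY : s.bd D ∈ s.Y) {k l : ℕ} (hkl : k ≤ l) (hl : l ≤ D.card) :
    st^[l] D ⊆ st^[k] D := by
  induction l, hkl using Nat.le_induction with
  | base => exact Finset.Subset.refl _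
  | succ l hkl ih =>
    obtain ⟨h1, h2, h3⟩ := st_facts hst hD hY l (by omega)
    rw [Function.iterate_succ_apply']
    obtain ⟨e, he, he1, he2⟩ := hst (st^[l] D) (h1.trans hD)
      (Finset.card_pos.1 (by omega)) h2
    rw [he1]
    exact (Finset.erase_subset _ _).trans (ih (by omega))

/-- The edge `e` is removed from the set `X` along the canonical order of `D`. -/
private def Q (st : Finset ι → Finset ι) (D : Finset ι) (e : ι) (X : Finset ι) : Prop :=
  ∃ k < D.card, X = st^[k] D ∧ e ∈ X ∧ st^[k + 1] D = X.erase e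

omit [Fintype ι] in
private theorem Q_unique {st : Finset ι → Finset ι} (hst : IsSt s st) {D : Finset ι}
    (hD : D ⊆ s.E0) (hY : s.bd D ∈ s.Y) {e : ι} {X X' : Finset ι} (h : Q st D e X)
    (h' : Q st D e X') : X = X' := by
  obtain ⟨k, hk, rfl, he, hk'⟩ := h
  obtain ⟨l, hl, rfl, hf, hl'⟩ := h'
  rcases lt_trichotomy k l with hkl | rfl | hkl
  · have := st_mono hst hD hY (show k + 1 ≤ l from hkl) hl.le hf
    rw [hk'] at this
    exact absurd rfl (Finset.ne_of_mem_erase this)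
  · rfl
  · have := st_mono hst hD hY (show l + 1 ≤ k from hkl) hk.le he
    rw [hl'] at this
    exact absurd rfl (Finset.ne_of_mem_erase this)

omit [Fintype ι] in
private theorem erase_eq {X : Finset ι} {e : ι} (he : e ∈ X) :
    X.erase e = symmDiff X {e} := by
  ext i
  rw [Finset.mem_symmDiff, Finset.mem_erase, Finset.mem_singleton]
  constructor
  · rintro ⟨h1, h2⟩
    exact Or.inl ⟨h2, h1⟩
  · rintro (⟨h1, h2⟩ | ⟨h1, h2⟩)
    · exact ⟨h2, h1⟩
    · exact absurd (h1 ▸ he) h2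

open Classical in
/-- The path inequality. -/
private theorem path_le {st : Finset ι → Finset ι} (hst : IsSt s st) {D J : Finset ι}
    (hD : D ⊆ s.E0) (hY : s.bd D ∈ s.Y) (f : Finset ι → ℝ) :
    (f (symmDiff J D) - f J) ^ 2 ≤ (s.E0.card : ℝ) * ∑ A : Finset ι, ∑ e ∈ s.E0,
      if Q st D e (symmDiff A J) then (f A - f (symmDiff A {e})) ^ 2 else 0 := by
  have hex : ∀ k : Fin D.card, ∃ e : ι,
      e ∈ st^[(k : ℕ)] D ∧ st^[(k : ℕ) + 1] D = (st^[(k : ℕ)] D).erase e := by
    intro k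
    obtain ⟨h1, h2, h3⟩ := st_facts hst hD hY k k.2.le
    have hk := k.2
    obtain ⟨e, he, he1, he2⟩ := hst (st^[(k : ℕ)] D) (h1.trans hD)
      (Finset.card_pos.1 (by omega)) h2
    exact ⟨e, he, by rw [Function.iterate_succ_apply']; exact he1⟩
  choose ed hed hed' using hex
  let a : ℕ → ℝ := fun k => f (symmDiff J (st^[k] D))
  have h0 : f (symmDiff J D) - f J = ∑ k : Fin D.card, (a k - a ((k : ℕ) + 1)) := by
    rw [Fin.sum_univ_eq_sum_range (fun k => a k - a (k + 1)), Finset.sum_range_sub']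
    obtain ⟨h1, h2, h3⟩ := st_facts hst hD hY D.card le_rfl
    have h4 : st^[D.card] D = ∅ := Finset.card_eq_zero.1 (by omega)
    simp only [a, h4, Function.iterate_zero, id_eq]
    rw [← Finset.bot_eq_empty, symmDiff_bot]
  let G : Finset ι × ι → ℝ := fun z =>
    if Q st D z.2 (symmDiff z.1 J) then (f z.1 - f (symmDiff z.1 {z.2})) ^ 2 else 0
  have hG : ∀ z, 0 ≤ G z := by
    intro z
    change 0 ≤ (if Q st D z.2 (symmDiff z.1 J) then (f z.1 - f (symmDiff z.1 {z.2})) ^ 2 else 0)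
    split_ifs
    · exact sq_nonneg _
    · exact le_rfl
  let Ψ : Fin D.card → Finset ι × ι := fun k => (symmDiff J (st^[(k : ℕ)] D), ed k)
  have hΨ : ∀ k : Fin D.card, (a k - a ((k : ℕ) + 1)) ^ 2 = G (Ψ k) := by
    intro k
    have h5 : symmDiff (symmDiff J (st^[(k : ℕ)] D)) J = st^[(k : ℕ)] D := by
      rw [symmDiff_comm J, symmDiff_assoc, symmDiff_self, symmDiff_bot]
    have h6 : Q st D (ed k) (symmDiff (symmDiff J (st^[(k : ℕ)] D)) J) := by
      rw [h5]
      exact ⟨k, k.2, rfl, hed k, hed' k⟩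
    have h7 : G (Ψ k) = (f (symmDiff J (st^[(k : ℕ)] D)) -
        f (symmDiff (symmDiff J (st^[(k : ℕ)] D)) {ed k})) ^ 2 := if_pos h6
    rw [h7, symmDiff_assoc, ← erase_eq (hed k), ← hed' k]
  have hinj : Set.InjOn Ψ ((Finset.univ : Finset (Fin D.card)) : Set (Fin D.card)) := by
    intro k _ l _ hkl
    have h8 := (symmDiff_right_inj.1 (Prod.ext_iff.1 hkl).1 : st^[(k : ℕ)] D = st^[(l : ℕ)] D)
    obtain ⟨-, -, h9⟩ := st_facts hst hD hY k k.2.le
    obtain ⟨-, -, h10⟩ := st_facts hst hD hY l l.2.le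
    rw [h8, h10] at h9
    have hk := k.2
    have hl := l.2
    apply Fin.ext
    omega
  have hsum : ∑ k : Fin D.card, (a k - a ((k : ℕ) + 1)) ^ 2 ≤ ∑ A : Finset ι, ∑ e ∈ s.E0,
      if Q st D e (symmDiff A J) then (f A - f (symmDiff A {e})) ^ 2 else 0 := by
    calc ∑ k : Fin D.card, (a k - a ((k : ℕ) + 1)) ^ 2
        = ∑ k : Fin D.card, G (Ψ k) := Finset.sum_congr rfl fun k _ => hΨ k
      _ = ∑ z ∈ Finset.univ.image Ψ, G z := (Finset.sum_image hinj).symm
      _ ≤ ∑ z ∈ Finset.univ ×ˢ s.E0, G z := by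
        refine Finset.sum_le_sum_of_subset_of_nonneg ?_ fun z _ _ => hG z
        intro z hz
        obtain ⟨k, -, rfl⟩ := Finset.mem_image.1 hz
        refine Finset.mem_product.2 ⟨Finset.mem_univ _, ?_⟩
        exact hD ((st_facts hst hD hY k k.2.le).1 (hed k))
      _ = _ := by rw [Finset.sum_product]
  have hcs := sq_sum_le_card_mul_sum_sq (s := (Finset.univ : Finset (Fin D.card)))
    (f := fun k => a k - a ((k : ℕ) + 1))
  rw [Finset.card_univ, Fintype.card_fin] at hcs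
  have hcard : (D.card : ℝ) ≤ s.E0.card := by exact_mod_cast Finset.card_le_card hD
  rw [h0]
  refine hcs.trans ?_
  refine (mul_le_mul_of_nonneg_left hsum (Nat.cast_nonneg _)).trans ?_
  refine mul_le_mul_of_nonneg_right hcard ?_
  refine Finset.sum_nonneg fun A _ => Finset.sum_nonneg fun e _ => ?_
  split_ifs
  · exact sq_nonneg _
  · exact le_rfl

private theorem swap4 {α β γ δ : Type*} (s1 : Finset α) (s2 : Finset β) (s3 : Finset γ)
    (s4 : Finset δ) (w : α → β → γ → δ → ℝ) :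
    ∑ a ∈ s1, ∑ b ∈ s2, ∑ c ∈ s3, ∑ d ∈ s4, w a b c d =
      ∑ c ∈ s3, ∑ d ∈ s4, ∑ a ∈ s1, ∑ b ∈ s2, w a b c d := by
  calc ∑ a ∈ s1, ∑ b ∈ s2, ∑ c ∈ s3, ∑ d ∈ s4, w a b c d
      = ∑ a ∈ s1, ∑ c ∈ s3, ∑ b ∈ s2, ∑ d ∈ s4, w a b c d :=
        Finset.sum_congr rfl fun a _ => Finset.sum_comm
    _ = ∑ c ∈ s3, ∑ a ∈ s1, ∑ b ∈ s2, ∑ d ∈ s4, w a b c d := Finset.sum_comm
    _ = ∑ c ∈ s3, ∑ a ∈ s1, ∑ d ∈ s4, ∑ b ∈ s2, w a b c d :=
        Finset.sum_congr rfl fun c _ => Finset.sum_congr rfl fun a _ => Finset.sum_comm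
    _ = ∑ c ∈ s3, ∑ d ∈ s4, ∑ a ∈ s1, ∑ b ∈ s2, w a b c d :=
        Finset.sum_congr rfl fun c _ => Finset.sum_comm

/-- The pairs whose canonical path uses the transition `(A, e)`. -/
private def P (s : Sys ι V) (st : Finset ι → Finset ι) (A : Finset ι) (e : ι)
    (I J : Finset ι) : Prop :=
  symmDiff I J ⊆ s.E0 ∧ s.bd (symmDiff I J) ∈ s.Y ∧ Q st (symmDiff I J) e (symmDiff A J)

omit [Fintype ι] in
private theorem P_inj {st : Finset ι → Finset ι} (hst : IsSt s st) (A : Finset ι) (e : ι)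
    (F I J I' J' : Finset ι) (h : P s st A e I J) (h' : P s st A e I' J')
    (he : symmDiff (symmDiff I J) F = symmDiff (symmDiff I' J') F) : I = I' ∧ J = J' := by
  have h1 : symmDiff I J = symmDiff I' J' := symmDiff_left_inj.1 he
  have h2 := h.2.2
  have h2' := h'.2.2
  rw [← h1] at h2'
  have h3 : J = J' := symmDiff_right_inj.1 (Q_unique hst h.1 h.2.1 h2 h2')
  refine ⟨?_, h3⟩
  rw [h3] at h1
  exact symmDiff_left_inj.1 h1

end aux

/-- Canonical paths from the states to the base class. -/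
theorem paths (κ : ℝ) (h : s.Ok κ) (f : Finset ι → ℝ) :
    ∑ I : Finset ι, ∑ J : Finset ι, (if s.bd J = s.T then s.nu I * s.nu J * (f I - f J) ^ 2 else 0) ≤
      (s.E0.card : ℝ) * κ * (∑ J : Finset ι, if s.bd J = s.T then s.nu J else 0) * s.En f := by
  classical
  obtain ⟨st, hst⟩ := exists_st h
  rw [base_eq h]
  let W : Finset ι → Finset ι → ℝ := fun I J => if s.bd J = s.T then s.nu I * s.nu J else 0
  have hW : ∀ I J, 0 ≤ W I J := by
    intro I J
    change 0 ≤ (if s.bd J = s.T then s.nu I * s.nu J else 0)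
    split_ifs
    · exact mul_nonneg (nu_nonneg h I) (nu_nonneg h J)
    · exact le_rfl
  -- the two bounds
  have hb1 : ∀ A e, (∑ I : Finset ι, ∑ J : Finset ι, if P s st A e I J then W I J else 0) ≤
      κ * s.nu A * (s.g 0 * s.Z 0) := by
    intro A e
    refine bound h A (P s st A e) (fun I J hp => hp.1) (fun I J hp => ?_) (fun I J hp => ?_)
      fun I J I' J' hp hp' he => P_inj hst A e A I J I' J' hp hp' he
    · obtain ⟨hD, hY, k, hk, hX, -, -⟩ := hp
      rw [hX]
      exact (st_facts hst hD hY k hk.le).1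
    · obtain ⟨hD, hY, k, hk, hX, -, -⟩ := hp
      rw [hX]
      exact (st_facts hst hD hY k hk.le).2.1
  have hX' : ∀ A e I J, P s st A e I J → ∃ k < (symmDiff I J).card,
      symmDiff (symmDiff A {e}) J = st^[k + 1] (symmDiff I J) := by
    rintro A e I J ⟨hD, hY, k, hk, hX, he, hX1⟩
    refine ⟨k, hk, ?_⟩
    rw [hX1, erase_eq he, symmDiff_assoc, symmDiff_comm {e} J, ← symmDiff_assoc]
  have hb2 : ∀ A e, (∑ I : Finset ι, ∑ J : Finset ι, if P s st A e I J then W I J else 0) ≤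
      κ * s.nu (symmDiff A {e}) * (s.g 0 * s.Z 0) := by
    intro A e
    refine bound h (symmDiff A {e}) (P s st A e) (fun I J hp => hp.1) (fun I J hp => ?_)
      (fun I J hp => ?_)
      fun I J I' J' hp hp' he => P_inj hst A e (symmDiff A {e}) I J I' J' hp hp' he
    · obtain ⟨k, hk, hk'⟩ := hX' A e I J hp
      rw [hk']
      exact (st_facts hst hp.1 hp.2.1 (k + 1) hk).1
    · obtain ⟨k, hk, hk'⟩ := hX' A e I J hp
      rw [hk']
      exact (st_facts hst hp.1 hp.2.1 (k + 1) hk).2.1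
  have hb : ∀ A e, (∑ I : Finset ι, ∑ J : Finset ι, if P s st A e I J then W I J else 0) ≤
      κ * min (s.nu A) (s.nu (symmDiff A {e})) * (s.g 0 * s.Z 0) := by
    intro A e
    rcases le_total (s.nu A) (s.nu (symmDiff A {e})) with hle | hle
    · rw [min_eq_left hle]
      exact hb1 A e
    · rw [min_eq_right hle]
      exact hb2 A e
  -- the paths
  have hp : ∀ I J, (if s.bd J = s.T then s.nu I * s.nu J * (f I - f J) ^ 2 else 0) ≤
      ∑ A : Finset ι, ∑ e ∈ s.E0, (s.E0.card : ℝ) * (f A - f (symmDiff A {e})) ^ 2 *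
        (if P s st A e I J then W I J else 0) := by
    intro I J
    have hnn : 0 ≤ ∑ A : Finset ι, ∑ e ∈ s.E0, (s.E0.card : ℝ) *
        (f A - f (symmDiff A {e})) ^ 2 * (if P s st A e I J then W I J else 0) := by
      refine Finset.sum_nonneg fun A _ => Finset.sum_nonneg fun e _ => ?_
      refine mul_nonneg (mul_nonneg (Nat.cast_nonneg _) (sq_nonneg _)) ?_
      split_ifs
      · exact hW I J
      · exact le_rfl
    by_cases hT : s.bd J = s.T
    · rw [if_pos hT]
      by_cases hI : s.nu I = 0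
      · rw [hI, zero_mul, zero_mul]
        exact hnn
      · by_cases hJ : s.nu J = 0
        · rw [hJ, mul_zero, zero_mul]
          exact hnn
        · have hD : symmDiff I J ⊆ s.E0 := by
            intro i hi
            rcases Finset.mem_symmDiff.1 hi with hi | hi
            · exact (of_nu_ne hI).1 hi.1
            · exact (of_nu_ne hJ).1 hi.1
          have hY : s.bd (symmDiff I J) ∈ s.Y := by
            rw [h.symm, hT]
            exact (of_nu_ne hI).2.1
          have h1 := path_le (J := J) hst hD hY f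
          have h2 : symmDiff J (symmDiff I J) = I := by
            rw [symmDiff_comm I J, ← symmDiff_assoc, symmDiff_self, bot_symmDiff]
          rw [h2] at h1
          have h3 : W I J = s.nu I * s.nu J := if_pos hT
          have h4 := mul_le_mul_of_nonneg_left h1 (hW I J)
          rw [h3] at h4
          refine h4.trans (le_of_eq ?_)
          rw [Finset.mul_sum, Finset.mul_sum]
          refine Finset.sum_congr rfl fun A _ => ?_
          rw [Finset.mul_sum, Finset.mul_sum]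
          refine Finset.sum_congr rfl fun e _ => ?_
          by_cases hQ : Q st (symmDiff I J) e (symmDiff A J)
          · rw [if_pos hQ, if_pos (show P s st A e I J from ⟨hD, hY, hQ⟩), h3]
            ring
          · rw [if_neg hQ, if_neg (show ¬ P s st A e I J from fun h' => hQ h'.2.2)]
            ring
    · rw [if_neg hT]
      exact hnn
  calc ∑ I : Finset ι, ∑ J : Finset ι,
        (if s.bd J = s.T then s.nu I * s.nu J * (f I - f J) ^ 2 else 0)
      ≤ ∑ I : Finset ι, ∑ J : Finset ι, ∑ A : Finset ι, ∑ e ∈ s.E0,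
          (s.E0.card : ℝ) * (f A - f (symmDiff A {e})) ^ 2 *
            (if P s st A e I J then W I J else 0) :=
        Finset.sum_le_sum fun I _ => Finset.sum_le_sum fun J _ => hp I J
    _ = ∑ A : Finset ι, ∑ e ∈ s.E0, ∑ I : Finset ι, ∑ J : Finset ι,
          (s.E0.card : ℝ) * (f A - f (symmDiff A {e})) ^ 2 *
            (if P s st A e I J then W I J else 0) := swap4 _ _ _ _ _
    _ = ∑ A : Finset ι, ∑ e ∈ s.E0, (s.E0.card : ℝ) * (f A - f (symmDiff A {e})) ^ 2 *
          ∑ I : Finset ι, ∑ J : Finset ι, (if P s st A e I J then W I J else 0) := by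
        refine Finset.sum_congr rfl fun A _ => Finset.sum_congr rfl fun e _ => ?_
        rw [Finset.mul_sum]
        refine Finset.sum_congr rfl fun I _ => ?_
        rw [Finset.mul_sum]
    _ ≤ ∑ A : Finset ι, ∑ e ∈ s.E0, (s.E0.card : ℝ) * (f A - f (symmDiff A {e})) ^ 2 *
          (κ * min (s.nu A) (s.nu (symmDiff A {e})) * (s.g 0 * s.Z 0)) := by
        refine Finset.sum_le_sum fun A _ => Finset.sum_le_sum fun e _ => ?_
        exact mul_le_mul_of_nonneg_left (hb A e) (mul_nonneg (Nat.cast_nonneg _) (sq_nonneg _))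
    _ = (s.E0.card : ℝ) * κ * (s.g 0 * s.Z 0) * s.En f := by
        rw [En, Finset.mul_sum]
        refine Finset.sum_congr rfl fun A _ => ?_
        rw [Finset.mul_sum]
        refine Finset.sum_congr rfl fun e _ => ?_
        ring

end Sys

end Pool.Agent.Lib.H2
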