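import Pool.Agent.Lib.MP_3493b8_lc.Est1
import Pool.Agent.Lib.MP_3493b8_lc.ChainF

/-! Few random numbers give a bad estimate. -/

set_option autoImplicit false

open Finset

namespace Pool.Agent.Lib.H2

open Pool.Agent.Lib.PTC

namespace MGraph

variable (G : MGraph) (N : ℕ)

/-- the number of coin flips is the length of all samples -/
theorem two_pow_bits (q : ℕ) : 2 ^ bits (G.code N) q =
    ((kE (G.code N) * kU q) ^ tPar (G.code N) q) ^
      (2 ^ kA (G.code N) * mm (G.code N) * sPar (G.code N) q) := by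
  unfold bits kE kU
  rw [← pow_add, ← pow_mul, ← pow_mul]
  congr 1
  exact mul_assoc _ _ _

private theorem samp_relax (q : ℕ) : tPar (G.code N) q =
    G.relax (2 * rA (G.code N)) q (kE (G.code N)) (kU q) *
      (30 * q * (G.n + G.m + N + 2) * (rA (G.code N) + 1)) := by
  unfold tPar relax S1
  rw [nn_code, mm_code, NN_code]
  have h : 2 * (2 * rA (G.code N)) = 4 * rA (G.code N) := by ring
  rw [h]

private theorem samp_lt_size (m : ℕ) : m < 2 ^ Nat.size m := Nat.lt_size_self m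

/-- the mean after `t` steps -/
theorem mean_near (p q a : ℕ) (j : ℕ) (hp : 0 < p) (hpq : p < q) (hN : 1 ≤ N) (hm : 1 ≤ G.m)
    (ha : G.Solv N a) (f : Finset (Fin G.m) → ℝ) (hf : ∀ B, 0 ≤ f B ∧ f B ≤ 1)
    (hμ : 1 / (((G.n : ℝ) + 1) ^ 2 * (q : ℝ) ^ (4 * rA (G.code N) + 1)) ≤ G.mean N p q a j f) :
    |(∑ r ∈ range ((kE (G.code N) * kU q) ^ tPar (G.code N) q),
        f (G.eset (runN (G.code N) p q (fA (G.code N)) (G.cT N a) j (tPar (G.code N) q) r
          (G.cA N a)))) / (((kE (G.code N) * kU q) ^ tPar (G.code N) q : ℕ) : ℝ) -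
      G.mean N p q a j f| ≤ 1 / (100 * G.m * N) * G.mean N p q a j f := by
  have hq : 2 ≤ q := by omega
  have hmR : (0 : ℝ) < G.m := by exact_mod_cast hm
  have hNR : (0 : ℝ) < N := by exact_mod_cast hN
  have hqR : (0 : ℝ) < q := by exact_mod_cast (show 0 < q by omega)
  have e1 := G.runN_avg N p q (fA (G.code N)) (G.cT N a) j (tPar (G.code N) q) (G.cA N a) f
  have hT : G.vvec (G.cT N a) = G.bd (G.eset (G.cA N a)) := by
    rw [G.vvec_cT, G.bd_cA N a ha]
  have hkE : G.m ≤ kE (G.code N) := by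
    unfold kE
    rw [mm_code]
    exact (samp_lt_size G.m).le
  have hkE0 : 0 < kE (G.code N) := by
    unfold kE
    exact Nat.two_pow_pos _
  have hkU : 2 * q ≤ kU q := by
    unfold kU
    rw [pow_succ, mul_comm]
    exact Nat.mul_le_mul_right 2 (samp_lt_size q).le
  have h1 := G.chain_mix (G.short_cF N) p q j (kE (G.code N)) (kU q) hp hpq hkE hkE0 hkU
    (G.eset (G.cA N a)) (G.cA_disj N a) f
    (fun B => abs_le.2 ⟨by linarith [(hf B).1], (hf B).2⟩) (tPar (G.code N) q)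
  rw [hT] at e1
  change _ = avgIt (fun (d : Fin (kE (G.code N) * kU q)) B =>
    G.stepF (G.cF N) (G.bd (G.eset (G.cA N a))) p q j (kE (G.code N)) d B) f
      (tPar (G.code N) q) (G.eset (G.cA N a)) at e1
  rw [← e1, G.bd_cA N a ha] at h1
  change (_ - G.mean N p q a j f) ^ 2 ≤ _ at h1
  have hR : 1 ≤ G.relax (2 * rA (G.code N)) q (kE (G.code N)) (kU q) := by
    unfold relax
    omega
  have h2 := num_mix G.m G.n N q (rA (G.code N))
    (G.relax (2 * rA (G.code N)) q (kE (G.code N)) (kU q)) hm hN hq hR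
  rw [← G.samp_relax N q] at h2
  have hδ : (0 : ℝ) ≤ 1 / (100 * G.m * N) := by positivity
  have hc : (0 : ℝ) ≤ 1 / (((G.n : ℝ) + 1) ^ 2 * (q : ℝ) ^ (4 * rA (G.code N) + 1)) := by
    positivity
  exact (abs_le_of_sq_le_sq (h1.trans h2) (mul_nonneg hδ hc)).trans
    (mul_le_mul_of_nonneg_left hμ hδ)

/-- Few random numbers give a bad estimate of one mean. -/
theorem few_bad (p q a : ℕ) (j : Fin G.m) (hp : 0 < p) (hpq : p < q) (hN : 1 ≤ N)
    (haa : a < 2 ^ kA (G.code N)) (ha : G.Solv N a) (f : Finset (Fin G.m) → ℝ)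
    (hf : ∀ B, 0 ≤ f B ∧ f B ≤ 1)
    (hμ : 1 / (((G.n : ℝ) + 1) ^ 2 * (q : ℝ) ^ (4 * rA (G.code N) + 1)) ≤ G.mean N p q a j f) :
    open Classical in
    (((range (2 ^ bits (G.code N) q)).filter fun ω => ¬ Near (1 / (40 * G.m * N))
      (sPar (G.code N) q) (G.smp N p q a j ω f) (G.mean N p q a j f)).card : ℝ) *
      (16 * 2 ^ kA (G.code N) * G.m) ≤ 2 ^ bits (G.code N) q := by
  classical
  have hm : 1 ≤ G.m := by
    have := j.isLt
    omega
  have hq : 2 ≤ q := by omega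
  have hmR : (1 : ℝ) ≤ G.m := by exact_mod_cast hm
  have hNR : (1 : ℝ) ≤ N := by exact_mod_cast hN
  have hqR : (0 : ℝ) < q := by exact_mod_cast (show 0 < q by omega)
  have hnear := G.mean_near N p q a j hp hpq hN hm ha f hf hμ
  obtain ⟨μ0, hμ0⟩ : ∃ μ0, μ0 = G.mean N p q a j f := ⟨_, rfl⟩
  have hs : sPar (G.code N) q =
      2 ^ 20 * 2 ^ kA (G.code N) * (G.n + G.m + N + 2) ^ 7 * q ^ (4 * rA (G.code N) + 1) := by
    unfold sPar S1
    rw [nn_code, mm_code, NN_code]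
  obtain ⟨b, hb⟩ : ∃ b, b = (kE (G.code N) * kU q) ^ tPar (G.code N) q := ⟨_, rfl⟩
  have hb0 : 0 < b := by
    rw [hb]
    unfold kE kU
    positivity
  obtain ⟨s, hss⟩ : ∃ s, s = sPar (G.code N) q := ⟨_, rfl⟩
  obtain ⟨M, hM⟩ : ∃ M, M = 2 ^ kA (G.code N) * G.m * s := ⟨_, rfl⟩
  have hbits : 2 ^ bits (G.code N) q = b ^ M := by
    rw [G.two_pow_bits N q, ← hb, mm_code, ← hss, ← hM]
  -- the samples which are used
  have hlt : ∀ i : Fin s, (a * G.m + j) * s + i < M := by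
    intro i
    have h1 : (a * G.m + j + 1) * s ≤ M := by
      rw [hM]
      refine Nat.mul_le_mul_right s ?_
      have h2 : (a + 1) * G.m ≤ 2 ^ kA (G.code N) * G.m := Nat.mul_le_mul_right _ haa
      have h3 := j.isLt
      have h4 : (a + 1) * G.m = a * G.m + G.m := by ring
      omega
    have h5 : (a * G.m + j + 1) * s = (a * G.m + j) * s + s := by ring
    have h6 := i.isLt
    omega
  obtain ⟨e, he⟩ : ∃ e : Fin s ↪ Fin M, ∀ i, (e i : ℕ) = (a * G.m + j) * s + i :=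
    ⟨⟨fun i => ⟨(a * G.m + j) * s + i, hlt i⟩, fun i i' h => by
      have h1 := congrArg Fin.val h
      simp only at h1
      exact Fin.ext (by omega)⟩, fun _ => rfl⟩
  obtain ⟨g, hg⟩ : ∃ g : Fin b → ℝ, ∀ d, g d = f (G.eset (runN (G.code N) p q (fA (G.code N))
      (G.cT N a) j (tPar (G.code N) q) d (G.cA N a))) := ⟨_, fun _ => rfl⟩
  have hg01 : ∀ d, 0 ≤ g d ∧ g d ≤ 1 := fun d => by
    rw [hg]
    exact hf _
  obtain ⟨μ, hμd⟩ : ∃ μ, μ = (∑ d, g d) / (Fintype.card (Fin b) : ℝ) := ⟨_, rfl⟩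
  have hμe : μ = (∑ r ∈ range b, f (G.eset (runN (G.code N) p q (fA (G.code N)) (G.cT N a) j
      (tPar (G.code N) q) r (G.cA N a)))) / (b : ℝ) := by
    rw [hμd, Fintype.card_fin, Finset.sum_range]
    congr 1
    exact Finset.sum_congr rfl fun d _ => hg d
  rw [← hb, ← hμe, ← hμ0] at hnear
  rw [← hμ0] at hμ ⊢
  have hcp : (0 : ℝ) < 1 / (((G.n : ℝ) + 1) ^ 2 * (q : ℝ) ^ (4 * rA (G.code N) + 1)) := by
    positivity
  have hμ0p : 0 < μ0 := lt_of_lt_of_le hcp hμ
  have hδ : (0 : ℝ) < 1 / (100 * G.m * N) := by positivity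
  have hδ1 : (1 : ℝ) / (100 * G.m * N) ≤ 1 / 100 := by
    refine one_div_le_one_div_of_le (by norm_num) ?_
    have h1 : (1 : ℝ) ≤ G.m * N := one_le_mul_of_one_le_of_one_le hmR hNR
    linarith
  have hμl : 99 / 100 * (1 / (((G.n : ℝ) + 1) ^ 2 * (q : ℝ) ^ (4 * rA (G.code N) + 1))) ≤ μ := by
    have h1 := (abs_le.1 hnear).1
    have h2 : 1 / (100 * G.m * N) * μ0 ≤ 1 / 100 * μ0 := mul_le_mul_of_nonneg_right hδ1 hμ0p.le
    linarith
  have hnum := num_s G.m G.n N q (rA (G.code N)) (kA (G.code N)) hm hN hq μ hμl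
  rw [← hs, ← hss] at hnum
  have hne : Nonempty (Fin b) := ⟨⟨0, hb0⟩⟩
  have hI : (univ.map e).card = s := by
    rw [card_map, card_univ, Fintype.card_fin]
  have hcheb := cheb M (univ.map e) g hg01 μ hμd (1 / (100 * G.m * N)) hδ
  rw [hI, Fintype.card_fin] at hcheb
  have hcount := count_digs b M hb0 (fun c : Fin M → Fin b =>
      1 / (100 * G.m * N) * ((s : ℝ) * μ) < |∑ i ∈ univ.map e, g (c i) - (s : ℝ) * μ|)
    (fun ω => 1 / (100 * G.m * N) * ((s : ℝ) * μ) < |G.smp N p q a j ω f - (s : ℝ) * μ|) (by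
      intro ω _
      have h1 : G.smp N p q a j ω f = ∑ i ∈ univ.map e, g ⟨digs b ω i, Nat.mod_lt _ hb0⟩ := by
        rw [sum_map]
        unfold smp
        rw [← hss, Finset.sum_range]
        refine Finset.sum_congr rfl fun i _ => ?_
        rw [hg, mm_code]
        unfold smpN
        rw [← hb]
        simp only [he]
      rw [h1])
  have hsub : ((range (2 ^ bits (G.code N) q)).filter fun ω => ¬ Near (1 / (40 * G.m * N))
      (sPar (G.code N) q) (G.smp N p q a j ω f) μ0).card ≤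
      ((range (b ^ M)).filter fun ω => 1 / (100 * G.m * N) * ((s : ℝ) * μ) <
        |G.smp N p q a j ω f - (s : ℝ) * μ|).card := by
    rw [hbits, ← hss]
    refine card_le_card fun ω hω => ?_
    rw [mem_filter] at hω ⊢
    refine ⟨hω.1, ?_⟩
    by_contra hcon
    exact hω.2 (num_near G.m N hm hN s _ μ μ0 (Nat.cast_nonneg _) hμ0p.le (not_lt.1 hcon) hnear)
  rw [← hcount] at hcheb
  have hbR : ((2 : ℝ) ^ bits (G.code N) q) = (b : ℝ) ^ M := by exact_mod_cast hbits
  rw [hbR]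
  refine le_trans ?_ hcheb
  exact mul_le_mul (by exact_mod_cast hsub) hnum (by positivity) (Nat.cast_nonneg _)

end MGraph

end Pool.Agent.Lib.H2
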