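import Pool.Agent.Lib.MP_3493b8_lc.Samp

/-! Most random numbers are good. -/

set_option autoImplicit false

open Finset

namespace Pool.Agent.Lib.H2

open Pool.Agent.Lib.PTC

namespace MGraph

variable (G : MGraph) (N : ℕ)

private theorem samp2_few (p q a : ℕ) (j : Fin G.m) (hp : 0 < p) (hpq : p < q) (hN : 1 ≤ N)
    (haa : a < 2 ^ kA (G.code N)) (ha : G.Solv N a) (f : Finset (Fin G.m) → ℝ)
    (hf : ∀ B, 0 ≤ f B ∧ f B ≤ 1)
    (hμ : 1 / (((G.n : ℝ) + 1) ^ 2 * (q : ℝ) ^ (4 * rA (G.code N) + 1)) ≤ G.mean N p q a j f)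
    (s : Finset ℕ) (hs : ∀ ω ∈ s, ω < 2 ^ bits (G.code N) q ∧ ¬ Near (1 / (40 * G.m * N))
      (sPar (G.code N) q) (G.smp N p q a j ω f) (G.mean N p q a j f)) :
    (s.card : ℝ) * (16 * 2 ^ kA (G.code N) * G.m) ≤ 2 ^ bits (G.code N) q := by
  classical
  refine le_trans (mul_le_mul_of_nonneg_right ?_ (by positivity))
    (G.few_bad N p q a j hp hpq hN haa ha f hf hμ)
  exact_mod_cast card_le_card fun ω hω =>
    mem_filter.2 ⟨mem_range.2 (hs ω hω).1, (hs ω hω).2⟩

private theorem samp2_obsV (T : Fin G.n → ZMod 2) {l : ℝ} (h0 : 0 ≤ l) (h1 : l ≤ 1) (j : Fin G.m)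
    (B : Finset (Fin G.m)) : 0 ≤ G.obsV T l j B ∧ G.obsV T l j B ≤ 1 := by
  unfold obsV
  split_ifs
  · exact ⟨h0, h1⟩
  · exact ⟨zero_le_one, le_rfl⟩
  · exact ⟨le_rfl, zero_le_one⟩

private theorem samp2_obsU (T : Fin G.n → ZMod 2) (B : Finset (Fin G.m)) :
    0 ≤ G.obsU T B ∧ G.obsU T B ≤ 1 := by
  unfold obsU
  split_ifs
  · exact ⟨zero_le_one, le_rfl⟩
  · exact ⟨le_rfl, zero_le_one⟩

/-- Most random numbers are good. -/
theorem good_count (p q : ℕ) (hp : 0 < p) (hpq : p < q) (hN : 1 ≤ N) :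
    open Classical in
    (7 : ℝ) * 2 ^ bits (G.code N) q ≤
      8 * (((range (2 ^ bits (G.code N) q)).filter fun ω => G.Good N p q ω).card : ℝ) := by
  classical
  have hq0 : (0 : ℝ) < q := by
    have : 0 < q := by omega
    exact_mod_cast this
  have hl0 : (0 : ℝ) ≤ (p : ℝ) / q := by positivity
  have hl1 : (p : ℝ) / q ≤ 1 := by
    rw [div_le_one hq0]
    exact_mod_cast hpq.le
  obtain ⟨K, hK⟩ : ∃ K : ℕ, K = 2 ^ bits (G.code N) q := ⟨_, rfl⟩
  obtain ⟨L, hL⟩ : ∃ L : ℕ, L = 2 ^ kA (G.code N) := ⟨_, rfl⟩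
  have hKr : (2 : ℝ) ^ bits (G.code N) q = K := by
    rw [hK]
    push_cast
    rfl
  have hLr : (2 : ℝ) ^ kA (G.code N) = L := by
    rw [hL]
    push_cast
    rfl
  have hL0 : 0 < L := by
    rw [hL]
    positivity
  obtain ⟨bad, hbad⟩ : ∃ bad : ℕ → Fin G.m → Finset ℕ, bad = fun (a : ℕ) (j : Fin G.m) => (range K).filter fun ω =>
      G.Solv N a ∧ (¬ Near (1 / (40 * G.m * N)) (sPar (G.code N) q)
        (G.smp N p q a j ω (G.obsU (G.cB N a))) (G.mean N p q a j (G.obsU (G.cB N a))) ∨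
        ¬ Near (1 / (40 * G.m * N)) (sPar (G.code N) q)
        (G.smp N p q a j ω (G.obsV (G.cB N a) ((p : ℝ) / q) j))
        (G.mean N p q a j (G.obsV (G.cB N a) ((p : ℝ) / q) j))) := ⟨_, rfl⟩
  have h1 : ∀ a ∈ range L, ∀ j : Fin G.m, ((bad a j).card : ℝ) * (16 * L * G.m) ≤ 2 * K := by
    intro a ha j
    rw [mem_range, hL] at ha
    by_cases hS : G.Solv N a
    · obtain ⟨sU, hsU⟩ : ∃ s : Finset ℕ, s = (range K).filter fun ω =>
          ¬ Near (1 / (40 * G.m * N)) (sPar (G.code N) q)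
            (G.smp N p q a j ω (G.obsU (G.cB N a))) (G.mean N p q a j (G.obsU (G.cB N a))) :=
        ⟨_, rfl⟩
      obtain ⟨sV, hsV⟩ : ∃ s : Finset ℕ, s = (range K).filter fun ω =>
          ¬ Near (1 / (40 * G.m * N)) (sPar (G.code N) q)
            (G.smp N p q a j ω (G.obsV (G.cB N a) ((p : ℝ) / q) j))
            (G.mean N p q a j (G.obsV (G.cB N a) ((p : ℝ) / q) j)) := ⟨_, rfl⟩
      have hcU := G.samp2_few N p q a j hp hpq hN ha hS (G.obsU (G.cB N a))
        (G.samp2_obsU (G.cB N a)) (by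
          refine le_trans ?_ (G.mean_obsU N p q a j hS hp hpq).2
          refine one_div_le_one_div_of_le (by positivity) ?_
          refine mul_le_mul_of_nonneg_left ?_ (by positivity)
          refine pow_le_pow_right₀ ?_ (Nat.le_succ _)
          have : 1 ≤ q := by omega
          exact_mod_cast this) sU (by
          intro ω hω
          rw [hsU, mem_filter, mem_range, hK] at hω
          exact hω)
      have hcV := G.samp2_few N p q a j hp hpq hN ha hS (G.obsV (G.cB N a) ((p : ℝ) / q) j)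
        (G.samp2_obsV (G.cB N a) hl0 hl1 j) (G.mean_obsV N p q a j hS hp hpq).2 sV (by
          intro ω hω
          rw [hsV, mem_filter, mem_range, hK] at hω
          exact hω)
      rw [hKr, hLr] at hcU hcV
      have hc : ((bad a j).card : ℝ) ≤ sU.card + sV.card := by
        have h2 : bad a j ⊆ sU ∪ sV := by
          intro ω hω
          rw [hbad] at hω
          obtain ⟨h3, -, h4⟩ := mem_filter.1 hω
          rw [mem_union, hsU, hsV, mem_filter, mem_filter]
          rcases h4 with h4 | h4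
          · exact Or.inl ⟨h3, h4⟩
          · exact Or.inr ⟨h3, h4⟩
        exact_mod_cast (card_le_card h2).trans (card_union_le _ _)
      have h5 := mul_le_mul_of_nonneg_right hc (show (0 : ℝ) ≤ 16 * L * G.m by positivity)
      linarith
    · have h2 : bad a j = ∅ := by
        rw [hbad]
        exact filter_eq_empty_iff.2 fun ω _ h => hS h.1
      rw [h2, card_empty]
      have : (0 : ℝ) ≤ K := Nat.cast_nonneg K
      push_cast
      linarith
  obtain ⟨Bd, hBd⟩ : ∃ Bd : Finset ℕ, Bd = (range K).filter fun ω => ¬ G.Good N p q ω := ⟨_, rfl⟩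
  have h2 : Bd ⊆ (range L).biUnion fun a => (univ : Finset (Fin G.m)).biUnion fun j => bad a j := by
    intro ω hω
    rw [hBd, mem_filter] at hω
    obtain ⟨h3, h4⟩ := hω
    unfold Good at h4
    push Not at h4
    obtain ⟨a, ha, hS, j, hj⟩ := h4
    rw [mem_biUnion]
    refine ⟨a, mem_range.2 (by rw [hL]; exact ha), ?_⟩
    rw [mem_biUnion]
    refine ⟨j, mem_univ _, ?_⟩
    rw [hbad]
    refine mem_filter.2 ⟨h3, hS, ?_⟩
    by_contra hcon
    push Not at hcon
    exact hj hcon.1 hcon.2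
  have h3 : (Bd.card : ℝ) * 8 ≤ K := by
    rcases Nat.eq_zero_or_pos G.m with hm | hm
    · have h4 : Bd = ∅ := by
        rw [eq_empty_iff_forall_notMem]
        intro ω hω
        have h5 := h2 hω
        rw [mem_biUnion] at h5
        obtain ⟨a, -, h6⟩ := h5
        rw [mem_biUnion] at h6
        obtain ⟨j, -, -⟩ := h6
        have := j.isLt
        omega
      rw [h4, card_empty]
      have : (0 : ℝ) ≤ K := Nat.cast_nonneg K
      push_cast
      linarith
    · have hm0 : (0 : ℝ) < G.m := by exact_mod_cast hm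
      have hLr0 : (0 : ℝ) < L := by exact_mod_cast hL0
      have h4 : (Bd.card : ℝ) ≤ ∑ a ∈ range L, ∑ j : Fin G.m, ((bad a j).card : ℝ) := by
        have h5 : Bd.card ≤ ∑ a ∈ range L, ∑ j : Fin G.m, (bad a j).card :=
          (card_le_card h2).trans (card_biUnion_le.trans
            (sum_le_sum fun a _ => card_biUnion_le))
        exact_mod_cast h5
      have h5 : (Bd.card : ℝ) * (16 * L * G.m) ≤ L * (G.m * (2 * K)) := by
        calc (Bd.card : ℝ) * (16 * L * G.m) ≤
            (∑ a ∈ range L, ∑ j : Fin G.m, ((bad a j).card : ℝ)) * (16 * L * G.m) :=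
              mul_le_mul_of_nonneg_right h4 (by positivity)
          _ = ∑ a ∈ range L, ∑ j : Fin G.m, ((bad a j).card : ℝ) * (16 * L * G.m) := by
              rw [sum_mul]
              exact sum_congr rfl fun a _ => sum_mul _ _ _
          _ ≤ ∑ a ∈ range L, ∑ j : Fin G.m, (2 * (K : ℝ)) :=
              sum_le_sum fun a ha => sum_le_sum fun j _ => h1 a ha j
          _ = L * (G.m * (2 * K)) := by
              rw [sum_const, sum_const, card_range, card_univ, Fintype.card_fin, nsmul_eq_mul,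
                nsmul_eq_mul]
      have h6 : (2 * (L : ℝ) * G.m) * ((Bd.card : ℝ) * 8) ≤ (2 * (L : ℝ) * G.m) * K := by
        linarith
      exact le_of_mul_le_mul_left h6 (by positivity)
  have h4 : (((range K).filter fun ω => G.Good N p q ω).card : ℝ) + Bd.card = K := by
    have h5 := card_filter_add_card_filter_not (s := range K) (fun ω => G.Good N p q ω)
    rw [card_range] at h5
    rw [hBd]
    exact_mod_cast h5
  have h5 : (7 : ℝ) * K ≤ 8 * (((range K).filter fun ω => G.Good N p q ω).card : ℝ) := by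
    linarith
  rw [hKr]
  refine h5.trans (le_of_eq ?_)
  rw [hK]

end MGraph

end Pool.Agent.Lib.H2
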