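import Pool.Agent.Lib.MP_3493b8_lc.Bd

/-! Odd vertices of edge sets. -/

set_option autoImplicit false

open Finset

namespace Pool.Agent.Lib.H2

namespace MGraph

variable (G : MGraph)

/-- the support of a boundary -/
def supp (y : Fin G.n → ZMod 2) : Finset (Fin G.n) := univ.filter fun v => y v ≠ 0

/-- Two vertices which can be joined outside `F` can be joined outside `F` by at most `D` edges. -/
def Short (F : Finset (Fin G.m)) (D : ℕ) : Prop :=
  ∀ (u v : Fin G.n) (A : Finset (Fin G.m)), Disjoint A F → G.bd A = Pi.single u 1 + Pi.single v 1 →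
    ∃ P, Disjoint P F ∧ G.bd P = Pi.single u 1 + Pi.single v 1 ∧ P.card ≤ D

private theorem short0_mem (y : Fin G.n → ZMod 2) (v : Fin G.n) : v ∈ G.supp y ↔ y v ≠ 0 := by
  unfold supp
  rw [mem_filter]
  exact ⟨fun h => h.2, fun h => ⟨mem_univ _, h⟩⟩

private theorem short0_one {x : ZMod 2} (h : x ≠ 0) : x = 1 := by
  revert x
  decide

private theorem short0_erase {A : Finset (Fin G.m)} {i : Fin G.m} (hi : i ∈ A) {a w : Fin G.n}
    (he : G.e i = (a, w) ∨ G.e i = (w, a)) :
    G.bd (A.erase i) = G.bd A + (Pi.single a 1 + Pi.single w 1) := by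
  have h1 : G.bd A = G.bd (A.erase i) + (Pi.single a 1 + Pi.single w 1) := by
    unfold bd
    rw [← Finset.sum_erase_add _ _ hi]
    rcases he with he | he
    · rw [he]
    · rw [he]
      exact congrArg _ (add_comm _ _)
  rw [h1, add_assoc, G.zmod_add_self, add_zero]

private theorem short0_insert {P : Finset (Fin G.m)} {i : Fin G.m} (hi : i ∉ P) {a w : Fin G.n}
    (he : G.e i = (a, w) ∨ G.e i = (w, a)) :
    G.bd (insert i P) = (Pi.single a 1 + Pi.single w 1) + G.bd P := by
  unfold bd
  rw [Finset.sum_insert hi]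
  rcases he with he | he
  · rw [he]
  · rw [he]
    exact congrArg (· + _) (add_comm _ _)

/-- removing an edge at a given end of the support -/
theorem exists_edge_at (A : Finset (Fin G.m)) (v : Fin G.n) (hv : v ∈ G.supp (G.bd A)) :
    ∃ i ∈ A, ∃ w, w ≠ v ∧ (G.e i = (v, w) ∨ G.e i = (w, v)) := by
  rw [short0_mem] at hv
  unfold bd at hv
  rw [Finset.sum_apply] at hv
  obtain ⟨i, hi, h⟩ := Finset.exists_ne_zero_of_sum_ne_zero hv
  refine ⟨i, hi, ?_⟩
  rw [Pi.add_apply] at h
  obtain ⟨p, q, hpq⟩ : ∃ p q, G.e i = (p, q) := ⟨_, _, rfl⟩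
  rw [hpq] at h ⊢
  simp only at h
  by_cases hp : p = v
  · subst hp
    by_cases hq : q = p
    · subst hq
      rw [Pi.single_eq_same] at h
      exact absurd (by decide : (1 : ZMod 2) + 1 = 0) h
    · exact ⟨q, hq, Or.inl rfl⟩
  · by_cases hq : q = v
    · subst hq
      exact ⟨p, hp, Or.inr rfl⟩
    · rw [Pi.single_eq_of_ne (Ne.symm hp), Pi.single_eq_of_ne (Ne.symm hq), add_zero] at h
      exact absurd rfl h

/-- the support of the boundary of a set has an even number of elements -/
theorem even_supp (A : Finset (Fin G.m)) : Even (G.supp (G.bd A)).card := by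
  have h1 : ∑ v, G.bd A v = 0 := by
    unfold bd
    simp only [Finset.sum_apply, Pi.add_apply]
    rw [Finset.sum_comm]
    refine Finset.sum_eq_zero fun i _ => ?_
    rw [Finset.sum_add_distrib, Finset.sum_pi_single', Finset.sum_pi_single']
    simp only [mem_univ, if_true]
    decide
  have h2 : ∀ y : Fin G.n → ZMod 2, ∑ v, y v = ((G.supp y).card : ZMod 2) := by
    intro y
    unfold supp
    rw [Finset.card_filter]
    push_cast
    refine Finset.sum_congr rfl fun v _ => ?_
    by_cases h : y v = 0
    · rw [h]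
      simp
    · rw [if_pos h]
      exact short0_one h
  rw [h2] at h1
  exact (ZMod.natCast_eq_zero_iff_even).1 h1

/-- a path inside `A` from a given odd vertex to another odd vertex -/
theorem peel (A : Finset (Fin G.m)) (a : Fin G.n) (ha : a ∈ G.supp (G.bd A)) :
    ∃ b ∈ G.supp (G.bd A), b ≠ a ∧ ∃ P ⊆ A, G.bd P = Pi.single a 1 + Pi.single b 1 := by
  induction A using Finset.strongInduction generalizing a with
  | H A ih =>
    obtain ⟨i, hi, w, hw, he⟩ := G.exists_edge_at A a ha
    by_cases hwA : w ∈ G.supp (G.bd A)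
    · refine ⟨w, hwA, hw, {i}, Finset.singleton_subset_iff.2 hi, ?_⟩
      have h1 := G.short0_insert (P := ∅) (Finset.notMem_empty i) he
      rw [G.bd_empty, add_zero] at h1
      exact h1
    · have hB := G.short0_erase hi he
      rw [short0_mem] at ha hwA
      have hwA' : G.bd A w = 0 := not_not.1 hwA
      have hBw : G.bd (A.erase i) w ≠ 0 := by
        rw [hB, Pi.add_apply, Pi.add_apply, hwA', Pi.single_eq_same, Pi.single_eq_of_ne hw]
        decide
      have hBa : G.bd (A.erase i) a = 0 := by
        rw [hB, Pi.add_apply, Pi.add_apply, short0_one ha, Pi.single_eq_same,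
          Pi.single_eq_of_ne (Ne.symm hw)]
        decide
      obtain ⟨b, hb, hbw, P, hP, hPb⟩ := ih (A.erase i) (Finset.erase_ssubset hi) w
        ((G.short0_mem _ _).2 hBw)
      rw [short0_mem] at hb
      have hba : b ≠ a := by
        rintro rfl
        exact hb hBa
      have hiP : i ∉ P := fun h => (Finset.mem_erase.1 (hP h)).1 rfl
      refine ⟨b, ?_, hba, insert i P, ?_, ?_⟩
      · rw [short0_mem]
        intro h0
        apply hb
        rw [hB, Pi.add_apply, Pi.add_apply, h0, Pi.single_eq_of_ne hba, Pi.single_eq_of_ne hbw,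
          add_zero, add_zero]
      · rw [Finset.insert_subset_iff]
        exact ⟨hi, hP.trans (Finset.erase_subset _ _)⟩
      · rw [G.short0_insert hiP he, hPb]
        have h1 := G.zmod_add_self (Pi.single w 1)
        have h2 : ∀ x y z : Fin G.n → ZMod 2, x + y + (y + z) = x + (y + y) + z := by
          intro x y z
          abel
        rw [h2, h1, add_zero]

/-- the support of a sum -/
theorem supp_add_le (y z : Fin G.n → ZMod 2) : (G.supp (y + z)).card ≤
    (G.supp y).card + (G.supp z).card := by
  refine le_trans (Finset.card_le_card ?_) (Finset.card_union_le _ _)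
  intro v hv
  rw [mem_union, short0_mem, short0_mem]
  rw [short0_mem, Pi.add_apply] at hv
  by_contra hcon
  push Not at hcon
  rw [hcon.1, hcon.2, add_zero] at hv
  exact hv rfl

private theorem short0_supp_single (a w : Fin G.n) :
    G.supp (Pi.single a 1 + Pi.single w 1) ⊆ {a, w} := by
  intro v hv
  rw [short0_mem, Pi.add_apply] at hv
  rw [mem_insert, mem_singleton]
  by_contra hcon
  push Not at hcon
  rw [Pi.single_eq_of_ne hcon.1, Pi.single_eq_of_ne hcon.2, add_zero] at hv
  exact hv rfl

/-- property (R) for families of at most two defects -/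
theorem two_R (D : Finset (Fin G.m)) (hD : D.Nonempty) (h : (G.supp (G.bd D)).card ≤ 2) :
    ∃ e ∈ D, (G.supp (G.bd (D.erase e))).card ≤ 2 := by
  rcases Finset.eq_empty_or_nonempty (G.supp (G.bd D)) with h0 | ⟨a, ha⟩
  · obtain ⟨i, hi⟩ := hD
    have hbd : G.bd D = 0 := by
      funext v
      by_contra hv
      have : v ∈ G.supp (G.bd D) := (G.short0_mem _ _).2 hv
      rw [h0] at this
      exact Finset.notMem_empty v this
    refine ⟨i, hi, ?_⟩
    have h1 := G.short0_erase hi (a := (G.e i).1) (w := (G.e i).2) (Or.inl rfl)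
    rw [hbd, zero_add] at h1
    rw [h1]
    exact (Finset.card_le_card (G.short0_supp_single _ _)).trans Finset.card_le_two
  · obtain ⟨i, hi, w, hw, he⟩ := G.exists_edge_at D a ha
    refine ⟨i, hi, ?_⟩
    have hB := G.short0_erase hi he
    have hsub : G.supp (G.bd (D.erase i)) ⊆ insert w ((G.supp (G.bd D)).erase a) := by
      intro v hv
      rw [mem_insert, mem_erase]
      by_contra hcon
      push Not at hcon
      obtain ⟨hvw, hv2⟩ := hcon
      rw [short0_mem, hB, Pi.add_apply, Pi.add_apply, Pi.single_eq_of_ne hvw, add_zero] at hv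
      by_cases hva : v = a
      · subst hva
        rw [short0_mem] at ha
        rw [short0_one ha, Pi.single_eq_same] at hv
        exact hv (by decide)
      · rw [Pi.single_eq_of_ne hva, add_zero] at hv
        exact hv2 hva ((G.short0_mem _ _).2 hv)
    refine (Finset.card_le_card hsub).trans ((Finset.card_insert_le _ _).trans ?_)
    rw [Finset.card_erase_of_mem ha]
    have : 1 ≤ (G.supp (G.bd D)).card := Finset.card_pos.2 ⟨a, ha⟩
    omega

end MGraph

end Pool.Agent.Lib.H2
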