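import Pool.Agent.Lib.MP_3493b8_lc.Alg
import Pool.Agent.Lib.MP_3493b8_lc.Short0

/-! Meaning of the input functions on `G.code N`; masks. -/

set_option autoImplicit false

open Finset

namespace Pool.Agent.Lib.H2

open Pool.Agent.Lib.PTC

private theorem tb_split (A i k : ℕ) :
    A.testBit k = if k < i then (A % 2 ^ i).testBit k else (A / 2 ^ i).testBit (k - i) := by
  have h := Nat.testBit_two_pow_mul_add (A / 2 ^ i) (Nat.mod_lt A (Nat.two_pow_pos i)) k
  rwa [Nat.div_add_mod] at h

private theorem tog_testBit' (A i k : ℕ) :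
    (tog A i).testBit k = (A.testBit k ^^ decide (k = i)) := by
  have hb : A % 2 ^ i < 2 ^ i := Nat.mod_lt A (Nat.two_pow_pos i)
  have hA : 2 ^ i * (A / 2 ^ i) + A % 2 ^ i = A := Nat.div_add_mod A (2 ^ i)
  have h0 : A.testBit i = (A / 2 ^ i).testBit 0 := by
    rw [tb_split A i i, if_neg (lt_irrefl i), Nat.sub_self]
  have hs := tb_split A i k
  rw [Nat.testBit_zero] at h0
  unfold tog
  generalize A / 2 ^ i = a at *
  generalize A % 2 ^ i = b at *
  by_cases h : A.testBit i = true
  · have h1 : a % 2 = 1 := by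
      rw [h0] at h
      exact of_decide_eq_true h
    obtain ⟨c, rfl⟩ : ∃ c, a = c + 1 := ⟨a - 1, by omega⟩
    have key : A - 2 ^ i = 2 ^ i * c + b := by
      have h2 : 2 ^ i * (c + 1) = 2 ^ i * c + 2 ^ i := by ring
      omega
    rw [if_pos h, key, Nat.testBit_two_pow_mul_add _ hb, hs]
    by_cases hk : k < i
    · rw [if_pos hk, if_pos hk]
      have : k ≠ i := by omega
      simp [this]
    · rw [if_neg hk, if_neg hk]
      obtain ⟨j, rfl⟩ : ∃ j, k = i + j := ⟨k - i, by omega⟩
      rw [Nat.add_sub_cancel_left]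
      rcases j with _ | j
      · rw [Nat.testBit_zero, Nat.testBit_zero]
        have h2 : c % 2 = 0 := by omega
        simp [h1, h2]
      · rw [Nat.testBit_succ, Nat.testBit_succ]
        have h2 : (c + 1) / 2 = c / 2 := by omega
        simp [h2]
  · have h1 : a % 2 = 0 := by
      rw [h0] at h
      have h3 : ¬ a % 2 = 1 := fun h3 => h (decide_eq_true h3)
      omega
    have key : A + 2 ^ i = 2 ^ i * (a + 1) + b := by
      have h2 : 2 ^ i * (a + 1) = 2 ^ i * a + 2 ^ i := by ring
      omega
    rw [if_neg h, key, Nat.testBit_two_pow_mul_add _ hb, hs]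
    by_cases hk : k < i
    · rw [if_pos hk, if_pos hk]
      have : k ≠ i := by omega
      simp [this]
    · rw [if_neg hk, if_neg hk]
      obtain ⟨j, rfl⟩ : ∃ j, k = i + j := ⟨k - i, by omega⟩
      rw [Nat.add_sub_cancel_left]
      rcases j with _ | j
      · rw [Nat.testBit_zero, Nat.testBit_zero]
        have h2 : (a + 1) % 2 = 1 := by omega
        simp [h1, h2]
      · rw [Nat.testBit_succ, Nat.testBit_succ]
        have h2 : (a + 1) / 2 = a / 2 := by omega
        simp [h2]

theorem tog_lt {m : ℕ} (A i : ℕ) (hi : i < m) (hA : A < 2 ^ m) : tog A i < 2 ^ m := by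
  refine Nat.lt_pow_two_of_testBit _ fun k hk => ?_
  rw [tog_testBit', Nat.testBit_eq_false_of_lt (lt_of_lt_of_le hA (Nat.pow_le_pow_right two_pos hk))]
  have : k ≠ i := by omega
  simp [this]

theorem tog_testBit (A i k : ℕ) : (tog A i).testBit k = (A.testBit k ^^ decide (k = i)) :=
  tog_testBit' A i k

private theorem sum_lt' (n : ℕ) (P : ℕ → Prop) [DecidablePred P] :
    (∑ i ∈ range n, if P i then 2 ^ i else 0) < 2 ^ n := by
  induction n with
  | zero => simp
  | succ n ih =>
    rw [sum_range_succ, pow_succ]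
    have : (if P n then 2 ^ n else 0) ≤ 2 ^ n := by split_ifs <;> omega
    omega

/-- binary digits of a sum over a range -/
theorem testBit_sum (n : ℕ) (P : ℕ → Prop) [DecidablePred P] (k : ℕ) :
    (∑ i ∈ range n, if P i then 2 ^ i else 0).testBit k = decide (k < n ∧ P k) := by
  induction n with
  | zero => simp
  | succ n ih =>
    have e : (∑ i ∈ range (n + 1), if P i then 2 ^ i else 0) =
        2 ^ n * (if P n then 1 else 0) + ∑ i ∈ range n, if P i then 2 ^ i else 0 := by
      rw [sum_range_succ, add_comm]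
      split_ifs <;> simp
    rw [e, Nat.testBit_two_pow_mul_add _ (sum_lt' n P)]
    by_cases hk : k < n
    · rw [if_pos hk, ih]
      have : k < n + 1 := by omega
      simp [hk, this]
    · rw [if_neg hk]
      by_cases hkn : k = n
      · subst hkn
        by_cases hP : P k <;> simp [hP]
      · obtain ⟨j, rfl⟩ : ∃ j, k = n + (j + 1) := ⟨k - n - 1, by omega⟩
        rw [Nat.add_sub_cancel_left, Nat.testBit_succ]
        have h1 : ¬ n + (j + 1) < n + 1 := by omega
        have h2 : (if P n then 1 else 0) / 2 = 0 := by split_ifs <;> omega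
        rw [h2]
        simp [h1]

theorem sum_two_pow_lt (n : ℕ) (P : ℕ → Prop) [DecidablePred P] :
    (∑ i ∈ range n, if P i then 2 ^ i else 0) < 2 ^ n :=
  sum_lt' n P

private theorem fl_getD {m : ℕ} (f : Fin m → ℤ × ℤ) (i : Fin m) :
    ((List.ofFn fun i => [(f i).1, (f i).2]).flatten).getD (2 * i.val) 0 = (f i).1 ∧
      ((List.ofFn fun i => [(f i).1, (f i).2]).flatten).getD (2 * i.val + 1) 0 = (f i).2 := by
  induction m with
  | zero => exact i.elim0
  | succ m ih =>
    rw [List.ofFn_succ, List.flatten_cons]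
    refine Fin.cases ?_ (fun j => ?_) i
    · exact ⟨rfl, rfl⟩
    · have h := ih (fun i => f i.succ) j
      have e1 : 2 * (Fin.succ j).val = 2 * j.val + 1 + 1 := by
        rw [Fin.val_succ]
        ring
      rw [e1]
      exact h

private theorem fl_len {m : ℕ} (f : Fin m → ℤ × ℤ) :
    ((List.ofFn fun i => [(f i).1, (f i).2]).flatten).length = 2 * m := by
  induction m with
  | zero => simp
  | succ m ih =>
    rw [List.ofFn_succ, List.flatten_cons, List.length_append, ih fun i => f i.succ]
    simp only [List.length_cons, List.length_nil]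
    ring

namespace MGraph

variable (G : MGraph) (N : ℕ)

/-- the edge set of a mask -/
def eset (A : ℕ) : Finset (Fin G.m) := univ.filter fun i => A.testBit i = true

/-- the vector of a mask of vertices -/
def vvec (T : ℕ) : Fin G.n → ZMod 2 := fun v => if T.testBit v = true then 1 else 0

theorem nn_code : nn (G.code N) = G.n := rfl

theorem mm_code : mm (G.code N) = G.m := rfl

theorem NN_code : NN (G.code N) = N := rfl

theorem eu_code (i : Fin G.m) : eu (G.code N) i = (G.e i).1 := by
  have h := (fl_getD (fun i => (((G.e i).1.val : ℤ), ((G.e i).2.val : ℤ))) i).1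
  have h' : (G.code N).getD (3 + 2 * i.val) 0 = ((G.e i).1.val : ℤ) := by
    have e : 3 + 2 * i.val = 2 * i.val + 1 + 1 + 1 := by ring
    rw [e]
    exact h
  unfold eu inp
  rw [h', Int.toNat_natCast]

theorem ev_code (i : Fin G.m) : ev (G.code N) i = (G.e i).2 := by
  have h := (fl_getD (fun i => (((G.e i).1.val : ℤ), ((G.e i).2.val : ℤ))) i).2
  have h' : (G.code N).getD (4 + 2 * i.val) 0 = ((G.e i).2.val : ℤ) := by
    have e : 4 + 2 * i.val = 2 * i.val + 1 + 1 + 1 + 1 := by ring
    rw [e]
    exact h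
  unfold ev inp
  rw [h', Int.toNat_natCast]

theorem length_code : (G.code N).length = 3 + 2 * G.m := by
  have h := fl_len (fun i => (((G.e i).1.val : ℤ), ((G.e i).2.val : ℤ)))
  unfold code
  rw [List.length_cons, List.length_cons, List.length_cons, h]
  ring

theorem mem_code (a : ℤ) (ha : a ∈ G.code N) : 0 ≤ a ∧ a ≤ (G.n + G.m + N : ℕ) := by
  unfold code at ha
  rw [List.mem_cons, List.mem_cons, List.mem_cons, List.mem_flatten] at ha
  push_cast
  rcases ha with rfl | rfl | rfl | ⟨l, hl, hal⟩
  · omega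
  · omega
  · omega
  · rw [List.mem_ofFn] at hl
    obtain ⟨i, rfl⟩ := hl
    have h1 := (G.e i).1.isLt
    have h2 := (G.e i).2.isLt
    rw [List.mem_cons, List.mem_singleton] at hal
    rcases hal with rfl | rfl <;> omega

theorem eset_tog (A : ℕ) (i : Fin G.m) : G.eset (tog A i) = symmDiff (G.eset A) {i} := by
  ext j
  rw [mem_symmDiff, mem_singleton]
  unfold eset
  rw [mem_filter, mem_filter, tog_testBit]
  have e : (j.val = i.val) ↔ j = i := Fin.ext_iff.symm
  by_cases h : j = i
  · subst h
    simp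
  · have h' : j.val ≠ i.val := fun h0 => h (e.1 h0)
    simp [h, h']

theorem eset_injOn {A B : ℕ} (hA : A < 2 ^ G.m) (hB : B < 2 ^ G.m) (h : G.eset A = G.eset B) :
    A = B := by
  refine Nat.eq_of_testBit_eq fun k => ?_
  by_cases hk : k < G.m
  · have h1 : (⟨k, hk⟩ : Fin G.m) ∈ G.eset A ↔ (⟨k, hk⟩ : Fin G.m) ∈ G.eset B := by rw [h]
    unfold eset at h1
    rw [mem_filter, mem_filter] at h1
    have h2 : A.testBit k = true ↔ B.testBit k = true := by simpa using h1
    exact Bool.eq_iff_iff.2 h2
  · have h1 : 2 ^ G.m ≤ 2 ^ k := Nat.pow_le_pow_right two_pos (not_lt.1 hk)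
    rw [Nat.testBit_eq_false_of_lt (lt_of_lt_of_le hA h1),
      Nat.testBit_eq_false_of_lt (lt_of_lt_of_le hB h1)]

theorem exists_mask (E : Finset (Fin G.m)) : ∃ A < 2 ^ G.m, G.eset A = E := by
  classical
  refine ⟨∑ i ∈ range G.m, if (∃ h : i < G.m, (⟨i, h⟩ : Fin G.m) ∈ E) then 2 ^ i else 0,
    sum_two_pow_lt _ _, ?_⟩
  ext j
  unfold eset
  rw [mem_filter, testBit_sum]
  constructor
  · rintro ⟨-, h⟩
    obtain ⟨_, _, h3⟩ := of_decide_eq_true h
    exact h3
  · intro h
    exact ⟨mem_univ _, decide_eq_true ⟨j.isLt, j.isLt, h⟩⟩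

theorem eset_compl (X : ℕ) (hX : X < 2 ^ G.m) : G.eset (2 ^ G.m - 1 - X) = univ \ G.eset X := by
  ext j
  have e : 2 ^ G.m - 1 - X = 2 ^ G.m - (X + 1) := by omega
  unfold eset
  rw [mem_filter, mem_sdiff, mem_filter, e, Nat.testBit_two_pow_sub_succ hX]
  have := j.isLt
  cases h : X.testBit j.val <;> simp

end MGraph

end Pool.Agent.Lib.H2
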