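import Pool.Agent.Lib.MP_3493b8_lc.Sem0

/-! Meaning of the boundary functions on the input `G.code N`. -/

set_option autoImplicit false

open Finset

namespace Pool.Agent.Lib.H2

open Pool.Agent.Lib.PTC

theorem bdN_lt (x : List ℤ) (A v : ℕ) : bdN x A v < 2 := Nat.mod_lt _ two_pos

/-- masks with two-valued coefficients -/
theorem mkT_eq (x : List ℤ) (A : ℕ) :
    mkT x A = ∑ v ∈ range (nn x), if bdN x A v = 1 then 2 ^ v else 0 := by
  unfold mkT
  refine Finset.sum_congr rfl fun v _ => ?_
  have h := bdN_lt x A v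
  by_cases h1 : bdN x A v = 1
  · rw [if_pos h1, h1, one_mul]
  · have h0 : bdN x A v = 0 := by omega
    rw [if_neg h1, h0, zero_mul]

private theorem cast_eq_two {a b : ℕ} (ha : a < 2) (hb : b < 2) :
    ((a : ZMod 2) = (b : ZMod 2)) ↔ a = b := by
  constructor
  · intro h
    have h1 := (ZMod.natCast_eq_natCast_iff' a b 2).1 h
    omega
  · rintro rfl
    rfl

private theorem add_eq_zero_two (a b : ZMod 2) : a + b = 0 ↔ a = b := by
  revert a b
  decide

namespace MGraph

variable (G : MGraph) (N : ℕ)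

theorem bdN_code (A : ℕ) (v : Fin G.n) :
    ((bdN (G.code N) A v : ℕ) : ZMod 2) = G.bd (G.eset A) v := by
  unfold bdN bd eset
  rw [ZMod.natCast_mod, Nat.cast_sum, Finset.sum_apply, Finset.sum_filter]
  rw [show mm (G.code N) = G.m from rfl, Finset.sum_range]
  refine Finset.sum_congr rfl fun i _ => ?_
  by_cases h : A.testBit i.val = true
  · rw [if_pos h, if_pos h]
    unfold incN
    rw [G.eu_code N i, G.ev_code N i, Pi.add_apply, Pi.single_apply, Pi.single_apply]
    have e1 : ((G.e i).1.val = v.val) ↔ v = (G.e i).1 :=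
      ⟨fun h => Fin.ext h.symm, fun h => by rw [h]⟩
    have e2 : ((G.e i).2.val = v.val) ↔ v = (G.e i).2 :=
      ⟨fun h => Fin.ext h.symm, fun h => by rw [h]⟩
    rw [if_congr e1 rfl rfl, if_congr e2 rfl rfl]
    push_cast
    rfl
  · rw [if_neg h, if_neg h, Nat.cast_zero]

private theorem vvec_cast (T : ℕ) (v : Fin G.n) :
    G.vvec T v = (((if T.testBit v = true then 1 else 0 : ℕ)) : ZMod 2) := by
  unfold vvec
  split_ifs
  · rw [Nat.cast_one]
  · rw [Nat.cast_zero]

private theorem bdN_vvec (T A : ℕ) (v : Fin G.n) :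
    (G.bd (G.eset A) + G.vvec T) v = 0 ↔
      bdN (G.code N) A v = (if T.testBit v = true then 1 else 0) := by
  rw [Pi.add_apply, add_eq_zero_two, ← G.bdN_code N, vvec_cast]
  refine cast_eq_two (bdN_lt _ _ _) ?_
  split_ifs <;> omega

theorem defN_code (T A : ℕ) :
    defN (G.code N) T A = (G.supp (G.bd (G.eset A) + G.vvec T)).card := by
  unfold defN supp
  rw [Finset.card_filter, show nn (G.code N) = G.n from rfl, Finset.sum_range]
  refine Finset.sum_congr rfl fun v _ => ?_
  have h := G.bdN_vvec N T A v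
  by_cases h1 : bdN (G.code N) A v = (if T.testBit v = true then 1 else 0)
  · rw [if_pos h1, if_neg (not_not.2 (h.2 h1))]
  · rw [if_neg h1, if_pos fun h2 => h1 (h.1 h2)]

theorem defN_zero (T A : ℕ) : defN (G.code N) T A = 0 ↔ G.bd (G.eset A) = G.vvec T := by
  rw [defN_code, Finset.card_eq_zero]
  unfold supp
  rw [Finset.filter_eq_empty_iff]
  constructor
  · intro h
    funext v
    have h1 := h (Finset.mem_univ v)
    rw [not_not, Pi.add_apply] at h1
    exact (add_eq_zero_two _ _).1 h1
  · intro h v _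
    rw [not_not, Pi.add_apply]
    exact (add_eq_zero_two _ _).2 (congrFun h v)

theorem mkT_code (A : ℕ) : G.vvec (mkT (G.code N) A) = G.bd (G.eset A) := by
  funext v
  rw [← G.bdN_code N]
  unfold vvec
  rw [mkT_eq, testBit_sum]
  have h := bdN_lt (G.code N) A v
  have hv : v.val < nn (G.code N) := v.isLt
  by_cases h1 : bdN (G.code N) A v = 1
  · rw [if_pos (decide_eq_true ⟨hv, h1⟩), h1, Nat.cast_one]
  · have h0 : bdN (G.code N) A v = 0 := by omega
    rw [if_neg (fun h2 => h1 (of_decide_eq_true h2).2), h0, Nat.cast_zero]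

theorem mkT_lt (A : ℕ) : mkT (G.code N) A < 2 ^ G.n := by
  rw [mkT_eq]
  exact sum_two_pow_lt _ _

/-- the number of elements of a mask -/
theorem sizeN_code (F : ℕ) : sizeN (G.code N) F = (G.eset F).card := by
  unfold sizeN belowN eset
  rw [Finset.card_filter, show mm (G.code N) = G.m from rfl, Finset.sum_range]

end MGraph

end Pool.Agent.Lib.H2
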